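import Mathlib

set_option autoImplicit false

/-!
# Definitions for the sums of `C(2k,k)² T_{2k}(b,1) / 256^k`
-/

namespace Pool.Agent.H39.TT

open Finset

/-- the coefficient of `M^i` in `T_{2k}(b,1)`, `M = b² - 4` -/
def tau (k i : ℕ) : ℕ := ∑ j ∈ range (k - i + 1), (2 * k).choose (2 * j) * j.centralBinom * ((k - j).choose i * 4 ^ (k - j - i))

/-- ballot numbers -/
def BL (y i : ℕ) : ℤ := ((2 * i + 1).choose (i + y + 1) : ℤ) - ((2 * i + 1).choose (i + y + 2) : ℤ)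

/-- the kernel -/
def KK (y i : ℕ) : ℤ := 8 ^ (i + y) * ((2 * i).choose (i + y) : ℤ)

/-- the multiplier -/
def lam (y i : ℕ) : ℤ := 64 * 8 ^ (i + y) * BL y i

/-- `256^n` times the coefficient of `M^i` in the truncated sum -/
def NN (n i : ℕ) : ℤ := ∑ k ∈ range (n + 1), (k.centralBinom : ℤ) ^ 2 * 256 ^ (n - k) * (tau k i : ℤ)

end Pool.Agent.H39.TT
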