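import Pool.Agent.H39.FFDef

set_option autoImplicit false

/-!
# Telescoping for squares of Legendre polynomials (helper280)
-/

namespace Pool.Agent.H39

open Finset
open Pool.Agent.Q267.Seven (dl dl_succ)
open Pool.Agent.Q267.MW (dl_vanish)
open Pool.Agent.H546 (dl_up dl_rec)

theorem dl_tele_aux (M m : ℕ) : ((M : ℤ) + 2) * dl (M + 2) (m + 1) - ((M : ℤ) + 1) * dl M (m + 1) =
    (4 * (m : ℤ) + 5) * dl (M + 1) (m + 1) - 2 * (2 * (m : ℤ) + 1) * dl (M + 1) m := by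
  have h1 := dl_rec M m
  have h2 := dl_succ (M + 1) m
  have h3 := dl_up M (m + 1)
  push_cast at h2 h3
  have h0 : (M : ℤ) + m + 2 ≠ 0 := by positivity
  apply mul_left_cancel₀ h0
  linear_combination ((M : ℤ) + m + 2) * h1 - 4 * h2 + 2 * ((M : ℤ) + 1) * h3

theorem dl_tele (n m : ℕ) : ((2*n:ℤ)+1) * dl (2*n+1) (m+1) - (2*n:ℤ) * dl (2*n-1) (m+1) =
    (4*(m:ℤ)+5) * dl (2*n) (m+1) - 2*(2*(m:ℤ)+1) * dl (2*n) m := by
  rcases n with _ | n
  · rcases m with _ | m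
    · simp [dl]
    · have h1 : dl (2 * 0 + 1) (m + 1 + 1) = 0 := dl_vanish _ _ (by omega)
      have h2 : dl (2 * 0) (m + 1 + 1) = 0 := dl_vanish _ _ (by omega)
      have h3 : dl (2 * 0) (m + 1) = 0 := dl_vanish _ _ (by omega)
      rw [h1, h2, h3]
      simp
  · have h := dl_tele_aux (2 * n + 1) m
    have e1 : 2 * (n + 1) + 1 = 2 * n + 1 + 2 := by ring
    have e2 : 2 * (n + 1) - 1 = 2 * n + 1 := by omega
    have e3 : 2 * (n + 1) = 2 * n + 1 + 1 := by ring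
    rw [e1, e2, e3]
    push_cast at h ⊢
    linear_combination h

/-- the telescoping sum -/
theorem tele_sum (P K : ℕ) : ∑ j ∈ range (P + 1), (4 : ℤ) ^ (P - j) * (j.centralBinom : ℤ) *
    (((2*j:ℤ)+1) * dl (2*j+1) K - (2*j:ℤ) * dl (2*j-1) K) =
    ((P : ℤ) + 1) * ((2 * P + 1).choose (P + 1) : ℤ) * dl (2 * P + 1) K := by
  induction P with
  | zero => simp
  | succ P ih =>
    rw [sum_range_succ]
    have h1 : ∑ j ∈ range (P + 1), (4 : ℤ) ^ (P + 1 - j) * (j.centralBinom : ℤ) *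
        (((2*j:ℤ)+1) * dl (2*j+1) K - (2*j:ℤ) * dl (2*j-1) K) =
        4 * ∑ j ∈ range (P + 1), (4 : ℤ) ^ (P - j) * (j.centralBinom : ℤ) *
        (((2*j:ℤ)+1) * dl (2*j+1) K - (2*j:ℤ) * dl (2*j-1) K) := by
      rw [mul_sum]
      refine sum_congr rfl fun j hj => ?_
      rw [mem_range] at hj
      rw [show P + 1 - j = P - j + 1 by omega, pow_succ]
      ring
    rw [h1, ih, Nat.sub_self, pow_zero, one_mul]
    have e2 : 2 * (P + 1) - 1 = 2 * P + 1 := by omega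
    rw [e2]
    -- `C(2 (P + 1), P + 1) = 2 C(2 P + 1, P + 1)`
    have h2 : ((P + 1).centralBinom : ℤ) = 2 * ((2 * P + 1).choose (P + 1) : ℤ) := by
      have h3 : (P + 1).centralBinom = 2 * (2 * P + 1).choose (P + 1) := by
        rw [Nat.centralBinom_eq_two_mul_choose, show 2 * (P + 1) = 2 * P + 1 + 1 by ring,
          Nat.choose_succ_succ, Nat.choose_symm_of_eq_add (show 2 * P + 1 = P + (P + 1) by ring),
          two_mul ((2 * P + 1).choose (P + 1))]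
      exact_mod_cast h3
    -- `(P + 2) C(2 P + 3, P + 2) = (2 P + 3) C(2 P + 2, P + 1)`
    have h4 : ((P : ℤ) + 2) * ((2 * (P + 1) + 1).choose (P + 1 + 1) : ℤ) =
        (2 * (P : ℤ) + 3) * ((P + 1).centralBinom : ℤ) := by
      have h5 := Nat.add_one_mul_choose_eq (2 * (P + 1)) (P + 1)
      rw [← Nat.centralBinom_eq_two_mul_choose] at h5
      have h6 := congrArg (Nat.cast : ℕ → ℤ) h5
      push_cast at h6 ⊢
      linear_combination -h6
    push_cast at h2 h4 ⊢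
    linear_combination (-(2 * ((P : ℤ) + 1)) * dl (2 * P + 1) K) * h2 - dl (2 * (P + 1) + 1) K * h4

theorem sz_rec (p m : ℕ) (hp : 0 < p) : ((m:ℤ)+1) * (4*(m:ℤ)+5) * sz p (m+1) -
    4*(2*(m:ℤ)+1)^2 * sz p m =
    ((m:ℤ)+1) * ((m+1).centralBinom : ℤ) * ((p:ℤ) * ((2*p-1).choose p : ℤ) * dl (2*p-1) (m+1)) := by
  obtain ⟨P, rfl⟩ : ∃ P, p = P + 1 := ⟨p - 1, by omega⟩
  have e1 : 2 * (P + 1) - 1 = 2 * P + 1 := by omega
  have h1 : ((m : ℤ) + 1) * ((m + 1).centralBinom : ℤ) = 2 * (2 * (m : ℤ) + 1) * (m.centralBinom : ℤ) := by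
    have h2 := Nat.succ_mul_centralBinom_succ m
    have h3 := congrArg (Nat.cast : ℕ → ℤ) h2
    push_cast at h3
    linear_combination h3
  have h2 := tele_sum P (m + 1)
  rw [e1]
  have h3 : (((P + 1 : ℕ) : ℤ)) * ((2 * P + 1).choose (P + 1) : ℤ) * dl (2 * P + 1) (m + 1) =
      ∑ j ∈ range (P + 1), (4 : ℤ) ^ (P - j) * (j.centralBinom : ℤ) *
        ((4*(m:ℤ)+5) * dl (2*j) (m+1) - 2*(2*(m:ℤ)+1) * dl (2*j) m) := by
    push_cast
    rw [← h2]
    refine sum_congr rfl fun j _ => ?_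
    rw [dl_tele j m]
  rw [h3]
  unfold sz
  rw [mul_sum, mul_sum, mul_sum, ← sum_sub_distrib]
  refine sum_congr rfl fun j _ => ?_
  rw [show P + 1 - 1 - j = P - j by omega]
  linear_combination ((4 : ℤ) ^ (P - j) * (j.centralBinom : ℤ) * (2 * (2 * (m : ℤ) + 1)) * dl (2 * j) m) * h1

theorem sz_zero (p : ℕ) (hp : 0 < p) : sz p 0 = (p:ℤ) * ((2*p-1).choose p : ℤ) := by
  obtain ⟨P, rfl⟩ : ∃ P, p = P + 1 := ⟨p - 1, by omega⟩
  have e1 : 2 * (P + 1) - 1 = 2 * P + 1 := by omega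
  have h0 : ∀ n, dl n 0 = 1 := fun n => by simp [dl]
  have h2 := tele_sum P 0
  simp only [h0] at h2
  rw [e1]
  unfold sz
  simp only [h0]
  rw [mul_one] at h2
  push_cast
  rw [← h2]
  refine sum_congr rfl fun j _ => ?_
  simp

theorem sz_rec_mod (p m : ℕ) (hp : p.Prime) : (p:ℤ)^2 ∣ ((m:ℤ)+1) * (4*(m:ℤ)+5) * sz p (m+1) -
    4*(2*(m:ℤ)+1)^2 * sz p m := by
  rw [sz_rec p m hp.pos]
  obtain ⟨P, rfl⟩ : ∃ P, p = P + 1 := ⟨p - 1, by have := hp.pos; omega⟩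
  have e1 : 2 * (P + 1) - 1 = 2 * P + 1 := by omega
  rw [e1]
  have h1 := Nat.choose_succ_right_eq (2 * P + 1 + (m + 1)) m
  have e2 : 2 * P + 1 + (m + 1) - m = 2 * (P + 1) := by omega
  rw [e2] at h1
  have h2 : ((2 * P + 1 + (m + 1)).choose (m + 1) : ℤ) * ((m : ℤ) + 1) =
      ((2 * P + 1 + (m + 1)).choose m : ℤ) * (2 * ((P : ℤ) + 1)) := by
    have := congrArg (Nat.cast : ℕ → ℤ) h1
    push_cast at this
    exact this
  refine ⟨((m + 1).centralBinom : ℤ) * ((2 * P + 1).choose (P + 1) : ℤ) * ((-1) ^ (m + 1) *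
    ((2 * P + 1).choose (m + 1) : ℤ)) * (2 * ((2 * P + 1 + (m + 1)).choose m : ℤ)), ?_⟩
  unfold dl
  push_cast
  linear_combination (((m + 1).centralBinom : ℤ) * ((P : ℤ) + 1) * ((2 * P + 1).choose (P + 1) : ℤ) *
    ((-1) ^ (m + 1) * ((2 * P + 1).choose (m + 1) : ℤ))) * h2

end Pool.Agent.H39
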