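import Pool.Agent.H39.FFDef

set_option autoImplicit false

/-!
# The high coefficients vanish modulo `p²` (FA2)
-/

namespace Pool.Agent.H39

open Finset
open Pool.Agent.Q267.Seven (dl)

namespace FA2

theorem lucas {p n k : ℕ} (hp : p.Prime) (h : n % p < k % p) : (p : ℤ) ∣ (n.choose k : ℤ) := by
  have := Fact.mk hp
  have h1 := Choose.choose_modEq_choose_mod_mul_choose_div_nat (n := n) (k := k) (p := p)
  rw [Nat.choose_eq_zero_of_lt h, zero_mul] at h1
  exact_mod_cast (Nat.modEq_zero_iff_dvd.1 h1)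

theorem mod_of {p n a r : ℕ} (h : n = p * a + r) (hr : r < p) : n % p = r := by
  rw [h, Nat.mul_add_mod, Nat.mod_eq_of_lt hr]

/-- the first factor -/
theorem cb_low {p D j : ℕ} (hp : p.Prime) (hD : p = 4 * D + 1) (h1 : 2 * D < j) (h2 : j < p) :
    (p : ℤ) ∣ (j.centralBinom : ℤ) := by
  rw [Nat.centralBinom_eq_two_mul_choose]
  apply lucas hp
  rw [mod_of (show 2 * j = p * 1 + (2 * j - p) by omega) (by omega), Nat.mod_eq_of_lt h2]
  omega

theorem cb_high {p D m : ℕ} (hp : p.Prime) (hD : p = 4 * D + 1) (h1 : p + 2 * D < m)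
    (h2 : m < 2 * p) : (p : ℤ) ∣ (m.centralBinom : ℤ) := by
  rw [Nat.centralBinom_eq_two_mul_choose]
  apply lucas hp
  rw [mod_of (show 2 * m = p * 3 + (2 * m - 3 * p) by omega) (by omega),
    mod_of (show m = p * 1 + (m - p) by omega) (by omega)]
  omega

theorem term_zero (p m j : ℕ) (h : 2 * j < m) :
    (4 : ℤ) ^ (p - 1 - j) * (j.centralBinom : ℤ) * ((m.centralBinom : ℤ) * dl (2 * j) m) = 0 := by
  rw [Pool.Agent.Q267.MW.dl_vanish (2 * j) m h, mul_zero, mul_zero]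

/-- the case `m > p + 2 D` -/
theorem case_b {p D : ℕ} (hp : p.Prime) (hD : p = 4 * D + 1) (m : ℕ) (hm : p + 2 * D < m) :
    (p : ℤ) ^ 2 ∣ sz p m := by
  unfold sz
  refine Finset.dvd_sum fun j hj => ?_
  rw [Finset.mem_range] at hj
  by_cases h : 2 * j < m
  · rw [term_zero p m j h]
    exact dvd_zero _
  · obtain ⟨a, ha⟩ := cb_low hp hD (by omega : 2 * D < j) hj
    obtain ⟨b, hb⟩ := cb_high hp hD hm (by omega : m < 2 * p)
    rw [ha, hb]
    exact ⟨(4 : ℤ) ^ (p - 1 - j) * a * (b * dl (2 * j) m), by ring⟩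

/-- the case `m = p + 2 D` -/
theorem case_c {p D : ℕ} (hp : p.Prime) (hD : p = 4 * D + 1) (m : ℕ) (hm : m = p + 2 * D) :
    (p : ℤ) ^ 2 ∣ sz p m := by
  unfold sz
  refine Finset.dvd_sum fun j hj => ?_
  rw [Finset.mem_range] at hj
  by_cases h : 2 * j < m
  · rw [term_zero p m j h]
    exact dvd_zero _
  · obtain ⟨a, ha⟩ := cb_low hp hD (by omega : 2 * D < j) hj
    have h1 : (p : ℤ) ∣ ((2 * j + m).choose m : ℤ) := by
      apply lucas hp
      rw [mod_of (show 2 * j + m = p * 3 + (2 * j + m - 3 * p) by omega) (by omega),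
        mod_of (show m = p * 1 + (m - p) by omega) (by omega)]
      omega
    obtain ⟨b, hb⟩ := h1
    unfold Pool.Agent.Q267.Seven.dl
    rw [ha, hb]
    exact ⟨(4 : ℤ) ^ (p - 1 - j) * a *
      ((m.centralBinom : ℤ) * ((-1) ^ m * ((2 * j).choose m : ℤ) * b)), by ring⟩

theorem cop {p k : ℕ} (hp : p.Prime) (h : ¬ p ∣ k) : IsCoprime ((p : ℤ) ^ 2) (k : ℤ) := by
  have h1 : Nat.Coprime (p ^ 2) k := ((Nat.Prime.coprime_iff_not_dvd hp).2 h).pow_left 2
  have h2 := Nat.isCoprime_iff_coprime.2 h1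
  exact_mod_cast h2

/-- the case `2 D < m < p` -/
theorem case_a {p D : ℕ} (hp : p.Prime) (hD : p = 4 * D + 1)
    (hrec : ∀ m : ℕ, (p : ℤ) ^ 2 ∣ ((m : ℤ) + 1) * (4 * (m : ℤ) + 5) * sz p (m + 1) -
      4 * (2 * (m : ℤ) + 1) ^ 2 * sz p m) (i : ℕ) (hi : 2 * D + 1 + i < p) :
    (p : ℤ) ^ 2 ∣ sz p (2 * D + 1 + i) := by
  have hco : ∀ m : ℕ, 2 * D ≤ m → m + 2 ≤ p →
      IsCoprime ((p : ℤ) ^ 2) (((m : ℤ) + 1) * (4 * (m : ℤ) + 5)) := by
    intro m h1 h2
    have h3 : ¬ p ∣ m + 1 := by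
      intro h
      have := Nat.le_of_dvd (by omega) h
      omega
    have h4 : ¬ p ∣ 4 * m + 5 := by
      rintro ⟨c, hc⟩
      have hc1 : c = 0 ∨ c = 1 ∨ c = 2 ∨ c = 3 ∨ 4 ≤ c := by omega
      rcases hc1 with rfl | rfl | rfl | rfl | hc2
      · omega
      · omega
      · omega
      · omega
      · have := Nat.mul_le_mul_left p hc2
        omega
    have h5 : ¬ p ∣ (m + 1) * (4 * m + 5) := by
      intro h
      rcases (Nat.Prime.dvd_mul hp).1 h with h | h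
      · exact h3 h
      · exact h4 h
    have h6 := cop hp h5
    push_cast at h6
    exact h6
  induction i with
  | zero =>
    have h1 := hrec (2 * D)
    have h2 : (p : ℤ) ^ 2 ∣ 4 * (2 * ((2 * D : ℕ) : ℤ) + 1) ^ 2 * sz p (2 * D) := by
      refine ⟨4 * sz p (2 * D), ?_⟩
      have : (p : ℤ) = 2 * ((2 * D : ℕ) : ℤ) + 1 := by
        rw [hD]
        push_cast
        ring
      rw [this]
      ring
    have h3 := (dvd_sub_left h2).1 h1
    exact (hco (2 * D) le_rfl (by omega)).dvd_of_dvd_mul_left h3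
  | succ i ih =>
    have h0 := ih (by omega)
    have h1 := hrec (2 * D + 1 + i)
    have h2 : (p : ℤ) ^ 2 ∣ 4 * (2 * ((2 * D + 1 + i : ℕ) : ℤ) + 1) ^ 2 * sz p (2 * D + 1 + i) :=
      h0.mul_left _
    have h3 := (dvd_sub_left h2).1 h1
    exact (hco (2 * D + 1 + i) (by omega) (by omega)).dvd_of_dvd_mul_left h3

/-- the case `p ≤ m ≤ p + 2 D` -/
theorem case_d {p D : ℕ} (hp : p.Prime) (hD : p = 4 * D + 1)
    (hrec : ∀ m : ℕ, (p : ℤ) ^ 2 ∣ ((m : ℤ) + 1) * (4 * (m : ℤ) + 5) * sz p (m + 1) -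
      4 * (2 * (m : ℤ) + 1) ^ 2 * sz p m) (i : ℕ) (hi : i ≤ 2 * D) :
    (p : ℤ) ^ 2 ∣ sz p (p + 2 * D - i) := by
  induction i with
  | zero => exact case_c hp hD _ (by omega)
  | succ i ih =>
    have h0 := ih (by omega)
    obtain ⟨m, hm⟩ : ∃ m, m = p + 2 * D - (i + 1) := ⟨_, rfl⟩
    have hm1 : p + 2 * D - i = m + 1 := by omega
    rw [← hm]
    rw [hm1] at h0
    have h1 := hrec m
    have h2 : (p : ℤ) ^ 2 ∣ ((m : ℤ) + 1) * (4 * (m : ℤ) + 5) * sz p (m + 1) := h0.mul_left _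
    have h3 := (dvd_sub_right h2).1 h1
    have h4 : ¬ p ∣ 2 * m + 1 := by
      rintro ⟨c, hc⟩
      have hc1 : c = 0 ∨ c = 1 ∨ c = 2 ∨ 3 ≤ c := by omega
      rcases hc1 with rfl | rfl | rfl | hc2
      · omega
      · omega
      · omega
      · have := Nat.mul_le_mul_left p hc2
        omega
    have h5 : ¬ p ∣ 4 := by
      intro h
      have h6 := Nat.le_of_dvd (by norm_num) h
      have h7 := hp.one_lt
      have : D = 0 ∨ 1 ≤ D := by omega
      rcases this with h8 | h8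
      · omega
      · omega
    have h6 : ¬ p ∣ 4 * (2 * m + 1) ^ 2 := by
      intro h
      rcases (Nat.Prime.dvd_mul hp).1 h with h | h
      · exact h5 h
      · exact h4 (hp.dvd_of_dvd_pow h)
    have h7 := cop hp h6
    push_cast at h7
    exact h7.dvd_of_dvd_mul_left h3

end FA2

theorem sz_high {p D : ℕ} (hp : p.Prime) (hD : p = 4*D+1) (hrec : ∀ m : ℕ, (p:ℤ)^2 ∣ ((m:ℤ)+1) * (4*(m:ℤ)+5) * sz p (m+1) - 4*(2*(m:ℤ)+1)^2 * sz p m) (m : ℕ) (hm : 2*D < m) : (p:ℤ)^2 ∣ sz p m := by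
  rcases lt_or_ge m p with h1 | h1
  · have h := FA2.case_a hp hD hrec (m - (2 * D + 1)) (by omega)
    rwa [show 2 * D + 1 + (m - (2 * D + 1)) = m by omega] at h
  · rcases lt_or_ge (p + 2 * D) m with h2 | h2
    · exact FA2.case_b hp hD m h2
    · have h := FA2.case_d hp hD hrec (p + 2 * D - m) (by omega)
      rwa [show p + 2 * D - (p + 2 * D - m) = m by omega] at h

end Pool.Agent.H39
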