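import Pool.Agent.H39.FFDef
import Pool.Graph.R_pool_sql_team_seeded_3997aac3.Q267.Seven.Inert

set_option autoImplicit false

/-!
# The value at the centre `t = 1/4` modulo `p^2` (Clausen)
-/

namespace Pool.Agent.H39

open Finset
open Pool.Agent.Q267.Seven (dl legendre_sq_ring dl_sq)
open Pool.Agent.Q267.MW (dl_vanish)
open Pool.Agent.H546 (lg lg_rec lg_zero)

lemma lg_half (j : ℕ) :
    (4 : ℚ) ^ j * lg (2 * j) (1 / 2 : ℚ) = (-1) ^ j * (j.centralBinom : ℚ) := by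
  induction j with
  | zero => simp [lg_zero]
  | succ j ih =>
    have h1 := lg_rec (2 * j) (1 / 2 : ℚ)
    have h2 := Nat.succ_mul_centralBinom_succ j
    have h2' : ((j : ℚ) + 1) * ((j + 1).centralBinom : ℚ) =
        2 * (2 * (j : ℚ) + 1) * (j.centralBinom : ℚ) := by exact_mod_cast h2
    have e : 2 * (j + 1) = 2 * j + 2 := by ring
    rw [e]
    push_cast at h1
    have hj : (2 * (j : ℚ) + 2) ≠ 0 := by positivity
    apply mul_left_cancel₀ hj
    rw [pow_succ, pow_succ]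
    linear_combination 4 * 4 ^ j * h1 - 4 * (2 * (j : ℚ) + 1) * ih - 2 * (-1) ^ j * (-1) * h2'

lemma sumsq (j N : ℕ) (hN : 2 * j ≤ N) :
    ∑ k ∈ range (N + 1), (4 : ℤ) ^ (N - k) * ((k.centralBinom : ℤ) * dl (2 * j) k) =
      4 ^ (N - 2 * j) * (j.centralBinom : ℤ) ^ 2 := by
  have h1 := legendre_sq_ring (R := ℚ) (2 * j) (1 / 2)
  have h2 : (∑ k ∈ range (2 * j + 1), (dl (2 * j) k : ℚ) * (1 / 2) ^ k) = lg (2 * j) (1 / 2 : ℚ) :=
    rfl
  rw [h2] at h1
  have h3 := lg_half j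
  have h4 : ∑ k ∈ range (N + 1), (4 : ℚ) ^ (N - k) * ((k.centralBinom : ℚ) * (dl (2 * j) k : ℚ)) =
      4 ^ N * ∑ k ∈ range (2 * j + 1),
        (dl (2 * j) k : ℚ) * (k.centralBinom : ℚ) * (1 / 2 * (1 - 1 / 2)) ^ k := by
    rw [mul_sum]
    symm
    rw [sum_subset (s₂ := range (N + 1)) (fun k hk => by rw [mem_range] at hk ⊢; omega)]
    · refine sum_congr rfl fun k hk => ?_
      rw [mem_range] at hk
      have e1 : (4 : ℚ) ^ N = 4 ^ (N - k) * 4 ^ k := by rw [← pow_add]; congr 1; omega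
      have e2 : (1 / 2 * (1 - 1 / 2) : ℚ) = 1 / 4 := by norm_num
      have e3 : (4 : ℚ) ^ k * (1 / 4) ^ k = 1 := by rw [← mul_pow]; norm_num
      rw [e1, e2]
      linear_combination (4 ^ (N - k) * (dl (2 * j) k : ℚ) * (k.centralBinom : ℚ)) * e3
    · intro k _ hk
      rw [mem_range, not_lt] at hk
      rw [dl_vanish _ _ (by omega)]
      simp
  have h5 : ((∑ k ∈ range (N + 1), (4 : ℤ) ^ (N - k) *
      ((k.centralBinom : ℤ) * dl (2 * j) k) : ℤ) : ℚ) =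
      ((4 ^ (N - 2 * j) * (j.centralBinom : ℤ) ^ 2 : ℤ) : ℚ) := by
    push_cast
    rw [h4, ← h1]
    have e1 : (4 : ℚ) ^ N = 4 ^ (N - 2 * j) * (4 ^ j) ^ 2 := by
      rw [← pow_mul, ← pow_add]; congr 1; omega
    have e2 : ((-1 : ℚ) ^ j) ^ 2 = 1 := by rw [← pow_mul, mul_comm, pow_mul]; norm_num
    rw [e1]
    calc (4 : ℚ) ^ (N - 2 * j) * (4 ^ j) ^ 2 * lg (2 * j) (1 / 2 : ℚ) ^ 2 =
        4 ^ (N - 2 * j) * (4 ^ j * lg (2 * j) (1 / 2 : ℚ)) ^ 2 := by ring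
      _ = 4 ^ (N - 2 * j) * (((-1) ^ j) ^ 2 * (j.centralBinom : ℚ) ^ 2) := by rw [h3]; ring
      _ = _ := by rw [e2, one_mul]
  exact_mod_cast h5

lemma total (p D : ℕ) (hD : p = 4 * D + 1) :
    ∑ m ∈ range (8 * D + 1), sz p m * 4 ^ (8 * D - m) =
      ∑ j ∈ range (4 * D + 1), (64 : ℤ) ^ (4 * D - j) * (j.centralBinom : ℤ) ^ 3 := by
  unfold sz
  simp only [sum_mul]
  rw [sum_comm, hD]
  refine sum_congr rfl fun j hj => ?_
  rw [mem_range] at hj
  have h1 := sumsq j (8 * D) (by omega)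
  have e1 : ∀ m, (4 : ℤ) ^ (4 * D + 1 - 1 - j) * (j.centralBinom : ℤ) *
      ((m.centralBinom : ℤ) * dl (2 * j) m) * 4 ^ (8 * D - m) =
      (4 : ℤ) ^ (4 * D - j) * (j.centralBinom : ℤ) *
        (4 ^ (8 * D - m) * ((m.centralBinom : ℤ) * dl (2 * j) m)) := by
    intro m
    rw [Nat.add_sub_cancel]
    ring
  simp only [e1]
  rw [← mul_sum, h1]
  have e2 : 8 * D - 2 * j = (4 * D - j) * 2 := by omega
  have e3 : (64 : ℤ) ^ (4 * D - j) = 4 ^ (4 * D - j) * (4 ^ (4 * D - j)) ^ 2 := by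
    rw [← pow_mul, ← pow_add, ← mul_one_add, mul_comm (4 * D - j), pow_mul]
    norm_num
  rw [e2, pow_mul, e3]
  ring

theorem sz_centre {p D : ℕ} (hp : p.Prime) (hD : p = 4*D+1)
    (hhigh : ∀ m : ℕ, 2*D < m → (p:ℤ)^2 ∣ sz p m) :
    (p:ℤ)^2 ∣ (∑ m ∈ range (2*D+1), sz p m * 4^(2*D-m)) -
      4^(4*D) * ((2*D).choose D : ℤ)^2 := by
  obtain ⟨S, hS⟩ : ∃ S, S = ∑ m ∈ range (2*D+1), sz p m * 4^(2*D-m) := ⟨_, rfl⟩
  obtain ⟨c, hc⟩ : ∃ c : ℤ, c = ((2 * D).choose D : ℤ) := ⟨_, rfl⟩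
  have hc' : (D.centralBinom : ℤ) = c := by rw [hc, Nat.centralBinom]
  rw [← hS, ← hc]
  -- the first congruence
  have h1 : (p : ℤ) ^ 2 ∣ (∑ m ∈ range (8 * D + 1), sz p m * 4 ^ (8 * D - m)) - 4 ^ (6 * D) * S := by
    rw [← sum_range_add_sum_Ico _ (by omega : 2 * D + 1 ≤ 8 * D + 1)]
    have e1 : ∑ m ∈ range (2 * D + 1), sz p m * 4 ^ (8 * D - m) = 4 ^ (6 * D) * S := by
      rw [hS, mul_sum]
      refine sum_congr rfl fun m hm => ?_
      rw [mem_range] at hm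
      rw [show 8 * D - m = 6 * D + (2 * D - m) by omega, pow_add]
      ring
    rw [e1, add_sub_cancel_left]
    refine dvd_sum fun m hm => ?_
    rw [mem_Ico] at hm
    exact Dvd.dvd.mul_right (hhigh m (by omega)) _
  -- the second congruence
  have h2 : (p : ℤ) ^ 2 ∣ (∑ j ∈ range (4 * D + 1), (64 : ℤ) ^ (4 * D - j) *
      (j.centralBinom : ℤ) ^ 3) - 4 ^ (10 * D) * c ^ 2 := by
    rw [← sum_range_add_sum_Ico _ (by omega : 2 * D + 1 ≤ 4 * D + 1)]
    have e1 : 4 ^ (10 * D) * c ^ 2 = ∑ k ∈ range (2 * D + 1), (64 : ℤ) ^ (4 * D - k) *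
        (16 ^ k * dl (2 * D) k * (k.centralBinom : ℤ)) := by
      have h3 := sumsq D (2 * D) le_rfl
      rw [Nat.sub_self, pow_zero, one_mul, hc'] at h3
      rw [← h3, mul_sum]
      refine sum_congr rfl fun k hk => ?_
      rw [mem_range] at hk
      have e2 : (64 : ℤ) ^ (4 * D - k) * 16 ^ k = 4 ^ (10 * D) * 4 ^ (2 * D - k) := by
        rw [show (64 : ℤ) = 4 ^ 3 by norm_num, show (16 : ℤ) = 4 ^ 2 by norm_num, ← pow_mul,
          ← pow_mul, ← pow_add, ← pow_add]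
        congr 1
        omega
      linear_combination (-(dl (2 * D) k * (k.centralBinom : ℤ))) * e2
    rw [e1, add_sub_right_comm, ← sum_sub_distrib]
    refine dvd_add (dvd_sum fun k hk => ?_) (dvd_sum fun k hk => ?_)
    · rw [mem_range] at hk
      have h3 := dl_sq p (2 * D) hp (by omega) k (by omega)
      have e2 : (64 : ℤ) ^ (4 * D - k) * (k.centralBinom : ℤ) ^ 3 - 64 ^ (4 * D - k) *
          (16 ^ k * dl (2 * D) k * (k.centralBinom : ℤ)) =
          (16 ^ k * dl (2 * D) k - (k.centralBinom : ℤ) ^ 2) *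
            (-(64 ^ (4 * D - k) * (k.centralBinom : ℤ))) := by ring
      rw [e2]
      exact Dvd.dvd.mul_right h3 _
    · rw [mem_Ico] at hk
      have h3 : p ∣ k.centralBinom := by
        have := hp.dvd_choose_add (a := k) (b := k) (by omega) (by omega) (by omega)
        rwa [← two_mul] at this
      have h4 : (p : ℤ) ∣ (k.centralBinom : ℤ) := by exact_mod_cast h3
      refine Dvd.dvd.mul_left ?_ _
      exact (pow_dvd_pow_of_dvd h4 2).trans (pow_dvd_pow _ (by norm_num))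
  rw [← total p D hD] at h2
  have h3 : (p : ℤ) ^ 2 ∣ 4 ^ (6 * D) * (S - 4 ^ (4 * D) * c ^ 2) := by
    have := dvd_sub h2 h1
    have e : (∑ m ∈ range (8 * D + 1), sz p m * 4 ^ (8 * D - m)) - 4 ^ (10 * D) * c ^ 2 -
        ((∑ m ∈ range (8 * D + 1), sz p m * 4 ^ (8 * D - m)) - 4 ^ (6 * D) * S) =
        4 ^ (6 * D) * (S - 4 ^ (4 * D) * c ^ 2) := by
      rw [show 10 * D = 6 * D + 4 * D by ring, pow_add]
      ring
    rwa [e] at this
  have hcop : IsCoprime ((p : ℤ) ^ 2) ((4 : ℤ) ^ (6 * D)) := by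
    apply IsCoprime.pow
    rw [show (4 : ℤ) = 2 * 2 by norm_num]
    have h2p : IsCoprime (p : ℤ) 2 := by
      have : Nat.Coprime p 2 := by
        rw [hp.coprime_iff_not_dvd]
        intro h
        have := Nat.le_of_dvd (by norm_num) h
        have := hp.two_le
        omega
      exact_mod_cast Nat.isCoprime_iff_coprime.2 this
    exact h2p.mul_right h2p
  exact hcop.dvd_of_dvd_mul_left h3

end Pool.Agent.H39
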