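import Pool.Graph.R_pool_sql_team_seeded_3997aac3.Q267.CDE.Gauss4

set_option autoImplicit false

/-!
# Chowla-Dwork-Evans for `C(2D,D)` modulo `p^2`, `p = 4D+1` (task FA4 of helper39)
-/

namespace Pool.Agent.H39

open Finset Pool.Agent.Q267.CDE

theorem cb_value_aux {p D : ℕ} [hp : Fact p.Prime] (hD : p = 4 * D + 1) {x y : ℤ}
    (hxy : (p : ℤ) = x ^ 2 + y ^ 2) (hx : x % 4 = 1) :
    2 * (x : R p) * (((2 * D).choose D : ℕ) : R p) =
      (-1) ^ D * 4 ^ D * (4 * (x : R p) ^ 2 - p) := by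
  have hp2 := hp.out.two_le
  have hD0 : 0 < D := by omega
  obtain ⟨I, hI2, hI, hsum⟩ := gauss4 D hD x y hxy hx
  obtain ⟨g, hg⟩ := exists_lift p ((2 : ZMod p)⁻¹ * (H (ZMod p) (2 * D) - H (ZMod p) D))
  obtain ⟨h, hh⟩ := exists_lift p (2 * (D : ZMod p) * (H (ZMod p) (2 * D) - H (ZMod p) D))
  have h2 : (2 : ZMod p) ≠ 0 := by
    have := cast_ne p 2 (by omega) (by omega)
    exact_mod_cast this
  have hg' : 2 * red p g = H (ZMod p) (2 * D) - H (ZMod p) D := by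
    rw [hg, ← mul_assoc, mul_inv_cancel₀ h2, one_mul]
  have hjac := jac p (Nat.odd_iff.2 (by omega)) D (2 * D) hD0 (by omega) (by omega) h (by
    rw [hh, show 2 * D - D = D by omega]
    push_cast
    ring)
  rw [hsum] at hjac
  have hpow := pow_two_mod p D hD g hg'
  have hp0 : (4 * (D : ZMod p) + 1) = 0 := by
    have := congrArg (Nat.cast : ℕ → ZMod p) hD
    push_cast at this
    rw [← this]
    exact ZMod.natCast_self p
  have hph : (p : R p) * h = p * (-g) := by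
    refine p_mul_eq p h (-g) ?_
    rw [map_neg, hh]
    linear_combination (2 * (D : ZMod p)) * (-hg') + (red p g) * hp0
  have hsgn : ((-1 : R p) ^ D) * (-1) ^ D = 1 := by
    rw [← mul_pow]; norm_num
  have hC : (((2 * D).choose D : ℕ) : R p) * (1 + p * h) = (x : R p) - y * I := by
    linear_combination ((-1 : R p) ^ D) * hjac +
      ((x : R p) - y * I - (((2 * D).choose D : ℕ) : R p) * (1 + p * h)) * hsgn
  have hC2 : (((2 * D).choose D : ℕ) : R p) * (-1) ^ D = 2 ^ (2 * D) * ((x : R p) - y * I) := by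
    rw [← hpow, ← hC, hph]
    ring
  have hxne : (x : ZMod p) ≠ 0 := by
    intro h0
    rw [ZMod.intCast_zmod_eq_zero_iff_dvd] at h0
    have hy2 : (p : ℤ) ∣ y ^ 2 := by
      have h1 : y ^ 2 = p - x ^ 2 := by rw [hxy]; ring
      rw [h1]
      exact dvd_sub dvd_rfl (dvd_pow h0 two_ne_zero)
    have hy : (p : ℤ) ∣ y := (Nat.prime_iff_prime_int.1 hp.out).dvd_of_dvd_pow hy2
    have hpp : (p : ℤ) ^ 2 ∣ p := by
      nth_rewrite 2 [hxy]
      exact dvd_add (pow_dvd_pow_of_dvd h0 2) (pow_dvd_pow_of_dvd hy 2)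
    have := Int.le_of_dvd (by exact_mod_cast hp.out.pos) hpp
    have h3 : (2 : ℤ) ≤ p := by exact_mod_cast hp2
    nlinarith
  have hred : red p ((x : R p) + y * I) = red p 0 := by
    have h3 : ((x : ZMod p)) * red p ((x : R p) + y * I) = 0 := by
      have h4 : ((x : ZMod p)) ^ 2 + (y : ZMod p) ^ 2 = 0 := by
        have := congrArg (Int.cast : ℤ → ZMod p) hxy
        push_cast at this
        rw [← this]
        exact ZMod.natCast_self p
      rw [map_add, map_mul, red_int, red_int]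
      linear_combination h4 + (y : ZMod p) * hI
    rw [map_zero]
    exact (mul_eq_zero.1 h3).resolve_left hxne
  obtain ⟨z, hz⟩ := red_eq_of p _ _ hred
  have hsq : ((x : R p) + y * I) ^ 2 = 0 := by
    rw [hz]
    have := p_sq p
    linear_combination z ^ 2 * this
  have hP : (p : R p) = (x : R p) ^ 2 + (y : R p) ^ 2 := by
    have := congrArg (Int.cast : ℤ → R p) hxy
    push_cast at this
    exact this
  have h44 : (4 : R p) ^ D = 2 ^ (2 * D) := by
    rw [pow_mul]; norm_num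
  rw [h44]
  linear_combination (2 * (x : R p) * (-1) ^ D) * hC2 + ((-1) ^ D * 2 ^ (2 * D)) * hP -
    ((-1) ^ D * 2 ^ (2 * D)) * hsq + ((-1) ^ D * 2 ^ (2 * D) * (y : R p) ^ 2) * hI2 -
    (2 * (x : R p) * (((2 * D).choose D : ℕ) : R p)) * hsgn

theorem cb_value {p D : ℕ} [hp : Fact p.Prime] (hD : p = 4*D+1) {x y : ℤ}
    (hxy : (p:ℤ) = x^2+y^2) (hx : x % 2 = 1) :
    ∃ δ : ℤ, (δ = 1 ∨ δ = -1) ∧ (p:ℤ)^2 ∣ 2*x*((2*D).choose D : ℤ) - δ*4^D*(4*x^2-p) := by
  have key : ∀ (x' : ℤ), (p : ℤ) = x' ^ 2 + y ^ 2 → x' % 4 = 1 →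
      (p : ℤ) ^ 2 ∣ 2 * x' * ((2 * D).choose D : ℤ) - (-1) ^ D * 4 ^ D * (4 * x' ^ 2 - p) := by
    intro x' h1 h2
    have h := cb_value_aux hD h1 h2
    have h3 : (((2 * x' * ((2 * D).choose D : ℤ) - (-1) ^ D * 4 ^ D * (4 * x' ^ 2 - p) : ℤ)) :
        ZMod (p ^ 2)) = 0 := by
      push_cast
      exact sub_eq_zero.2 h
    rw [ZMod.intCast_zmod_eq_zero_iff_dvd] at h3
    exact_mod_cast h3
  have hpm : ((-1 : ℤ) ^ D = 1) ∨ ((-1 : ℤ) ^ D = -1) := neg_one_pow_eq_or ℤ D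
  have hx4 : x % 4 = 1 ∨ (-x) % 4 = 1 := by omega
  rcases hx4 with h | h
  · exact ⟨(-1) ^ D, hpm, key x hxy h⟩
  · refine ⟨-(-1) ^ D, ?_, ?_⟩
    · rcases hpm with h' | h'
      · right; rw [h']
      · left; rw [h']; norm_num
    · have h5 := key (-x) (by rw [hxy]; ring) h
      have h6 : 2 * x * ((2 * D).choose D : ℤ) - -(-1) ^ D * 4 ^ D * (4 * x ^ 2 - p) =
          -(2 * (-x) * ((2 * D).choose D : ℤ) - (-1) ^ D * 4 ^ D * (4 * (-x) ^ 2 - p)) := by ring
      rw [h6]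
      exact (dvd_neg).2 h5

end Pool.Agent.H39
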