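import Pool.Agent.H39.Xid

set_option autoImplicit false

/-!
# The truncated sum in characteristic `p = 3 mod 4` (for helper39, by helper809)
-/

namespace Pool.Agent.H39

open Polynomial Finset

section three

variable {k : Type*} [Field k] {p D : ℕ} [CharP k p]

/-- an even solution of degree `< p` whose coefficient at `(p+1)/2` vanishes is zero -/
theorem ker_three (hD : p = 4 * D + 3) {g : k[X]} (hg : LL g = 0) (h0 : g.coeff (2 * D + 2) = 0)
    (hodd : ∀ j, j % 2 = 1 → g.coeff j = 0) (htop : ∀ j, p ≤ j → g.coeff j = 0) : g = 0 := by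
  have nz : ∀ m : ℕ, ¬ p ∣ m → (m : k) ≠ 0 := fun m h h0 => h ((CharP.cast_eq_zero_iff k p m).mp h0)
  have hrec : ∀ j : ℕ, ((j : k) + 2) * (2 * (j : k) + 3) * g.coeff (j + 2) = ((j : k) + 1) * (2 * (j : k) + 1) * g.coeff j := by
    intro j
    have := LL_coeff g j
    rw [hg, coeff_zero] at this
    linear_combination -this
  have up : ∀ j, ¬ p ∣ j + 2 → ¬ p ∣ 2 * j + 3 → g.coeff j = 0 → g.coeff (j + 2) = 0 := by
    intro j h1 h2 h3
    have h := hrec j
    rw [h3, mul_zero] at h
    have n1 := nz _ h1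
    have n2 := nz _ h2
    push_cast at n1 n2
    exact (mul_eq_zero.mp h).resolve_left (mul_ne_zero n1 n2)
  have dn : ∀ j, ¬ p ∣ j + 1 → ¬ p ∣ 2 * j + 1 → ((j : k) + 2) * (2 * (j : k) + 3) * g.coeff (j + 2) = 0 →
      g.coeff j = 0 := by
    intro j h1 h2 h3
    have h := hrec j
    rw [h3] at h
    have n1 := nz _ h1
    have n2 := nz _ h2
    push_cast at n1 n2
    exact (mul_eq_zero.mp h.symm).resolve_left (mul_ne_zero n1 n2)
  have small : ∀ m : ℕ, 0 < m → m < p → ¬ p ∣ m := fun m h1 h2 h3 => absurd (Nat.le_of_dvd h1 h3) (by omega)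
  have mid : ∀ m : ℕ, p < m → m < 2 * p → ¬ p ∣ m := by
    rintro m h1 h2 ⟨c, rfl⟩
    have : c = 0 ∨ c = 1 ∨ 2 ≤ c := by omega
    rcases this with rfl | rfl | h
    · omega
    · omega
    · have : p * 2 ≤ p * c := Nat.mul_le_mul_left p h
      omega
  -- even, below
  have e1 : ∀ i, i ≤ D → g.coeff (2 * D - 2 * i) = 0 := by
    intro i
    induction i with
    | zero =>
      intro _
      refine dn _ (small _ (by omega) (by omega)) (small _ (by omega) (by omega)) ?_
      have : (2 * ((2 * D - 2 * 0 : ℕ) : k) + 3) = 0 := by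
        have h := CharP.cast_eq_zero k p
        rw [hD] at h
        have e : 2 * D - 2 * 0 = 2 * D := by omega
        rw [e]
        push_cast at h ⊢
        linear_combination h
      rw [this]; ring
    | succ i ih =>
      intro h
      refine dn _ (small _ (by omega) (by omega)) (small _ (by omega) (by omega)) ?_
      rw [show 2 * D - 2 * (i + 1) + 2 = 2 * D - 2 * i by omega, ih (by omega), mul_zero]
  have e2 : ∀ i, g.coeff (2 * D + 2 + 2 * i) = 0 := by
    intro i
    induction i with
    | zero => exact h0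
    | succ i ih =>
      by_cases h : p ≤ 2 * D + 2 + 2 * (i + 1)
      · exact htop _ h
      · rw [show 2 * D + 2 + 2 * (i + 1) = 2 * D + 2 + 2 * i + 2 by ring]
        exact up _ (small _ (by omega) (by omega)) (mid _ (by omega) (by omega)) ih
  ext j
  rw [coeff_zero]
  rcases Nat.even_or_odd' j with ⟨i, rfl | rfl⟩
  · by_cases h1 : i ≤ D
    · have := e1 (D - i) (by omega)
      rwa [show 2 * D - 2 * (D - i) = 2 * i by omega] at this
    · have := e2 (i - (D + 1))
      rwa [show 2 * D + 2 + 2 * (i - (D + 1)) = 2 * i by omega] at this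
  · exact hodd _ (by omega)

end three

theorem Sp_three {k : Type*} [Field k] {p D : ℕ} [hp : Fact p.Prime] [CharP k p] (hD : p = 4 * D + 3) {v : k} (hv : 2 * v = 1) {s : ℕ → k} (hs0 : s 0 = 1) (hs : ∀ n, n + 1 < p → 8 * ((n : k) + 1) ^ 2 * s (n + 1) = (4 * (n : k) + 1) * (2 * (n : k) + 1) * s n) : Sp s p = Pn v (3 * D + 2) := by
  have nz : ∀ m : ℕ, ¬ p ∣ m → (m : k) ≠ 0 := fun m h h0 => h ((CharP.cast_eq_zero_iff k p m).mp h0)
  have small : ∀ m : ℕ, 0 < m → m < p → ¬ p ∣ m := fun m h1 h2 h3 => absurd (Nat.le_of_dvd h1 h3) (by omega)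
  have h2 : (2 : k) ≠ 0 := by
    intro h; rw [h, zero_mul] at hv; exact zero_ne_one hv
  have hpz : (4 : k) * D + 3 = 0 := by
    have h := CharP.cast_eq_zero k p
    rw [hD] at h
    push_cast at h
    exact h
  -- s vanishes
  have hs1 : ∀ i, 2 * D + 2 + i < p → s (2 * D + 2 + i) = 0 := by
    intro i
    induction i with
    | zero =>
      intro h
      have h1 := hs (2 * D + 1) (by omega)
      have h3 : (2 * ((2 * D + 1 : ℕ) : k) + 1) = 0 := by push_cast; linear_combination hpz
      rw [h3, mul_zero, zero_mul] at h1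
      have h4 : (((2 * D + 1 : ℕ) : k) + 1) ≠ 0 := by
        have := nz (2 * D + 2) (small _ (by omega) (by omega))
        intro h0; apply this; push_cast at h0 ⊢; linear_combination h0
      have h8 : (8 : k) ≠ 0 := by
        have : (8 : k) = 2 ^ 3 := by norm_num
        rw [this]; exact pow_ne_zero _ h2
      exact (mul_eq_zero.mp h1).resolve_left (mul_ne_zero h8 (pow_ne_zero _ h4))
    | succ i ih =>
      intro h
      have h1 := hs (2 * D + 2 + i) (by omega)
      rw [ih (by omega), mul_zero] at h1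
      have h4 : (((2 * D + 2 + i : ℕ) : k) + 1) ≠ 0 := by
        have := nz (2 * D + 2 + i + 1) (small _ (by omega) (by omega))
        intro h0; apply this; push_cast at h0 ⊢; linear_combination h0
      have h8 : (8 : k) ≠ 0 := by
        have : (8 : k) = 2 ^ 3 := by norm_num
        rw [this]; exact pow_ne_zero _ h2
      exact (mul_eq_zero.mp h1).resolve_left (mul_ne_zero h8 (pow_ne_zero _ h4))
  have ha1 : ∀ i, 2 * D + 2 + i < p → aa v (2 * D + 2 + i) = 0 := by
    intro i
    induction i with
    | zero =>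
      intro h
      have h1 := aa_rec hv (2 * D + 1)
      have h3 : (2 * ((2 * D + 1 : ℕ) : k) + 1) = 0 := by push_cast; linear_combination hpz
      rw [h3, zero_mul] at h1
      have h4 : (((2 * D + 1 : ℕ) : k) + 1) ≠ 0 := by
        have := nz (2 * D + 2) (small _ (by omega) (by omega))
        intro h0; apply this; push_cast at h0 ⊢; linear_combination h0
      exact (mul_eq_zero.mp h1).resolve_left (mul_ne_zero h2 h4)
    | succ i ih =>
      intro h
      have h1 := aa_rec hv (2 * D + 2 + i)
      rw [ih (by omega), mul_zero] at h1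
      have h4 : (((2 * D + 2 + i : ℕ) : k) + 1) ≠ 0 := by
        have := nz (2 * D + 2 + i + 1) (small _ (by omega) (by omega))
        intro h0; apply this; push_cast at h0 ⊢; linear_combination h0
      exact (mul_eq_zero.mp h1).resolve_left (mul_ne_zero h2 h4)
  have hLS : LL (Sp s p) = 0 := by
    have h := LL_S hs (p - 1) (by omega)
    have e : p - 1 + 1 = p := by omega
    rw [e] at h
    have h5 := hs1 (2 * D) (by omega)
    rw [show 2 * D + 2 + 2 * D = p - 1 by omega] at h5
    unfold Sp
    rw [h, h5, C_0]; ring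
  have hLA : LL (Pn v (3 * D + 2)) = 0 := by
    rw [LL_A hv]
    have : (4 * ((3 * D + 2 : ℕ) : k[X]) + 1) = 0 := by
      have h : C ((4 : k) * D + 3) = 0 := by rw [hpz, C_0]
      simp only [map_add, map_mul, map_ofNat, map_natCast] at h
      push_cast
      linear_combination 3 * h
    rw [this, zero_mul]
  -- tops
  have hSt : ∀ j, p ≤ j → (Sp s p).coeff j = 0 := by
    have e : Sp s p = Sp s (2 * D + 1 + 1) := by
      unfold Sp
      rw [show p = (2 * D + 1 + 1) + (2 * D + 1) by omega, sum_range_add]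
      have : ∑ i ∈ range (2 * D + 1), C (s (2 * D + 1 + 1 + i)) * (1 - X ^ 2) ^ (2 * D + 1 + 1 + i) = (0 : k[X]) := by
        refine sum_eq_zero fun i hi => ?_
        rw [mem_range] at hi
        rw [show 2 * D + 1 + 1 + i = 2 * D + 2 + i by ring, hs1 i (by omega), C_0, zero_mul]
      rw [this, add_zero]
    intro j hj
    rw [e]
    exact coeff_eq_zero_of_natDegree_lt (lt_of_le_of_lt (Sp_natDegree s (2 * D + 1)) (by omega))
  have hAt : ∀ j, p ≤ j → (Pn v (3 * D + 2)).coeff j = 0 := by
    intro j hj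
    unfold Pn
    rw [finsetSum_coeff]
    refine sum_eq_zero fun i hi => ?_
    rw [mem_range] at hi
    rw [coeff_C_mul, coeff_X_pow]
    by_cases h : j = 2 * i
    · have := ha1 (i - (2 * D + 2)) (by omega)
      rw [show 2 * D + 2 + (i - (2 * D + 2)) = i by omega] at this
      rw [this]; ring
    · rw [if_neg h, mul_zero]
  have hA1 : (Pn v (3 * D + 2)).eval 1 = 1 := Pn_eval_sq hv _ (one_pow 2)
  have hS1 : (Sp s p).eval 1 = 1 := by
    have h := Sp_eval_sq s (p - 1) (x := (1 : k)) (one_pow 2)
    rw [show p - 1 + 1 = p by omega] at h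
    rw [h, hs0]
  have hAj : (Pn v (3 * D + 2)).coeff (2 * D + 2) ≠ 0 := by
    intro h
    have := ker_three hD hLA h (fun j hj => Pn_coeff_odd v _ j hj) hAt
    rw [this, eval_zero] at hA1
    exact zero_ne_one hA1
  set c := (Sp s p).coeff (2 * D + 2) / (Pn v (3 * D + 2)).coeff (2 * D + 2) with hc
  have hg : Sp s p - C c * Pn v (3 * D + 2) = 0 := by
    refine ker_three hD ?_ ?_ ?_ ?_
    · rw [LL_sub, LL_C_mul, hLS, hLA]; ring
    · rw [coeff_sub, coeff_C_mul, hc, div_mul_cancel₀ _ hAj, sub_self]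
    · intro j hj
      rw [coeff_sub, coeff_C_mul, Sp_coeff_odd s p j hj, Pn_coeff_odd v _ j hj]; ring
    · intro j hj
      rw [coeff_sub, coeff_C_mul, hSt j hj, hAt j hj]; ring
  have hc1 : c = 1 := by
    have h := congrArg (Polynomial.eval 1) hg
    rw [eval_sub, eval_mul, eval_C, hA1, hS1, eval_zero] at h
    linear_combination -h
  rw [hc1, C_1, one_mul, sub_eq_zero] at hg
  exact hg

end Pool.Agent.H39
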