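import Pool.Agent.H39.Leg2
import Pool.Agent.H39.I100
import Pool.Agent.H546.K2e
import Pool.Agent.H546.QTy
import Pool.Agent.H546.UtilG

set_option autoImplicit false

/-!
# The case `p = 3` modulo `4`
-/

namespace Pool.Agent.H39

open Polynomial Finset
open Pool.Agent.H546

variable {O K k : Type*} [CommRing O] [IsDomain O] [Field K] [Algebra O K] [Field k]
  (S : DV O K k) {p D : ℕ} [hp : Fact p.Prime] [CharP k p]

theorem three_red (hD : p = 4 * D + 3) (hp7 : 5 < p) (hq : S.q = (p : O)) {σ ρ v r u j : O}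
    (hσ : σ ^ 2 = 5) (hρ : ρ ^ 2 = -2) (hv : 2 * v = 1) (hr : 20 * r = 9 * σ) (hu : 720 * u = 360 - 161 * σ)
    (hj : j ^ 2 = -1) {s : ℕ → O} 
    (hP : Sp (fun n => S.red (s n)) p = Pn (S.red v) (3 * D + 2)) :
    S.red ((Sp s p).eval r) = 0 := by
  have hp2 : p ≠ 2 := by omega
  have hchO := charZero_O S (p := p) hq
  have r2 := S.two_ne (p := p) (by omega)
  have r3 := S.three_ne (p := p) (by omega)
  have h2k : (2 : k) ≠ 0 := by rwa [map_ofNat] at r2
  have h3k : (3 : k) ≠ 0 := by rwa [map_ofNat] at r3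
  have h5k : (5 : k) ≠ 0 := by
    have := small_ne (k := k) (p := p) (n := 5) (by norm_num) (by omega)
    exact_mod_cast this
  have hM : (((-6635520 : ℤ)) : O) * (u * (1 - u)) = 64 := by
    have h : (720 ^ 2 : O) ≠ 0 := by norm_num
    apply mul_left_cancel₀ h
    push_cast
    linear_combination (-6635520) * (720 * (1 - u) - (360 - 161 * σ)) * hu + 6635520 * 161 ^ 2 * hσ
  have hru : 4 * r * u = -(1 - r) ^ 2 := by
    have h : (14400 : O) ≠ 0 := by norm_num
    apply mul_left_cancel₀ h
    linear_combination (4 * 20 * r) * hu + (4 * (360 - 161 * σ) - 1440 + 36 * (20 * r + 9 * σ)) * hr +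
      (-36 * 161 + 36 * 81) * hσ
  obtain ⟨hz, hz1⟩ := z_units S (p := p) hp2 hM
  have d := I100.psi S (p := p) hp2 (by omega) (by omega) hσ hj hu (m := -((1 + 5 * j) * ρ * v))
    (by linear_combination ((1 + 5 * j) ^ 2 * v ^ 2) * hρ - (50 * v ^ 2) * hj + ((12 - 5 * j) * (2 * v + 1)) * hv)
  have dd := Dat.mu S (z := 1 - u) d h2k h3k hz1 hρ
  have hμρ : -((1 + 5 * j) * ρ * v) * ρ = 1 + 5 * j := by
    linear_combination (-(1 + 5 * j) * v) * hρ + (1 + 5 * j) * hv
  rw [hμρ, sub_sub_cancel] at dd
  -- Frobenius on `j`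
  have hjp : S.red j ^ p = -S.red j := by
    have h := S.frob_sq (p := p) hp2 (d := -1) (y := j) (by rw [hj]; norm_num)
    have h1 : legendreSym p (-1) = -1 := by
      rw [legendreSym.at_neg_one hp2, ZMod.χ₄_nat_three_mod_four (by omega)]
    rw [h1] at h
    rw [h]; push_cast; ring
  have hj0 : S.red j ≠ 0 := by
    intro h0
    have := congrArg S.red hj
    rw [map_pow, h0, map_neg, map_one] at this
    simp at this
  have hlg : lg (p / 4) (S.red u) = 0 := by
    by_cases hm : S.red (1 + 5 * j) = 0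
    · -- impossible: then `5 j = -1` and the Frobenius gives `-5 j = -1`
      exfalso
      rw [map_add, map_one, map_mul, map_ofNat] at hm
      have h1 : (5 : k) * S.red j = -1 := by linear_combination hm
      have h2 := congrArg (fun x => x ^ p) h1
      have f5 : (5 : k) ^ p = 5 := by
        have h := frobenius_def (R := k) p 5
        rw [← h, map_ofNat]
      simp only [mul_pow] at h2
      rw [f5, hjp, (hp.out.odd_of_ne_two hp2).neg_pow, one_pow] at h2
      have h3 : (2 : k) * 1 = 0 := by linear_combination h1 + h2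
      rw [mul_one] at h3
      exact h2k h3
    · have h := ssq S (by omega) hm dd
      have hne : S.red (1 + 5 * j) ^ p - S.red (1 + 5 * j) ≠ 0 := by
        rw [map_add, map_one, map_mul, map_ofNat, add_pow_char, one_pow, mul_pow, hjp]
        have f5 : (5 : k) ^ p = 5 := by
          have h := frobenius_def (R := k) p 5
          rw [← h, map_ofNat]
        rw [f5]
        have : 1 + 5 * -S.red j - (1 + 5 * S.red j) = -(2 * 5 * S.red j) := by ring
        rw [this]
        exact neg_ne_zero.mpr (mul_ne_zero (mul_ne_zero h2k h5k) hj0)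
      have h1 : (S.red (1 + 5 * j) ^ p - S.red (1 + 5 * j)) * lg (p / 4) (S.red u) = 0 := by linear_combination -h
      exact (mul_eq_zero.mp h1).resolve_left hne
  have h34 := lg_34 (k := k) (p := p) hp2 (S.red u)
  have e34 : 3 * p / 4 = 3 * D + 2 := by omega
  have e1 : S.red ((Sp s p).eval r) = ((Pn v (3 * D + 2)).map S.red).eval (S.red r) := by
    rw [Pn_map, ← hP, ← Sp_map, Polynomial.eval_map_apply]
  rw [e1, Polynomial.eval_map_apply, ← Pn_lg hv hru, map_mul, lg_cast, ← e34, h34, hlg, mul_zero]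

end Pool.Agent.H39
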