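import Pool.Agent.H39.QC3
import Pool.Agent.H39.Three
import Pool.Agent.H39.P3
import Pool.Agent.H546.Lin2
import Pool.Agent.H546.WO

set_option autoImplicit false

/-!
# Transfer to the rational numbers
-/

namespace Pool.Agent.H39

open Finset
open Pool.Agent.H546

/-- the coefficients of the sum over the ring -/
def sc {A : Type*} [CommRing A] (a b : A) (iv : ℕ → A) (n : ℕ) : A := pch a n * pch b n * Jf iv n ^ 2

theorem sc_zero {A : Type*} [CommRing A] (a b : A) (iv : ℕ → A) : sc a b iv 0 = 1 := by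
  simp [sc, pch_zero, Jf_zero]

theorem sc_rec {A : Type*} [CommRing A] {a b : A} (ha : 4 * a = 1) (hb : 2 * b = 1) {iv : ℕ → A} {p : ℕ}
    (hiv : ∀ n, n + 1 < p → ((n : A) + 1) * iv (n + 1) = 1) (n : ℕ) (hn : n + 1 < p) :
    8 * ((n : A) + 1) ^ 2 * sc a b iv (n + 1) = (4 * (n : A) + 1) * (2 * (n : A) + 1) * sc a b iv n := by
  have h := hiv n hn
  unfold sc
  rw [pch_succ, pch_succ, Jf_succ]
  have h2 : ((n : A) + 1) ^ 2 * iv (n + 1) ^ 2 = 1 := by rw [← mul_pow, h, one_pow]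
  have h3 : 8 * (a + n) * (b + n) = (4 * (n : A) + 1) * (2 * (n : A) + 1) := by
    linear_combination (2 * b + 2 * n) * ha + (1 + 4 * n) * hb
  calc 8 * ((n : A) + 1) ^ 2 * (pch a n * (a + n) * (pch b n * (b + n)) * (Jf iv n * iv (n + 1)) ^ 2)
      = (8 * (a + n) * (b + n)) * (pch a n * pch b n * Jf iv n ^ 2) * (((n : A) + 1) ^ 2 * iv (n + 1) ^ 2) := by ring
    _ = _ := by rw [h2, h3]; ring

theorem Sp_hyp {A : Type*} [CommRing A] (a b : A) (iv : ℕ → A) (p : ℕ) (r : A) :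
    (Sp (sc a b iv) p).eval r = hyp iv p a b (1 - r ^ 2) := by
  unfold Sp hyp sc
  rw [Polynomial.eval_finsetSum]
  refine sum_congr rfl fun n _ => ?_
  simp

/-- the numbers over the Witt vectors -/
theorem wo_pts (p : ℕ) [hp : Fact p.Prime] (h5 : 5 < p) :
    ∃ (σ ρ v r u j a : WO p) (iv : ℕ → WO p), σ ^ 2 = 5 ∧ ρ ^ 2 = -2 ∧ 2 * v = 1 ∧ 20 * r = 9 * σ ∧ 720 * u = 360 - 161 * σ ∧
      j ^ 2 = -1 ∧ 4 * a = 1 ∧ 80 * r ^ 2 = 81 ∧ (∀ n, n + 1 < p → ((n : WO p) + 1) * iv (n + 1) = 1) := by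
  have hp2 : p ≠ 2 := by omega
  have nd : ∀ l : List (ℕ × ℕ), (∀ q ∈ l, q.1.Prime ∧ q.1 ≤ 5) → ∀ n : ℤ,
      (((l.map fun q : ℕ × ℕ => q.1 ^ q.2).prod : ℕ) : ℤ).natAbs = n.natAbs → ¬ (p : ℤ) ∣ n := by
    intro l hl n hn h
    have h1 : (p : ℤ) ∣ (((l.map fun q : ℕ × ℕ => q.1 ^ q.2).prod : ℕ) : ℤ) := by
      rw [← Int.natAbs_dvd_natAbs] at h ⊢
      rw [hn]; exact h
    have h2 : p ∣ (l.map fun q : ℕ × ℕ => q.1 ^ q.2).prod := by exact_mod_cast h1
    obtain ⟨a, ha, hpa⟩ := (Nat.Prime.prime hp.out).dvd_prod_iff.mp h2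
    rw [List.mem_map] at ha
    obtain ⟨q, hq, rfl⟩ := ha
    have h3 := hp.out.dvd_of_dvd_pow hpa
    obtain ⟨h4, h5⟩ := hl q hq
    have h6 := (Nat.prime_dvd_prime_iff_eq hp.out h4).mp h3
    omega
  obtain ⟨σ, hσ⟩ := wo_isqrt p hp2 (d := 5) (nd [(5, 1)] (by simp; norm_num) _ (by norm_num))
  obtain ⟨ρ, hρ⟩ := wo_isqrt p hp2 (d := -2) (nd [(2, 1)] (by simp; norm_num) _ (by norm_num))
  obtain ⟨j, hj⟩ := wo_isqrt p hp2 (d := -1) (nd [] (by simp) _ (by norm_num))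
  obtain ⟨v, hv⟩ := ((SW p).unit_of_red ((SW p).two_ne hp2)).exists_right_inv
  have r20 : (SW p).red 20 ≠ 0 := by
    have := (SW p).int_ne (p := p) (n := 20) (nd [(2, 2), (5, 1)] (by simp; norm_num) _ (by norm_num))
    exact_mod_cast this
  have r720 : (SW p).red 720 ≠ 0 := by
    have := (SW p).int_ne (p := p) (n := 720) (nd [(2, 4), (3, 2), (5, 1)] (by simp; norm_num) _ (by norm_num))
    exact_mod_cast this
  obtain ⟨i20, h20⟩ := ((SW p).unit_of_red r20).exists_right_inv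
  obtain ⟨i720, h720⟩ := ((SW p).unit_of_red r720).exists_right_inv
  obtain ⟨iv, hiv⟩ := iv_exists (SW p) (p := p)
  have := charZero_O (SW p) (p := p) rfl
  have hσ' : σ ^ 2 = 5 := by rw [hσ]; norm_num
  have hr : 20 * (9 * σ * i20) = 9 * σ := by linear_combination 9 * σ * h20
  refine ⟨σ, ρ, v, 9 * σ * i20, (360 - 161 * σ) * i720, j, v * v, iv, hσ', by rw [hρ]; norm_num, hv, hr,
    by linear_combination (360 - 161 * σ) * h720, by rw [hj]; norm_num, by linear_combination (2 * v + 1) * hv, ?_, hiv⟩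
  have h5 : (5 : WO p) ≠ 0 := by norm_num
  apply mul_left_cancel₀ h5
  linear_combination (20 * (9 * σ * i20) + 9 * σ) * hr + 81 * hσ'

/-- the rational sum -/
def S0 (p : ℕ) : ℚ := ∑ n ∈ range p, gb (-(1 / 4)) n * gb (-(1 / 2)) n * (-1 / 80) ^ n

theorem S0_K (p : ℕ) [hp : Fact p.Prime] [CharZero (KO p)] {r a v : WO p} {iv : ℕ → WO p} (h : 80 * r ^ 2 = 81)
    (ha : 4 * a = 1) (hv : 2 * v = 1) (hiv : ∀ n, n + 1 < p → ((n : WO p) + 1) * iv (n + 1) = 1) :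
    ((S0 p : ℚ) : KO p) = algebraMap (WO p) (KO p) ((Sp (sc a v iv) p).eval r) := by
  rw [Sp_hyp]
  have h80 : (80 : KO p) ≠ 0 := by norm_num
  have h4 : (4 : KO p) ≠ 0 := by norm_num
  have h2 : (2 : KO p) ≠ 0 := by norm_num
  refine sum_K (K := KO p) (p := p) hiv (a := 1 / 4) (b := 1 / 2) (a' := a) (b' := v) ?_ ?_ ?_
  · have := congrArg (algebraMap (WO p) (KO p)) ha
    rw [map_mul, map_ofNat, map_one] at this
    push_cast
    rw [div_eq_iff h4]; linear_combination -this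
  · have := congrArg (algebraMap (WO p) (KO p)) hv
    rw [map_mul, map_ofNat, map_one] at this
    push_cast
    rw [div_eq_iff h2]; linear_combination -this
  · have := congrArg (algebraMap (WO p) (KO p)) h
    rw [map_mul, map_pow, map_ofNat, map_ofNat] at this
    rw [map_sub, map_one, map_pow]
    push_cast
    rw [div_eq_iff h80]; linear_combination this

/-- the primes `1` modulo `4` -/
theorem fin_one (p : ℕ) [hp : Fact p.Prime] (h4 : p % 4 = 1) (h20 : 20 < p) {x y : ℤ} (hxy : (p : ℤ) = x ^ 2 + y ^ 2)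
    (hx : x % 2 = 1) :
    ((p % 5 = 1 ∨ p % 5 = 4) → ∃ η : ℤ, (η = 1 ∨ η = -1) ∧
      p.Coprime ((S0 p - (2 * ((η * x : ℤ) : ℚ) - p / (2 * ((η * x : ℤ) : ℚ)))) / (p : ℚ) ^ 2).den) ∧
    ((p % 5 = 2 ∨ p % 5 = 3) → ∃ η : ℤ, (η = 1 ∨ η = -1) ∧
      p.Coprime ((S0 p - (2 * ((η * y : ℤ) : ℚ) - p / (2 * ((η * y : ℤ) : ℚ)))) / (p : ℚ) ^ 2).den) := by
  obtain ⟨σ, ρ, v, r, u, j, a, iv, hσ, hρ, hv, hr, hu, hj, ha, hr2, hiv⟩ := wo_pts p (by omega)
  have hK := charZero_K (SW p) (p := p) rfl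
  have hD : p = 4 * (p / 4) + 1 := by omega
  let P : Pt100 (SW p) p (p / 4) := ⟨σ, ρ, v, r, u, sc a v iv, hD, h20, rfl, hσ, hρ, hv, hr, hu, sc_zero _ _ _,
    fun n hn => sc_rec ha hv hiv n hn⟩
  have hQ : Q5 p (p / 4) := q5_all hD (by omega)
  have hS := S0_K p hr2 ha hv hiv
  have hp2 : ¬ (p : ℤ) ∣ 2 := P.n2
  have nd : ∀ z : ℤ, ¬ (p : ℤ) ∣ z → ¬ (p : ℤ) ∣ 2 * z := by
    intro z hz h
    rcases Int.Prime.dvd_mul' hp.out h with h1 | h1
    · exact hp2 h1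
    · exact hz h1
  refine ⟨fun h5 => ?_, fun h5 => ?_⟩
  · obtain ⟨η, hη, hd⟩ := P.main_one hQ hj hxy hx h5
    refine ⟨η, hη, ?_⟩
    have hx0 : ¬ (p : ℤ) ∣ x := P.ne_of (X := y) (Y := x) (by rw [hxy]; ring)
    refine fin_int (SW p) rfl hS (X := 2 * x) (E0 := η * (4 * x ^ 2 - p)) (nd x hx0) hd ?_
    have hxq : (x : ℚ) ≠ 0 := by
      intro h0
      have : x = 0 := by exact_mod_cast h0
      rw [this] at hx0
      exact hx0 (dvd_zero _)
    rcases hη with rfl | rfl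
    · push_cast; field_simp; ring
    · push_cast; field_simp; ring
  · obtain ⟨η, hη, hd⟩ := P.main_two hQ hj hxy hx h5
    refine ⟨η, hη, ?_⟩
    have hx0 : ¬ (p : ℤ) ∣ y := P.ne_of (X := x) (Y := y) hxy
    refine fin_int (SW p) rfl hS (X := 2 * y) (E0 := η * (4 * y ^ 2 - p)) (nd y hx0) hd ?_
    have hxq : (y : ℚ) ≠ 0 := by
      intro h0
      have : y = 0 := by exact_mod_cast h0
      rw [this] at hx0
      exact hx0 (dvd_zero _)
    rcases hη with rfl | rfl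
    · push_cast; field_simp; ring
    · push_cast; field_simp; ring

/-- the primes `3` modulo `4` -/
theorem fin_three (p : ℕ) [hp : Fact p.Prime] (h4 : p % 4 = 3) (h5 : 5 < p) : p.Coprime (S0 p / (p : ℚ)).den := by
  obtain ⟨σ, ρ, v, r, u, j, a, iv, hσ, hρ, hv, hr, hu, hj, ha, hr2, hiv⟩ := wo_pts p (by omega)
  have hK := charZero_K (SW p) (p := p) rfl
  have hD : p = 4 * (p / 4) + 3 := by omega
  have hS := S0_K p hr2 ha hv hiv
  refine fin_zero (SW p) rfl hS ?_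
  refine three_red (SW p) hD h5 rfl hσ hρ hv hr hu hj ?_
  refine Sp_three hD ?_ ?_ ?_
  · rw [← map_ofNat (SW p).red 2, ← map_mul, hv, map_one]
  · rw [sc_zero, map_one]
  · intro n hn
    have := congrArg (SW p).red (sc_rec ha hv hiv n hn)
    simpa only [map_mul, map_add, map_pow, map_natCast, map_one, map_ofNat] using this

end Pool.Agent.H39
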