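import Pool.Agent.H39.Sgn

set_option autoImplicit false

namespace Pool.Agent.H39

open Polynomial Finset
open Pool.Agent.H546

variable {O K k : Type*} [CommRing O] [IsDomain O] [Field K] [Algebra O K] [Field k]
  {S : DV O K k} {p D : ℕ} [hp : Fact p.Prime] [CharP k p]

namespace Pt100

variable (P : Pt100 S p D)

include P

theorem five_ne : (5 : k) ≠ 0 := by
  have h := P.n5
  have := fun h0 => h ((CharP.intCast_eq_zero_iff k p 5).mp h0)
  simpa using this

theorem fermat {a : ℕ} (ha : 0 < a) (ha' : a ≤ 20) : (a : k) ^ (4 * D) = 1 := by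
  have hb := P.hbig
  have h0 := small_ne (k := k) (p := p) ha (by omega)
  apply mul_left_cancel₀ h0
  have h := frobenius_def (R := k) p (a : k)
  rw [map_natCast] at h
  rw [← pow_succ', ← P.hD, mul_one, ← h]

/-- the value modulo `p`, with sign -/
theorem sgn : S.red ((Sp P.s p).eval P.r) = 5 ^ (3 * D) * aa (S.red P.v) D := by
  have hb := P.hbig
  have hD := P.hD
  have hchO := P.chO
  set vk := S.red P.v with hvk
  have hvk2 : 2 * vk = 1 := by rw [hvk, ← map_ofNat S.red 2, ← map_mul, P.hv, map_one]
  have hS : Sp (fun n => S.red (P.s n)) p = Pn vk D := by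
    refine Sp_one hD hvk2 ?_ ?_
    · rw [P.hs0, map_one]
    · intro n hn
      have := congrArg S.red (P.hs n hn)
      simpa only [map_mul, map_add, map_pow, map_natCast, map_one, map_ofNat] using this
  have e1 : S.red ((Sp P.s p).eval P.r) = ((Pn P.v D).map S.red).eval (S.red P.r) := by
    rw [Pn_map, ← hvk, ← hS, ← Sp_map, Polynomial.eval_map_apply]
  rw [e1, Polynomial.eval_map_apply, ← Pn_lg P.hv P.r_u, map_mul, map_pow, lg_cast]
  have hσk : S.red P.σ ^ 2 = 5 := by rw [← map_pow, P.hσ, map_ofNat]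
  have hzk : 720 * S.red P.u = 360 - 161 * S.red P.σ := by
    have := congrArg S.red P.hu
    simpa only [map_mul, map_sub, map_ofNat] using this
  have n36 : (36 : k) ≠ 0 := by
    have h2 := P.two
    have h3 := P.three
    have : (36 : k) = 2 ^ 2 * 3 ^ 2 := by norm_num
    rw [this]; exact mul_ne_zero (pow_ne_zero _ h2) (pow_ne_zero _ h3)
  have hc : 36 * (-125 * S.red P.σ / 36) = -125 * S.red P.σ := by field_simp
  rw [lg_five hD hb hσk hzk hc]
  set c := -125 * S.red P.σ / 36 with hcdef
  have hrk : 20 * S.red P.r = 9 * S.red P.σ := by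
    have := congrArg S.red P.hr
    simpa only [map_mul, map_ofNat] using this
  have hrc : 16 * (S.red P.r * c) = -125 := by
    have h45 : (45 : k) ≠ 0 := by
      have : (45 : k) = 3 ^ 2 * 5 := by norm_num
      rw [this]; exact mul_ne_zero (pow_ne_zero _ P.three) P.five_ne
    apply mul_left_cancel₀ h45
    linear_combination (36 * c) * hrk + 9 * S.red P.σ * hc - 1125 * hσk
  have h16 : (16 : k) ^ D = 1 := by
    have := P.fermat (a := 2) (by norm_num) (by norm_num)
    rw [pow_mul] at this
    norm_num at this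
    exact this
  have h125 : (S.red P.r * c) ^ D = (-1) ^ D * 5 ^ (3 * D) := by
    have := congrArg (fun x => x ^ D) hrc
    rw [mul_pow, h16, one_mul] at this
    rw [this, show (-125 : k) = (-1) * 5 ^ 3 by norm_num, mul_pow, ← pow_mul]
  obtain ⟨x4, hx4⟩ := four_pow (p := p) hD
  have h4k : (-4 : k) ^ D = 1 := by
    have := congrArg (Int.cast : ℤ → k) hx4
    push_cast at this
    rw [this, CharP.cast_eq_zero k p]; ring
  have hv4 : (vk * vk) ^ D = (-1) ^ D := by
    have h1 : (-4 * (vk * vk)) = -1 := by linear_combination (-(2 * vk + 1)) * hvk2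
    have h2 : (-4 : k) ^ D * (vk * vk) ^ D = (-1) ^ D := by rw [← mul_pow, h1]
    rw [h4k, one_mul] at h2
    exact h2
  unfold aa
  rw [hv4]
  have : (((2 * D).choose D : ℕ) : k) = (D.centralBinom : k) := rfl
  rw [← mul_assoc, mul_comm (S.red P.r ^ D), mul_assoc, ← mul_pow, h125, this]
  ring

end Pt100

end Pool.Agent.H39
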