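import Pool.Agent.H39.Vcm
import Pool.Agent.H39.Sgn2
import Pool.Agent.H39.FA1
import Pool.Agent.H39.FA2
import Pool.Agent.H39.FA3
import Pool.Agent.H39.FA4
import Pool.Agent.H39.Fin100

set_option autoImplicit false

/-!
# The sum of squares modulo `p²`: assembly for `p = 1` modulo `4`
-/

namespace Pool.Agent.H39

open Polynomial Finset
open Pool.Agent.H546

variable {O K k : Type*} [CommRing O] [IsDomain O] [Field K] [Algebra O K] [Field k]
  {S : DV O K k} {p D : ℕ} [hp : Fact p.Prime] [CharP k p]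

/-- `4^(p-1)` times the sum of squares -/
def N0 (p : ℕ) : ℤ := ∑ m ∈ range (2 * p - 1), sz p m * (-20) ^ m

/-- the coefficients of the second sum over the ring -/
def wv (v : O) (p D n : ℕ) : O := ((sz p (2 * D - n) : ℤ) : O) * (v * v) ^ (2 * D - n)

omit [IsDomain O] in
theorem four_v {v : O} (hv : 2 * v = 1) : 4 * (v * v) = 1 := by linear_combination (2 * v + 1) * hv

theorem wv_H1 (hD : p = 4 * D + 1) (hq : S.q = (p : O)) {v : O} (hv : 2 * v = 1) : H1 S D (wv v p D) := by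
  intro n hn
  obtain ⟨m, hm⟩ : ∃ m, 2 * D = n + 1 + m := ⟨2 * D - n - 1, by omega⟩
  obtain ⟨c, hc⟩ := sz_rec_mod p m hp.out
  have hcO := congrArg (Int.cast : ℤ → O) hc
  push_cast at hcO
  rw [← hq] at hcO
  have hpn : p = 2 * n + 2 * m + 3 := by omega
  have hqn : S.q = 2 * (n : O) + 2 * (m : O) + 3 := by
    rw [hq]
    have := congrArg (Nat.cast : ℕ → O) hpn
    push_cast at this
    exact this
  have e1 : 2 * D - n = m + 1 := by omega
  have e2 : 2 * D - (n + 1) = m := by omega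
  unfold wv
  rw [e1, e2]
  set a := ((sz p (m + 1) : ℤ) : O)
  set b := ((sz p m : ℤ) : O)
  refine ⟨-2 * (v * v) ^ m * (v * v) * c + 2 * (a * ((v * v) ^ m * (v * v))) - 2 * (b * (v * v) ^ m), ?_⟩
  rw [pow_succ (v * v) m]
  rw [hqn] at hcO ⊢
  linear_combination (-2 * (v * v) ^ m * (v * v)) * hcO - 2 * (v * v) ^ m * (2 * (m : O) + 1) ^ 2 * b * (2 * v + 1) * hv

theorem wv_H2 (hD : p = 4 * D + 1) (hq : S.q = (p : O)) {v : O} (hv : 2 * v = 1) :
    H2 S D v (wv v p D) (4 ^ (4 * D) * aa v D) := by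
  have hhigh := fun m hm => sz_high hp.out hD (fun m => sz_rec_mod p m hp.out) m hm
  obtain ⟨c, hc⟩ := sz_centre hp.out hD hhigh
  have hcO := congrArg (Int.cast : ℤ → O) hc
  push_cast at hcO
  rw [← hq] at hcO
  have h4 := four_v hv
  refine ⟨(v * v) ^ (2 * D) * c, ?_⟩
  have e1 : ∑ n ∈ range (2 * D + 1), wv v p D n = ∑ m ∈ range (2 * D + 1), ((sz p m : ℤ) : O) * (v * v) ^ m := by
    rw [← sum_range_reflect]
    refine sum_congr rfl fun n hn => ?_
    rw [mem_range] at hn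
    unfold wv
    rw [show 2 * D - (2 * D + 1 - 1 - n) = n by omega]
  have e2 : (∑ m ∈ range (2 * D + 1), ((sz p m : ℤ) : O) * 4 ^ (2 * D - m)) * (v * v) ^ (2 * D) =
      ∑ m ∈ range (2 * D + 1), ((sz p m : ℤ) : O) * (v * v) ^ m := by
    rw [sum_mul]
    refine sum_congr rfl fun m hm => ?_
    rw [mem_range] at hm
    have e3 : (v * v) ^ (2 * D) = (v * v) ^ (2 * D - m) * (v * v) ^ m := by rw [← pow_add]; congr 1; omega
    have e4 : (4 : O) ^ (2 * D - m) * (v * v) ^ (2 * D - m) = 1 := by rw [← mul_pow, h4, one_pow]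
    rw [e3]
    linear_combination (((sz p m : ℤ) : O) * (v * v) ^ m) * e4
  have e5 : 4 ^ (4 * D) * aa v D * aa v D = (4 ^ (4 * D) * (((2 * D).choose D : ℕ) : O) ^ 2) * (v * v) ^ (2 * D) := by
    unfold aa
    have : (v * v) ^ (2 * D) = (v * v) ^ D * (v * v) ^ D := by rw [← pow_add]; congr 1; omega
    rw [this]
    have : ((D.centralBinom : ℕ) : O) = (((2 * D).choose D : ℕ) : O) := rfl
    rw [this]; ring
  rw [e1, ← e2, e5]
  linear_combination (v * v) ^ (2 * D) * hcO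

/-- the value of the second sum -/
theorem wv_eval {v X0 : O} (hv : 2 * v = 1) (hX : 80 * X0 = -1) {r : O} (hr : X0 = 1 - r ^ 2) :
    (-80) ^ (2 * D) * (Sp (wv v p D) (2 * D + 1)).eval r = ((∑ m ∈ range (2 * D + 1), sz p m * (-20) ^ m : ℤ) : O) := by
  have h4 := four_v hv
  have e1 : (Sp (wv v p D) (2 * D + 1)).eval r = ∑ n ∈ range (2 * D + 1), wv v p D n * X0 ^ n := by
    unfold Sp
    rw [eval_finsetSum]
    refine sum_congr rfl fun n _ => ?_
    rw [hr]
    simp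
  rw [e1, ← sum_range_reflect, mul_sum]
  push_cast
  refine sum_congr rfl fun m hm => ?_
  rw [mem_range] at hm
  unfold wv
  rw [show 2 * D - (2 * D - m) = m by omega]
  have e3 : (-80 : O) ^ (2 * D) = (-80) ^ (2 * D - m) * (-80) ^ m := by rw [← pow_add]; congr 1; omega
  have e4 : (-80 : O) ^ (2 * D - m) * X0 ^ (2 * D - m) = 1 := by
    rw [← mul_pow, show (-80 : O) * X0 = 1 by linear_combination -hX, one_pow]
  have e5 : (-80 : O) ^ m * (v * v) ^ m = (-20) ^ m := by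
    rw [← mul_pow, show (-80 : O) * (v * v) = -20 by linear_combination -20 * h4]
  rw [e3]
  linear_combination (((sz p m : ℤ) : O) * (-80 : O) ^ m * (v * v) ^ m) * e4 + ((sz p m : ℤ) : O) * e5

theorem N0_low (hD : p = 4 * D + 1) : (p : ℤ) ^ 2 ∣ N0 p - ∑ m ∈ range (2 * D + 1), sz p m * (-20) ^ m := by
  unfold N0
  have hp2 := hp.out.two_le
  rw [show 2 * p - 1 = (2 * D + 1) + (6 * D) by omega, sum_range_add, add_sub_cancel_left]
  refine dvd_sum fun m _ => ?_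
  exact Dvd.dvd.mul_right (sz_high hp.out hD (fun m => sz_rec_mod p m hp.out) _ (by omega)) _

namespace Pt100

variable (P : Pt100 S p D)

include P

/-- the sum of squares modulo `p²` -/
theorem N0_mod (hV : P.VC) {χ : ℤ} (hχ : (p : ℤ) ∣ (-80) ^ (2 * D) - χ) (hχ2 : χ = 1 ∨ χ = -1) :
    S.q ^ 2 ∣ ((N0 p : ℤ) : O) - χ * (4 ^ (4 * D) * aa P.v D) * (Sp P.s p).eval P.r := by
  have hb := P.hbig
  have hD := P.hD
  have hchO := P.chO
  have h1 := hV (wv P.v p D) (4 ^ (4 * D) * aa P.v D) (wv_H1 hD P.hq P.hv) (wv_H2 hD P.hq P.hv)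
  obtain ⟨g, hg⟩ := h1
  have hX : 80 * (1 - P.r ^ 2) = -1 := by linear_combination -P.r_sq
  have h2 := wv_eval (p := p) (D := D) P.hv hX (r := P.r) rfl
  obtain ⟨c, hc⟩ := N0_low (p := p) hD
  have hcO := congrArg (Int.cast : ℤ → O) hc
  push_cast at hcO
  rw [← P.hq] at hcO
  obtain ⟨d, hd⟩ := hχ
  have hdO := congrArg (Int.cast : ℤ → O) hd
  push_cast at hdO
  rw [← P.hq] at hdO
  have hχO : (χ : O) * χ = 1 := by rcases hχ2 with rfl | rfl <;> push_cast <;> ring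
  push_cast at h2
  set Sz := ∑ m ∈ range (2 * D + 1), ((sz p m : ℤ) : O) * (-20) ^ m with hSz
  set X0 := 1 - P.r ^ 2 with hX0
  set κ := 4 ^ (4 * D) * aa P.v D with hκ
  set Sg := (Sp P.s p).eval P.r with hSg
  set V := (Sp (wv P.v p D) (2 * D + 1)).eval P.r with hVd
  set α := (-80 : O) ^ (2 * D) with hα
  have u80 : S.red (-80 : O) ≠ 0 := by
    refine S.ne_mul (p := p) (y := 1) (n := -80) (by push_cast; ring) (P.ndvd [(2, 4), (5, 1)] (by simp; norm_num) (by norm_num))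
  have uα : IsUnit (2 * α) := by
    apply S.unit_of_red
    rw [map_mul, hα, map_pow]
    exact mul_ne_zero P.twoO (pow_ne_zero _ u80)
  have hα0 : S.red α ≠ 0 := by rw [hα, map_pow]; exact pow_ne_zero _ u80
  -- `2 α² Sz = κ Σ α (α² + 1)`
  have hp1 : (-80 : O) ^ p * X0 ^ p = 1 := by
    rw [← mul_pow, show (-80 : O) * X0 = 1 by linear_combination -hX, one_pow]
  have hp2' : (-80 : O) ^ p = -80 * α ^ 2 := by rw [hD, pow_succ, hα, ← pow_mul, show 2 * D * 2 = 4 * D by ring]; ring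
  have e1 : S.q ^ 2 ∣ (2 * α) * (α * Sz - α * (χ * κ * Sg)) := by
    refine ⟨(-80) ^ p * α * g + κ * Sg * α * d ^ 2, ?_⟩
    have hdd : α - χ = S.q * d := hdO
    have key : (-80 : O) ^ p * α * (2 * X0 * V - κ * Sg * (X0 + X0 ^ p)) =
        2 * α ^ 2 * Sz - κ * Sg * (α ^ 3 + α) := by
      have k1 : (-80 : O) ^ p * X0 = α ^ 2 := by rw [hp2']; linear_combination (-α ^ 2) * hX
      linear_combination (2 * α * V - κ * Sg * α) * k1 + (2 * α ^ 2) * h2 - κ * Sg * α * hp1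
    linear_combination -key + ((-80 : O) ^ p * α) * hg + (κ * Sg * α * ((α - χ) + S.q * d)) * hdd - κ * Sg * α * hχO
  have e2 := (uα.dvd_mul_left).mp e1
  have e3 : S.q ^ 2 ∣ α * (Sz - χ * κ * Sg) := by
    have : α * (Sz - χ * κ * Sg) = α * Sz - α * (χ * κ * Sg) := by ring
    rw [this]; exact e2
  have e4 := ((S.unit_of_red hα0).dvd_mul_left).mp e3
  obtain ⟨f, hf⟩ := e4
  exact ⟨c + f, by linear_combination hcO + hf⟩

/-- the property of the second sum holds -/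
theorem vc_all [IsAlgClosed k] {j0 : O} (hj0 : j0 ^ 2 = -1) {X Y : ℤ} (hXY : (p : ℤ) = X ^ 2 + Y ^ 2) : P.VC := by
  have hb := P.hbig
  have hp2 : p ≠ 2 := by omega
  have hx := Int.emod_nonneg X (by norm_num : (5 : ℤ) ≠ 0)
  have hx' := Int.emod_lt_of_pos X (by norm_num : (0 : ℤ) < 5)
  have hy := Int.emod_nonneg Y (by norm_num : (5 : ℤ) ≠ 0)
  have hy' := Int.emod_lt_of_pos Y (by norm_num : (0 : ℤ) < 5)
  have hp5 : p % 5 ≠ 0 := by
    intro h0
    have := (Nat.prime_dvd_prime_iff_eq (by norm_num) hp.out).mp (Nat.dvd_of_mod_eq_zero h0)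
    omega
  have hjm : (-j0) ^ 2 = -1 := by rw [neg_sq, hj0]
  by_cases h5 : p % 5 = 1 ∨ p % 5 = 4
  · have hσp : S.red P.σ ^ p = S.red P.σ := by
      have h := S.frob_sq (p := p) hp2 (d := 5) (y := P.σ) (by rw [P.hσ]; norm_num)
      rw [leg5 (by omega), if_pos h5, Int.cast_one, one_mul] at h
      exact h
    have key : ∀ x y : ℤ, (p : ℤ) = x ^ 2 + 25 * y ^ 2 → P.VC := by
      intro x y hxy
      have hO : (p : O) = (x : O) ^ 2 + 25 * (y : O) ^ 2 := by
        have := congrArg (Int.cast : ℤ → O) hxy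
        push_cast at this; exact this
      have h0 : S.red ((x : O) + y * (5 * j0)) * S.red ((x : O) + y * (5 * (-j0))) = 0 := by
        rw [← map_mul]
        have : ((x : O) + y * (5 * j0)) * ((x : O) + y * (5 * (-j0))) = S.q := by
          rw [P.hq]; linear_combination -hO - 25 * (y : O) ^ 2 * hj0
        rw [this, S.red_q]
      rcases mul_eq_zero.mp h0 with h | h
      · exact P.vcA hj0 hσp hxy h
      · exact P.vcA hjm hσp hxy h
    have h5Y : (5 : ℤ) ∣ Y ∨ (5 : ℤ) ∣ X := by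
      have h1 : (X ^ 2 + Y ^ 2) % 5 = 1 ∨ (X ^ 2 + Y ^ 2) % 5 = 4 := by
        rw [← hXY]; omega
      rw [Int.add_emod, pow_two, pow_two, Int.mul_emod X X, Int.mul_emod Y Y] at h1
      generalize hxe : X % 5 = a at *
      generalize hye : Y % 5 = b at *
      rw [Int.dvd_iff_emod_eq_zero, Int.dvd_iff_emod_eq_zero, hxe, hye]
      interval_cases a <;> interval_cases b <;> simp at h1 ⊢
    rcases h5Y with ⟨y, rfl⟩ | ⟨x, rfl⟩
    · exact key X y (by rw [hXY]; ring)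
    · exact key Y x (by rw [hXY]; ring)
  · have hσp : S.red P.σ ^ p = -S.red P.σ := by
      have h := S.frob_sq (p := p) hp2 (d := 5) (y := P.σ) (by rw [P.hσ]; norm_num)
      rw [leg5 (by omega), if_neg h5] at h
      rw [h]; push_cast; ring
    have key : ∀ x y : ℤ, (2 * p : ℤ) = x ^ 2 + 25 * y ^ 2 → P.VC := by
      intro x y hxy
      have hO : 2 * (p : O) = (x : O) ^ 2 + 25 * (y : O) ^ 2 := by
        have := congrArg (Int.cast : ℤ → O) hxy
        push_cast at this; exact this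
      have h0 : S.red ((x : O) - y * (5 * j0)) * S.red ((x : O) - y * (5 * (-j0))) = 0 := by
        rw [← map_mul]
        have : ((x : O) - y * (5 * j0)) * ((x : O) - y * (5 * (-j0))) = 2 * S.q := by
          rw [P.hq]; linear_combination -hO - 25 * (y : O) ^ 2 * hj0
        rw [this, map_mul, S.red_q, mul_zero]
      rcases mul_eq_zero.mp h0 with h | h
      · exact P.vcB hj0 hσp hxy h
      · exact P.vcB hjm hσp hxy h
    have h5Y : (5 : ℤ) ∣ X + Y ∨ (5 : ℤ) ∣ X + (-Y) := by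
      have h1 : (X ^ 2 + Y ^ 2) % 5 = 2 ∨ (X ^ 2 + Y ^ 2) % 5 = 3 := by
        rw [← hXY]; omega
      rw [Int.add_emod, pow_two, pow_two, Int.mul_emod X X, Int.mul_emod Y Y] at h1
      have e1 : (X + Y) % 5 = (X % 5 + Y % 5) % 5 := Int.add_emod _ _ _
      have e2 : (X + -Y) % 5 = (X % 5 - Y % 5) % 5 := by rw [← sub_eq_add_neg]; exact Int.sub_emod _ _ _
      rw [Int.dvd_iff_emod_eq_zero, Int.dvd_iff_emod_eq_zero, e1, e2]
      generalize hxe : X % 5 = a at *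
      generalize hye : Y % 5 = b at *
      interval_cases a <;> interval_cases b <;> simp at h1 ⊢
    rcases h5Y with ⟨y, hy⟩ | ⟨y, hy⟩
    · exact key (X - Y) y (by rw [hXY]; linear_combination (X + Y + 5 * y) * hy)
    · exact key (X + Y) y (by rw [hXY]; linear_combination (X - Y + 5 * y) * hy)

omit P in
include S in
/-- from the ring to the integers -/
theorem int_of_sq (hq : S.q = (p : O)) {N : ℤ} (h : S.q ^ 2 ∣ (N : O)) : (p : ℤ) ^ 2 ∣ N := by
  have hp0 : (p : O) ≠ 0 := by rw [← hq]; exact S.q_ne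
  have red0 : ∀ M : ℤ, S.q ∣ (M : O) → (p : ℤ) ∣ M := by
    intro M hM
    have := (S.red_iff _).mpr hM
    rw [map_intCast] at this
    exact (CharP.intCast_eq_zero_iff k p M).mp this
  obtain ⟨M, rfl⟩ := red0 N ((dvd_pow_self _ two_ne_zero).trans h)
  have h2 : S.q ∣ (M : O) := by
    obtain ⟨c, hc⟩ := h
    refine ⟨c, ?_⟩
    apply mul_left_cancel₀ hp0
    push_cast at hc
    rw [hc, hq]; ring
  obtain ⟨M', rfl⟩ := red0 M h2
  exact ⟨M', by ring⟩

/-- the product in the first class -/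
theorem prodA {X η δ : ℤ} (hX : S.red (X : O) ≠ 0) {a Sg : O} (hη : S.q ^ 2 ∣ (((2 * X : ℤ)) : O) * Sg - ((η * (4 * X ^ 2 - p) : ℤ) : O))
    (hδ : S.q ^ 2 ∣ (((2 * X : ℤ)) : O) * a - ((δ * (4 * X ^ 2 - p) : ℤ) : O)) :
    S.q ^ 2 ∣ a * Sg - ((η * δ * (4 * X ^ 2 - 2 * p) : ℤ) : O) := by
  obtain ⟨g, hg⟩ := hη
  obtain ⟨f, hf⟩ := hδ
  push_cast at hg hf ⊢
  have hq := P.hq
  have u : IsUnit (4 * (X : O) ^ 2) := by
    apply S.unit_of_red
    rw [map_mul, map_pow]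
    refine mul_ne_zero ?_ (pow_ne_zero 2 hX)
    have := P.twoO
    rw [show (4 : O) = 2 * 2 by norm_num, map_mul]
    exact mul_ne_zero this this
  refine (u.dvd_mul_left).mp ?_
  refine ⟨2 * (X : O) * Sg * f + δ * (4 * (X : O) ^ 2 - p) * g + η * δ, ?_⟩
  rw [hq] at hg hf ⊢
  linear_combination (2 * (X : O) * Sg) * hf + (δ * (4 * (X : O) ^ 2 - p)) * hg

/-- the product in the second class -/
theorem prodB {X Y η δ : ℤ} (hXY : (p : ℤ) = X ^ 2 + Y ^ 2) (hX : S.red (X : O) ≠ 0) (hY : S.red (Y : O) ≠ 0) {a Sg : O}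
    (hη : S.q ^ 2 ∣ (((2 * Y : ℤ)) : O) * Sg - ((η * (4 * Y ^ 2 - p) : ℤ) : O))
    (hδ : S.q ^ 2 ∣ (((2 * X : ℤ)) : O) * a - ((δ * (4 * X ^ 2 - p) : ℤ) : O)) :
    S.q ^ 2 ∣ a * Sg - ((4 * η * δ * (X * Y) : ℤ) : O) := by
  obtain ⟨g, hg⟩ := hη
  obtain ⟨f, hf⟩ := hδ
  have hO : (p : O) = (X : O) ^ 2 + (Y : O) ^ 2 := by
    have := congrArg (Int.cast : ℤ → O) hXY
    push_cast at this; exact this
  push_cast at hg hf ⊢
  have hq := P.hq
  have u : IsUnit (4 * ((X : O) * Y)) := by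
    apply S.unit_of_red
    rw [map_mul, map_mul]
    refine mul_ne_zero ?_ (mul_ne_zero hX hY)
    have := P.twoO
    rw [show (4 : O) = 2 * 2 by norm_num, map_mul]
    exact mul_ne_zero this this
  refine (u.dvd_mul_left).mp ?_
  refine ⟨2 * (Y : O) * Sg * f + δ * (4 * (X : O) ^ 2 - p) * g - 3 * η * δ, ?_⟩
  rw [hq] at hg hf ⊢
  linear_combination (2 * (Y : O) * Sg) * hf + (δ * (4 * (X : O) ^ 2 - p)) * hg + (4 * η * δ * (p : O)) * hO

/-- the central binomial coefficient -/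
theorem cbO {X Y : ℤ} (hXY : (p : ℤ) = X ^ 2 + Y ^ 2) (hX : X % 2 = 1) : ∃ δ : ℤ, (δ = 1 ∨ δ = -1) ∧
    S.q ^ 2 ∣ (((2 * X : ℤ)) : O) * aa P.v D - ((δ * (4 * X ^ 2 - p) : ℤ) : O) := by
  obtain ⟨δ, hδ, c, hc⟩ := cb_value P.hD hXY hX
  refine ⟨δ, hδ, (P.v * P.v) ^ D * c, ?_⟩
  have hcO := congrArg (Int.cast : ℤ → O) hc
  push_cast at hcO ⊢
  rw [P.hq]
  have e4 : (4 : O) ^ D * (P.v * P.v) ^ D = 1 := by rw [← mul_pow, four_v P.hv, one_pow]
  unfold aa
  have : ((D.centralBinom : ℕ) : O) = (((2 * D).choose D : ℕ) : O) := rfl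
  rw [this]
  linear_combination ((P.v * P.v) ^ D) * hcO + (δ * (4 * (X : O) ^ 2 - p)) * e4

/-- two signs that agree in characteristic `p` agree -/
theorem sign_eq {a b : ℤ} (ha : a = 1 ∨ a = -1) (hb : b = 1 ∨ b = -1) (h : (a : k) = b) : a = b := by
  have h2 := P.two
  rcases ha with rfl | rfl <;> rcases hb with rfl | rfl
  · rfl
  · exfalso; push_cast at h; exact h2 (by linear_combination h)
  · exfalso; push_cast at h; exact h2 (by linear_combination -h)
  · rfl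

theorem redZ {z : ℤ} (hz : ¬ (p : ℤ) ∣ z) : S.red (z : O) ≠ 0 := by
  rw [map_intCast]
  exact fun h => hz ((CharP.intCast_eq_zero_iff k p z).mp h)

/-- `a = 2 δ X` modulo `p` from the congruence modulo `p²` -/
theorem red_val {Z δ : ℤ} (hZ : S.red (Z : O) ≠ 0) {a : O} (h : S.q ^ 2 ∣ (((2 * Z : ℤ)) : O) * a - ((δ * (4 * Z ^ 2 - p) : ℤ) : O)) :
    S.red a = 2 * δ * Z := by
  have h1 : S.q ∣ (((2 * Z : ℤ)) : O) * a - ((δ * (4 * Z ^ 2 - p) : ℤ) : O) := (dvd_pow_self _ two_ne_zero).trans h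
  have h2 := (S.red_iff _).mpr h1
  have hp0 : (p : k) = 0 := CharP.cast_eq_zero k p
  rw [map_sub, map_mul, map_intCast, map_intCast] at h2
  push_cast at h2
  rw [map_intCast] at hZ
  have hz2 : (2 : k) * Z ≠ 0 := mul_ne_zero P.two hZ
  apply mul_left_cancel₀ hz2
  rw [hp0] at h2
  linear_combination h2

/-- the first class -/
theorem caseA [IsAlgClosed k] (hQ : Q5 p D) {j0 : O} (hj0 : j0 ^ 2 = -1) {X Y : ℤ}
    (hXY : (p : ℤ) = X ^ 2 + Y ^ 2) (hX : X % 2 = 1) (h5 : p % 5 = 1 ∨ p % 5 = 4) :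
    ((5 : ℤ) ∣ Y → (p : ℤ) ^ 2 ∣ N0 p - 4 ^ (4 * D) * (4 * X ^ 2 - 2 * p)) ∧
    ((5 : ℤ) ∣ X → (p : ℤ) ^ 2 ∣ N0 p - 4 ^ (4 * D) * (4 * Y ^ 2 - 2 * p)) := by
  have hb := P.hbig
  have hD := P.hD
  obtain ⟨η, hη, h1⟩ := P.main_one hQ hj0 hXY hX h5
  obtain ⟨δ, hδ, h2⟩ := P.cbO hXY hX
  rw [← P.hq] at h1
  have hYn : ¬ (p : ℤ) ∣ Y := P.ne_of hXY
  have hXn : ¬ (p : ℤ) ∣ X := P.ne_of (X := Y) (Y := X) (by rw [hXY]; ring)
  have hXr := P.redZ hXn
  have h3 := P.prodA hXr h1 h2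
  have hVC := P.vc_all hj0 hXY
  have hχ : (p : ℤ) ∣ (-80) ^ (2 * D) - 1 := by
    have h := legendreSym.eq_pow p 5
    rw [leg5 (by omega), if_pos h5, show p / 2 = 2 * D by omega] at h
    rw [← ZMod.intCast_zmod_eq_zero_iff_dvd]
    have h2z : (2 : ZMod p) ≠ 0 := by
      have h0 : ((2 : ℕ) : ZMod p) ≠ 0 := by
        intro hc
        rw [ZMod.natCast_eq_zero_iff] at hc
        have := Nat.le_of_dvd (by norm_num) hc
        omega
      exact_mod_cast h0
    have hf : (2 : ZMod p) ^ (4 * D) = 1 := by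
      have := ZMod.pow_card_sub_one_eq_one h2z
      rwa [show p - 1 = 4 * D by omega] at this
    push_cast at h ⊢
    have e : (-80 : ZMod p) ^ (2 * D) = 5 ^ (2 * D) * (2 ^ (4 * D)) ^ 2 := by
      rw [show (-80 : ZMod p) = (-1) * (5 * 2 ^ 4) by norm_num, mul_pow, mul_pow, pow_mul (-1 : ZMod p)]
      norm_num
      rw [← pow_mul]
      left
      have : (16 : ZMod p) = 2 ^ 4 := by norm_num
      rw [this, ← pow_mul]; congr 1; ring
    rw [e, hf, ← h]; ring
  have h4 := P.N0_mod hVC hχ (Or.inl rfl)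
  have hvk := P.sgn
  have r1 := P.red_val hXr h1
  have r2 := P.red_val hXr h2
  have e0 : S.red (aa P.v D) = aa (S.red P.v) D := by simp [aa]
  rw [r1, ← e0, r2] at hvk
  have hX2 : (2 : k) * X ≠ 0 := mul_ne_zero P.two (by rwa [map_intCast] at hXr)
  have hsg : (η : k) = 5 ^ (3 * D) * δ := by
    apply mul_left_cancel₀ hX2
    linear_combination hvk
  have hδk : (δ : k) * δ = 1 := by rcases hδ with rfl | rfl <;> push_cast <;> ring
  have hprod : ((η * δ : ℤ) : k) = 5 ^ (3 * D) := by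
    push_cast
    rw [hsg]
    linear_combination (5 : k) ^ (3 * D) * hδk
  have hηδ : η * δ = 1 ∨ η * δ = -1 := by
    rcases hη with rfl | rfl <;> rcases hδ with rfl | rfl <;> norm_num
  have hYz : (Y : ZMod p) ≠ 0 := fun h => hYn ((ZMod.intCast_zmod_eq_zero_iff_dvd Y p).mp h)
  obtain ⟨q1, q2, -⟩ := hQ X Y hXY hX (-(X : ZMod p) * (Y : ZMod p)⁻¹) (by
    rw [mul_assoc, inv_mul_cancel₀ hYz, mul_one, add_neg_cancel])
  let f : ZMod p →+* k := ZMod.castHom (dvd_refl p) k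
  have fin : ∀ c : ℤ, η * δ * (4 * X ^ 2 - 2 * p) = c → (p : ℤ) ^ 2 ∣ N0 p - 4 ^ (4 * D) * c := by
    intro c hc
    refine int_of_sq (S := S) (p := p) P.hq ?_
    obtain ⟨g3, hg3⟩ := h3
    obtain ⟨g4, hg4⟩ := h4
    refine ⟨g4 + 4 ^ (4 * D) * g3, ?_⟩
    rw [hc] at hg3
    push_cast at hg3 hg4 ⊢
    linear_combination hg4 + 4 ^ (4 * D) * hg3
  refine ⟨fun h => fin _ ?_, fun h => fin _ ?_⟩
  · have h5k : (5 : k) ^ D = 1 := by
      have := congrArg f (q1 h)
      rwa [map_pow, map_ofNat, map_one] at this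
    have : η * δ = 1 := P.sign_eq hηδ (Or.inl rfl) (by rw [hprod, mul_comm 3 D, pow_mul, h5k]; push_cast; ring)
    rw [this, one_mul]
  · have h5k : (5 : k) ^ D = -1 := by
      have := congrArg f (q2 h)
      rwa [map_pow, map_ofNat, map_neg, map_one] at this
    have : η * δ = -1 := P.sign_eq hηδ (Or.inr rfl) (by rw [hprod, mul_comm 3 D, pow_mul, h5k]; push_cast; ring)
    rw [this]
    linear_combination 4 * hXY

/-- the second class -/
theorem caseB [IsAlgClosed k] (hQ : Q5 p D) {j0 : O} (hj0 : j0 ^ 2 = -1) {X Y : ℤ}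
    (hXY : (p : ℤ) = X ^ 2 + Y ^ 2) (hX : X % 2 = 1) (h5 : p % 5 = 2 ∨ p % 5 = 3) :
    ((5 : ℤ) ∣ X + Y → (p : ℤ) ^ 2 ∣ N0 p - 4 ^ (4 * D) * (-(4 * X * Y))) ∧
    ((5 : ℤ) ∣ X + (-Y) → (p : ℤ) ^ 2 ∣ N0 p - 4 ^ (4 * D) * (4 * X * Y)) := by
  have hb := P.hbig
  have hD := P.hD
  obtain ⟨η, hη, h1⟩ := P.main_two hQ hj0 hXY hX h5
  obtain ⟨δ, hδ, h2⟩ := P.cbO hXY hX
  rw [← P.hq] at h1
  have hYn : ¬ (p : ℤ) ∣ Y := P.ne_of hXY
  have hXn : ¬ (p : ℤ) ∣ X := P.ne_of (X := Y) (Y := X) (by rw [hXY]; ring)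
  have hXr := P.redZ hXn
  have hYr := P.redZ hYn
  have h3 := P.prodB hXY hXr hYr h1 h2
  have hVC := P.vc_all hj0 hXY
  have hχ : (p : ℤ) ∣ (-80) ^ (2 * D) - (-1) := by
    have h := legendreSym.eq_pow p 5
    rw [leg5 (by omega), if_neg (by omega), show p / 2 = 2 * D by omega] at h
    rw [← ZMod.intCast_zmod_eq_zero_iff_dvd]
    have h2z : (2 : ZMod p) ≠ 0 := by
      have h0 : ((2 : ℕ) : ZMod p) ≠ 0 := by
        intro hc
        rw [ZMod.natCast_eq_zero_iff] at hc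
        have := Nat.le_of_dvd (by norm_num) hc
        omega
      exact_mod_cast h0
    have hf : (2 : ZMod p) ^ (4 * D) = 1 := by
      have := ZMod.pow_card_sub_one_eq_one h2z
      rwa [show p - 1 = 4 * D by omega] at this
    push_cast at h ⊢
    have e : (-80 : ZMod p) ^ (2 * D) = 5 ^ (2 * D) * (2 ^ (4 * D)) ^ 2 := by
      rw [show (-80 : ZMod p) = (-1) * (5 * 2 ^ 4) by norm_num, mul_pow, mul_pow, pow_mul (-1 : ZMod p)]
      norm_num
      rw [← pow_mul]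
      left
      have : (16 : ZMod p) = 2 ^ 4 := by norm_num
      rw [this, ← pow_mul]; congr 1; ring
    rw [e, hf, ← h]; ring
  have h4 := P.N0_mod hVC hχ (Or.inr rfl)
  have hvk := P.sgn
  have r1 := P.red_val hYr h1
  have r2 := P.red_val hXr h2
  have e0 : S.red (aa P.v D) = aa (S.red P.v) D := by simp [aa]
  rw [r1, ← e0, r2] at hvk
  rw [map_intCast] at hXr hYr
  have hsg : (η : k) * Y = 5 ^ (3 * D) * δ * X := by
    apply mul_left_cancel₀ P.two
    linear_combination hvk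
  have hδk : (δ : k) * δ = 1 := by rcases hδ with rfl | rfl <;> push_cast <;> ring
  have hηδ : η * δ = 1 ∨ η * δ = -1 := by
    rcases hη with rfl | rfl <;> rcases hδ with rfl | rfl <;> norm_num
  have hYz : (Y : ZMod p) ≠ 0 := fun h => hYn ((ZMod.intCast_zmod_eq_zero_iff_dvd Y p).mp h)
  let f : ZMod p →+* k := ZMod.castHom (dvd_refl p) k
  have hsum : (X : k) ^ 2 + (Y : k) ^ 2 = 0 := by
    have := congrArg (Int.cast : ℤ → k) hXY
    push_cast at this
    rw [← this, CharP.cast_eq_zero k p]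
  set I : ZMod p := -(X : ZMod p) * (Y : ZMod p)⁻¹ with hIdef
  have hI : (X : ZMod p) + I * Y = 0 := by
    rw [hIdef, mul_assoc, inv_mul_cancel₀ hYz, mul_one, add_neg_cancel]
  have hIk : (X : k) + f I * Y = 0 := by
    have h1 := congrArg f hI
    rw [map_add, map_mul, map_intCast, map_intCast, map_zero] at h1
    exact h1
  have hI2 : f I ^ 2 = -1 := by
    apply mul_right_cancel₀ (pow_ne_zero 2 hYr)
    linear_combination (f I * Y - X) * hIk + hsum
  have fin : ∀ c : ℤ, -(4 * η * δ * (X * Y)) = c → (p : ℤ) ^ 2 ∣ N0 p - 4 ^ (4 * D) * c := by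
    intro c hc
    refine int_of_sq (S := S) (p := p) P.hq ?_
    obtain ⟨g3, hg3⟩ := h3
    obtain ⟨g4, hg4⟩ := h4
    refine ⟨g4 - 4 ^ (4 * D) * g3, ?_⟩
    rw [← hc]
    push_cast at hg3 hg4 ⊢
    linear_combination hg4 - 4 ^ (4 * D) * hg3
  refine ⟨fun h => fin _ ?_, fun h => fin _ ?_⟩
  · have h5k : (5 : k) ^ D = -f I := by
      have := congrArg f ((hQ X Y hXY hX I hI).2.2 h)
      rwa [map_pow, map_ofNat, map_neg] at this
    have h15 : (5 : k) ^ (3 * D) = f I := by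
      rw [mul_comm 3 D, pow_mul, h5k]; linear_combination (-f I) * hI2
    rw [h15] at hsg
    have : η * δ = 1 := P.sign_eq hηδ (Or.inl rfl) (by
      push_cast
      apply mul_right_cancel₀ hYr
      linear_combination (δ : k) * hsg + f I * X * hδk + f I * hIk - Y * hI2)
    linear_combination (-4 * X * Y) * this
  · have h5k : (5 : k) ^ D = f I := by
      have := congrArg f ((hQ X (-Y) (by rw [hXY]; ring) hX (-I) (by push_cast; linear_combination hI)).2.2 h)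
      rw [map_pow, map_ofNat, neg_neg] at this
      exact this
    have h15 : (5 : k) ^ (3 * D) = -f I := by
      rw [mul_comm 3 D, pow_mul, h5k]; linear_combination (f I) * hI2
    rw [h15] at hsg
    have : η * δ = -1 := P.sign_eq hηδ (Or.inr rfl) (by
      push_cast
      apply mul_right_cancel₀ hYr
      linear_combination (δ : k) * hsg - f I * X * hδk - f I * hIk + Y * hI2)
    linear_combination (-4 * X * Y) * this

end Pt100

end Pool.Agent.H39
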