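import Pool.Agent.H39.Core
import Pool.Agent.H39.I100
import Pool.Agent.H546.QTy
import Pool.Agent.H546.UtilG

set_option autoImplicit false

/-!
# The CM point of discriminant `-100`: the value of the truncated sum modulo `q²`
-/

namespace Pool.Agent.H39

open Polynomial Finset
open Pool.Agent.H546

variable {O K k : Type*} [CommRing O] [IsDomain O] [Field K] [Algebra O K] [Field k]
  (S : DV O K k) {p D : ℕ} [hp : Fact p.Prime] [CharP k p]

include S in
theorem sq_root {a Z : O} (ha : S.red (2 * a) ≠ 0) (h : S.q ^ 2 ∣ Z ^ 2 - a ^ 2) :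
    S.q ^ 2 ∣ Z - a ∨ S.q ^ 2 ∣ Z + a := by
  have e : Z ^ 2 - a ^ 2 = (Z - a) * (Z + a) := by ring
  by_cases h0 : S.red (Z - a) = 0
  · left
    have h1 : S.red (Z + a) ≠ 0 := by
      have : Z + a = (Z - a) + 2 * a := by ring
      rw [this, map_add, h0, zero_add]; exact ha
    rw [e, mul_comm] at h
    exact ((S.unit_of_red h1).dvd_mul_left).mp h
  · right
    rw [e] at h
    exact ((S.unit_of_red h0).dvd_mul_left).mp h

/-- the data at the point -/
structure Pt100 (S : DV O K k) (p D : ℕ) where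
  σ : O
  ρ : O
  v : O
  r : O
  u : O
  s : ℕ → O
  hD : p = 4 * D + 1
  hbig : 20 < p
  hq : S.q = (p : O)
  hσ : σ ^ 2 = 5
  hρ : ρ ^ 2 = -2
  hv : 2 * v = 1
  hr : 20 * r = 9 * σ
  hu : 720 * u = 360 - 161 * σ
  hs0 : s 0 = 1
  hs : ∀ n, n + 1 < p → 8 * ((n : O) + 1) ^ 2 * s (n + 1) = (4 * (n : O) + 1) * (2 * (n : O) + 1) * s n

namespace Pt100

variable {S}
variable (P : Pt100 S p D)

include P

theorem ndvd (l : List (ℕ × ℕ)) (hl : ∀ q ∈ l, q.1.Prime ∧ (q.1 ≤ 20 ∨ q.1 % 4 = 3)) {n : ℤ}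
    (hn : (((l.map fun q : ℕ × ℕ => q.1 ^ q.2).prod : ℕ) : ℤ).natAbs = n.natAbs) : ¬ (p : ℤ) ∣ n := by
  intro h
  have h1 : (p : ℤ) ∣ (((l.map fun q : ℕ × ℕ => q.1 ^ q.2).prod : ℕ) : ℤ) := by
    rw [← Int.natAbs_dvd_natAbs] at h ⊢
    rw [hn]; exact h
  have h2 : p ∣ (l.map fun q : ℕ × ℕ => q.1 ^ q.2).prod := by exact_mod_cast h1
  obtain ⟨a, ha, hpa⟩ := (Nat.Prime.prime hp.out).dvd_prod_iff.mp h2
  rw [List.mem_map] at ha
  obtain ⟨q, hq, rfl⟩ := ha
  have h3 := hp.out.dvd_of_dvd_pow hpa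
  obtain ⟨h4, h5⟩ := hl q hq
  have h6 := (Nat.prime_dvd_prime_iff_eq hp.out h4).mp h3
  have := P.hbig
  have := P.hD
  omega

theorem n5 : ¬ (p : ℤ) ∣ 5 := P.ndvd [(5, 1)] (by simp; norm_num) (by norm_num)

theorem n2 : ¬ (p : ℤ) ∣ 2 := P.ndvd [(2, 1)] (by simp; norm_num) (by norm_num)

theorem chO : CharZero O := charZero_O S (p := p) P.hq

theorem r_sq : 80 * P.r ^ 2 = 81 := by
  have := P.chO
  have h5 : (5 : O) ≠ 0 := by norm_num
  apply mul_left_cancel₀ h5
  linear_combination (20 * P.r + 9 * P.σ) * P.hr + 81 * P.hσ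

theorem r_u : 4 * P.r * P.u = -(1 - P.r) ^ 2 := by
  have := P.chO
  have h : (14400 : O) ≠ 0 := by norm_num
  apply mul_left_cancel₀ h
  linear_combination (4 * 20 * P.r) * P.hu + (4 * (360 - 161 * P.σ) - 1440 + 36 * (20 * P.r + 9 * P.σ)) * P.hr +
    (-36 * 161 + 36 * 81) * P.hσ

theorem r_u' : 4 * (-P.r) * (1 - P.u) = -(1 - (-P.r)) ^ 2 := by
  linear_combination P.r_u

theorem hM : (((-6635520 : ℤ)) : O) * (P.u * (1 - P.u)) = 64 := by
  have := P.chO
  have h : (720 ^ 2 : O) ≠ 0 := by norm_num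
  apply mul_left_cancel₀ h
  push_cast
  linear_combination (-6635520) * (720 * (1 - P.u) - (360 - 161 * P.σ)) * P.hu + 6635520 * 161 ^ 2 * P.hσ

theorem r0 : S.red P.r ≠ 0 := by
  refine S.ne_mul (p := p) (y := 80 * P.r) (n := 81) ?_ (P.ndvd [(3, 4)] (by simp; norm_num) (by norm_num))
  push_cast; linear_combination P.r_sq

theorem r1 : S.red (1 - P.r) ≠ 0 := by
  refine S.ne_mul (p := p) (y := 80 * (1 + P.r)) (n := -1) ?_ (P.ndvd [] (by simp) (by norm_num))
  push_cast; linear_combination -P.r_sq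

theorem r2 : S.red (1 + P.r) ≠ 0 := by
  refine S.ne_mul (p := p) (y := 80 * (1 - P.r)) (n := -1) ?_ (P.ndvd [] (by simp) (by norm_num))
  push_cast; linear_combination -P.r_sq

theorem two : (2 : k) ≠ 0 := by
  have := S.two_ne (p := p) (by have := P.hbig; omega)
  rwa [map_ofNat] at this

theorem three : (3 : k) ≠ 0 := by
  have := S.three_ne (p := p) (by have := P.hbig; omega)
  rwa [map_ofNat] at this

/-- Fermat -/
theorem r_pow : S.red P.r ^ (2 * D) * (5 : k) ^ D = 1 := by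
  have h1 : (80 : k) * S.red P.r ^ 2 = 81 := by
    have := congrArg S.red P.r_sq
    simpa only [map_mul, map_pow, map_ofNat] using this
  have fer : ∀ a : k, (a = 2 ∨ a = 3) → a ^ (4 * D) = 1 := by
    intro a ha
    have ha0 : a ≠ 0 := by rcases ha with rfl | rfl; exacts [P.two, P.three]
    have h2 : a ^ p = a := by
      rcases ha with rfl | rfl
      · have h := frobenius_def (R := k) p 2
        rw [← h, map_ofNat]
      · have h := frobenius_def (R := k) p 3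
        rw [← h, map_ofNat]
    apply mul_left_cancel₀ ha0
    rw [← pow_succ', ← P.hD, h2, mul_one]
  have h2 := congrArg (fun x => x ^ D) h1
  simp only [mul_pow] at h2
  have e80 : (80 : k) ^ D = 5 ^ D := by
    have : (80 : k) = 2 ^ 4 * 5 := by norm_num
    rw [this, mul_pow, ← pow_mul, fer 2 (Or.inl rfl), one_mul]
  have e81 : (81 : k) ^ D = 1 := by
    have : (81 : k) = 3 ^ 4 := by norm_num
    rw [this, ← pow_mul, fer 3 (Or.inr rfl)]
  rw [e80, e81, ← pow_mul] at h2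
  rw [mul_comm]; exact h2

/-- the isogeny of degree 13 -/
theorem psi {j : O} (hj : j ^ 2 = -1) : Dat S (cub (qa P.u) (qb P.u)) (qa (1 - P.u)) (qb (1 - P.u))
    (-((1 + 5 * j) * P.ρ * P.v)) 13 := by
  have hb := P.hbig
  refine I100.psi S (p := p) (by omega) (by omega) (by omega) P.hσ hj P.hu ?_
  linear_combination ((1 + 5 * j) ^ 2 * P.v ^ 2) * P.hρ - (50 * P.v ^ 2) * hj + ((12 - 5 * j) * (2 * P.v + 1)) * P.hv

theorem units : S.red P.u ≠ 0 ∧ S.red (1 - P.u) ≠ 0 := z_units S (p := p) (by have := P.hbig; omega) P.hM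

theorem rho_ne : P.ρ ≠ 0 := by
  have := P.chO
  intro h
  have h1 := P.hρ
  rw [h] at h1
  have : (2 : O) = 0 := by linear_combination h1
  norm_num at this

theorem h26 {j : O} (hj : j ^ 2 = -1) : S.red (1 + 5 * j) ≠ 0 := by
  refine S.ne_mul (p := p) (y := 1 - 5 * j) (n := 26) ?_ (P.ndvd [(2, 1), (13, 1)] (by simp; norm_num) (by norm_num))
  push_cast; linear_combination -25 * hj

/-- first class -/
theorem classA [IsAlgClosed k] {j : O} (hj : j ^ 2 = -1) (hσp : S.red P.σ ^ p = S.red P.σ) {x y : ℤ}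
    (hxy : (p : ℤ) = x ^ 2 + 25 * y ^ 2) (hred : S.red ((x : O) + y * (5 * j)) = 0) :
    ∃ ε w : O, (ε = 1 ∨ ε = -1) ∧ w * ((x : O) - y * (5 * j)) = 1 ∧
      S.q ∣ ε * w * (Sp P.s p).eval P.r - P.r ^ D ∧ S.q ^ 2 ∣ (ε * w * (Sp P.s p).eval P.r) ^ 4 - 1 := by
  have hb := P.hbig
  have hchO := P.chO
  obtain ⟨hz, hz1⟩ := P.units
  have hp2 : p ≠ 2 := by omega
  have h20 : (20 : k) ≠ 0 := by
    have := small_ne (k := k) (p := p) (n := 20) (by norm_num) (by omega)
    exact_mod_cast this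
  have f20 : (20 : k) ^ p = 20 := by
    have h := frobenius_def (R := k) p 20
    rw [← h, map_ofNat]
  have f9 : (9 : k) ^ p = 9 := by
    have h := frobenius_def (R := k) p 9
    rw [← h, map_ofNat]
  have hr' : S.red P.r = S.red P.r ^ p := by
    have h1 := congrArg S.red P.hr
    rw [map_mul, map_mul, map_ofNat, map_ofNat] at h1
    have h2 := congrArg (fun x => x ^ p) h1
    simp only [mul_pow] at h2
    rw [f20, f9, hσp] at h2
    apply mul_left_cancel₀ h20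
    rw [h1, h2]
  have hz' : S.red P.u = S.red P.u ^ p := by
    have h720 : S.red 720 ≠ 0 := by
      refine S.ne_mul (p := p) (y := 1) (n := 720) (by push_cast; ring)
        (P.ndvd [(2, 4), (3, 2), (5, 1)] (by simp; norm_num) (by norm_num))
    rw [map_ofNat] at h720
    have h1 := congrArg S.red P.hu
    rw [map_mul, map_sub, map_mul, map_ofNat, map_ofNat, map_ofNat] at h1
    have h2 := congrArg (fun x => x ^ p) h1
    have fr : ∀ n : ℕ, (n : k) ^ p = n := fun n => by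
      have h := frobenius_def (R := k) p n
      rw [← h, map_natCast]
    have f720 : (720 : k) ^ p = 720 := by exact_mod_cast fr 720
    have f360 : (360 : k) ^ p = 360 := by exact_mod_cast fr 360
    have f161 : (161 : k) ^ p = 161 := by exact_mod_cast fr 161

    rw [mul_pow, sub_pow_char, mul_pow, f720, f360, f161, hσp] at h2
    apply mul_left_cancel₀ h720
    rw [h1, h2]
  have hO : (p : O) = (x : O) ^ 2 + 25 * (y : O) ^ 2 := by
    have := congrArg (Int.cast : ℤ → O) hxy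
    push_cast at this; exact this
  have dd := Dat.mu S (z := 1 - P.u) (P.psi hj) P.two P.three hz1 P.hρ
  have hμρ : -((1 + 5 * j) * P.ρ * P.v) * P.ρ = 1 + 5 * j := by
    linear_combination (-(1 + 5 * j) * P.v) * P.hρ + (1 + 5 * j) * P.hv
  rw [hμρ, sub_sub_cancel] at dd
  obtain ⟨w, hw⟩ := (S.red_iff _).mp hred
  rw [P.hq] at hw
  have hp0 : (p : O) ≠ 0 := by rw [← P.hq]; exact S.q_ne
  have hw1 : w * ((x : O) - y * (5 * j)) = 1 := by
    apply mul_left_cancel₀ hp0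
    linear_combination (-((x : O) - y * (5 * j))) * hw - hO - 25 * (y : O) ^ 2 * hj
  have hwr : S.red w ≠ 0 := by
    intro h0
    have := congrArg S.red hw1
    rw [map_mul, h0, zero_mul, map_one] at this
    exact zero_ne_one this
  have h1τ0 : (1 + 5 * j : O) ≠ 0 := fun h0 => P.h26 hj (by rw [h0, map_zero])
  have hform : (p : ℤ) = (x - y) ^ 2 * ((1 : ℕ) : ℤ) + (x - y) * y * 2 + y ^ 2 * ((2 * 13 : ℕ) : ℤ) := by
    rw [hxy]; push_cast; ring
  have hl2 : ¬ (p : ℤ) ∣ ((2 * 13 : ℕ) : ℤ) := P.ndvd [(2, 1), (13, 1)] (by simp; norm_num) (by norm_num)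
  have hl1 : ¬ (p : ℤ) ∣ ((1 : ℕ) : ℤ) := P.ndvd [] (by simp) (by norm_num)
  obtain ⟨N, D', M, g1, g2, g3, g4, g5, g6⟩ := lift4_data S (p := p) (by omega) P.hq hz hz1 hz'
    (qa_ne S P.hM (P.ndvd [(2, 10), (3, 8), (11, 1), (59, 1), (71, 1)] (by simp; norm_num) (by norm_num)))
    (qb_ne S P.hM (P.ndvd [(2, 14), (3, 10), (7, 2), (11, 1), (19, 1)] (by simp; norm_num) (by norm_num)))
    (m1 := 1) (m2 := 1 + 5 * j) (l1 := 1) (l2 := 2 * 13) one_ne_zero h1τ0 (Dat.id S _ _) dd (x - y) y 2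
    hform (form_ndvd hform hl2) (form_ndvd (r := y) (s := x - y) (t0 := 2) (l1 := ((2 * 13 : ℕ) : ℤ)) (l2 := ((1 : ℕ) : ℤ))
      (by rw [hform]; ring) hl1) (by norm_num) (by nlinarith) (w := w) (by rw [← hw]; push_cast; ring) hwr
  obtain ⟨ε, hε, c1, c2⟩ := core S P.hD P.hq P.hv P.hs0 P.hs P.r_u P.r_u hr' P.r0 P.r1 P.r2 hwr g1 g2 g3 g4 g5 g6
  refine ⟨ε, w, hε, hw1, c1, ?_⟩
  refine ((S.unit_of_red P.r0).dvd_mul_left).mp ?_
  have e : P.r * ((ε * w * (Sp P.s p).eval P.r) ^ 4 - 1) = P.r * (ε * w * (Sp P.s p).eval P.r) ^ 4 - P.r := by ring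
  rw [e]; exact c2

/-- second class -/
theorem classB [IsAlgClosed k] {j : O} (hj : j ^ 2 = -1) (hσp : S.red P.σ ^ p = -S.red P.σ) {x y : ℤ}
    (hxy : (2 * p : ℤ) = x ^ 2 + 25 * y ^ 2) (hred : S.red ((x : O) - y * (5 * j)) = 0) :
    ∃ ε w : O, (ε = 1 ∨ ε = -1) ∧ w * ((x : O) + y * (5 * j)) = P.ρ ∧
      S.q ∣ ε * w * (Sp P.s p).eval P.r - P.r ^ D ∧ S.q ^ 2 ∣ (ε * w * (Sp P.s p).eval P.r) ^ 4 + 1 := by
  have hb := P.hbig
  have hchO := P.chO
  obtain ⟨hz, hz1⟩ := P.units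
  have hp2 : p ≠ 2 := by omega
  have h2O : (2 : O) ≠ 0 := by norm_num
  have h20 : (20 : k) ≠ 0 := by
    have := small_ne (k := k) (p := p) (n := 20) (by norm_num) (by omega)
    exact_mod_cast this
  have fr : ∀ n : ℕ, (n : k) ^ p = n := fun n => by
    have h := frobenius_def (R := k) p n
    rw [← h, map_natCast]
  have f20 : (20 : k) ^ p = 20 := by exact_mod_cast fr 20
  have f9 : (9 : k) ^ p = 9 := by exact_mod_cast fr 9
  have hr' : S.red (-P.r) = S.red P.r ^ p := by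
    have h1 := congrArg S.red P.hr
    rw [map_mul, map_mul, map_ofNat, map_ofNat] at h1
    have h2 := congrArg (fun x => x ^ p) h1
    simp only [mul_pow] at h2
    rw [f20, f9, hσp] at h2
    apply mul_left_cancel₀ h20
    rw [h2, map_neg]
    linear_combination -h1
  have hz' : S.red (1 - P.u) = S.red P.u ^ p := by
    have h720 : S.red 720 ≠ 0 := by
      refine S.ne_mul (p := p) (y := 1) (n := 720) (by push_cast; ring)
        (P.ndvd [(2, 4), (3, 2), (5, 1)] (by simp; norm_num) (by norm_num))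
    rw [map_ofNat] at h720
    have h1 := congrArg S.red P.hu
    rw [map_mul, map_sub, map_mul, map_ofNat, map_ofNat, map_ofNat] at h1
    have h2 := congrArg (fun x => x ^ p) h1
    have f720 : (720 : k) ^ p = 720 := by exact_mod_cast fr 720
    have f360 : (360 : k) ^ p = 360 := by exact_mod_cast fr 360
    have f161 : (161 : k) ^ p = 161 := by exact_mod_cast fr 161

    rw [mul_pow, sub_pow_char, mul_pow, f720, f360, f161, hσp] at h2
    apply mul_left_cancel₀ h720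
    rw [h2, map_sub, map_one]
    linear_combination -h1
  have hO : 2 * (p : O) = (x : O) ^ 2 + 25 * (y : O) ^ 2 := by
    have := congrArg (Int.cast : ℤ → O) hxy
    push_cast at this; exact this
  have hpar : (x + y) % 2 = 0 := by
    have h1 : (x ^ 2 + 25 * y ^ 2) % 2 = 0 := by omega
    have hx : x % 2 = 0 ∨ x % 2 = 1 := by omega
    have hy : y % 2 = 0 ∨ y % 2 = 1 := by omega
    rcases hx with hx | hx <;> rcases hy with hy | hy
    · omega
    · exfalso; rw [pow_two, pow_two, Int.add_emod, Int.mul_emod, Int.mul_emod 25, Int.mul_emod y y, hx, hy] at h1; omega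
    · exfalso; rw [pow_two, pow_two, Int.add_emod, Int.mul_emod, Int.mul_emod 25, Int.mul_emod y y, hx, hy] at h1; omega
    · omega
  obtain ⟨a, ha⟩ : ∃ a, 2 * a = x + y := ⟨(x + y) / 2, by omega⟩
  have haO : 2 * (a : O) = x + y := by
    have := congrArg (Int.cast : ℤ → O) ha
    push_cast at this; exact this
  have dν := Dat.mu S (z := P.u) (m := 1) (r := P.ρ) (l := 1) (Dat.id S (qa P.u) (qb P.u)) P.two P.three hz P.hρ
  have hal : 2 * ((a : O) * (1 * P.ρ) + (y : O) * (-((1 + 5 * j) * P.ρ * P.v))) = P.ρ * ((x : O) - y * (5 * j)) := by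
    linear_combination P.ρ * haO - (y : O) * (1 + 5 * j) * P.ρ * P.hv
  have hred' : S.red ((a : O) * (1 * P.ρ) + (y : O) * (-((1 + 5 * j) * P.ρ * P.v))) = 0 := by
    have h1 := congrArg S.red hal
    rw [map_mul, map_mul S.red P.ρ, hred, mul_zero, map_ofNat] at h1
    exact (mul_eq_zero.mp h1).resolve_left P.two
  obtain ⟨w, hw⟩ := (S.red_iff _).mp hred'
  rw [P.hq] at hw
  have hp0 : (p : O) ≠ 0 := by rw [← P.hq]; exact S.q_ne
  have hw1 : w * ((x : O) + y * (5 * j)) = P.ρ := by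
    apply mul_left_cancel₀ (mul_ne_zero h2O hp0)
    linear_combination (-2 * ((x : O) + y * (5 * j))) * hw + ((x : O) + y * (5 * j)) * hal - P.ρ * hO - 25 * P.ρ * (y : O) ^ 2 * hj
  have hρr : S.red P.ρ ≠ 0 := by
    refine S.ne_mul (p := p) (y := P.ρ) (n := -2) (by push_cast; linear_combination P.hρ) ?_
    exact P.ndvd [(2, 1)] (by simp; norm_num) (by norm_num)
  have hwr : S.red w ≠ 0 := by
    intro h0
    have := congrArg S.red hw1
    rw [map_mul, h0, zero_mul] at this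
    exact hρr this.symm
  have h1τ0 : (1 + 5 * j : O) ≠ 0 := fun h0 => P.h26 hj (by rw [h0, map_zero])
  have hv0 : P.v ≠ 0 := by
    intro h0
    have := P.hv
    rw [h0, mul_zero] at this
    exact zero_ne_one this
  have hμ0 : -((1 + 5 * j) * P.ρ * P.v) ≠ 0 := neg_ne_zero.mpr (mul_ne_zero (mul_ne_zero h1τ0 P.rho_ne) hv0)
  have hform : (p : ℤ) = a ^ 2 * ((2 * 1 : ℕ) : ℤ) + a * y * (-2) + y ^ 2 * ((13 : ℕ) : ℤ) := by
    have h2 : x = 2 * a - y := by omega
    have h3 : 2 * (p : ℤ) = 2 * (a ^ 2 * ((2 * 1 : ℕ) : ℤ) + a * y * (-2) + y ^ 2 * ((13 : ℕ) : ℤ)) := by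
      rw [hxy, h2]; push_cast; ring
    omega
  have hl2 : ¬ (p : ℤ) ∣ ((13 : ℕ) : ℤ) := P.ndvd [(13, 1)] (by simp; norm_num) (by norm_num)
  have hl1 : ¬ (p : ℤ) ∣ ((2 * 1 : ℕ) : ℤ) := P.ndvd [(2, 1)] (by simp; norm_num) (by norm_num)
  obtain ⟨N, D', M, g1, g2, g3, g4, g5, g6⟩ := lift4_data S (p := p) (by omega) P.hq hz hz1 hz'
    (qa_ne S P.hM (P.ndvd [(2, 10), (3, 8), (11, 1), (59, 1), (71, 1)] (by simp; norm_num) (by norm_num)))
    (qb_ne S P.hM (P.ndvd [(2, 14), (3, 10), (7, 2), (11, 1), (19, 1)] (by simp; norm_num) (by norm_num)))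
    (m1 := 1 * P.ρ) (m2 := -((1 + 5 * j) * P.ρ * P.v)) (l1 := 2 * 1) (l2 := 13)
    (mul_ne_zero one_ne_zero P.rho_ne) hμ0 dν (P.psi hj) a y (-2)
    hform (form_ndvd hform hl2) (form_ndvd (r := y) (s := a) (t0 := -2) (l1 := ((13 : ℕ) : ℤ)) (l2 := ((2 * 1 : ℕ) : ℤ))
      (by rw [hform]; ring) hl1) (by norm_num) (by nlinarith) (w := w) hw hwr
  obtain ⟨ε, hε, c1, c2⟩ := core S P.hD P.hq P.hv P.hs0 P.hs P.r_u P.r_u' hr' P.r0 P.r1 P.r2 hwr g1 g2 g3 g4 g5 g6
  refine ⟨ε, w, hε, hw1, c1, ?_⟩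
  refine ((S.unit_of_red P.r0).dvd_mul_left).mp ?_
  have e : P.r * ((ε * w * (Sp P.s p).eval P.r) ^ 4 + 1) = P.r * (ε * w * (Sp P.s p).eval P.r) ^ 4 - -P.r := by ring
  rw [e]; exact c2

end Pt100

end Pool.Agent.H39
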