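import Pool.Agent.H39.Leg2
import Pool.Agent.H546.K2e

set_option autoImplicit false

/-!
# The truncated sum at a CM point
-/

namespace Pool.Agent.H39

open Polynomial Finset
open Pool.Agent.H546

variable {O K k : Type*} [CommRing O] [IsDomain O] [Field K] [Algebra O K] [Field k]
  (S : DV O K k) {p D : ℕ} [hp : Fact p.Prime] [CharP k p]

include S in
/-- the purely algebraic part -/
theorem alg_core {q r r' ρ T L0 e E a b c Sg u' fp f1 f2 f3 f4 rD : O}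
    (h1 : E * (3 * a + c) - 4 = q ^ 2 * f1) (h2 : 16 * (E * b) * u' - 12 * u' - fp = q ^ 2 * f2)
    (h3 : 3 * ρ * (rD * a) + ρ * (rD * c) + 2 * (1 - ρ) * (rD * b) - q * L0 * (rD * a) - 2 * (1 + ρ) * Sg = q ^ 2 * f3)
    (h4 : c = a + q * f4) (hT : T = 1 - ρ + q * L0) (hρ : r' = ρ - q * e) (hfp : fp * ρ = -T ^ 2)
    (hu' : 4 * r' * u' = -(1 - r') ^ 2) :
    q ^ 2 ∣ 4 * ((1 + ρ) * ((1 - r') ^ 2 * ρ)) * (4 * r' * (E * Sg) - rD * (5 * r' - ρ)) := by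
  have s1 : 8 * (1 + ρ) * (E * Sg) = rD * (16 * ρ - 4 * (q * L0) + 8 * (1 - ρ) * (E * b)) +
      q ^ 2 * (rD * (-L0 * (q * f1 - E * f4) + 4 * ρ * f1) - 4 * E * f3) := by
    linear_combination (-4 * E) * h3 + (4 * rD * ρ - rD * q * L0) * h1 + rD * q * L0 * E * h4
  have s2 : 16 * (E * b) * ((1 - r') ^ 2 * ρ) = 12 * ((1 - r') ^ 2 * ρ) + 4 * r' * T ^ 2 - 4 * r' * ρ * q ^ 2 * f2 := by
    linear_combination (-4 * r' * ρ) * h2 + (16 * E * b * ρ - 12 * ρ) * hu' - 4 * r' * hfp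
  have s3 : r' * (2 * (4 * ρ - q * L0) * ((1 - r') ^ 2 * ρ) + (1 - ρ) * (3 * ((1 - r') ^ 2 * ρ) + r' * T ^ 2)) -
      (1 + ρ) * ((1 - r') ^ 2 * ρ) * (5 * r' - ρ) =
      q ^ 2 * (e ^ 2 * (-4*ρ^2*(q * L0) + -2*ρ^2 + 2*ρ*(q * e)*(q * L0) + 2*ρ*(q * e) + -1*ρ*(q * L0)^2 + 1*ρ + 1*(q * L0)^2 + 2*(q * L0) + 1) +
        e * L0 * (2*ρ^3 + 2*ρ^2*(q * L0) + -2*ρ*(q * L0) + -2*ρ) + L0 ^ 2 * (-1*ρ^3 + 1*ρ^2)) := by
    rw [hT, hρ]; ring
  refine ⟨4 * rD * (e ^ 2 * (-4*ρ^2*(q * L0) + -2*ρ^2 + 2*ρ*(q * e)*(q * L0) + 2*ρ*(q * e) + -1*ρ*(q * L0)^2 + 1*ρ + 1*(q * L0)^2 + 2*(q * L0) + 1) +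
        e * L0 * (2*ρ^3 + 2*ρ^2*(q * L0) + -2*ρ*(q * L0) + -2*ρ) + L0 ^ 2 * (-1*ρ^3 + 1*ρ^2)) +
      2 * r' * ((1 - r') ^ 2 * ρ) * (rD * (-L0 * (q * f1 - E * f4) + 4 * ρ * f1) - 4 * E * f3) -
      4 * r' * rD * (1 - ρ) * r' * ρ * f2, ?_⟩
  linear_combination (2 * r' * ((1 - r') ^ 2 * ρ)) * s1 + (r' * rD * (1 - ρ)) * s2 + 4 * rD * s3

theorem core (hD : p = 4 * D + 1) (hq : S.q = (p : O)) {v : O} (hv : 2 * v = 1) {s : ℕ → O} (hs0 : s 0 = 1)
    (hs : ∀ n, n + 1 < p → 8 * ((n : O) + 1) ^ 2 * s (n + 1) = (4 * (n : O) + 1) * (2 * (n : O) + 1) * s n)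
    {r r' u u' w : O} (hu : 4 * r * u = -(1 - r) ^ 2) (hu' : 4 * r' * u' = -(1 - r') ^ 2)
    (hr' : S.red r' = S.red r ^ p) (r0 : S.red r ≠ 0) (r1 : S.red (1 - r) ≠ 0) (r2 : S.red (1 + r) ≠ 0)
    (hw : S.red w ≠ 0) {N D' M : O[X]} (hN : N.map S.red = X ^ p) (hD' : D'.map S.red = 1)
    (hNd : N.natDegree ≤ p) (hDd : D'.natDegree < p) (hwr : wr N D' = C S.q * M)
    (ode : gv u * M ^ 2 = C w ^ 2 * tv u' N D') :
    ∃ ε : O, (ε = 1 ∨ ε = -1) ∧ S.q ∣ ε * w * (Sp s p).eval r - r ^ D ∧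
      S.q ^ 2 ∣ r * (ε * w * (Sp s p).eval r) ^ 4 - r' := by
  have hp2 : p ≠ 2 := by omega
  have hD0 : 0 < D := by
    rcases Nat.eq_zero_or_pos D with h | h
    · rw [h] at hD; exact absurd hp.out (by rw [hD]; norm_num)
    · exact h
  have hodd : Odd p := hp.out.odd_of_ne_two hp2
  haveI := charZero_O S (p := p) hq
  have t2 := S.two_ne (p := p) hp2
  have h2k : (2 : k) ≠ 0 := by rwa [map_ofNat] at t2
  have h4k : (4 : k) ≠ 0 := by
    have : (4 : k) = 2 * 2 := by norm_num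
    rw [this]; exact mul_ne_zero h2k h2k
  have fr4 : (4 : k) ^ p = 4 := by
    have h := frobenius_def (R := k) p 4
    rw [← h, map_ofNat]
  -- reductions of `u`, `u'`
  have e1 : 4 * S.red r * S.red u = -(1 - S.red r) ^ 2 := by
    have := congrArg S.red hu
    simpa only [map_mul, map_neg, map_pow, map_sub, map_one, map_ofNat] using this
  have e2 : 4 * S.red r' * S.red u' = -(1 - S.red r') ^ 2 := by
    have := congrArg S.red hu'
    simpa only [map_mul, map_neg, map_pow, map_sub, map_one, map_ofNat] using this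
  have r1' : 1 - S.red r ≠ 0 := by rwa [map_sub, map_one] at r1
  have hz : S.red u ≠ 0 := by
    intro h0
    rw [h0, mul_zero] at e1
    exact pow_ne_zero 2 r1' (by linear_combination e1)
  have fp1 : (1 - S.red r) ^ p = 1 - S.red r ^ p := by rw [sub_pow_char, one_pow]
  have hz' : S.red u' = S.red u ^ p := by
    have h1 := congrArg (fun x => x ^ p) e1
    simp only [mul_pow] at h1
    rw [fr4, hodd.neg_pow, ← pow_mul, mul_comm 2 p, pow_mul, fp1] at h1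
    rw [hr'] at e2
    apply mul_left_cancel₀ (mul_ne_zero h4k (pow_ne_zero p r0))
    rw [e2, h1]
  have ex : ∃ L : O[X], C S.q * L = (1 - X) ^ p - 1 + X ^ p := by
    obtain ⟨L, hL⟩ := S.dvd_of_map (P := (1 - X) ^ p - 1 + X ^ p) (by
      simp only [Polynomial.map_add, Polynomial.map_sub, Polynomial.map_pow, Polynomial.map_one, Polynomial.map_X]
      rw [sub_pow_char, one_pow]; ring)
    exact ⟨L, hL.symm⟩
  obtain ⟨L, hL⟩ := ex
  obtain ⟨Q, hQ⟩ := idX S hD hq hv hs0 hs hL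
  obtain ⟨ε, hε, -, h4, h2⟩ := key42v S hp2 hq hz hz' hw hN hD' hNd hDd hwr ode (cs_sq u) (cs_const u)
  have p4 : p / 4 = D := by omega
  have p34 : 3 * p / 4 = 3 * D := by omega
  rw [cs4_coeff1 u p (by omega), cs4_coeff3 u (3 * p) (by omega), p4, p34, ← hq] at h4
  rw [show p - 1 = 2 * (2 * D) by omega, cs_coeff, ← hq] at h2
  obtain ⟨f1, h1'⟩ := h4
  obtain ⟨f2, h2'⟩ := h2
  have h3' := congrArg (fun P => P.eval r) hQ
  have hLe := congrArg (fun P => P.eval r) hL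
  simp only [eval_add, eval_sub, eval_mul, eval_pow, eval_X, eval_C, eval_one, eval_ofNat] at h3' hLe
  rw [← Pn_lg hv hu, ← Pn_lg hv hu, ← Gp_bb hv hu] at h3'
  have h5 : S.red (lg (3 * D) u - lg D u) = 0 := by
    have := lg_34 (k := k) (p := p) hp2 (S.red u)
    rw [p4, p34] at this
    rw [map_sub, lg_cast, lg_cast, this, sub_self]
  obtain ⟨f4, h4'⟩ := (S.red_iff _).mp h5
  have h6 : S.red (r ^ p - r') = 0 := by rw [map_sub, map_pow, hr', sub_self]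
  obtain ⟨e, he⟩ := (S.red_iff _).mp h6
  have hfp : (4 * u) ^ p * r ^ p = -((1 - r) ^ p) ^ 2 := by
    rw [← mul_pow, show 4 * u * r = 4 * r * u by ring, hu, hodd.neg_pow, ← pow_mul, ← pow_mul, mul_comm 2 p]
  have hrr : r ^ (2 * D + 1) * r ^ (3 * D) = r ^ p * r ^ D := by
    rw [← pow_add, ← pow_add]; congr 1; omega
  have hdv := alg_core S (q := S.q) (r := r) (r' := r') (ρ := r ^ p) (T := (1 - r) ^ p) (L0 := L.eval r) (e := e) (E := ε * w)
    (a := lg D u) (b := bb (2 * D) u) (c := lg (3 * D) u) (Sg := (Sp s p).eval r) (u' := u') (fp := (4 * u) ^ p)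
    (f1 := f1) (f2 := f2) (f3 := Q.eval r) (f4 := f4) (rD := r ^ D)
    (by linear_combination h1') h2' (by linear_combination h3' - lg (3 * D) u * hrr) (by linear_combination h4') (by linear_combination -hLe)
    (by linear_combination -he) hfp hu'
  -- the units
  have uρ : S.red (r ^ p) ≠ 0 := by rw [map_pow]; exact pow_ne_zero _ r0
  have u1 : S.red (1 + r ^ p) ≠ 0 := by
    have : S.red (1 + r ^ p) = S.red (1 + r) ^ p := by
      rw [map_add, map_add, map_pow, map_one, add_pow_char, one_pow]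
    rw [this]; exact pow_ne_zero _ r2
  have u2 : S.red (1 - r') ≠ 0 := by
    have : S.red (1 - r') = S.red (1 - r) ^ p := by
      rw [map_sub, map_sub, map_one, sub_pow_char, one_pow, hr']
    rw [this]; exact pow_ne_zero _ r1
  have uu : IsUnit (4 * ((1 + r ^ p) * ((1 - r') ^ 2 * r ^ p))) := by
    apply S.unit_of_red
    rw [map_mul, map_mul, map_mul, map_pow, map_ofNat]
    exact mul_ne_zero h4k (mul_ne_zero u1 (mul_ne_zero (pow_ne_zero _ u2) uρ))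
  obtain ⟨g, hg⟩ := (uu.dvd_mul_left).mp hdv
  have u4r : S.red (4 * r') ≠ 0 := by
    rw [map_mul, map_ofNat, hr']; exact mul_ne_zero h4k (pow_ne_zero _ r0)
  refine ⟨ε, hε, ?_, ?_⟩
  · refine ((S.unit_of_red u4r).dvd_mul_left).mp ⟨S.q * g - r ^ D * e, ?_⟩
    linear_combination hg - r ^ D * he
  · have u256 : S.red ((4 * r') ^ 4) ≠ 0 := by rw [map_pow]; exact pow_ne_zero _ u4r
    refine ((S.unit_of_red u256).dvd_mul_left).mp ?_
    -- `(4 r' Z)^4 = (r^D (4 r' - q e))^4` modulo `q²`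
    set Z := ε * w * (Sp s p).eval r with hZ
    have hr4 : r * (r ^ D) ^ 4 = r ^ p := by
      rw [← pow_mul, ← pow_succ', show D * 4 + 1 = p by omega]
    have hg' : 4 * r' * Z = r ^ D * (4 * r' - S.q * e) + S.q ^ 2 * g := by
      linear_combination hg - r ^ D * he
    have hx : (4 * r' * Z) ^ 4 = (r ^ D * (4 * r' - S.q * e)) ^ 4 + S.q ^ 2 * (g * (4 * (r ^ D * (4 * r' - S.q * e)) ^ 3 +
        6 * (r ^ D * (4 * r' - S.q * e)) ^ 2 * (S.q ^ 2 * g) + 4 * (r ^ D * (4 * r' - S.q * e)) * (S.q ^ 2 * g) ^ 2 + (S.q ^ 2 * g) ^ 3)) := by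
      rw [hg']; ring
    have he' : r ^ p = r' + S.q * e := by linear_combination he
    refine ⟨r * (g * (4 * (r ^ D * (4 * r' - S.q * e)) ^ 3 +
        6 * (r ^ D * (4 * r' - S.q * e)) ^ 2 * (S.q ^ 2 * g) + 4 * (r ^ D * (4 * r' - S.q * e)) * (S.q ^ 2 * g) ^ 2 + (S.q ^ 2 * g) ^ 3)) +
        (r' * (96 * r' ^ 2 - 16 * r' * (S.q * e) + (S.q * e) ^ 2) * e ^ 2 + e ^ 2 * (-256 * r' ^ 3 + 96 * r' ^ 2 * (S.q * e) - 16 * r' * (S.q * e) ^ 2 + (S.q * e) ^ 3)), ?_⟩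
    have hy : r * (r ^ D * (4 * r' - S.q * e)) ^ 4 = (r' + S.q * e) * (4 * r' - S.q * e) ^ 4 := by
      rw [mul_pow, ← mul_assoc, hr4, he']
    linear_combination r * hx + hy
end Pool.Agent.H39
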