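import Pool.Agent.H39.Cm

set_option autoImplicit false

/-!
# Discriminant `-100`: comparison with `p = X² + Y²`
-/

namespace Pool.Agent.H39

open Polynomial Finset
open Pool.Agent.H546

/-- the quartic character of five -/
def Q5 (p D : ℕ) : Prop := ∀ x y : ℤ, (p : ℤ) = x ^ 2 + y ^ 2 → x % 2 = 1 → ∀ I : ZMod p, (x : ZMod p) + I * y = 0 →
  ((5 : ℤ) ∣ y → (5 : ZMod p) ^ D = 1) ∧ ((5 : ℤ) ∣ x → (5 : ZMod p) ^ D = -1) ∧ ((5 : ℤ) ∣ x + y → (5 : ZMod p) ^ D = -I)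

variable {O K k : Type*} [CommRing O] [IsDomain O] [Field K] [Algebra O K] [Field k]
  {S : DV O K k} {p D : ℕ} [hp : Fact p.Prime] [CharP k p]

namespace Pt100

variable (P : Pt100 S p D)

include P

theorem twoO : S.red 2 ≠ 0 := by rw [map_ofNat]; exact P.two

theorem rj {j : O} (hj : j ^ 2 = -1) : S.red j ≠ 0 := by
  intro h0
  have := congrArg S.red hj
  rw [map_pow, h0, map_neg, map_one] at this
  simp at this

/-- the final comparison -/
theorem fm {Sg j : O} (hj : j ^ 2 = -1) {a b η : ℤ} (hab : (p : ℤ) = a ^ 2 + b ^ 2)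
    (hred : S.red ((a : O) - b * j) = 0) (h : S.q ^ 2 ∣ Sg - η * ((a : O) + b * j)) :
    (p : O) ^ 2 ∣ (((2 * a : ℤ)) : O) * Sg - ((η * (4 * a ^ 2 - p) : ℤ) : O) := by
  obtain ⟨g, hg⟩ := (S.red_iff _).mp hred
  obtain ⟨f, hf⟩ := h
  rw [P.hq] at hg hf
  have hO : (p : O) = (a : O) ^ 2 + (b : O) ^ 2 := by
    have := congrArg (Int.cast : ℤ → O) hab
    push_cast at this; exact this
  refine ⟨2 * a * f - η * g ^ 2, ?_⟩
  have h1 : ((a : O) - b * j) ^ 2 = (p : O) ^ 2 * g ^ 2 := by rw [hg]; ring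
  push_cast
  linear_combination 2 * (a : O) * hf - (η : O) * h1 + (η : O) * hO + (η : O) * (b : O) ^ 2 * hj

/-- sign selection: from `Z = ± c` to the sum -/
theorem sel {Z c : O} (hc : S.red (2 * c) ≠ 0) (h : S.q ^ 2 ∣ Z ^ 2 - c ^ 2) :
    ∃ η : ℤ, (η = 1 ∨ η = -1) ∧ S.q ^ 2 ∣ Z - η * c := by
  rcases sq_root S hc h with h | h
  · exact ⟨1, Or.inl rfl, by rw [Int.cast_one, one_mul]; exact h⟩
  · exact ⟨-1, Or.inr rfl, by
      have : Z - ((-1 : ℤ) : O) * c = Z + c := by push_cast; ring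
      rw [this]; exact h⟩

/-- the residue of `Z²` -/
theorem zres {Z : O} (h : S.q ∣ Z - P.r ^ D) : S.red Z ^ 2 * (5 : k) ^ D = 1 := by
  have h1 : S.red Z = S.red P.r ^ D := by
    have := (S.red_iff _).mpr h
    rw [map_sub, map_pow, sub_eq_zero] at this
    exact this
  rw [h1, ← pow_mul, mul_comm D 2]
  exact P.r_pow

theorem ne_of {X Y : ℤ} (hXY : (p : ℤ) = X ^ 2 + Y ^ 2) : ¬ (p : ℤ) ∣ Y := by
  rintro ⟨c, rfl⟩
  have hp0 : (0 : ℤ) < p := by exact_mod_cast hp.out.pos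
  have h1 : (p : ℤ) ∣ X ^ 2 := ⟨1 - p * c ^ 2, by linear_combination -hXY⟩
  obtain ⟨d, rfl⟩ := Int.Prime.dvd_pow' hp.out h1
  have h2 : (p : ℤ) * (p * (d ^ 2 + c ^ 2)) = p * 1 := by linear_combination -hXY
  have h3 := mul_left_cancel₀ hp0.ne' h2
  have h4 : (p : ℤ) ∣ 1 := ⟨_, h3.symm⟩
  have h5 := Int.le_of_dvd one_pos h4
  have := P.hbig
  omega

theorem main_one [IsAlgClosed k] (hQ : Q5 p D) {j0 : O} (hj0 : j0 ^ 2 = -1) {X Y : ℤ}
    (hXY : (p : ℤ) = X ^ 2 + Y ^ 2) (hX : X % 2 = 1) (h5 : p % 5 = 1 ∨ p % 5 = 4) :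
    ∃ η : ℤ, (η = 1 ∨ η = -1) ∧ (p : O) ^ 2 ∣ (((2 * X : ℤ)) : O) * (Sp P.s p).eval P.r - ((η * (4 * X ^ 2 - p) : ℤ) : O) := by
  have hb := P.hbig
  have hp2 : p ≠ 2 := by omega
  have hO : (p : O) = (X : O) ^ 2 + (Y : O) ^ 2 := by
    have := congrArg (Int.cast : ℤ → O) hXY
    push_cast at this; exact this
  -- the Frobenius
  have hσp : S.red P.σ ^ p = S.red P.σ := by
    have h := S.frob_sq (p := p) hp2 (d := 5) (y := P.σ) (by rw [P.hσ]; norm_num)
    rw [leg5 (by omega), if_pos h5, Int.cast_one, one_mul] at h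
    exact h
  -- the square root of -1
  obtain ⟨j, hj, hred⟩ : ∃ j : O, j ^ 2 = -1 ∧ S.red ((X : O) + Y * j) = 0 := by
    have h0 : S.red ((X : O) + Y * j0) * S.red ((X : O) + Y * (-j0)) = 0 := by
      rw [← map_mul]
      have : ((X : O) + Y * j0) * ((X : O) + Y * (-j0)) = S.q := by
        rw [P.hq]; linear_combination -hO - (Y : O) ^ 2 * hj0
      rw [this, S.red_q]
    rcases mul_eq_zero.mp h0 with h | h
    · exact ⟨j0, hj0, h⟩
    · exact ⟨-j0, by rw [neg_sq, hj0], h⟩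
  have hYk : (Y : k) ≠ 0 := fun h => P.ne_of hXY ((CharP.intCast_eq_zero_iff k p Y).mp h)
  have hYz : (Y : ZMod p) ≠ 0 := fun h => P.ne_of hXY ((ZMod.intCast_zmod_eq_zero_iff_dvd Y p).mp h)
  obtain ⟨q1, q2, -⟩ := hQ X Y hXY hX (-(X : ZMod p) * (Y : ZMod p)⁻¹) (by
    rw [mul_assoc, inv_mul_cancel₀ hYz, mul_one, add_neg_cancel])
  let f : ZMod p →+* k := ZMod.castHom (dvd_refl p) k
  have h5Y : (5 : ℤ) ∣ Y ∨ (5 : ℤ) ∣ X := by
    have h1 : (X ^ 2 + Y ^ 2) % 5 = 1 ∨ (X ^ 2 + Y ^ 2) % 5 = 4 := by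
      rw [← hXY]; omega
    have hx := Int.emod_nonneg X (by norm_num : (5 : ℤ) ≠ 0)
    have hx' := Int.emod_lt_of_pos X (by norm_num : (0 : ℤ) < 5)
    have hy := Int.emod_nonneg Y (by norm_num : (5 : ℤ) ≠ 0)
    have hy' := Int.emod_lt_of_pos Y (by norm_num : (0 : ℤ) < 5)
    rw [Int.add_emod, pow_two, pow_two, Int.mul_emod X X, Int.mul_emod Y Y] at h1
    generalize hxe : X % 5 = a at *
    generalize hye : Y % 5 = b at *
    rw [Int.dvd_iff_emod_eq_zero, Int.dvd_iff_emod_eq_zero, hxe, hye]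
    interval_cases a <;> interval_cases b <;> simp at h1 ⊢
  rcases h5Y with ⟨y, hy⟩ | ⟨x, hx⟩
  · -- `5 ∣ Y`
    have hyO : (Y : O) = 5 * y := by rw [hy]; push_cast; ring
    obtain ⟨ε, w, hε, hw, c1, c2⟩ := P.classA hj hσp (x := X) (y := y) (by rw [hXY, hy]; ring)
      (by rw [hyO] at hred; rw [← hred]; congr 1; ring)
    set Z := ε * w * (Sp P.s p).eval P.r with hZ
    have hr := P.zres c1
    have h5k : (5 : k) ^ D = 1 := by
      have := congrArg f (q1 ⟨y, hy⟩)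
      rwa [map_pow, map_ofNat, map_one] at this
    rw [h5k, mul_one] at hr
    have c3 : S.q ^ 2 ∣ Z ^ 2 - 1 ^ 2 := by
      have h1 : S.red (Z ^ 2 + 1) ≠ 0 := by
        rw [map_add, map_pow, hr, map_one]
        have : (1 : k) + 1 = 2 := by norm_num
        rw [this]; exact P.two
      have e : Z ^ 4 - 1 = (Z ^ 2 + 1) * (Z ^ 2 - 1 ^ 2) := by ring
      rw [e] at c2
      exact ((S.unit_of_red h1).dvd_mul_left).mp c2
    obtain ⟨η, hη, g, hg⟩ := P.sel (c := 1) (by rw [mul_one]; exact P.twoO) c3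
    obtain ⟨e, he, heε⟩ : ∃ e : ℤ, (e = 1 ∨ e = -1) ∧ (e : O) = ε := by
      rcases hε with h | h
      · exact ⟨1, Or.inl rfl, by rw [h, Int.cast_one]⟩
      · exact ⟨-1, Or.inr rfl, by rw [h, Int.cast_neg, Int.cast_one]⟩
    have hε2 : ε * ε = 1 := by rcases hε with h | h <;> rw [h] <;> ring
    refine ⟨e * η, ?_, ?_⟩
    · rcases he with rfl | rfl <;> rcases hη with rfl | rfl <;> norm_num
    · refine P.fm hj (a := X) (b := -Y) (by rw [hXY]; ring) (by push_cast; rw [← hred]; congr 1; ring) ?_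
      refine ⟨ε * g * ((X : O) - Y * j), ?_⟩
      push_cast
      rw [heε]
      have hw' : w * ((X : O) - Y * j) = 1 := by rw [← hw, hyO]; ring
      linear_combination (ε * ((X : O) - Y * j)) * hg - (Sp P.s p).eval P.r * (w * ((X : O) - Y * j)) * hε2 -
        (Sp P.s p).eval P.r * hw'
  · -- `5 ∣ X`
    have hxO : (X : O) = 5 * x := by rw [hx]; push_cast; ring
    have hred2 : S.red ((Y : O) - X * j) = 0 := by
      have : (Y : O) - X * j = -j * ((X : O) + Y * j) := by linear_combination (Y : O) * hj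
      rw [this, map_mul, hred, mul_zero]
    obtain ⟨ε, w, hε, hw, c1, c2⟩ := P.classA (j := -j) (by rw [neg_sq, hj]) hσp (x := Y) (y := x) (by rw [hXY, hx]; ring)
      (by rw [hxO] at hred2; rw [← hred2]; congr 1; ring)
    set Z := ε * w * (Sp P.s p).eval P.r with hZ
    have hr := P.zres c1
    have h5k : (5 : k) ^ D = -1 := by
      have := congrArg f (q2 ⟨x, hx⟩)
      rwa [map_pow, map_ofNat, map_neg, map_one] at this
    rw [h5k] at hr
    have hr' : S.red Z ^ 2 = -1 := by linear_combination -hr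
    have c3 : S.q ^ 2 ∣ Z ^ 2 - j ^ 2 := by
      have h1 : S.red (Z ^ 2 - 1) ≠ 0 := by
        rw [map_sub, map_pow, hr', map_one]
        have : (-1 : k) - 1 = -2 := by norm_num
        rw [this]; exact neg_ne_zero.mpr P.two
      have e : Z ^ 4 - 1 = (Z ^ 2 - 1) * (Z ^ 2 - j ^ 2) := by rw [hj]; ring
      rw [e] at c2
      exact ((S.unit_of_red h1).dvd_mul_left).mp c2
    obtain ⟨η, hη, g, hg⟩ := P.sel (c := j) (by rw [map_mul]; exact mul_ne_zero P.twoO (P.rj hj)) c3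
    obtain ⟨e, he, heε⟩ : ∃ e : ℤ, (e = 1 ∨ e = -1) ∧ (e : O) = -ε := by
      rcases hε with h | h
      · exact ⟨-1, Or.inr rfl, by rw [h, Int.cast_neg, Int.cast_one]⟩
      · exact ⟨1, Or.inl rfl, by rw [h, neg_neg, Int.cast_one]⟩
    have hε2 : ε * ε = 1 := by rcases hε with h | h <;> rw [h] <;> ring
    refine ⟨e * η, ?_, ?_⟩
    · rcases he with rfl | rfl <;> rcases hη with rfl | rfl <;> norm_num
    · refine P.fm hj (a := X) (b := -Y) (by rw [hXY]; ring) (by push_cast; rw [← hred]; congr 1; ring) ?_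
      refine ⟨ε * g * ((Y : O) + X * j), ?_⟩
      push_cast
      rw [heε]
      have hw' : w * ((Y : O) + X * j) = 1 := by rw [← hw, hxO]; ring
      linear_combination (ε * ((Y : O) + X * j)) * hg - (Sp P.s p).eval P.r * (w * ((Y : O) + X * j)) * hε2 -
        (Sp P.s p).eval P.r * hw' + ε * η * X * hj

theorem main_two' [IsAlgClosed k] (hQ : Q5 p D) {j0 : O} (hj0 : j0 ^ 2 = -1) {X Y : ℤ}
    (hXY : (p : ℤ) = X ^ 2 + Y ^ 2) (hX : X % 2 = 1) (h5 : p % 5 = 2 ∨ p % 5 = 3) (hXY5 : (5 : ℤ) ∣ X + Y) :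
    ∃ η : ℤ, (η = 1 ∨ η = -1) ∧ (p : O) ^ 2 ∣ (((2 * Y : ℤ)) : O) * (Sp P.s p).eval P.r - ((η * (4 * Y ^ 2 - p) : ℤ) : O) := by
  have hb := P.hbig
  have hp2 : p ≠ 2 := by omega
  have hO : (p : O) = (X : O) ^ 2 + (Y : O) ^ 2 := by
    have := congrArg (Int.cast : ℤ → O) hXY
    push_cast at this; exact this
  -- the Frobenius
  have hσp : S.red P.σ ^ p = -S.red P.σ := by
    have h := S.frob_sq (p := p) hp2 (d := 5) (y := P.σ) (by rw [P.hσ]; norm_num)
    rw [leg5 (by omega), if_neg (by omega)] at h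
    rw [h]; push_cast; ring
  -- the square root of -1
  obtain ⟨j, hj, hred⟩ : ∃ j : O, j ^ 2 = -1 ∧ S.red ((X : O) + Y * j) = 0 := by
    have h0 : S.red ((X : O) + Y * j0) * S.red ((X : O) + Y * (-j0)) = 0 := by
      rw [← map_mul]
      have : ((X : O) + Y * j0) * ((X : O) + Y * (-j0)) = S.q := by
        rw [P.hq]; linear_combination -hO - (Y : O) ^ 2 * hj0
      rw [this, S.red_q]
    rcases mul_eq_zero.mp h0 with h | h
    · exact ⟨j0, hj0, h⟩
    · exact ⟨-j0, by rw [neg_sq, hj0], h⟩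
  have hYk : (Y : k) ≠ 0 := fun h => P.ne_of hXY ((CharP.intCast_eq_zero_iff k p Y).mp h)
  have hYz : (Y : ZMod p) ≠ 0 := fun h => P.ne_of hXY ((ZMod.intCast_zmod_eq_zero_iff_dvd Y p).mp h)
  have hI : (X : ZMod p) + (-(X : ZMod p) * (Y : ZMod p)⁻¹) * Y = 0 := by
    rw [mul_assoc, inv_mul_cancel₀ hYz, mul_one, add_neg_cancel]
  obtain ⟨-, -, q3⟩ := hQ X Y hXY hX (-(X : ZMod p) * (Y : ZMod p)⁻¹) hI
  let f : ZMod p →+* k := ZMod.castHom (dvd_refl p) k
  set I : ZMod p := -(X : ZMod p) * (Y : ZMod p)⁻¹ with hIdef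
  have hfI : f I = S.red j := by
    have h1 := congrArg f hI
    rw [map_add, map_mul, map_intCast, map_intCast, map_zero] at h1
    have h2 : (X : k) + Y * S.red j = 0 := by
      rw [map_add, map_mul, map_intCast, map_intCast] at hred
      exact hred
    apply mul_right_cancel₀ hYk
    linear_combination h1 - h2
  obtain ⟨y, hy⟩ := hXY5
  have hyO : (X : O) + Y = 5 * y := by
    have := congrArg (Int.cast : ℤ → O) hy
    push_cast at this; exact this
  obtain ⟨ε, w, hε, hw, c1, c2⟩ := P.classB (j := -j) (by rw [neg_sq, hj]) hσp (x := X - Y) (y := y)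
    (by rw [hXY]; linear_combination (X + Y + 5 * y) * hy)
    (by
      have : ((X - Y : ℤ) : O) - (y : O) * (5 * -j) = (1 + j) * ((X : O) + Y * j) := by
        push_cast; linear_combination -(Y : O) * hj - j * hyO
      rw [this, map_mul, hred, mul_zero])
  set Z := ε * w * (Sp P.s p).eval P.r with hZ
  have hr := P.zres c1
  have h5k : (5 : k) ^ D = -S.red j := by
    have := congrArg f (q3 ⟨y, hy⟩)
    rwa [map_pow, map_ofNat, map_neg, hfI] at this
  have hjk : S.red j ^ 2 = -1 := by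
    have := congrArg S.red hj
    rwa [map_pow, map_neg, map_one] at this
  rw [h5k] at hr
  have hr' : S.red Z ^ 2 = S.red j := by linear_combination S.red j * hr + S.red Z ^ 2 * hjk
  have c3 : S.q ^ 2 ∣ Z ^ 2 - j := by
    have h1 : S.red (Z ^ 2 + j) ≠ 0 := by
      rw [map_add, map_pow, hr', ← two_mul]
      exact mul_ne_zero P.two (P.rj hj)
    have e : Z ^ 4 + 1 = (Z ^ 2 + j) * (Z ^ 2 - j) := by linear_combination hj
    rw [e] at c2
    exact ((S.unit_of_red h1).dvd_mul_left).mp c2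
  have c4 : S.q ^ 2 ∣ (P.ρ * (1 - j) * Z) ^ 2 - (2 * j) ^ 2 := by
    have e : (P.ρ * (1 - j) * Z) ^ 2 - (2 * j) ^ 2 = 4 * j * (Z ^ 2 - j) := by
      linear_combination ((1 - j) ^ 2 * Z ^ 2) * P.hρ - 2 * Z ^ 2 * hj
    rw [e]; exact c3.mul_left _
  obtain ⟨η, hη, g, hg⟩ := P.sel (c := 2 * j) (by
    rw [map_mul, map_mul]; exact mul_ne_zero P.twoO (mul_ne_zero P.twoO (P.rj hj))) c4
  obtain ⟨e, he, heε⟩ : ∃ e : ℤ, (e = 1 ∨ e = -1) ∧ (e : O) = -ε := by
    rcases hε with h | h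
    · exact ⟨-1, Or.inr rfl, by rw [h, Int.cast_neg, Int.cast_one]⟩
    · exact ⟨1, Or.inl rfl, by rw [h, neg_neg, Int.cast_one]⟩
  have hε2 : ε * ε = 1 := by rcases hε with h | h <;> rw [h] <;> ring
  have hw' : w * ((1 - j) * ((X : O) - Y * j)) = P.ρ := by
    rw [← hw]; push_cast; linear_combination w * (Y : O) * hj - w * j * hyO
  refine ⟨e * η, ?_, ?_⟩
  · rcases he with rfl | rfl <;> rcases hη with rfl | rfl <;> norm_num
  · refine P.fm hj (a := Y) (b := X) (by rw [hXY]; ring) ?_ ?_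
    · have : (Y : O) - X * j = -j * ((X : O) + Y * j) := by linear_combination (Y : O) * hj
      rw [this, map_mul, hred, mul_zero]
    · have t2 := P.twoO
      refine ((S.unit_of_red t2).dvd_mul_left).mp ?_
      refine ⟨-ε * g * ((X : O) - Y * j), ?_⟩
      push_cast
      rw [heε]
      -- `2 Σ = -ε κ (X - Y j)`
      have h2 : 2 * (Sp P.s p).eval P.r = -ε * (P.ρ * (1 - j) * Z) * ((X : O) - Y * j) := by
        rw [hZ]
        linear_combination ((Sp P.s p).eval P.r) * P.hρ + ((Sp P.s p).eval P.r * P.ρ) * hw' +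
          ((Sp P.s p).eval P.r * P.ρ * w * ((1 - j) * ((X : O) - Y * j))) * hε2
      linear_combination h2 + (-ε * ((X : O) - Y * j)) * hg + 2 * ε * η * Y * hj

theorem main_two [IsAlgClosed k] (hQ : Q5 p D) {j0 : O} (hj0 : j0 ^ 2 = -1) {X Y : ℤ}
    (hXY : (p : ℤ) = X ^ 2 + Y ^ 2) (hX : X % 2 = 1) (h5 : p % 5 = 2 ∨ p % 5 = 3) :
    ∃ η : ℤ, (η = 1 ∨ η = -1) ∧ (p : O) ^ 2 ∣ (((2 * Y : ℤ)) : O) * (Sp P.s p).eval P.r - ((η * (4 * Y ^ 2 - p) : ℤ) : O) := by
  have h5Y : (5 : ℤ) ∣ X + Y ∨ (5 : ℤ) ∣ X + (-Y) := by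
    have h1 : (X ^ 2 + Y ^ 2) % 5 = 2 ∨ (X ^ 2 + Y ^ 2) % 5 = 3 := by
      rw [← hXY]; omega
    have hx := Int.emod_nonneg X (by norm_num : (5 : ℤ) ≠ 0)
    have hx' := Int.emod_lt_of_pos X (by norm_num : (0 : ℤ) < 5)
    have hy := Int.emod_nonneg Y (by norm_num : (5 : ℤ) ≠ 0)
    have hy' := Int.emod_lt_of_pos Y (by norm_num : (0 : ℤ) < 5)
    rw [Int.add_emod, pow_two, pow_two, Int.mul_emod X X, Int.mul_emod Y Y] at h1
    have e1 : (X + Y) % 5 = (X % 5 + Y % 5) % 5 := Int.add_emod _ _ _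
    have e2 : (X + -Y) % 5 = (X % 5 - Y % 5) % 5 := by rw [← sub_eq_add_neg]; exact Int.sub_emod _ _ _
    rw [Int.dvd_iff_emod_eq_zero, Int.dvd_iff_emod_eq_zero, e1, e2]
    generalize hxe : X % 5 = a at *
    generalize hye : Y % 5 = b at *
    interval_cases a <;> interval_cases b <;> simp at h1 ⊢
  rcases h5Y with h | h
  · exact P.main_two' hQ hj0 hXY hX h5 h
  · obtain ⟨η, hη, g, hg⟩ := P.main_two' hQ hj0 (Y := -Y) (by rw [hXY]; ring) hX h5 h
    refine ⟨-η, by rcases hη with rfl | rfl <;> norm_num, -g, ?_⟩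
    push_cast at hg ⊢
    linear_combination -hg

end Pt100

end Pool.Agent.H39
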