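import Pool.Agent.H39.Vid
import Pool.Agent.H39.Main100

set_option autoImplicit false

/-!
# The second sum at a CM point
-/

namespace Pool.Agent.H39

open Polynomial Finset
open Pool.Agent.H546

/-- the algebraic part, in a ring where `q² = 0` -/
theorem alg_v {R : Type*} [CommRing R] {q r r' e E a c Z Sg rD ρ V κ l T f4 : R} (q2 : q ^ 2 = 0)
    (a1 : E * (3 * a + c) = 4) (a4 : c = a + q * f4) (a5 : ρ = r' + q * e) (a6 : 4 * r' * Z = rD * (4 * r' - q * e))
    (a7 : 2 * (1 - ρ ^ 2) * V = κ * (2 * (1 + 3 * ρ ^ 2) * Sg - 6 * ρ ^ 2 * (rD * a) - 2 * ρ * (ρ * (rD * c)) + q * l * (rD * a)))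
    (a8 : q * l = T - 1 + ρ ^ 2) (a9 : r' ^ 2 = r ^ 2) (aZ : Z = E * Sg)
    (u2 : IsUnit (2 : R)) (ur : IsUnit r') (uE : IsUnit E) (ux : IsUnit (1 - r ^ 2)) :
    2 * (1 - r ^ 2) * V = κ * Sg * ((1 - r ^ 2) + T) := by
  have u4 : IsUnit (4 : R) := by
    have : (4 : R) = 2 * 2 := by norm_num
    rw [this]; exact u2.mul u2
  have s1 : q * (E * a) = q := by
    apply u4.mul_left_cancel
    linear_combination q * a1 - q * E * a4 - E * f4 * q2
  have s2 : q * Z = q * rD := by
    apply (u4.mul ur).mul_left_cancel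
    linear_combination q * a6 - rD * e * q2
  have s3 : 4 * r' * rD = 4 * r' * Z + q * Z * e := by
    linear_combination -a6 - e * s2
  have qρ : q * ρ ^ 2 = q * r' ^ 2 := by rw [a5]; linear_combination (2 * r' * e + q * e ^ 2) * q2
  have s4 : 2 * (1 - ρ ^ 2) * V = κ * Sg * (2 - 2 * ρ ^ 2 - 2 * r' * e * q + q * l) := by
    apply ((u4.mul ur).mul uE).mul_left_cancel
    linear_combination (4 * r' * E) * a7 - 8 * κ * r' * ρ ^ 2 * rD * a1 + 4 * κ * r' * l * rD * s1 - 8 * κ * ρ ^ 2 * s3 -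
      4 * κ * r' * l * s2 - 8 * κ * Z * e * qρ - κ * (32 * r' * ρ ^ 2 + 8 * r' ^ 2 * e * q - 4 * r' * q * l) * aZ
  have hρ2 : ρ ^ 2 = r ^ 2 + 2 * r' * e * q := by rw [a5]; linear_combination a9 + e ^ 2 * q2
  have s6 : q * V = q * (κ * Sg) := by
    apply (u2.mul ux).mul_left_cancel
    linear_combination q * s4 + (2 * V - 2 * κ * Sg) * (qρ + q * a9) - κ * Sg * (2 * r' * e - l) * q2
  linear_combination s4 + 2 * V * hρ2 + 4 * r' * e * s6 + κ * Sg * a8 - κ * Sg * hρ2

variable {O K k : Type*} [CommRing O] [IsDomain O] [Field K] [Algebra O K] [Field k]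
  (S : DV O K k) {p D : ℕ} [hp : Fact p.Prime] [CharP k p]

theorem core_v (hD : p = 4 * D + 1) (hq : S.q = (p : O)) {v : O} (hv : 2 * v = 1) {s : ℕ → O} (hs0 : s 0 = 1)
    (hs : ∀ n, n + 1 < p → 8 * ((n : O) + 1) ^ 2 * s (n + 1) = (4 * (n : O) + 1) * (2 * (n : O) + 1) * s n)
    {r r' u u' w : O} (hu : 4 * r * u = -(1 - r) ^ 2) (hu' : 4 * r' * u' = -(1 - r') ^ 2)
    (hr' : S.red r' = S.red r ^ p) (r0 : S.red r ≠ 0) (r1 : S.red (1 - r) ≠ 0) (r2 : S.red (1 + r) ≠ 0)
    (hw : S.red w ≠ 0) {N D' M : O[X]} (hN : N.map S.red = X ^ p) (hD' : D'.map S.red = 1)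
    (hNd : N.natDegree ≤ p) (hDd : D'.natDegree < p) (hwr : wr N D' = C S.q * M)
    (ode : gv u * M ^ 2 = C w ^ 2 * tv u' N D') (hr2 : r' ^ 2 = r ^ 2) {κ Vr lr Qr : O}
    (hV : 2 * (1 - r ^ (2 * p)) * Vr - κ * (2 * (1 + 3 * r ^ (2 * p)) * (Sp s p).eval r - 6 * r ^ (2 * p) * (Pn v D).eval r -
      2 * r ^ p * (r ^ (2 * D + 1) * (Pn v (3 * D)).eval r) + S.q * lr * (Pn v D).eval r) = S.q ^ 2 * Qr)
    (hlr : S.q * lr = (1 - r ^ 2) ^ p - 1 + r ^ (2 * p)) :
    S.q ^ 2 ∣ 2 * (1 - r ^ 2) * Vr - κ * (Sp s p).eval r * ((1 - r ^ 2) + (1 - r ^ 2) ^ p) := by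
  have hp2 : p ≠ 2 := by omega
  have hD0 : 0 < D := by
    rcases Nat.eq_zero_or_pos D with h | h
    · rw [h] at hD; exact absurd hp.out (by rw [hD]; norm_num)
    · exact h
  have hodd : Odd p := hp.out.odd_of_ne_two hp2
  haveI := charZero_O S (p := p) hq
  have t2 := S.two_ne (p := p) hp2
  have h2k : (2 : k) ≠ 0 := by rwa [map_ofNat] at t2
  have h4k : (4 : k) ≠ 0 := by
    have : (4 : k) = 2 * 2 := by norm_num
    rw [this]; exact mul_ne_zero h2k h2k
  have fr4 : (4 : k) ^ p = 4 := by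
    have h := frobenius_def (R := k) p 4
    rw [← h, map_ofNat]
  -- reductions of `u`, `u'`
  have e1 : 4 * S.red r * S.red u = -(1 - S.red r) ^ 2 := by
    have := congrArg S.red hu
    simpa only [map_mul, map_neg, map_pow, map_sub, map_one, map_ofNat] using this
  have e2 : 4 * S.red r' * S.red u' = -(1 - S.red r') ^ 2 := by
    have := congrArg S.red hu'
    simpa only [map_mul, map_neg, map_pow, map_sub, map_one, map_ofNat] using this
  have r1' : 1 - S.red r ≠ 0 := by rwa [map_sub, map_one] at r1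
  have hz : S.red u ≠ 0 := by
    intro h0
    rw [h0, mul_zero] at e1
    exact pow_ne_zero 2 r1' (by linear_combination e1)
  have fp1 : (1 - S.red r) ^ p = 1 - S.red r ^ p := by rw [sub_pow_char, one_pow]
  have hz' : S.red u' = S.red u ^ p := by
    have h1 := congrArg (fun x => x ^ p) e1
    simp only [mul_pow] at h1
    rw [fr4, hodd.neg_pow, ← pow_mul, mul_comm 2 p, pow_mul, fp1] at h1
    rw [hr'] at e2
    apply mul_left_cancel₀ (mul_ne_zero h4k (pow_ne_zero p r0))
    rw [e2, h1]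
  have ex : ∃ L : O[X], C S.q * L = (1 - X) ^ p - 1 + X ^ p := by
    obtain ⟨L, hL⟩ := S.dvd_of_map (P := (1 - X) ^ p - 1 + X ^ p) (by
      simp only [Polynomial.map_add, Polynomial.map_sub, Polynomial.map_pow, Polynomial.map_one, Polynomial.map_X]
      rw [sub_pow_char, one_pow]; ring)
    exact ⟨L, hL.symm⟩
  obtain ⟨L, hL⟩ := ex
  obtain ⟨Q, hQ⟩ := idX S hD hq hv hs0 hs hL
  obtain ⟨ε, hε, -, h4, h2⟩ := key42v S hp2 hq hz hz' hw hN hD' hNd hDd hwr ode (cs_sq u) (cs_const u)
  have p4 : p / 4 = D := by omega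
  have p34 : 3 * p / 4 = 3 * D := by omega
  rw [cs4_coeff1 u p (by omega), cs4_coeff3 u (3 * p) (by omega), p4, p34, ← hq] at h4
  rw [show p - 1 = 2 * (2 * D) by omega, cs_coeff, ← hq] at h2
  obtain ⟨f1, h1'⟩ := h4
  obtain ⟨f2, h2'⟩ := h2
  have h3' := congrArg (fun P => P.eval r) hQ
  have hLe := congrArg (fun P => P.eval r) hL
  simp only [eval_add, eval_sub, eval_mul, eval_pow, eval_X, eval_C, eval_one, eval_ofNat] at h3' hLe
  rw [← Pn_lg hv hu, ← Pn_lg hv hu, ← Gp_bb hv hu] at h3'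
  rw [← Pn_lg hv hu, ← Pn_lg hv hu] at hV
  have h5 : S.red (lg (3 * D) u - lg D u) = 0 := by
    have := lg_34 (k := k) (p := p) hp2 (S.red u)
    rw [p4, p34] at this
    rw [map_sub, lg_cast, lg_cast, this, sub_self]
  obtain ⟨f4, h4'⟩ := (S.red_iff _).mp h5
  have h6 : S.red (r ^ p - r') = 0 := by rw [map_sub, map_pow, hr', sub_self]
  obtain ⟨e, he⟩ := (S.red_iff _).mp h6
  have hfp : (4 * u) ^ p * r ^ p = -((1 - r) ^ p) ^ 2 := by
    rw [← mul_pow, show 4 * u * r = 4 * r * u by ring, hu, hodd.neg_pow, ← pow_mul, ← pow_mul, mul_comm 2 p]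
  have hrr : r ^ (2 * D + 1) * r ^ (3 * D) = r ^ p * r ^ D := by
    rw [← pow_add, ← pow_add]; congr 1; omega
  have hdv := alg_core S (q := S.q) (r := r) (r' := r') (ρ := r ^ p) (T := (1 - r) ^ p) (L0 := L.eval r) (e := e) (E := ε * w)
    (a := lg D u) (b := bb (2 * D) u) (c := lg (3 * D) u) (Sg := (Sp s p).eval r) (u' := u') (fp := (4 * u) ^ p)
    (f1 := f1) (f2 := f2) (f3 := Q.eval r) (f4 := f4) (rD := r ^ D)
    (by linear_combination h1') h2' (by linear_combination h3' - lg (3 * D) u * hrr) (by linear_combination h4') (by linear_combination -hLe)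
    (by linear_combination -he) hfp hu'
  -- the units
  have uρ : S.red (r ^ p) ≠ 0 := by rw [map_pow]; exact pow_ne_zero _ r0
  have u1 : S.red (1 + r ^ p) ≠ 0 := by
    have : S.red (1 + r ^ p) = S.red (1 + r) ^ p := by
      rw [map_add, map_add, map_pow, map_one, add_pow_char, one_pow]
    rw [this]; exact pow_ne_zero _ r2
  have u2 : S.red (1 - r') ≠ 0 := by
    have : S.red (1 - r') = S.red (1 - r) ^ p := by
      rw [map_sub, map_sub, map_one, sub_pow_char, one_pow, hr']
    rw [this]; exact pow_ne_zero _ r1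
  have uu : IsUnit (4 * ((1 + r ^ p) * ((1 - r') ^ 2 * r ^ p))) := by
    apply S.unit_of_red
    rw [map_mul, map_mul, map_mul, map_pow, map_ofNat]
    exact mul_ne_zero h4k (mul_ne_zero u1 (mul_ne_zero (pow_ne_zero _ u2) uρ))
  obtain ⟨g, hg⟩ := (uu.dvd_mul_left).mp hdv
  -- transfer to the quotient
  let I : Ideal O := Ideal.span {S.q ^ 2}
  let π := Ideal.Quotient.mk I
  have hπq : π (S.q ^ 2) = 0 := Ideal.Quotient.eq_zero_iff_mem.mpr (Ideal.mem_span_singleton_self _)
  have un : ∀ x : O, S.red x ≠ 0 → IsUnit (π x) := fun x hx => (S.unit_of_red hx).map π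
  have hεu : S.red ε ≠ 0 := by
    rcases hε with h | h
    · rw [h, map_one]; exact one_ne_zero
    · rw [h, map_neg, map_one]; exact neg_ne_zero.mpr one_ne_zero
  have hfin := alg_v (R := O ⧸ I) (q := π S.q) (r := π r) (r' := π r') (e := π e) (E := π (ε * w)) (a := π (lg D u))
    (c := π (lg (3 * D) u)) (Z := π (ε * w) * π ((Sp s p).eval r)) (Sg := π ((Sp s p).eval r)) (rD := π (r ^ D)) (ρ := π (r ^ p))
    (V := π Vr) (κ := π κ) (l := π lr) (T := π ((1 - r ^ 2) ^ p)) (f4 := π f4)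
    (by rw [← map_pow]; exact hπq)
    (by
      have h : ε * w * (3 * lg D u + lg (3 * D) u) = 4 + S.q ^ 2 * f1 := by linear_combination h1'
      have := congrArg π h
      rw [map_add, map_mul π (S.q ^ 2), hπq, zero_mul, add_zero] at this
      simpa only [map_mul, map_add, map_ofNat] using this)
    (by
      have h : lg (3 * D) u = lg D u + S.q * f4 := by linear_combination h4'
      have := congrArg π h
      simpa only [map_mul, map_add] using this)
    (by
      have h : r ^ p = r' + S.q * e := by linear_combination he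
      have := congrArg π h
      simpa only [map_mul, map_add] using this)
    (by
      have h : 4 * r' * (ε * w * (Sp s p).eval r) = r ^ D * (4 * r' - S.q * e) + S.q ^ 2 * g := by
        linear_combination hg - r ^ D * he
      have := congrArg π h
      rw [map_add, map_mul π (S.q ^ 2), hπq, zero_mul, add_zero] at this
      simpa only [map_mul, map_sub, map_ofNat] using this)
    (by
      have h : 2 * (1 - (r ^ p) ^ 2) * Vr = κ * (2 * (1 + 3 * (r ^ p) ^ 2) * (Sp s p).eval r - 6 * (r ^ p) ^ 2 * (r ^ D * lg D u) -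
          2 * r ^ p * (r ^ p * (r ^ D * lg (3 * D) u)) + S.q * lr * (r ^ D * lg D u)) + S.q ^ 2 * Qr := by
        have e3 : r ^ (2 * p) = (r ^ p) ^ 2 := by rw [mul_comm 2 p, pow_mul]
        rw [e3] at hV
        linear_combination hV + 2 * κ * r ^ p * lg (3 * D) u * (-hrr)
      have := congrArg π h
      rw [map_add, map_mul π (S.q ^ 2), hπq, zero_mul, add_zero] at this
      simpa only [map_mul, map_sub, map_add, map_pow, map_one, map_ofNat] using this)
    (by
      have h : S.q * lr = (1 - r ^ 2) ^ p - 1 + (r ^ p) ^ 2 := by rw [hlr, mul_comm 2 p, pow_mul]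
      have := congrArg π h
      simpa only [map_mul, map_sub, map_add, map_pow, map_one] using this)
    (by
      have := congrArg π hr2
      simpa only [map_pow] using this)
    rfl
    (by
      have := un 2 t2
      rwa [map_ofNat] at this)
    (un r' (by rw [hr']; exact pow_ne_zero _ r0))
    (un (ε * w) (by rw [map_mul]; exact mul_ne_zero hεu hw))
    (by
      have := un (1 - r ^ 2) (by
        have : 1 - r ^ 2 = (1 - r) * (1 + r) := by ring
        rw [this, map_mul]; exact mul_ne_zero r1 r2)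
      simpa only [map_sub, map_one, map_pow] using this)
  rw [← Ideal.mem_span_singleton]
  refine Ideal.Quotient.eq_zero_iff_mem.mp ?_
  rw [map_sub, sub_eq_zero]
  simp only [map_mul, map_sub, map_add, map_pow, map_one, map_ofNat] at hfin ⊢
  exact hfin

end Pool.Agent.H39
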