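import Pool.Agent.H39.FFDef

set_option autoImplicit false

/-!
# The case `p = 3 mod 4`: first order recurrences modulo `p`
-/

namespace Pool.Agent.H39

open Finset
open Pool.Agent.Q267.Seven (dl)

namespace FA7

theorem cast_ne {p : ℕ} [hp : Fact p.Prime] {a : ℕ} (h0 : 0 < a) (h : a < p) :
    (a : ZMod p) ≠ 0 := by
  intro hc
  rw [ZMod.natCast_eq_zero_iff] at hc
  exact absurd (Nat.le_of_dvd h0 hc) (not_le.2 h)

/-- one block -/
theorem blk {p N : ℕ} [hp : Fact p.Prime] (hN : p = 2 * N + 1) (h5 : 3 < p) {s : ℕ → ZMod p}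
    (hs0 : s 0 = 1)
    (hs : ∀ n, n+1 < p → 8*((n:ZMod p)+1)^2 * s (n+1) = (4*(n:ZMod p)+1)*(2*(n:ZMod p)+1) * s n)
    {t X : ZMod p} (hX : 4*t*X = 1) (hS : ∑ n ∈ range p, s n * X^n = 0) {h : ℕ → ZMod p}
    (hr : ∀ i : ℕ, ((i:ZMod p)+1)*(4*(i:ZMod p)+5) * h (i+1) = 4*(2*(i:ZMod p)+1)^2 * h i) :
    ∑ i ∈ range p, h i * t^i = 0 := by
  have hN0 : 2 * (N : ZMod p) + 1 = 0 := by
    have h1 : ((p : ℕ) : ZMod p) = ((2 * N + 1 : ℕ) : ZMod p) := congrArg _ hN
    rw [ZMod.natCast_self p] at h1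
    push_cast at h1
    exact h1.symm
  have h2 : (2 : ZMod p) ≠ 0 := by
    have := cast_ne (p := p) (a := 2) (by norm_num) (by omega)
    exact_mod_cast this
  have h4 : (4 : ZMod p) ≠ 0 := by
    have h : (4 : ZMod p) = 2 * 2 := by norm_num
    rw [h]
    exact mul_ne_zero h2 h2
  have h8 : (8 : ZMod p) ≠ 0 := by
    have h : (8 : ZMod p) = 2 * 4 := by norm_num
    rw [h]
    exact mul_ne_zero h2 h4
  -- the upper half of the block
  have hup : ∀ j, j < N → h (2 * N - j) = 0 := by
    intro j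
    induction j with
    | zero =>
      intro _
      have e := hr (2 * N)
      push_cast at e
      have e1 : (2 * (N : ZMod p) + 1) * (4 * (2 * (N : ZMod p)) + 5) * h (2 * N + 1) = 0 := by
        rw [hN0]; ring
      rw [e1] at e
      have e2 : 4 * (2 * (2 * (N : ZMod p)) + 1) ^ 2 * h (2 * N) = 4 * h (2 * N) := by
        have e3 : 2 * (2 * (N : ZMod p)) + 1 = -1 := by linear_combination 2 * hN0
        rw [e3]; ring
      rw [e2] at e
      have e4 := (mul_eq_zero.1 e.symm).resolve_left h4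
      exact e4
    | succ j ih =>
      intro hj
      have ih' := ih (by omega)
      obtain ⟨i, hi⟩ : ∃ i, i = 2 * N - (j + 1) := ⟨_, rfl⟩
      have hi1 : 2 * N - j = i + 1 := by omega
      rw [hi1] at ih'
      rw [← hi]
      have e := hr i
      rw [ih', mul_zero] at e
      have hic : (i : ZMod p) = -(j + 2) := by
        have e5 : i + (j + 1) = 2 * N := by omega
        have e6 : ((i + (j + 1) : ℕ) : ZMod p) = ((2 * N : ℕ) : ZMod p) := by rw [e5]
        push_cast at e6
        linear_combination e6 + hN0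
      have e7 : 2 * (i : ZMod p) + 1 = -(((2 * j + 3 : ℕ)) : ZMod p) := by
        rw [hic]; push_cast; ring
      have e8 : (((2 * j + 3 : ℕ)) : ZMod p) ≠ 0 := cast_ne (by omega) (by omega)
      have e9 : (2 * (i : ZMod p) + 1) ≠ 0 := by
        rw [e7]; exact neg_ne_zero.2 e8
      exact (mul_eq_zero.1 e.symm).resolve_left (mul_ne_zero h4 (pow_ne_zero 2 e9))
  -- the upper half of `s`
  have hsup : ∀ j, N + 1 + j < p → s (N + 1 + j) = 0 := by
    intro j
    induction j with
    | zero =>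
      intro hj
      have e := hs N hj
      rw [hN0, mul_zero, zero_mul] at e
      have e1 : (N : ZMod p) + 1 ≠ 0 := by
        have := cast_ne (p := p) (a := N + 1) (by omega) (by omega)
        exact_mod_cast this
      exact (mul_eq_zero.1 e).resolve_left (mul_ne_zero h8 (pow_ne_zero 2 e1))
    | succ j ih =>
      intro hj
      have ih' := ih (by omega)
      have e := hs (N + 1 + j) (by omega)
      rw [ih', mul_zero] at e
      have e1 : ((N + 1 + j : ℕ) : ZMod p) + 1 ≠ 0 := by
        have := cast_ne (p := p) (a := N + 1 + j + 1) (by omega) (by omega)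
        exact_mod_cast this
      exact (mul_eq_zero.1 e).resolve_left (mul_ne_zero h8 (pow_ne_zero 2 e1))
  -- the lower half of the block
  have hlow : ∀ k, k ≤ N → h (N - k) * 4 ^ k = h N * s k := by
    intro k
    induction k with
    | zero =>
      intro _
      rw [hs0, pow_zero, Nat.sub_zero]
    | succ k ih =>
      intro hk
      have ih' := ih (by omega)
      obtain ⟨i, hi⟩ : ∃ i, i = N - (k + 1) := ⟨_, rfl⟩
      have hi1 : N - k = i + 1 := by omega
      rw [hi1] at ih'
      rw [← hi]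
      have e := hr i
      have e2 := hs k (by omega)
      have e5 : i + (k + 1) = N := by omega
      have e6 : (i : ZMod p) + (k + 1) = N := by
        have : ((i + (k + 1) : ℕ) : ZMod p) = (N : ZMod p) := by rw [e5]
        push_cast at this
        exact this
      have e7 : 2 * ((i : ZMod p) + 1) = -(2 * k + 1) := by
        linear_combination 2 * e6 + hN0
      have e8 : 2 * (i : ZMod p) + 1 = -(2 * (k + 1)) := by
        linear_combination 2 * e6 + hN0
      have e9 : 4 * (i : ZMod p) + 5 = -(4 * k + 1) := by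
        linear_combination 4 * e6 + 2 * hN0
      have e10 : (2 * (k : ZMod p) + 1) * (4 * k + 1) * h (i + 1) =
          32 * ((k : ZMod p) + 1) ^ 2 * h i := by
        have e11 : 2 * (((i : ZMod p) + 1) * (4 * (i : ZMod p) + 5) * h (i + 1)) =
            2 * (4 * (2 * (i : ZMod p) + 1) ^ 2 * h i) := by rw [e]
        rw [e8] at e11
        rw [e9] at e11
        linear_combination e11 + (4 * (k : ZMod p) + 1) * h (i + 1) * e7
      have e12 : (k : ZMod p) + 1 ≠ 0 := by
        have := cast_ne (p := p) (a := k + 1) (by omega) (by omega)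
        exact_mod_cast this
      have e13 : 8 * ((k : ZMod p) + 1) ^ 2 ≠ 0 := mul_ne_zero h8 (pow_ne_zero 2 e12)
      apply mul_left_cancel₀ e13
      rw [pow_succ]
      linear_combination (-(4 : ZMod p) ^ k) * e10 + (2 * (k : ZMod p) + 1) * (4 * k + 1) * ih' -
        h N * e2
  -- the sums
  have hpN : p = (N + 1) + N := by omega
  have e1 : ∑ i ∈ range p, h i * t ^ i = ∑ i ∈ range (N + 1), h i * t ^ i := by
    rw [congrArg range hpN, sum_range_add]
    have : ∑ x ∈ range N, h (N + 1 + x) * t ^ (N + 1 + x) = 0 := by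
      refine sum_eq_zero fun x hx => ?_
      rw [mem_range] at hx
      have e2 := hup (N - 1 - x) (by omega)
      have e3 : 2 * N - (N - 1 - x) = N + 1 + x := by omega
      rw [e3] at e2
      rw [e2, zero_mul]
    rw [this, add_zero]
  have e2 : ∑ n ∈ range (N + 1), s n * X ^ n = 0 := by
    have h1 : ∑ x ∈ range N, s (N + 1 + x) * X ^ (N + 1 + x) = 0 := by
      refine sum_eq_zero fun x hx => ?_
      rw [mem_range] at hx
      rw [hsup x (by omega), zero_mul]
    have h2 := hS
    rw [congrArg range hpN, sum_range_add, h1, add_zero] at h2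
    exact h2
  rw [e1, ← sum_range_reflect]
  have e3 : ∀ k ∈ range (N + 1), h (N + 1 - 1 - k) * t ^ (N + 1 - 1 - k) =
      h N * t ^ N * (s k * X ^ k) := by
    intro k hk
    rw [mem_range] at hk
    have e4 : N + 1 - 1 - k = N - k := by omega
    rw [e4]
    have e5 := hlow k (by omega)
    have e6 : t ^ N = t ^ (N - k) * t ^ k := by
      rw [← pow_add]; congr 1; omega
    have e7 : (4 * t * X) ^ k = 1 := by rw [hX, one_pow]
    calc h (N - k) * t ^ (N - k) = h (N - k) * t ^ (N - k) * (4 * t * X) ^ k := by rw [e7, mul_one]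
      _ = (h (N - k) * 4 ^ k) * (t ^ (N - k) * t ^ k) * X ^ k := by rw [mul_pow, mul_pow]; ring
      _ = h N * t ^ N * (s k * X ^ k) := by rw [e5, ← e6]; ring
  rw [sum_congr rfl e3, ← mul_sum, e2, mul_zero]

end FA7

theorem sz_three {p : ℕ} [hp : Fact p.Prime] (h3 : p % 4 = 3) (h7 : 7 ≤ p) (hrec : ∀ m : ℕ, (p:ℤ)^2 ∣ ((m:ℤ)+1) * (4*(m:ℤ)+5) * sz p (m+1) - 4*(2*(m:ℤ)+1)^2 * sz p m) (h0 : (p:ℤ) ∣ sz p 0) {s : ℕ → ZMod p} (hs0 : s 0 = 1) (hs : ∀ n, n+1 < p → 8*((n:ZMod p)+1)^2 * s (n+1) = (4*(n:ZMod p)+1)*(2*(n:ZMod p)+1) * s n) {t : ℤ} {X : ZMod p} (hX : 4*(t:ZMod p)*X = 1) (hS : ∑ n ∈ range p, s n * X^n = 0) : (p:ℤ)^2 ∣ ∑ m ∈ range (2*p-1), sz p m * t^m := by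
  obtain ⟨N, hN⟩ : ∃ N, p = 2 * N + 1 := ⟨p / 2, by omega⟩
  have hpp : p.Prime := hp.out
  have hp0 : (p : ℤ) ≠ 0 := by exact_mod_cast hpp.ne_zero
  have hpZ : Prime (p : ℤ) := Nat.prime_iff_prime_int.1 hpp
  -- divisibility by `p`
  have hcb : ∀ m, N < m → m < p → (p : ℤ) ∣ (m.centralBinom : ℤ) := by
    intro m h1 h2
    have h := Nat.Prime.dvd_choose_add (p := p) (a := m) (b := m) hpp h2 h2 (by omega)
    rw [Nat.centralBinom_eq_two_mul_choose, two_mul]
    exact_mod_cast h
  have hvan : ∀ n k, n < k → dl n k = 0 := fun n k h => Pool.Agent.Q267.MW.dl_vanish n k h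
  have hdiv : ∀ m, (p : ℤ) ∣ sz p m := by
    have hlow : ∀ m, m ≤ N → (p : ℤ) ∣ sz p m := by
      intro m
      induction m with
      | zero => exact fun _ => h0
      | succ m ih =>
        intro hm
        have ih' := ih (by omega)
        have h1 : (p : ℤ) ∣ ((m:ℤ)+1) * (4*(m:ℤ)+5) * sz p (m+1) := by
          have h2 : (p : ℤ) ∣ ((m:ℤ)+1) * (4*(m:ℤ)+5) * sz p (m+1) - 4*(2*(m:ℤ)+1)^2 * sz p m :=
            (dvd_pow_self _ two_ne_zero).trans (hrec m)
          exact (dvd_sub_left (dvd_mul_of_dvd_right ih' _)).1 h2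
        rcases hpZ.dvd_or_dvd h1 with h2 | h2
        · exfalso
          rcases hpZ.dvd_or_dvd h2 with h4 | h4
          · have h5 : p ∣ m + 1 := by exact_mod_cast h4
            have := Nat.le_of_dvd (by omega) h5
            omega
          · have h5 : p ∣ 4 * m + 5 := by exact_mod_cast h4
            obtain ⟨c, hc⟩ := h5
            have hc2 : c < 2 := by
              by_contra hcon
              have : p * 2 ≤ p * c := Nat.mul_le_mul_left _ (by omega)
              omega
            interval_cases c <;> omega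
        · exact h2
    intro m
    rcases le_or_gt m N with h1 | h1
    · exact hlow m h1
    · rcases lt_or_ge m p with h2 | h2
      · unfold sz
        refine dvd_sum fun j _ => ?_
        refine dvd_mul_of_dvd_right ?_ _
        exact dvd_mul_of_dvd_left (hcb m h1 h2) _
      · unfold sz
        refine dvd_sum fun j hj => ?_
        rw [mem_range] at hj
        rcases lt_or_ge (2 * j) m with h4 | h4
        · rw [hvan _ _ h4, mul_zero, mul_zero]
          exact dvd_zero _
        · refine dvd_mul_of_dvd_left (dvd_mul_of_dvd_right (hcb j (by omega) hj) _) _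
  -- the quotients
  obtain ⟨f, hf⟩ : ∃ f : ℕ → ℤ, ∀ m, sz p m = p * f m :=
    ⟨fun m => (hdiv m).choose, fun m => (hdiv m).choose_spec⟩
  have hfr : ∀ m : ℕ, ((m:ZMod p)+1)*(4*(m:ZMod p)+5) * ((f (m+1) : ℤ) : ZMod p) =
      4*(2*(m:ZMod p)+1)^2 * ((f m : ℤ) : ZMod p) := by
    intro m
    have h1 := hrec m
    rw [hf, hf] at h1
    have h2 : ((m:ℤ)+1) * (4*(m:ℤ)+5) * (p * f (m+1)) - 4*(2*(m:ℤ)+1)^2 * (p * f m) =
        p * (((m:ℤ)+1) * (4*(m:ℤ)+5) * f (m+1) - 4*(2*(m:ℤ)+1)^2 * f m) := by ring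
    rw [h2, sq] at h1
    have h4 := (mul_dvd_mul_iff_left hp0).1 h1
    rw [← ZMod.intCast_zmod_eq_zero_iff_dvd _ p] at h4
    push_cast at h4
    linear_combination h4
  have hlast : f (2 * p - 1) = 0 := by
    have h1 : sz p (2 * p - 1) = 0 := by
      unfold sz
      refine sum_eq_zero fun j hj => ?_
      rw [mem_range] at hj
      rw [hvan _ _ (by omega), mul_zero, mul_zero]
    rw [hf] at h1
    exact (mul_eq_zero.1 h1).resolve_left hp0
  have hpc : ((p : ℕ) : ZMod p) = 0 := ZMod.natCast_self p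
  have b0 := FA7.blk hN (by omega) hs0 hs hX hS (h := fun i => ((f i : ℤ) : ZMod p)) hfr
  have b1 := FA7.blk hN (by omega) hs0 hs hX hS (h := fun i => ((f (p + i) : ℤ) : ZMod p)) (by
    intro i
    have h1 := hfr (p + i)
    push_cast at h1
    rw [hpc, zero_add] at h1
    exact h1)
  have hsum : ((∑ m ∈ range (2*p-1), f m * t^m : ℤ) : ZMod p) = 0 := by
    have h1 : ∑ m ∈ range (2*p), f m * t^m = ∑ m ∈ range (2*p-1), f m * t^m := by
      have h2 : 2 * p = (2 * p - 1) + 1 := by omega
      rw [congrArg range h2, sum_range_succ, hlast, zero_mul, add_zero]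
    rw [← h1, two_mul, sum_range_add]
    push_cast
    have h4 : ∑ x ∈ range p, ((f (p + x) : ℤ) : ZMod p) * (t : ZMod p) ^ (p + x) =
        (t : ZMod p) ^ p * ∑ x ∈ range p, ((f (p + x) : ℤ) : ZMod p) * (t : ZMod p) ^ x := by
      rw [mul_sum]
      refine sum_congr rfl fun x _ => ?_
      rw [pow_add]
      ring
    rw [h4, b0, b1, mul_zero, add_zero]
  rw [ZMod.intCast_zmod_eq_zero_iff_dvd] at hsum
  have h1 : ∑ m ∈ range (2*p-1), sz p m * t^m = p * ∑ m ∈ range (2*p-1), f m * t^m := by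
    rw [mul_sum]
    refine sum_congr rfl fun m _ => ?_
    rw [hf]
    ring
  rw [h1, sq]
  exact mul_dvd_mul_left _ hsum

end Pool.Agent.H39
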