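import Pool.Agent.H39.Ker

set_option autoImplicit false

/-!
# The differential equations
-/

namespace Pool.Agent.H39

open Polynomial Finset

variable {R : Type*} [CommRing R]

/-- `C(2i,i) / 4^i` -/
def aa (v : R) (i : ℕ) : R := (i.centralBinom : R) * (v * v) ^ i

theorem aa_rec {v : R} (hv : 2 * v = 1) (i : ℕ) : 2 * ((i : R) + 1) * aa v (i + 1) = (2 * (i : R) + 1) * aa v i := by
  have h := congrArg (Nat.cast : ℕ → R) (Nat.succ_mul_centralBinom_succ i)
  push_cast at h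
  unfold aa
  rw [pow_succ]
  linear_combination (2 * (v * v) ^ i * v * v) * h + (2 * (i : R) + 1) * (i.centralBinom : R) * (v * v) ^ i * (2 * v + 1) * hv

theorem aa_zero (v : R) : aa v 0 = 1 := by simp [aa]

/-- the polynomial `∑ a_{n-j} a_j X^(2j)` -/
noncomputable def Pn (v : R) (n : ℕ) : R[X] := ∑ j ∈ range (n + 1), C (aa v (n - j) * aa v j) * X ^ (2 * j)

theorem aa_pair {v : R} (hv : 2 * v = 1) {n j : ℕ} (hj : j < n) :
    ((j : R) + 1) * (2 * (n : R) - 2 * j - 1) * (aa v (n - (j + 1)) * aa v (j + 1)) =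
      (2 * (j : R) + 1) * ((n : R) - j) * (aa v (n - j) * aa v j) := by
  obtain ⟨m, rfl⟩ : ∃ m, n = j + 1 + m := ⟨n - (j + 1), by omega⟩
  rw [show j + 1 + m - (j + 1) = m by omega, show j + 1 + m - j = m + 1 by omega]
  have h1 := aa_rec hv j
  have h2 := aa_rec hv m
  push_cast
  linear_combination (v * (2 * (m : R) + 1) * aa v m) * h1 - (v * (2 * (j : R) + 1) * aa v j) * h2 +
    (-((j : R) + 1) * (2 * (m : R) + 1) * aa v m * aa v (j + 1) + (2 * (j : R) + 1) * ((m : R) + 1) * aa v (m + 1) * aa v j) * hv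

/-- the telescoping sum -/
theorem tele {v : R} (hv : 2 * v = 1) (n e : ℕ) :
    ∑ j ∈ range (n + 1), C (aa v (n - j) * aa v j) * (-4 * (j : R[X]) * (2 * (n : R[X]) - 2 * (j : R[X]) + 1) * X ^ (e + 2 * j) +
      4 * (2 * (j : R[X]) + 1) * ((n : R[X]) - (j : R[X])) * X ^ (e + 2 * j + 2)) = 0 := by
  have key : ∀ N, N ≤ n + 1 → ∑ j ∈ range N, C (aa v (n - j) * aa v j) * (-4 * (j : R[X]) * (2 * (n : R[X]) - 2 * (j : R[X]) + 1) * X ^ (e + 2 * j) +
      4 * (2 * (j : R[X]) + 1) * ((n : R[X]) - (j : R[X])) * X ^ (e + 2 * j + 2)) =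
      C (aa v (n - N) * aa v N) * (4 * (N : R[X]) * (2 * (n : R[X]) - 2 * (N : R[X]) + 1) * X ^ (e + 2 * N)) ∨ N = n + 1 := by
    intro N
    induction N with
    | zero => intro _; left; simp
    | succ N ih =>
      intro hN
      by_cases hN' : N + 1 = n + 1
      · exact Or.inr hN'
      · left
        rcases ih (by omega) with h | h
        · rw [sum_range_succ, h]
          have hp := congrArg (C : R → R[X]) (aa_pair hv (n := n) (j := N) (by omega))
          simp only [map_mul, map_add, map_sub, map_one, map_ofNat, map_natCast] at hp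
          simp only [map_mul]
          rw [show e + 2 * (N + 1) = e + 2 * N + 2 by ring]
          push_cast
          linear_combination (-4 * X ^ (e + 2 * N + 2)) * hp
        · omega
  have hn := key n (by omega)
  rw [sum_range_succ]
  rcases hn with h | h
  · rw [h]; ring
  · omega

/-- the operator on `X ^ e` times `Pn` -/
theorem LL_XPn (v : R) (n e : ℕ) : LL (X ^ e * Pn v n) = ∑ j ∈ range (n + 1), C (aa v (n - j) * aa v j) *
    (((e + 2 * j : ℕ) : R[X]) * (2 * ((e + 2 * j : ℕ) : R[X]) - 1) * X ^ (e + 2 * j) -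
    (((e + 2 * j : ℕ) : R[X]) + 1) * (2 * ((e + 2 * j : ℕ) : R[X]) + 1) * X ^ (e + 2 * j + 2)) := by
  unfold Pn
  rw [mul_sum, LL_sum]
  refine sum_congr rfl fun j _ => ?_
  have : X ^ e * (C (aa v (n - j) * aa v j) * X ^ (2 * j)) = C (aa v (n - j) * aa v j) * X ^ (e + 2 * j) := by
    rw [pow_add]; ring
  rw [this, LL_C_mul, LL_pow]

theorem th_XPn (v : R) (n e : ℕ) : th (X ^ e * Pn v n) = ∑ j ∈ range (n + 1), C (aa v (n - j) * aa v j) *
    (((e + 2 * j : ℕ) : R[X]) * X ^ (e + 2 * j)) := by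
  unfold Pn
  rw [mul_sum, th_sum]
  refine sum_congr rfl fun j _ => ?_
  have : X ^ e * (C (aa v (n - j) * aa v j) * X ^ (2 * j)) = C (aa v (n - j) * aa v j) * X ^ (e + 2 * j) := by
    rw [pow_add]; ring
  rw [this, th_C_mul, th_pow]

theorem XPn (v : R) (n e : ℕ) : X ^ e * Pn v n = ∑ j ∈ range (n + 1), C (aa v (n - j) * aa v j) * X ^ (e + 2 * j) := by
  unfold Pn
  rw [mul_sum]
  refine sum_congr rfl fun j _ => ?_
  rw [pow_add]; ring

/-- the equation of `A` -/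
theorem LL_A {v : R} (hv : 2 * v = 1) (D : ℕ) : LL (Pn v D) =
    (4 * (D : R[X]) + 1) * (th (Pn v D) - X ^ 2 * (th (Pn v D) + Pn v D)) := by
  have h1 := LL_XPn v D 0
  have h2 := th_XPn v D 0
  have h3 := XPn v D 0
  rw [pow_zero, one_mul] at h1 h2 h3
  have h4 := tele hv D 0
  rw [← sub_eq_zero]
  have e : (4 * (D : R[X]) + 1) * (th (Pn v D) - X ^ 2 * (th (Pn v D) + Pn v D)) =
      ∑ j ∈ range (D + 1), C (aa v (D - j) * aa v j) * ((4 * (D : R[X]) + 1) * (((0 + 2 * j : ℕ) : R[X]) * X ^ (0 + 2 * j) -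
        (((0 + 2 * j : ℕ) : R[X]) + 1) * X ^ (0 + 2 * j + 2))) := by
    rw [h2]
    conv_lhs => rw [h3]
    rw [← sum_add_distrib, mul_sum, ← sum_sub_distrib, mul_sum]
    refine sum_congr rfl fun j _ => ?_
    rw [pow_add X (0 + 2 * j) 2]; ring
  rw [e, h1, ← h4, ← sum_sub_distrib]
  refine sum_congr rfl fun j _ => ?_
  push_cast
  ring

/-- the equation of `X^(2D+1) B` -/
theorem LL_B {v : R} (hv : 2 * v = 1) (D : ℕ) : LL (X ^ (2 * D + 1) * Pn v (3 * D)) =
    (4 * (D : R[X]) + 1) * ((5 * th (X ^ (2 * D + 1) * Pn v (3 * D)) - (2 + 2 * (4 * (D : R[X]) + 1)) * (X ^ (2 * D + 1) * Pn v (3 * D))) -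
      X ^ 2 * (5 * th (X ^ (2 * D + 1) * Pn v (3 * D)) + (3 - 2 * (4 * (D : R[X]) + 1)) * (X ^ (2 * D + 1) * Pn v (3 * D)))) := by
  have h1 := LL_XPn v (3 * D) (2 * D + 1)
  have h2 := th_XPn v (3 * D) (2 * D + 1)
  have h3 := XPn v (3 * D) (2 * D + 1)
  have h4 := tele hv (3 * D) (2 * D + 1)
  rw [h1, h2]
  rw [h3, ← sub_eq_zero, ← h4, mul_sum, mul_sum, mul_sum, ← sum_sub_distrib, ← sum_add_distrib, mul_sum,
    ← sum_sub_distrib, mul_sum, ← sum_sub_distrib]
  refine sum_congr rfl fun j _ => ?_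
  rw [pow_add X (2 * D + 1 + 2 * j) 2]
  push_cast
  ring

/-- the coefficients of `G` -/
def gc (v : R) (D m : ℕ) : R := (((2 * D).choose (2 * m) * m.centralBinom * 2 ^ (2 * D - 2 * m) : ℕ) : R) * (v * v) ^ m

theorem gc_nat (D m : ℕ) (hm : m < D) : 4 * (m + 1) ^ 2 * ((2 * D).choose (2 * (m + 1)) * (m + 1).centralBinom *
    2 ^ (2 * D - 2 * (m + 1))) = (2 * D - 2 * m) * (2 * D - 2 * m - 1) * ((2 * D).choose (2 * m) * m.centralBinom *
    2 ^ (2 * D - 2 * m)) := by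
  have h1 := Nat.succ_mul_centralBinom_succ m
  have h2 := Nat.choose_succ_right_eq (2 * D) (2 * m)
  have h3 := Nat.choose_succ_right_eq (2 * D) (2 * m + 1)
  have e : 2 ^ (2 * D - 2 * m) = 4 * 2 ^ (2 * D - 2 * (m + 1)) := by
    rw [show 2 * D - 2 * m = (2 * D - 2 * (m + 1)) + 2 by omega, pow_add]; ring
  rw [e, show 2 * (m + 1) = 2 * m + 1 + 1 by ring, show 2 * D - 2 * m - 1 = 2 * D - (2 * m + 1) by omega]
  rw [show 2 * (m + 1) = 2 * m + 1 + 1 by ring] at *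
  set P := 2 ^ (2 * D - (2 * m + 1 + 1))
  set c0 := (2 * D).choose (2 * m)
  set c1 := (2 * D).choose (2 * m + 1)
  set c2 := (2 * D).choose (2 * m + 1 + 1)
  calc 4 * (m + 1) ^ 2 * (c2 * (m + 1).centralBinom * P) = 4 * P * c2 * (m + 1) * ((m + 1) * (m + 1).centralBinom) := by ring
    _ = 4 * P * (c2 * (2 * m + 1 + 1)) * (2 * m + 1) * m.centralBinom := by rw [h1]; ring
    _ = 4 * P * (c1 * (2 * m + 1)) * (2 * D - (2 * m + 1)) * m.centralBinom := by rw [h3]; ring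
    _ = _ := by rw [h2]; ring

theorem gc_rec {v : R} (hv : 2 * v = 1) {D m : ℕ} (hm : m < D) :
    8 * ((m : R) + 1) ^ 2 * gc v D (m + 1) = ((D : R) - m) * (2 * D - 2 * m - 1) * gc v D m := by
  have h := congrArg (Nat.cast : ℕ → R) (gc_nat D m hm)
  rw [Nat.cast_mul, Nat.cast_mul (_ * _) (_ * _ * _), Nat.cast_mul (2 * D - 2 * m), show 2 * D - 2 * m - 1 = 2 * D - (2 * m + 1) by omega,
    Nat.cast_sub (by omega : 2 * m ≤ 2 * D), Nat.cast_sub (by omega : 2 * m + 1 ≤ 2 * D)] at h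
  unfold gc
  rw [pow_succ (v * v)]
  set c1 := (((2 * D).choose (2 * (m + 1)) * (m + 1).centralBinom * 2 ^ (2 * D - 2 * (m + 1)) : ℕ) : R)
  set c0 := (((2 * D).choose (2 * m) * m.centralBinom * 2 ^ (2 * D - 2 * m) : ℕ) : R)
  push_cast at h
  linear_combination (2 * v * v * (v * v) ^ m) * h + ((D : R) - m) * (2 * D - 2 * m - 1) * c0 * (v * v) ^ m * (2 * v + 1) * hv

/-- the polynomial `G` -/
noncomputable def Gp (v : R) (D : ℕ) : R[X] := ∑ m ∈ range (D + 1), C (gc v D m) * (X ^ (D - m) * (1 + X) ^ (2 * m))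

noncomputable def Gp1 (v : R) (D : ℕ) : R[X] := ∑ m ∈ range (D + 1), C (gc v D m) * ((m : R[X]) * (X ^ (D - m) * (1 + X) ^ (2 * m)))

noncomputable def Gp2 (v : R) (D : ℕ) : R[X] := ∑ m ∈ range (D + 1), C (gc v D m) * ((m : R[X]) ^ 2 * (X ^ (D - m) * (1 + X) ^ (2 * m)))

theorem phi_th {D m : ℕ} (hm : m ≤ D) : (X + 1) * th (X ^ (D - m) * (1 + X) ^ (2 * m) : R[X]) =
    ((D : R[X]) * (X + 1) + (m : R[X]) * (X - 1)) * (X ^ (D - m) * (1 + X) ^ (2 * m)) := by
  have h : (1 + X) * th ((1 + X) ^ (2 * m) : R[X]) = 2 * (m : R[X]) * X * (1 + X) ^ (2 * m) := by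
    rcases m with _ | m
    · simp [th]
    · simp only [th, derivative_pow, derivative_add, derivative_one, derivative_X]
      rw [show 2 * (m + 1) - 1 = 2 * m + 1 by omega, show 2 * (m + 1) = 2 * m + 1 + 1 by ring, pow_succ (1 + X : R[X]) (2 * m + 1)]
      simp only [map_natCast]
      push_cast
      ring
  rw [th_mul, th_pow]
  have e : ((D - m : ℕ) : R[X]) = D - m := by rw [Nat.cast_sub hm]
  rw [e]
  linear_combination X ^ (D - m) * h

theorem Gp_E1 (v : R) (D : ℕ) : (X + 1) * th (Gp v D) = (D : R[X]) * (X + 1) * Gp v D + (X - 1) * Gp1 v D := by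
  unfold Gp Gp1
  rw [th_sum, mul_sum, mul_sum, mul_sum, ← sum_add_distrib]
  refine sum_congr rfl fun m hm => ?_
  have h := phi_th (R := R) (D := D) (m := m) (by rw [mem_range] at hm; omega)
  rw [th_C_mul]
  linear_combination C (gc v D m) * h

theorem Gp_E2 (v : R) (D : ℕ) : (X + 1) * th (Gp1 v D) = (D : R[X]) * (X + 1) * Gp1 v D + (X - 1) * Gp2 v D := by
  unfold Gp1 Gp2
  rw [th_sum, mul_sum, mul_sum, mul_sum, ← sum_add_distrib]
  refine sum_congr rfl fun m hm => ?_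
  have h := phi_th (R := R) (D := D) (m := m) (by rw [mem_range] at hm; omega)
  rw [th_C_mul, th_mul, th_nat]
  linear_combination C (gc v D m) * (m : R[X]) * h

theorem Gp_E3 {v : R} (hv : 2 * v = 1) (D : ℕ) : 8 * X * Gp2 v D = (1 + X) ^ 2 * (2 * Gp2 v D -
    (4 * (D : R[X]) - 1) * Gp1 v D + (D : R[X]) * (2 * (D : R[X]) - 1) * Gp v D) := by
  have key : ∀ N, N ≤ D → 8 * X * ∑ m ∈ range (N + 1), C (gc v D m) * ((m : R[X]) ^ 2 * (X ^ (D - m) * (1 + X) ^ (2 * m))) =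
      (1 + X) ^ 2 * ∑ m ∈ range N, C (gc v D m) * (((D : R[X]) - (m : R[X])) * (2 * (D : R[X]) - 2 * (m : R[X]) - 1) * (X ^ (D - m) * (1 + X) ^ (2 * m))) := by
    intro N
    induction N with
    | zero => intro _; simp
    | succ N ih =>
      intro hN
      rw [sum_range_succ, mul_add, ih (by omega), sum_range_succ _ N, mul_add]
      congr 1
      have h := congrArg (C : R → R[X]) (gc_rec hv (D := D) (m := N) (by omega))
      simp only [map_mul, map_add, map_sub, map_one, map_ofNat, map_natCast, map_pow] at h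
      have e9 : (1 + X : R[X]) ^ (2 * N + 2 * 1) = (1 + X) ^ (2 * N) * (1 + X) ^ 2 := by ring
      rw [show D - N = (D - (N + 1)) + 1 by omega, pow_succ X, e9]
      push_cast
      linear_combination (X * X ^ (D - (N + 1)) * (1 + X) ^ (2 * N) * (1 + X) ^ 2) * h
  have h := key D le_rfl
  have e : ∑ m ∈ range D, C (gc v D m) * (((D : R[X]) - (m : R[X])) * (2 * (D : R[X]) - 2 * (m : R[X]) - 1) * (X ^ (D - m) * (1 + X) ^ (2 * m))) =
      ∑ m ∈ range (D + 1), C (gc v D m) * (((D : R[X]) - (m : R[X])) * (2 * (D : R[X]) - 2 * (m : R[X]) - 1) * (X ^ (D - m) * (1 + X) ^ (2 * m))) := by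
    rw [sum_range_succ]; ring
  rw [e] at h
  have e2 : 2 * Gp2 v D - (4 * (D : R[X]) - 1) * Gp1 v D + (D : R[X]) * (2 * (D : R[X]) - 1) * Gp v D =
      ∑ m ∈ range (D + 1), C (gc v D m) * (((D : R[X]) - (m : R[X])) * (2 * (D : R[X]) - 2 * (m : R[X]) - 1) * (X ^ (D - m) * (1 + X) ^ (2 * m))) := by
    unfold Gp Gp1 Gp2
    rw [mul_sum, mul_sum, mul_sum, ← sum_sub_distrib, ← sum_add_distrib]
    refine sum_congr rfl fun m _ => ?_
    ring
  rw [e2, ← h]
  rfl

/-- the equation of `G` -/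
theorem LL_G [IsDomain R] {v : R} (hv : 2 * v = 1) (D : ℕ) : LL (Gp v D) =
    -(4 * (D : R[X]) + 1) * (X ^ 2 * Gp v D + 2 * (X ^ 2 + X) * (th (Gp v D) - (D : R[X]) * Gp v D)) := by
  have E1 := Gp_E1 v D
  have E2 := Gp_E2 v D
  have E3 := Gp_E3 hv D
  have E1' := congrArg th E1
  have tX1 : th (X + 1 : R[X]) = X := by rw [th_add, th_X, th_one, add_zero]
  have tXm : th (X - 1 : R[X]) = X := by rw [th_sub, th_X, th_one, sub_zero]
  rw [th_add, th_mul, th_mul, th_mul, th_mul, tX1, tXm, th_nat] at E1'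
  have hX1 : (X + 1 : R[X]) ≠ 0 := by
    intro h0
    have := congrArg (fun P => P.coeff 1) h0
    simp [coeff_one] at this
  apply mul_left_cancel₀ hX1
  unfold LL
  set T2 := th (th (Gp v D))
  set T := th (Gp v D)
  set T1 := th (Gp1 v D)
  set G := Gp v D
  set G1 := Gp1 v D
  set G2 := Gp2 v D
  linear_combination (-2 * (X - 1) * (X + 1)) * E1' + (-2 * (X - 1) ^ 2) * E2 + (X - 1) * E3 +
    (2 * X * (X - 1) - 2 * (D : R[X]) * (X - 1) * (X + 1) - (1 + 3 * X ^ 2) + 2 * (4 * (D : R[X]) + 1) * (X ^ 2 + X)) * E1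

/-- the operator on powers of `1 - X²` -/
theorem LL_y (n : ℕ) : LL ((1 - X ^ 2) ^ (n + 1) : R[X]) = X ^ 2 * (8 * ((n : R[X]) + 1) ^ 2 * (1 - X ^ 2) ^ n -
    (4 * (n : R[X]) + 5) * (2 * (n : R[X]) + 3) * (1 - X ^ 2) ^ (n + 1)) := by
  have hy : ∀ m : ℕ, th ((1 - X ^ 2) ^ (m + 1) : R[X]) = -2 * ((m : R[X]) + 1) * X ^ 2 * (1 - X ^ 2) ^ m := by
    intro m
    simp only [th, derivative_pow, derivative_sub, derivative_one, derivative_X, Nat.add_sub_cancel, map_natCast]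
    push_cast
    ring
  have hX2 : th (X ^ 2 : R[X]) = 2 * X ^ 2 := by rw [th_pow]; norm_num
  have h2 : th (-2 * ((n : R[X]) + 1) * X ^ 2 * (1 - X ^ 2) ^ n) = -2 * ((n : R[X]) + 1) *
      (2 * X ^ 2 * (1 - X ^ 2) ^ n + X ^ 2 * th ((1 - X ^ 2) ^ n)) := by
    have e : (-2 * ((n : R[X]) + 1)) = C (-2 * ((n : R) + 1)) := by simp [map_ofNat]
    rw [e, mul_assoc, th_C_mul, th_mul, hX2]
  unfold LL
  rw [hy, h2]
  rcases n with _ | n
  · rw [pow_zero, th_one]; push_cast; ring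
  · rw [hy, pow_succ (1 - X ^ 2) (n + 1), pow_succ (1 - X ^ 2) n]; push_cast; ring

/-- the equation of the truncated sum -/
theorem LL_S {s : ℕ → R} {p : ℕ}
    (hs : ∀ n, n + 1 < p → 8 * ((n : R) + 1) ^ 2 * s (n + 1) = (4 * (n : R) + 1) * (2 * (n : R) + 1) * s n) :
    ∀ N, N < p → LL (∑ n ∈ range (N + 1), C (s n) * (1 - X ^ 2) ^ n : R[X]) =
      -X ^ 2 * ((4 * (N : R[X]) + 1) * (2 * (N : R[X]) + 1) * C (s N) * (1 - X ^ 2) ^ N) := by
  intro N
  induction N with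
  | zero =>
    intro _
    have h1 : LL (1 : R[X]) = -X ^ 2 := by simp [LL, th]
    simp only [zero_add, sum_range_one, pow_zero, LL_C_mul, h1]
    push_cast; ring
  | succ N ih =>
    intro hN
    rw [sum_range_succ, LL_add, ih (by omega), LL_C_mul, LL_y]
    have h := congrArg (C : R → R[X]) (hs N hN)
    simp only [map_mul, map_add, map_one, map_ofNat, map_natCast, map_pow] at h
    push_cast
    linear_combination (X ^ 2 * (1 - X ^ 2) ^ N) * h

end Pool.Agent.H39
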