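import Pool.Agent.H546.Leg
import Pool.Agent.H39.Ode

set_option autoImplicit false

/-!
# The coefficients of the sum of squares
-/

namespace Pool.Agent.H39

open Finset
open Pool.Agent.Q267.Seven (dl)

/-- the coefficient of `t^m` in `4^(p-1) ∑_j C(2j,j)/4^j P_{2j}(1-2x)^2`, `t = x(1-x)` -/
def sz (p m : ℕ) : ℤ := ∑ j ∈ range p, (4 : ℤ) ^ (p - 1 - j) * (j.centralBinom : ℤ) * ((m.centralBinom : ℤ) * dl (2 * j) m)

end Pool.Agent.H39
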