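import Pool.Agent.H39.Asm
import Pool.Agent.H39.FA7

set_option autoImplicit false

/-!
# From the coefficients to the sum `∑ binom(2j,j) T_{2j}(9,20)² / 4^j`
-/

namespace Pool.Agent.H39

open Finset
open Pool.Agent.H546
open Pool.Agent.Q267.Seven (dl legendre_sq_ring)
open Pool.Agent.Q267.MW (dl_vanish)

/-- the coefficient of `x^n` in `(x² + b x + c)^n` -/
def tc (b c : ℤ) (n : ℕ) : ℤ := ∑ j ∈ range (n / 2 + 1), (n.choose (2 * j) : ℤ) * ((2 * j).choose j : ℤ) * c ^ j * b ^ (n - 2 * j)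

theorem tc_bb (n : ℕ) : ((tc 9 20 n : ℤ) : ℚ) = (9 / 2) ^ n * bb n (1 / 81 : ℚ) := by
  rw [← bb_ext n (n / 2 + 1) (by omega), mul_sum]
  unfold tc
  push_cast
  refine sum_congr rfl fun m hm => ?_
  rw [mem_range] at hm
  rw [bc_rat]
  have h : ((m.centralBinom : ℕ) : ℚ) = (((2 * m).choose m : ℕ) : ℚ) := rfl
  rw [h]
  have e1 : (9 : ℚ) ^ n = 9 ^ (n - 2 * m) * 81 ^ m := by
    have : (81 : ℚ) = 9 ^ 2 := by norm_num
    rw [this, ← pow_mul, ← pow_add]; congr 1; omega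
  have e2 : (1 - 1 / 81 : ℚ) = 80 / 81 := by norm_num
  rw [e2, div_pow, div_pow, e1]
  have e3 : (80 : ℚ) ^ m = 20 ^ m * 4 ^ m := by rw [← mul_pow]; norm_num
  rw [e3]
  have h2 : (2 : ℚ) ^ n ≠ 0 := by positivity
  have h4 : (4 : ℚ) ^ m ≠ 0 := by positivity
  have h8 : (81 : ℚ) ^ m ≠ 0 := by positivity
  field_simp

theorem tc_lg_aux (n : ℕ) : ((tc 9 20 n : ℤ) : ℚ) = lg n (-4 : ℚ) ∧ ((tc 9 20 (n + 1) : ℤ) : ℚ) = lg (n + 1) (-4 : ℚ) := by
  induction n with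
  | zero =>
    refine ⟨?_, ?_⟩
    · rw [lg_zero]; simp [tc]
    · rw [zero_add, lg_one]; simp [tc]; norm_num
  | succ n ih =>
    refine ⟨ih.2, ?_⟩
    have h1 := lg_rec n (-4 : ℚ)
    have h2 := bb_rec n (1 / 81 : ℚ)
    have h3 := tc_bb n
    have h4 := tc_bb (n + 1)
    have h5 := tc_bb (n + 2)
    have hn : ((n : ℚ) + 2) ≠ 0 := by positivity
    apply mul_left_cancel₀ hn
    show ((n : ℚ) + 2) * ((tc 9 20 (n + 2) : ℤ) : ℚ) = ((n : ℚ) + 2) * lg (n + 2) (-4)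
    rw [h1, ← ih.1, ← ih.2, h5, h4, h3, pow_succ, pow_succ]
    linear_combination ((9 / 2 : ℚ) ^ n * (9 / 2) * (9 / 2)) * h2

theorem tc_lg (n : ℕ) : tc 9 20 n = lg n (-4 : ℤ) := by
  have h := (tc_lg_aux n).1
  have : lg n (-4 : ℚ) = ((lg n (-4 : ℤ) : ℤ) : ℚ) := by
    unfold lg; push_cast; rfl
  rw [this] at h
  exact_mod_cast h

/-- the sum of squares -/
theorem N0_eq (p : ℕ) (hp : 0 < p) : N0 p = ∑ j ∈ range p, 4 ^ (p - 1 - j) * ((j.centralBinom : ℤ) * tc 9 20 (2 * j) ^ 2) := by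
  unfold N0 sz
  simp only [sum_mul]
  rw [sum_comm]
  refine sum_congr rfl fun j hj => ?_
  rw [mem_range] at hj
  rw [tc_lg]
  have h := legendre_sq_ring (R := ℤ) (2 * j) (-4)
  have h' : lg (2 * j) (-4 : ℤ) ^ 2 = ∑ m ∈ range (2 * j + 1), dl (2 * j) m * (m.centralBinom : ℤ) * (-20) ^ m := by
    have e : (-4 * (1 - -4) : ℤ) = -20 := by norm_num
    rw [e] at h
    simpa [lg] using h
  rw [h', mul_sum, mul_sum]
  symm
  refine sum_subset_zero_on_sdiff (range_subset_range.mpr (by omega)) ?_ ?_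
  · intro m hm
    rw [mem_sdiff, mem_range, mem_range, not_lt] at hm
    rw [dl_vanish (2 * j) m (by omega)]; ring
  · intro m _
    ring

/-- the primes `3` modulo `4` -/
theorem three9 (p : ℕ) [hp : Fact p.Prime] (h3 : p % 4 = 3) (h7 : 7 ≤ p) : (p : ℤ) ^ 2 ∣ N0 p := by
  have h0 : (p : ℤ) ∣ sz p 0 := ⟨_, sz_zero p hp.out.pos⟩
  have nz : ∀ n : ℕ, 0 < n → n < p → (n : ZMod p) ≠ 0 := by
    intro n hn hn' hc
    rw [ZMod.natCast_eq_zero_iff] at hc
    exact absurd (Nat.le_of_dvd hn hc) (by omega)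
  have h2z : (2 : ZMod p) ≠ 0 := by exact_mod_cast nz 2 (by norm_num) (by omega)
  have h5z : (5 : ZMod p) ≠ 0 := by exact_mod_cast nz 5 (by norm_num) (by omega)
  have h4z : (4 : ZMod p) ≠ 0 := by
    rw [show (4 : ZMod p) = 2 * 2 by norm_num]; exact mul_ne_zero h2z h2z
  have h80 : (-80 : ZMod p) ≠ 0 := by
    rw [show (-80 : ZMod p) = -(2 ^ 4 * 5) by norm_num]
    exact neg_ne_zero.mpr (mul_ne_zero (pow_ne_zero _ h2z) h5z)
  let s : ℕ → ZMod p := sc (4 : ZMod p)⁻¹ (2 : ZMod p)⁻¹ (fun n => (n : ZMod p)⁻¹)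
  have hs : ∀ n, n + 1 < p → 8 * ((n : ZMod p) + 1) ^ 2 * s (n + 1) = (4 * (n : ZMod p) + 1) * (2 * (n : ZMod p) + 1) * s n := by
    intro n hn
    refine sc_rec (mul_inv_cancel₀ h4z) (mul_inv_cancel₀ h2z) (p := p) (fun m hm => ?_) n hn
    have := nz (m + 1) (by omega) hm
    push_cast at this ⊢
    exact mul_inv_cancel₀ this
  refine sz_three h3 h7 (fun m => sz_rec_mod p m hp.out) h0 (s := s) (sc_zero _ _ _) hs (t := -20) (X := (-80 : ZMod p)⁻¹) ?_ ?_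
  · push_cast
    rw [show (4 * -20 : ZMod p) = -80 by norm_num]
    exact mul_inv_cancel₀ h80
  · obtain ⟨σ, ρ, v, r, u, j, a, iv, hσ, hρ, hv, hr, hu, hj, ha, hr2, hiv⟩ := wo_pts p (by omega)
    have hK := charZero_K (SW p) (p := p) rfl
    have hD : p = 4 * (p / 4) + 3 := by omega
    have hs' : ∀ n, n + 1 < p → 8 * (((n : ℕ) : kb p) + 1) ^ 2 * (SW p).red (sc a v iv (n + 1)) =
        (4 * (n : kb p) + 1) * (2 * (n : kb p) + 1) * (SW p).red (sc a v iv n) := by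
      intro n hn
      have := congrArg (SW p).red (sc_rec ha hv hiv n hn)
      simpa only [map_mul, map_add, map_pow, map_natCast, map_one, map_ofNat] using this
    have hz : (SW p).red ((Sp (sc a v iv) p).eval r) = 0 := by
      refine three_red (SW p) hD (by omega) rfl hσ hρ hv hr hu hj ?_
      refine Sp_three hD ?_ ?_ hs'
      · rw [← map_ofNat (SW p).red 2, ← map_mul, hv, map_one]
      · rw [sc_zero, map_one]
    let f : ZMod p →+* kb p := algebraMap (ZMod p) (kb p)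
    have hf : Function.Injective f := f.injective
    apply hf
    rw [map_zero, map_sum]
    have h8 : ∀ n, n + 1 < p → (8 * (((n : ℕ) : kb p) + 1) ^ 2) ≠ 0 := by
      intro n hn hc
      have h1 : f (8 * ((n : ZMod p) + 1) ^ 2) = 0 := by
        rw [map_mul, map_pow, map_add, map_one, map_natCast, map_ofNat]; exact hc
      rw [map_eq_zero_iff f hf] at h1
      have h2 := nz (n + 1) (by omega) hn
      push_cast at h2
      have h8z : (8 : ZMod p) ≠ 0 := by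
        rw [show (8 : ZMod p) = 2 * 4 by norm_num]; exact mul_ne_zero h2z h4z
      exact mul_ne_zero h8z (pow_ne_zero 2 h2) h1
    have key : ∀ n, n < p → f (s n) = (SW p).red (sc a v iv n) := by
      intro n
      induction n with
      | zero =>
        intro _
        have e1 : s 0 = 1 := sc_zero _ _ _
        rw [e1, sc_zero, map_one, map_one]
      | succ n ih =>
        intro hn
        apply mul_left_cancel₀ (h8 n hn)
        rw [hs' n hn, ← ih (by omega)]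
        have h1 := congrArg f (hs n hn)
        simpa only [map_mul, map_add, map_pow, map_natCast, map_one, map_ofNat] using h1
    have hX : f ((-80 : ZMod p)⁻¹) = 1 - (SW p).red r ^ 2 := by
      have h1 : f (-80 : ZMod p) ≠ 0 := by
        rw [Ne, map_eq_zero_iff f hf]; exact h80
      apply mul_left_cancel₀ h1
      rw [← map_mul, mul_inv_cancel₀ h80, map_one]
      have h2 := congrArg (SW p).red hr2
      rw [map_mul, map_pow, map_ofNat, map_ofNat] at h2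
      rw [map_neg, map_ofNat]
      linear_combination -h2
    rw [← hz]
    unfold Sp
    rw [Polynomial.eval_finsetSum, map_sum]
    refine sum_congr rfl fun n hn => ?_
    rw [mem_range] at hn
    rw [map_mul, map_pow, key n hn, hX]
    simp

/-- the primes `1` modulo `4` -/
theorem one9 (p : ℕ) [hp : Fact p.Prime] (h4 : p % 4 = 1) (h20 : 20 < p) {x y : ℤ} (hxy : (p : ℤ) = x ^ 2 + y ^ 2)
    (hx : x % 2 = 1) :
    ((p % 5 = 1 ∨ p % 5 = 4) → ((5 : ℤ) ∣ y → (p : ℤ) ^ 2 ∣ N0 p - 4 ^ (p - 1) * (4 * x ^ 2 - 2 * p)) ∧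
      ((5 : ℤ) ∣ x → (p : ℤ) ^ 2 ∣ N0 p - 4 ^ (p - 1) * (4 * y ^ 2 - 2 * p))) ∧
    ((p % 5 = 2 ∨ p % 5 = 3) → ((5 : ℤ) ∣ x + y → (p : ℤ) ^ 2 ∣ N0 p - 4 ^ (p - 1) * (-(4 * x * y))) ∧
      ((5 : ℤ) ∣ x + (-y) → (p : ℤ) ^ 2 ∣ N0 p - 4 ^ (p - 1) * (4 * x * y))) := by
  obtain ⟨σ, ρ, v, r, u, j, a, iv, hσ, hρ, hv, hr, hu, hj, ha, hr2, hiv⟩ := wo_pts p (by omega)
  have hK := charZero_K (SW p) (p := p) rfl
  have hD : p = 4 * (p / 4) + 1 := by omega
  let P : Pt100 (SW p) p (p / 4) := ⟨σ, ρ, v, r, u, sc a v iv, hD, h20, rfl, hσ, hρ, hv, hr, hu, sc_zero _ _ _,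
    fun n hn => sc_rec ha hv hiv n hn⟩
  have hQ : Q5 p (p / 4) := q5_all hD (by omega)
  have e : p - 1 = 4 * (p / 4) := by omega
  rw [e]
  exact ⟨fun h5 => P.caseA hQ hj hxy hx h5, fun h5 => P.caseB hQ hj hxy hx h5⟩

/-- from the integer to the rational sum -/
theorem rat_cong (p : ℕ) (hp : p.Prime) (h2 : p ≠ 2) {c : ℤ} (h : (p : ℤ) ^ 2 ∣ N0 p - 4 ^ (p - 1) * c) {Sq : ℚ}
    (hS : (4 : ℚ) ^ (p - 1) * Sq = ((N0 p : ℤ) : ℚ)) : p.Coprime ((Sq - (c : ℚ)) / (p : ℚ) ^ 2).den := by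
  obtain ⟨e, he⟩ := h
  refine cop_of_eq (n := e) (d := 4 ^ (p - 1)) ?_ ?_
  · have hq := congrArg (Int.cast : ℤ → ℚ) he
    push_cast at hq ⊢
    rw [← hS] at hq
    have hp0 : (p : ℚ) ≠ 0 := by exact_mod_cast hp.ne_zero
    have h4 : (4 : ℚ) ^ (p - 1) ≠ 0 := by positivity
    rw [div_eq_div_iff (pow_ne_zero 2 hp0) h4]
    linear_combination hq
  · have e1 : ((4 : ℤ) ^ (p - 1)).natAbs = 4 ^ (p - 1) := by rw [Int.natAbs_pow]; rfl
    rw [e1]
    apply Nat.Coprime.pow_right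
    rw [show (4 : ℕ) = 2 ^ 2 by norm_num]
    apply Nat.Coprime.pow_right
    exact (Nat.coprime_primes hp Nat.prime_two).mpr h2

end Pool.Agent.H39
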