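import Pool.Agent.H546.QTy

set_option autoImplicit false

/-!
# A differential operator on polynomials and its kernel in characteristic `p`
-/

namespace Pool.Agent.H39

open Polynomial

section op

variable {R : Type*} [CommRing R]

/-- `X d/dX` -/
noncomputable def th (f : R[X]) : R[X] := X * derivative f

/-- the operator `2 (1 - X²) θ² - (1 + 3 X²) θ - X²` -/
noncomputable def LL (f : R[X]) : R[X] := 2 * (1 - X ^ 2) * th (th f) - (1 + 3 * X ^ 2) * th f - X ^ 2 * f

theorem th_add (f g : R[X]) : th (f + g) = th f + th g := by simp only [th, derivative_add]; ring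

theorem th_sub (f g : R[X]) : th (f - g) = th f - th g := by simp only [th, derivative_sub]; ring

theorem th_mul (f g : R[X]) : th (f * g) = th f * g + f * th g := by simp only [th, derivative_mul]; ring

theorem th_C (c : R) : th (C c) = 0 := by simp [th]

theorem th_nat (n : ℕ) : th (n : R[X]) = 0 := by simp [th]

theorem th_X : th (X : R[X]) = X := by simp [th]

theorem th_one : th (1 : R[X]) = 0 := by simp [th]

theorem th_pow (n : ℕ) : th (X ^ n : R[X]) = (n : R[X]) * X ^ n := by
  rcases n with _ | n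
  · simp [th]
  · simp only [th, derivative_X_pow, Nat.add_sub_cancel, map_natCast]; push_cast; ring

theorem th_sum {ι : Type*} (s : Finset ι) (f : ι → R[X]) : th (∑ i ∈ s, f i) = ∑ i ∈ s, th (f i) := by
  simp only [th, derivative_sum, Finset.mul_sum]

theorem LL_add (f g : R[X]) : LL (f + g) = LL f + LL g := by simp only [LL, th_add]; ring

theorem LL_sub (f g : R[X]) : LL (f - g) = LL f - LL g := by simp only [LL, th_sub]; ring

theorem th_C_mul (c : R) (f : R[X]) : th (C c * f) = C c * th f := by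
  rw [th_mul, th_C]; ring

theorem LL_C_mul (c : R) (f : R[X]) : LL (C c * f) = C c * LL f := by
  simp only [LL, th_C_mul]; ring

theorem LL_sum {ι : Type*} (s : Finset ι) (f : ι → R[X]) : LL (∑ i ∈ s, f i) = ∑ i ∈ s, LL (f i) := by
  simp only [LL, th_sum, Finset.mul_sum, Finset.sum_sub_distrib]

theorem LL_pow (n : ℕ) : LL (X ^ n : R[X]) = (n : R[X]) * (2 * (n : R[X]) - 1) * X ^ n -
    ((n : R[X]) + 1) * (2 * (n : R[X]) + 1) * X ^ (n + 2) := by
  simp only [LL, th_mul, th_pow, th_nat]; ring

/-- the operator on a product -/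
theorem LL_mul (f g : R[X]) : LL (f * g) = f * LL g + 2 * (1 - X ^ 2) * (2 * th f * th g + th (th f) * g) -
    (1 + 3 * X ^ 2) * th f * g := by
  simp only [LL, th_mul, th_add]; ring

theorem th_map {T : Type*} [CommRing T] (g : R →+* T) (f : R[X]) : (th f).map g = th (f.map g) := by
  simp [th, derivative_map]

theorem LL_map {T : Type*} [CommRing T] (g : R →+* T) (f : R[X]) : (LL f).map g = LL (f.map g) := by
  simp [LL, th_map]

theorem th_coeff (f : R[X]) (n : ℕ) : (th f).coeff n = (n : R) * f.coeff n := by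
  rcases n with _ | n
  · simp [th]
  · simp only [th, coeff_X_mul, coeff_derivative]; push_cast; ring

theorem LL_coeff (f : R[X]) (n : ℕ) : (LL f).coeff (n + 2) = ((n : R) + 2) * (2 * (n : R) + 3) * f.coeff (n + 2) -
    ((n : R) + 1) * (2 * (n : R) + 1) * f.coeff n := by
  have e : LL f = C 2 * th (th f) - C 2 * (X ^ 2 * th (th f)) - th f - C 3 * (X ^ 2 * th f) - X ^ 2 * f := by
    simp only [LL, map_ofNat]; ring
  rw [e]
  simp only [coeff_sub, coeff_C_mul, coeff_X_pow_mul, th_coeff]
  push_cast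
  ring

theorem LL_coeff1 (f : R[X]) : (LL f).coeff 1 = f.coeff 1 := by
  have e : LL f = C 2 * th (th f) - C 2 * (X ^ 2 * th (th f)) - th f - C 3 * (X ^ 2 * th f) - X ^ 2 * f := by
    simp only [LL, map_ofNat]; ring
  rw [e]
  simp only [coeff_sub, coeff_C_mul, coeff_X_pow_mul', th_coeff]
  norm_num
  ring

end op

section ker

variable {k : Type*} [Field k] {p D : ℕ} [hp : Fact p.Prime] [CharP k p]

/-- a solution with vanishing coefficients at `0` and `p` vanishes -/
theorem ker_zero (hD : p = 4 * D + 1) {g : k[X]} (hg : LL g = 0) (h0 : g.coeff 0 = 0) (hpz : g.coeff p = 0)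
    (htop : ∀ j, 3 * p - 1 ≤ j → g.coeff j = 0) (hev : ∀ j, j % 2 = 0 → 2 * p ≤ j → g.coeff j = 0) : g = 0 := by
  have hp2 := hp.out.two_le
  have nz : ∀ m : ℕ, ¬ p ∣ m → (m : k) ≠ 0 := fun m h h0 => h ((CharP.cast_eq_zero_iff k p m).mp h0)
  have hrec : ∀ j : ℕ, ((j : k) + 2) * (2 * (j : k) + 3) * g.coeff (j + 2) = ((j : k) + 1) * (2 * (j : k) + 1) * g.coeff j := by
    intro j
    have := LL_coeff g j
    rw [hg, coeff_zero] at this
    linear_combination -this
  have up : ∀ j, ¬ p ∣ j + 2 → ¬ p ∣ 2 * j + 3 → g.coeff j = 0 → g.coeff (j + 2) = 0 := by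
    intro j h1 h2 h3
    have h := hrec j
    rw [h3, mul_zero] at h
    have n1 := nz _ h1
    have n2 := nz _ h2
    push_cast at n1 n2
    exact (mul_eq_zero.mp h).resolve_left (mul_ne_zero n1 n2)
  have dn : ∀ j, ¬ p ∣ j + 1 → ¬ p ∣ 2 * j + 1 → g.coeff (j + 2) = 0 → g.coeff j = 0 := by
    intro j h1 h2 h3
    have h := hrec j
    rw [h3, mul_zero] at h
    have n1 := nz _ h1
    have n2 := nz _ h2
    push_cast at n1 n2
    exact (mul_eq_zero.mp h.symm).resolve_left (mul_ne_zero n1 n2)
  have nd : ∀ a m : ℕ, a * p < m → m < (a + 1) * p → ¬ p ∣ m := by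
    intro a m h1 h2 h3
    obtain ⟨c, rfl⟩ := h3
    have h4 : a < c := by
      by_contra h; push Not at h
      have : p * c ≤ p * a := Nat.mul_le_mul_left p h
      have : p * a = a * p := mul_comm _ _
      omega
    have h5 : c < a + 1 := by
      by_contra h; push Not at h
      have : p * (a + 1) ≤ p * c := Nat.mul_le_mul_left p h
      have : p * (a + 1) = (a + 1) * p := mul_comm _ _
      omega
    omega
  -- divisibility of odd numbers
  have ndo : ∀ m : ℕ, (m < p ∨ (p < m ∧ m < 3 * p) ∨ (3 * p < m ∧ m < 5 * p) ∨ (5 * p < m ∧ m < 7 * p)) → m % 2 = 1 →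
      ¬ p ∣ m := by
    rintro m hm hodd ⟨c, rfl⟩
    have hc : c % 2 = 1 := by
      by_contra hc
      have : c % 2 = 0 := by omega
      rw [Nat.mul_mod, this, mul_zero, Nat.zero_mod] at hodd
      omega
    have : c = 1 ∨ c = 3 ∨ c = 5 ∨ 7 ≤ c := by omega
    rcases this with rfl | rfl | rfl | h
    · omega
    · omega
    · omega
    · have : p * 7 ≤ p * c := Nat.mul_le_mul_left p h
      omega
  -- even below
  have e1 : ∀ i, 2 * i ≤ 4 * D → g.coeff (2 * i) = 0 := by
    intro i
    induction i with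
    | zero => intro _; exact h0
    | succ i ih =>
      intro h
      rw [show 2 * (i + 1) = 2 * i + 2 by ring]
      refine up _ (nd 0 _ (by omega) (by omega)) ?_ (ih (by omega))
      exact ndo _ (by omega) (by omega)
  -- even above, downward
  have e2 : ∀ i, i ≤ 2 * D → g.coeff (8 * D + 2 - 2 * i) = 0 := by
    intro i
    induction i with
    | zero => intro _; exact hev _ (by omega) (by omega)
    | succ i ih =>
      intro h
      refine dn _ (nd 1 _ (by omega) (by omega)) (ndo _ (by omega) (by omega)) ?_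
      rw [show 8 * D + 2 - 2 * (i + 1) + 2 = 8 * D + 2 - 2 * i by omega]
      exact ih (by omega)
  -- odd below, downward
  have o1 : ∀ i, i ≤ 2 * D → g.coeff (4 * D + 1 - 2 * i) = 0 := by
    intro i
    induction i with
    | zero => intro _; rw [← hD]; exact hpz
    | succ i ih =>
      intro h
      refine dn _ (nd 0 _ (by omega) (by omega)) (ndo _ (by omega) (by omega)) ?_
      rw [show 4 * D + 1 - 2 * (i + 1) + 2 = 4 * D + 1 - 2 * i by omega]
      exact ih (by omega)
  -- odd middle, upward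
  have o2 : ∀ i, i ≤ 2 * D → g.coeff (4 * D + 1 + 2 * i) = 0 := by
    intro i
    induction i with
    | zero => intro _; rw [mul_zero, add_zero, ← hD]; exact hpz
    | succ i ih =>
      intro h
      rw [show 4 * D + 1 + 2 * (i + 1) = (4 * D + 1 + 2 * i) + 2 by ring]
      refine up _ (nd 1 _ (by omega) (by omega)) (ndo _ (by omega) (by omega)) (ih (by omega))
  -- odd top, downward
  have o3 : ∀ i, i ≤ 2 * D → g.coeff (12 * D + 3 - 2 * i) = 0 := by
    intro i
    induction i with
    | zero => intro _; exact htop _ (by omega)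
    | succ i ih =>
      intro h
      refine dn _ (nd 2 _ (by omega) (by omega)) (ndo _ (by omega) (by omega)) ?_
      rw [show 12 * D + 3 - 2 * (i + 1) + 2 = 12 * D + 3 - 2 * i by omega]
      exact ih (by omega)
  ext j
  rw [coeff_zero]
  rcases Nat.even_or_odd' j with ⟨i, rfl | rfl⟩
  · by_cases h1 : 2 * i ≤ 4 * D
    · exact e1 i h1
    · by_cases h2 : 2 * i ≤ 8 * D + 2
      · have := e2 (4 * D + 1 - i) (by omega)
        rwa [show 8 * D + 2 - 2 * (4 * D + 1 - i) = 2 * i by omega] at this
      · exact hev _ (by omega) (by omega)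
  · by_cases h1 : 2 * i + 1 ≤ 4 * D + 1
    · have := o1 (2 * D - i) (by omega)
      rwa [show 4 * D + 1 - 2 * (2 * D - i) = 2 * i + 1 by omega] at this
    · by_cases h2 : 2 * i + 1 ≤ 8 * D + 1
      · have := o2 (i - 2 * D) (by omega)
        rwa [show 4 * D + 1 + 2 * (i - 2 * D) = 2 * i + 1 by omega] at this
      · by_cases h3 : 2 * i + 1 ≤ 12 * D + 3
        · have := o3 (6 * D + 1 - i) (by omega)
          rwa [show 12 * D + 3 - 2 * (6 * D + 1 - i) = 2 * i + 1 by omega] at this
        · exact htop _ (by omega)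

theorem th_Xp (n : ℕ) (h : (n : k) = 0) : th (X ^ n : k[X]) = 0 := by
  rw [th_pow]
  have : (n : k[X]) = C (n : k) := by simp
  rw [this, h, C_0, zero_mul]

/-- multiplication by `X ^ p` commutes with the operator -/
theorem LL_Xp (f : k[X]) : LL (X ^ p * f) = X ^ p * LL f := by
  have h : th (X ^ p : k[X]) = 0 := th_Xp p (CharP.cast_eq_zero k p)
  rw [LL_mul, h]
  simp [th]

/-- the kernel of the operator -/
theorem ker_eq (hD : p = 4 * D + 1) {A f : k[X]} (hA : LL A = 0) (hA0 : A.coeff 0 ≠ 0) (hAd : A.natDegree ≤ 2 * D)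
    (hf : LL f = 0)
    (htop : ∀ j, 3 * p - 1 ≤ j → f.coeff j = 0) (hev : ∀ j, j % 2 = 0 → 2 * p ≤ j → f.coeff j = 0)
    (hAo : ∀ j, j % 2 = 1 → A.coeff j = 0) :
    f = C (f.coeff 0 / A.coeff 0) * A + C (f.coeff p / A.coeff 0) * (X ^ p * A) := by
  have hp0 := hp.out.pos
  rw [← sub_eq_zero]
  set g := f - (C (f.coeff 0 / A.coeff 0) * A + C (f.coeff p / A.coeff 0) * (X ^ p * A)) with hgd
  have hAz : ∀ j, 2 * D < j → A.coeff j = 0 := fun j hj => coeff_eq_zero_of_natDegree_lt (by omega)
  have co : ∀ j, g.coeff j = f.coeff j - (f.coeff 0 / A.coeff 0 * A.coeff j +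
      f.coeff p / A.coeff 0 * (if p ≤ j then A.coeff (j - p) else 0)) := by
    intro j
    rw [hgd]
    simp only [coeff_sub, coeff_add, coeff_C_mul, coeff_X_pow_mul']
  refine ker_zero hD ?_ ?_ ?_ ?_ ?_
  · rw [hgd, LL_sub, LL_add, LL_C_mul, LL_C_mul, LL_Xp, hA, hf]; ring
  · rw [co, if_neg (by omega)]; field_simp; ring
  · rw [co, if_pos le_rfl, hAz p (by omega), Nat.sub_self]; field_simp; ring
  · intro j hj
    rw [co, htop j hj, hAz j (by omega), if_pos (by omega), hAz (j - p) (by omega)]; ring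
  · intro j hj hj2
    rw [co, hev j hj hj2, hAz j (by omega), if_pos (by omega), hAo (j - p) (by omega)]; ring

end ker

end Pool.Agent.H39
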