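import Pool.Agent.H39.Xid

set_option autoImplicit false

/-!
# The Legendre values and the square root series in terms of `r`
-/

namespace Pool.Agent.H39

open Finset PowerSeries
open Pool.Agent.H546 (lg lgs lgs_sq lg_zero)

section r1

variable {R : Type*} [CommRing R]

/-- the series `(1-X)^(-1/2)` -/
noncomputable def al (v : R) : R⟦X⟧ := PowerSeries.mk (aa v)

theorem al_sq {v : R} (hv : 2 * v = 1) : al v ^ 2 * (1 - X) = 1 := by
  have h : al v ^ 2 = PowerSeries.mk 1 := by
    ext n
    rw [sq, coeff_mul, coeff_mk, Pi.one_apply, ← aa_conv hv n, Nat.sum_antidiagonal_eq_sum_range_succ_mk]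
    simp only [al, coeff_mk]
    rw [← sum_flip]
    refine sum_congr rfl fun j hj => ?_
    rw [mem_range] at hj
    rw [show n - (n - j) = j by omega]
  rw [h]
  exact PowerSeries.mk_one_mul_one_sub_eq_one R

theorem sq_unique [IsDomain R] (h2 : (2 : R) ≠ 0) {F G Q : R⟦X⟧} (hF : F ^ 2 * Q = 1) (hG : G ^ 2 * Q = 1)
    (hF0 : constantCoeff F = 1) (hG0 : constantCoeff G = 1) : F = G := by
  have hQ : Q ≠ 0 := by rintro rfl; simp at hF
  have h1 : F ^ 2 = G ^ 2 := mul_right_cancel₀ hQ (hF.trans hG.symm)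
  rcases sq_eq_sq_iff_eq_or_eq_neg.mp h1 with h | h
  · exact h
  · exfalso
    apply h2
    have := congrArg constantCoeff h
    rw [map_neg, hF0, hG0] at this
    linear_combination this

theorem Pn_lg [IsDomain R] {v r u : R} (hv : 2 * v = 1) (hu : 4 * r * u = -(1 - r) ^ 2) (n : ℕ) :
    r ^ n * lg n u = (Pn v n).eval r := by
  have h2 : (2 : R) ≠ 0 := by
    intro h; rw [h, zero_mul] at hv; exact zero_ne_one hv
  have hF : (al v * rescale (r ^ 2) (al v)) ^ 2 * ((1 - X) * (1 - C (r ^ 2) * X)) = 1 := by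
    have h1 := al_sq hv
    have h3 := congrArg (rescale (r ^ 2)) h1
    rw [map_mul, map_pow, map_sub, map_one, rescale_X] at h3
    linear_combination (rescale (r ^ 2) (al v)) ^ 2 * (1 - C (r ^ 2) * X) * h1 + h3
  have hG : (rescale r (lgs u)) ^ 2 * ((1 - X) * (1 - C (r ^ 2) * X)) = 1 := by
    have h3 := congrArg (rescale r) (lgs_sq u)
    have hc : ∀ a : R, rescale r (C a) = C a := by
      intro a
      ext n
      rw [coeff_rescale, coeff_C]
      split_ifs with h
      · rw [h, pow_zero, one_mul]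
      · rw [mul_zero]
    rw [map_mul, map_pow, map_add, map_sub, map_one, map_mul, map_mul, map_pow, rescale_X, map_ofNat, hc] at h3
    have hu' := congrArg (C : R → R⟦X⟧) hu
    simp only [map_mul, map_neg, map_pow, map_sub, map_one, map_ofNat] at hu'
    simp only [map_mul, map_sub, map_one, map_ofNat, map_pow] at h3 ⊢
    linear_combination h3 - (rescale r (lgs u)) ^ 2 * X * hu'
  have hF0 : constantCoeff (al v * rescale (r ^ 2) (al v)) = 1 := by
    rw [map_mul, ← coeff_zero_eq_constantCoeff_apply, ← coeff_zero_eq_constantCoeff_apply, coeff_rescale]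
    simp [al, aa_zero]
  have hG0 : constantCoeff (rescale r (lgs u)) = 1 := by
    rw [← coeff_zero_eq_constantCoeff_apply, coeff_rescale]
    simp [lgs, lg_zero]
  have h := congrArg (coeff n) (sq_unique h2 hF hG hF0 hG0)
  rw [coeff_rescale, coeff_mul, Nat.sum_antidiagonal_eq_sum_range_succ_mk] at h
  simp only [lgs, coeff_mk, coeff_rescale, al] at h
  rw [← h, Pn, Polynomial.eval_finsetSum, ← sum_flip]
  refine sum_congr rfl fun j hj => ?_
  rw [mem_range] at hj
  rw [show n - (n - j) = j by omega]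
  simp only [Polynomial.eval_mul, Polynomial.eval_C, Polynomial.eval_pow, Polynomial.eval_X]
  rw [pow_mul]; ring

end r1

section r2

/-- the coefficients of the square root series -/
def bc (n m : ℕ) : ℕ := n.choose (2 * m) * m.centralBinom * 2 ^ (n - 2 * m)

theorem bc_rat (n m : ℕ) : ((bc n m : ℕ) : ℚ) = (n.choose (2 * m) : ℚ) * m.centralBinom * (2 ^ n / 4 ^ m) := by
  unfold bc
  rcases le_or_gt (2 * m) n with h | h
  · push_cast
    have : (2 : ℚ) ^ n / 4 ^ m = 2 ^ (n - 2 * m) := by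
      rw [div_eq_iff (by positivity), show (4 : ℚ) = 2 ^ 2 by norm_num, ← pow_mul, ← pow_add]
      congr 1; omega
    rw [this]
  · rw [Nat.choose_eq_zero_of_lt h]; simp

theorem choose_rat (n k : ℕ) : (n.choose (k + 1) : ℚ) * ((k : ℚ) + 1) = (n.choose k : ℚ) * ((n : ℚ) - k) := by
  have h := congrArg (Nat.cast : ℕ → ℚ) (Nat.choose_succ_right_eq n k)
  rcases le_or_gt k n with h' | h'
  · push_cast [Nat.cast_sub h'] at h
    exact h
  · rw [Nat.choose_eq_zero_of_lt h', Nat.choose_eq_zero_of_lt (by omega)]; simp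

theorem bc_zero (n : ℕ) : bc n 0 = 2 ^ n := by simp [bc]

theorem bc_high (n m : ℕ) (h : n < 2 * m) : bc n m = 0 := by
  unfold bc
  rw [Nat.choose_eq_zero_of_lt h]; simp

theorem bc_rec (n m : ℕ) : ((n : ℤ) + 2) * (bc (n + 2) (m + 1) : ℤ) = 2 * (2 * (n : ℤ) + 3) * (bc (n + 1) (m + 1) : ℤ) -
    4 * ((n : ℤ) + 1) * (bc n (m + 1) : ℤ) + 4 * ((n : ℤ) + 1) * (bc n m : ℤ) := by
  have key : ((n : ℚ) + 2) * (bc (n + 2) (m + 1) : ℚ) = 2 * (2 * (n : ℚ) + 3) * (bc (n + 1) (m + 1) : ℚ) -
    4 * ((n : ℚ) + 1) * (bc n (m + 1) : ℚ) + 4 * ((n : ℚ) + 1) * (bc n m : ℚ) := by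
    rw [bc_rat, bc_rat, bc_rat, bc_rat]
    have h1 : ((n + 1).choose (2 * (m + 1)) : ℚ) = n.choose (2 * m + 1) + n.choose (2 * m + 2) := by
      rw [show 2 * (m + 1) = (2 * m + 1) + 1 by ring, Nat.choose_succ_succ]; push_cast; ring
    have h2 : ((n + 2).choose (2 * (m + 1)) : ℚ) = n.choose (2 * m) + 2 * n.choose (2 * m + 1) + n.choose (2 * m + 2) := by
      rw [show 2 * (m + 1) = (2 * m + 1) + 1 by ring, show n + 2 = (n + 1) + 1 by ring, Nat.choose_succ_succ,
        Nat.choose_succ_succ, Nat.choose_succ_succ]; push_cast; ring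
    have h3 := choose_rat n (2 * m)
    have h4 := congrArg (Nat.cast : ℕ → ℚ) (Nat.succ_mul_centralBinom_succ m)
    have h5 : (m + 1).centralBinom * ((m : ℚ) + 1) = 2 * (2 * m + 1) * m.centralBinom := by
      push_cast at h4; linear_combination h4
    rw [h1, h2, show 2 * (m + 1) = 2 * m + 2 by ring]
    push_cast at h3
    have hm1 : (m : ℚ) + 1 ≠ 0 := by positivity
    have hm2 : 2 * (m : ℚ) + 1 ≠ 0 := by positivity
    have h6 : ((m + 1).centralBinom : ℚ) = 2 * (2 * m + 1) * m.centralBinom / ((m : ℚ) + 1) := by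
      rw [eq_div_iff hm1, h5]
    have h7 : (n.choose (2 * m + 1) : ℚ) = (n.choose (2 * m) : ℚ) * ((n : ℚ) - 2 * m) / (2 * (m : ℚ) + 1) := by
      rw [eq_div_iff hm2]; linear_combination h3
    rw [h6, h7]
    field_simp
    ring
  have := congrArg (fun x : ℚ => x) key
  exact_mod_cast key

variable {R : Type*} [CommRing R]

/-- the coefficient as a polynomial in `1-z` -/
def bb (n : ℕ) (z : R) : R := ∑ m ∈ range (n + 1), (bc n m : R) * (1 - z) ^ m

theorem bb_ext (n N : ℕ) (h : n < 2 * N) (z : R) : ∑ m ∈ range N, (bc n m : R) * (1 - z) ^ m = bb n z := by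
  unfold bb
  rcases le_or_gt N (n + 1) with h' | h'
  · refine sum_subset (fun k hk => ?_) (fun k _ hk => ?_)
    · rw [mem_range] at hk ⊢
      omega
    · rw [mem_range, not_lt] at hk
      rw [bc_high n k (by omega)]
      simp
  · symm
    refine sum_subset (fun k hk => ?_) (fun k _ hk => ?_)
    · rw [mem_range] at hk ⊢
      omega
    · rw [mem_range, not_lt] at hk
      rw [bc_high n k (by omega)]
      simp

theorem bb_rec (n : ℕ) (z : R) : ((n : R) + 2) * bb (n + 2) z = 2 * (2 * (n : R) + 3) * bb (n + 1) z - 4 * z * ((n : R) + 1) * bb n z := by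
  have e2 := bb_ext (n + 2) (n + 3) (by omega) z
  have e1 := bb_ext (n + 1) (n + 3) (by omega) z
  have e0 := bb_ext n (n + 3) (by omega) z
  have e0' := bb_ext n (n + 2) (by omega) z
  rw [sum_range_succ'] at e2 e1 e0
  rw [bc_zero, pow_zero, mul_one] at e2 e1 e0
  have key : ((n : R) + 2) * ∑ k ∈ range (n + 2), (bc (n + 2) (k + 1) : R) * (1 - z) ^ (k + 1) =
      2 * (2 * (n : R) + 3) * ∑ k ∈ range (n + 2), (bc (n + 1) (k + 1) : R) * (1 - z) ^ (k + 1) -
      4 * ((n : R) + 1) * ∑ k ∈ range (n + 2), (bc n (k + 1) : R) * (1 - z) ^ (k + 1) +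
      4 * ((n : R) + 1) * (1 - z) * ∑ k ∈ range (n + 2), (bc n k : R) * (1 - z) ^ k := by
    rw [mul_sum, mul_sum, mul_sum, mul_sum, ← sum_sub_distrib, ← sum_add_distrib]
    refine sum_congr rfl fun k _ => ?_
    have h := congrArg (Int.cast : ℤ → R) (bc_rec n k)
    push_cast at h
    rw [pow_succ]
    linear_combination (1 - z) ^ k * (1 - z) * h
  rw [e0'] at key
  push_cast at e2 e1 e0
  rw [pow_succ, pow_succ] at e2
  rw [pow_succ] at e1
  linear_combination key - ((n : R) + 2) * e2 + 2 * (2 * (n : R) + 3) * e1 - 4 * ((n : R) + 1) * e0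

theorem bb_zero (z : R) : bb 0 z = 1 := by simp [bb, bc]

theorem bb_one (z : R) : bb 1 z = 2 := by simp [bb, bc, sum_range_succ]

/-- the square root series -/
noncomputable def bs (z : R) : R⟦X⟧ := PowerSeries.mk fun n => bb n z

theorem bs_ode (z : R) : (1 - 4 * X + C (4 * z) * X ^ 2) * d⁄dX R (bs z) =
    (2 - C (4 * z) * X) * bs z := by
  have e : (1 - 4 * X + C (4 * z) * X ^ 2) * d⁄dX R (bs z) =
    d⁄dX R (bs z) - C 4 * (X * d⁄dX R (bs z)) + C (4 * z) * (X * (X * d⁄dX R (bs z))) := by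
    rw [map_ofNat]; ring
  have e' : (2 - C (4 * z) * X) * bs z = C 2 * bs z - C (4 * z) * (X * bs z) := by rw [map_ofNat]; ring
  rw [e, e']
  ext n
  rcases n with _ | _ | n
  · rw [map_add, map_sub, map_sub, coeff_C_mul, coeff_C_mul, coeff_C_mul, coeff_C_mul, coeff_zero_X_mul, coeff_zero_X_mul,
      coeff_zero_X_mul, coeff_derivative]
    simp only [bs, coeff_mk, zero_add]
    rw [bb_zero, bb_one]
    push_cast
    ring
  · have h := bb_rec 0 z
    simp only [Nat.cast_zero, zero_add, mul_zero] at h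
    rw [map_add, map_sub, map_sub, coeff_C_mul, coeff_C_mul, coeff_C_mul, coeff_C_mul, coeff_succ_X_mul, coeff_succ_X_mul,
      coeff_succ_X_mul, coeff_zero_X_mul, coeff_derivative, coeff_derivative]
    simp only [bs, coeff_mk]
    push_cast
    simp only [zero_add]
    linear_combination h
  · have h := bb_rec (n + 1) z
    push_cast at h
    rw [map_add, map_sub, map_sub, coeff_C_mul, coeff_C_mul, coeff_C_mul, coeff_C_mul, coeff_succ_X_mul, coeff_succ_X_mul,
      coeff_succ_X_mul, coeff_succ_X_mul, coeff_derivative, coeff_derivative, coeff_derivative]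
    simp only [bs, coeff_mk]
    push_cast
    linear_combination h

theorem bs_sq [IsAddTorsionFree R] (z : R) : bs z ^ 2 * (1 - 4 * X + C (4 * z) * X ^ 2) = 1 := by
  apply derivative.ext
  · have h := bs_ode z
    have h4 : d⁄dX R (4 : R⟦X⟧) = 0 := by
      have : (4 : R⟦X⟧) = C 4 := (map_ofNat C 4).symm
      rw [this, derivative_C]
    rw [Derivation.leibniz, derivative_one, derivative_pow, map_add, map_sub, derivative_one,
      Derivation.leibniz, Derivation.leibniz, derivative_C, derivative_X, derivative_pow,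
      derivative_X, h4]
    simp only [smul_eq_mul]
    push_cast
    linear_combination 2 * bs z * h
  · simp [bs, bb_zero]

/-- the series used by the coefficient theorem -/
noncomputable def cs (z : R) : R⟦X⟧ := PowerSeries.expand 2 (by norm_num) (bs z)

theorem cs_sq [IsAddTorsionFree R] (z : R) : cs z ^ 2 * (1 - 4 * X ^ 2 + C (4 * z) * X ^ 4) = 1 := by
  have h := congrArg (PowerSeries.expand 2 (by norm_num : (2:ℕ) ≠ 0)) (bs_sq z)
  rw [map_mul, map_pow, map_one] at h
  simp only [map_add, map_sub, map_mul, map_one, map_pow, map_ofNat, PowerSeries.expand_X,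
    PowerSeries.expand_C] at h
  rw [← pow_mul] at h
  rw [map_mul, map_ofNat]
  exact h

theorem cs_const (z : R) : constantCoeff (cs z) = 1 := by
  rw [← coeff_zero_eq_constantCoeff_apply, cs, coeff_expand]
  simp [bs, bb_zero]

theorem cs_coeff (z : R) (n : ℕ) : coeff (2 * n) (cs z) = bb n z := by
  rw [cs, coeff_expand]
  simp [bs]

theorem Gp_bb {v r u : R} (hv : 2 * v = 1) (hu : 4 * r * u = -(1 - r) ^ 2) (D : ℕ) :
    r ^ D * bb (2 * D) u = (Gp v D).eval r := by
  rw [← bb_ext (2 * D) (D + 1) (by omega), Gp, Polynomial.eval_finsetSum, mul_sum]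
  refine sum_congr rfl fun m hm => ?_
  rw [mem_range] at hm
  have h1 : r * (1 - u) = v * v * (1 + r) ^ 2 := by
    linear_combination (-v * v) * hu + r * (1 - u) * (-2 * v - 1) * hv
  simp only [Polynomial.eval_mul, Polynomial.eval_C, Polynomial.eval_pow, Polynomial.eval_X, Polynomial.eval_add, Polynomial.eval_one]
  obtain ⟨e, rfl⟩ : ∃ e, D = m + e := ⟨D - m, by omega⟩
  rw [show m + e - m = e by omega, pow_add]
  unfold gc bc
  calc r ^ m * r ^ e * (((2 * (m + e)).choose (2 * m) * m.centralBinom * 2 ^ (2 * (m + e) - 2 * m) : ℕ) * (1 - u) ^ m)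
      = (((2 * (m + e)).choose (2 * m) * m.centralBinom * 2 ^ (2 * (m + e) - 2 * m) : ℕ) : R) * r ^ e * (r * (1 - u)) ^ m := by
        rw [mul_pow]; ring
    _ = _ := by rw [h1, mul_pow, pow_mul (1 + r)]; ring

end r2

end Pool.Agent.H39
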