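import Mathlib

/-!
# Quartic character of `ZMod p` and its Jacobi sum (task QC1 of helper39, by helper161)
-/

set_option autoImplicit false

namespace Pool.Agent.H39

namespace QC1

open Finset

/-- the unit `i` -/
def ii : GaussianIntˣ := ⟨⟨0, 1⟩, ⟨0, -1⟩, by decide, by decide⟩

theorem ii_sq : (ii : GaussianInt) ^ 2 = -1 := by decide

theorem ii_four : (ii : GaussianInt) ^ 4 = 1 := by decide

theorem ii_pow_four : ii ^ 4 = 1 := by
  apply Units.ext
  rw [Units.val_pow_eq_pow_val, ii_four, Units.val_one]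

/-- the sum of the values of a polynomial of small degree -/
theorem sum_poly {p : ℕ} [hp : Fact p.Prime] (f : Polynomial (ZMod p))
    (hf : f.natDegree < p - 1) : ∑ x : ZMod p, f.eval x = 0 := by
  have h1 : ∀ x : ZMod p, f.eval x = ∑ i ∈ range (f.natDegree + 1), f.coeff i * x ^ i :=
    fun x => Polynomial.eval_eq_sum_range x
  simp only [h1]
  rw [sum_comm]
  refine sum_eq_zero fun i hi => ?_
  rw [mem_range] at hi
  rw [← mul_sum, FiniteField.sum_pow_lt_card_sub_one (ZMod p) i (by rw [ZMod.card]; omega),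
    mul_zero]

end QC1

open QC1 Finset in
theorem qchar {p D : ℕ} [hp : Fact p.Prime] (hD : p = 4 * D + 1) :
    ∃ (χ : MulChar (ZMod p) GaussianInt) (φ : GaussianInt →+* ZMod p),
      (∀ a : ZMod p, φ (χ a) = a ^ D) ∧ (∀ a : ZMod p, a ≠ 0 → χ a ^ 4 = 1) ∧ χ ^ 2 ≠ 1 ∧
      (jacobiSum χ χ).re % 2 = 1 ∧
      (jacobiSum χ χ).re ^ 2 + (jacobiSum χ χ).im ^ 2 = (p : ℤ) ∧ φ (jacobiSum χ χ) = 0 := by
  classical
  have hD0 : 0 < D := by
    rcases Nat.eq_zero_or_pos D with h | h
    · exfalso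
      rw [h] at hD
      exact hp.out.one_lt.ne' hD
    · exact h
  have hcard : Fintype.card (ZMod p)ˣ = 4 * D := by
    rw [ZMod.card_units]
    omega
  obtain ⟨g, hg⟩ := IsCyclic.exists_generator (α := (ZMod p)ˣ)
  have hζ : ii ∈ rootsOfUnity (Fintype.card (ZMod p)ˣ) GaussianInt := by
    rw [mem_rootsOfUnity, hcard, pow_mul, ii_pow_four, one_pow]
  have hord : orderOf g = 4 * D := by
    rw [orderOf_eq_card_of_forall_mem_zpowers hg, Nat.card_eq_fintype_card, hcard]
  have hgD : ((g : ZMod p) ^ D) * ((g : ZMod p) ^ D) = ((-1 : ℤ) : ZMod p) := by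
    have h1 : ((g : ZMod p) ^ (2 * D)) * ((g : ZMod p) ^ (2 * D)) = 1 := by
      rw [← pow_add, ← Units.val_pow_eq_pow_val]
      have : g ^ (2 * D + 2 * D) = 1 := by
        rw [show 2 * D + 2 * D = 4 * D by ring, ← hord]
        exact pow_orderOf_eq_one g
      rw [this, Units.val_one]
    have h2 : (g : ZMod p) ^ (2 * D) ≠ 1 := by
      intro h
      have h3 : g ^ (2 * D) = 1 := by
        apply Units.ext
        rw [Units.val_pow_eq_pow_val, h, Units.val_one]
      have h4 := orderOf_dvd_of_pow_eq_one h3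
      rw [hord] at h4
      have h5 := Nat.le_of_dvd (by omega) h4
      omega
    rw [← pow_add, show D + D = 2 * D by ring]
    rcases mul_self_eq_one_iff.1 h1 with h | h
    · exact absurd h h2
    · rw [h]
      push_cast
      rfl
  obtain ⟨χ, hχ⟩ : ∃ χ : MulChar (ZMod p) GaussianInt, χ g = ii :=
    ⟨MulChar.ofRootOfUnity hζ hg, MulChar.ofRootOfUnity_spec hζ hg⟩
  obtain ⟨φ, hφ⟩ : ∃ φ : GaussianInt →+* ZMod p, φ (ii : GaussianInt) = (g : ZMod p) ^ D := by
    refine ⟨Zsqrtd.lift ⟨(g : ZMod p) ^ D, hgD⟩, ?_⟩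
    show ((0 : ℤ) : ZMod p) + ((1 : ℤ) : ZMod p) * (g : ZMod p) ^ D = _
    push_cast
    ring
  -- the values
  have hpow : ∀ a : ZMod p, a ≠ 0 → ∃ n : ℕ, a = (g : ZMod p) ^ n ∧
      χ a = (ii : GaussianInt) ^ n := by
    intro a ha
    obtain ⟨n, hn⟩ := (isOfFinOrder_of_finite g).mem_powers_iff_mem_zpowers.2
      (hg (Units.mk0 a ha))
    simp only at hn
    have h1 : a = (g : ZMod p) ^ n := by
      rw [← Units.val_pow_eq_pow_val, hn, Units.val_mk0]
    refine ⟨n, h1, ?_⟩
    rw [h1, map_pow, hχ]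
  have hv : ∀ a : ZMod p, φ (χ a) = a ^ D := by
    intro a
    by_cases ha : a = 0
    · rw [ha, MulChar.map_zero, map_zero, zero_pow hD0.ne']
    · obtain ⟨n, h1, h2⟩ := hpow a ha
      rw [h2, map_pow, hφ, h1, ← pow_mul, ← pow_mul, mul_comm]
  have h4 : ∀ a : ZMod p, a ≠ 0 → χ a ^ 4 = 1 := by
    intro a ha
    obtain ⟨n, h1, h2⟩ := hpow a ha
    rw [h2, ← pow_mul, mul_comm, pow_mul, ii_four, one_pow]
  have hsq : χ ^ 2 ≠ 1 := by
    intro h
    have h1 : (χ ^ 2) g = 1 := by rw [h, MulChar.one_apply_coe]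
    rw [MulChar.pow_apply_coe, hχ, ii_sq] at h1
    exact absurd h1 (by decide)
  refine ⟨χ, φ, hv, h4, hsq, ?_, ?_, ?_⟩
  · -- parity
    have h2ne : (2 : ZMod p) ≠ 0 := by
      intro h
      have h1 : ((2 : ℕ) : ZMod p) = 0 := by exact_mod_cast h
      rw [ZMod.natCast_eq_zero_iff] at h1
      have := Nat.le_of_dvd (by norm_num) h1
      omega
    obtain ⟨ρ, hρ⟩ : ∃ ρ : GaussianInt →+ ZMod 2, ∀ z, ρ z = (z.re : ZMod 2) :=
      ⟨{ toFun := fun z => (z.re : ZMod 2)
         map_zero' := by simp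
         map_add' := fun a b => by simp }, fun _ => rfl⟩
    obtain ⟨h, hh⟩ : ∃ h : ZMod p, h + h = 1 := ⟨2⁻¹, by rw [← two_mul, mul_inv_cancel₀ h2ne]⟩
    have h1 : ρ (jacobiSum χ χ) = ρ (χ h * χ (1 - h)) := by
      unfold jacobiSum
      rw [map_sum, ← add_sum_erase univ _ (mem_univ h), add_eq_left]
      refine sum_involution (fun x _ => 1 - x) ?_ ?_ ?_ ?_
      · intro x _
        rw [sub_sub_cancel, mul_comm (χ (1 - x))]
        exact CharTwo.add_self_eq_zero _
      · intro x hx _ he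
        have h2 : x ≠ h := ne_of_mem_erase hx
        apply h2
        have h3 : (2 : ZMod p) * x = 2 * h := by linear_combination -he - hh
        exact mul_left_cancel₀ h2ne h3
      · intro x hx
        refine mem_erase.2 ⟨fun he => (ne_of_mem_erase hx) ?_, mem_univ _⟩
        linear_combination -he - hh
      · intro x _
        exact sub_sub_cancel 1 x
    have h2 : (1 : ZMod p) - h = h := by linear_combination -hh
    have hh0 : h ≠ 0 := by
      rintro rfl
      rw [add_zero] at hh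
      exact zero_ne_one hh
    have h3 : χ h * χ h = 1 ∨ χ h * χ h = -1 := by
      apply mul_self_eq_one_iff.1
      have := h4 h hh0
      linear_combination this
    have h5 : ρ (χ h * χ h) = 1 := by
      rcases h3 with e | e
      · rw [e, hρ]
        simp
      · rw [e, hρ]
        simp
    rw [h2, h5, hρ] at h1
    have h6 : (((jacobiSum χ χ).re : ℤ) : ZMod 2) = ((1 : ℤ) : ZMod 2) := by
      rw [h1]
      simp
    have h7 := (ZMod.intCast_eq_intCast_iff _ _ 2).1 h6
    exact h7
  · -- the norm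
    obtain ⟨χc, hχc⟩ : ∃ χc : MulChar (ZMod p) ℂ, χc = χ.ringHomComp GaussianInt.toComplex :=
      ⟨_, rfl⟩
    have hg1 : (χc g) * (χc g) = -1 := by
      rw [hχc, MulChar.ringHomComp_apply, hχ, ← map_mul, ← sq, ii_sq, map_neg, map_one]
    have hc2 : χc * χc ≠ 1 := by
      intro h
      have h1 : (χc * χc) g = 1 := by rw [h, MulChar.one_apply_coe]
      rw [MulChar.mul_apply, hg1] at h1
      norm_num at h1
    have hc1 : χc ≠ 1 := by
      intro h
      apply hc2
      rw [h, mul_one]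
    have hch : ringChar ℂ ≠ ringChar (ZMod p) := by
      rw [ringChar.eq_zero, ZMod.ringChar_zmod_n]
      exact hp.out.ne_zero.symm
    have h1 := jacobiSum_mul_jacobiSum_inv hch hc1 hc1 hc2
    have h2 : jacobiSum χc⁻¹ χc⁻¹ = (starRingEnd ℂ) (jacobiSum χc χc) := by
      rw [← MulChar.star_eq_inv]
      exact jacobiSum_ringHomComp χc χc (starRingEnd ℂ)
    have h3 : jacobiSum χc χc = GaussianInt.toComplex (jacobiSum χ χ) := by
      rw [hχc]
      exact jacobiSum_ringHomComp χ χ GaussianInt.toComplex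
    rw [h2, Complex.mul_conj, ZMod.card, h3] at h1
    have h5 : Complex.normSq (GaussianInt.toComplex (jacobiSum χ χ)) = (p : ℝ) := by
      exact_mod_cast h1
    rw [Complex.normSq_apply, ← GaussianInt.intCast_re, ← GaussianInt.intCast_im] at h5
    have h6 : ((jacobiSum χ χ).re * (jacobiSum χ χ).re + (jacobiSum χ χ).im * (jacobiSum χ χ).im :
        ℤ) = (p : ℤ) := by
      exact_mod_cast h5
    rw [← h6]
    ring
  · -- the reduction
    unfold jacobiSum
    rw [map_sum]
    have h1 : ∀ x : ZMod p, φ (χ x * χ (1 - x)) =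
        ((Polynomial.X * (1 - Polynomial.X)) ^ D : Polynomial (ZMod p)).eval x := by
      intro x
      rw [map_mul, hv, hv, ← mul_pow]
      simp
    rw [sum_congr rfl fun x _ => h1 x]
    apply sum_poly
    have h2 : ((Polynomial.X * (1 - Polynomial.X)) ^ D : Polynomial (ZMod p)).natDegree ≤
        D * 2 := by
      refine Polynomial.natDegree_pow_le_of_le D ?_
      have h3 : (1 - Polynomial.X : Polynomial (ZMod p)).natDegree ≤ 1 := by
        refine (Polynomial.natDegree_sub_le _ _).trans ?_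
        rw [Polynomial.natDegree_one, Polynomial.natDegree_X]
        norm_num
      refine Polynomial.natDegree_mul_le.trans ?_
      rw [Polynomial.natDegree_X]
      omega
    omega

end Pool.Agent.H39
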