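import Mathlib

namespace Pool.Agent.H39

open AddChar MulChar

theorem qchar5 {p D : ℕ} [hp : Fact p.Prime] (hD : p = 4 * D + 1) (h5 : p ≠ 5)
    (χ : MulChar (ZMod p) GaussianInt)
    (h4 : ∀ a : ZMod p, a ≠ 0 → χ a ^ 4 = 1) (h2 : χ ^ 2 ≠ 1) (f : GaussianInt →+* ZMod 5) :
    f (χ 5) * f (jacobiSum χ χ) ^ 2 * (p : ZMod 5) = 1 := by
  have h15 : (-1 : ZMod 5) ≠ 1 := by decide
  have h5p : Fact (Nat.Prime 5) := ⟨by norm_num⟩
  have hchar : ringChar (ZMod 5) ≠ ringChar (ZMod p) := by
    rw [ZMod.ringChar_zmod_n, ZMod.ringChar_zmod_n]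
    exact fun h => h5 h.symm
  let Ψ := FiniteField.primitiveChar (ZMod p) (ZMod 5) hchar
  let E := CyclotomicField Ψ.n (ZMod 5)
  let ψ : AddChar (ZMod p) E := Ψ.char
  have hψ : ψ.IsPrimitive := Ψ.prim
  let g : ZMod 5 →+* E := algebraMap (ZMod 5) E
  have hg : Function.Injective g := g.injective
  let F : GaussianInt →+* E := g.comp f
  have : CharP E 5 := charP_of_injective_algebraMap (algebraMap (ZMod 5) E).injective 5
  let c : MulChar (ZMod p) E := χ.ringHomComp F
  have hcapp : ∀ a, c a = F (χ a) := fun a => MulChar.ringHomComp_apply χ F a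
  have hneg : (-1 : E) ≠ 1 := by
    intro h
    have h' : g (-1) = g 1 := by rw [map_neg, map_one]; exact h
    exact h15 (hg h')
  have hc2 : c * c ≠ 1 := by
    intro h
    apply h2
    apply MulChar.ext
    intro a
    have ha : (c * c) (a : ZMod p) = 1 := by rw [h, MulChar.one_apply_coe]
    rw [MulChar.mul_apply, hcapp] at ha
    rw [MulChar.pow_apply_coe, MulChar.one_apply_coe]
    have h4a := h4 (a : ZMod p) a.ne_zero
    have h0 : (χ (a : ZMod p) ^ 2 - 1) * (χ (a : ZMod p) ^ 2 + 1) = 0 := by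
      linear_combination h4a
    rcases mul_eq_zero.mp h0 with h1 | h1
    · exact sub_eq_zero.mp h1
    · exfalso
      apply hneg
      have h1' : χ (a : ZMod p) ^ 2 = -1 := eq_neg_of_add_eq_zero_left h1
      have h3 : F (χ (a : ZMod p) ^ 2) = F (-1) := by rw [h1']
      rw [map_pow, map_neg, map_one, pow_two, ha] at h3
      exact h3.symm
  have hc1 : c ≠ 1 := by
    intro h
    apply hc2
    rw [h, mul_one]
  have hc4 : ∀ a : ZMod p, a ≠ 0 → c a ^ 4 = 1 := by
    intro a ha
    rw [hcapp, ← map_pow, h4 a ha, map_one]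
  have hcq : (c * c).IsQuadratic := by
    intro a
    by_cases ha : a = 0
    · left
      rw [ha, MulChar.mul_apply, hcapp, MulChar.map_zero, map_zero, zero_mul]
    · right
      have h := hc4 a ha
      rw [MulChar.mul_apply]
      have h0 : (c a * c a - 1) * (c a * c a + 1) = 0 := by linear_combination h
      rcases mul_eq_zero.mp h0 with h1 | h1
      · left; exact sub_eq_zero.mp h1
      · right; exact eq_neg_of_add_eq_zero_left h1
  -- the prime `5` is a unit of `ZMod p`
  have h50 : (5 : ZMod p) ≠ 0 := by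
    intro h
    have h' : ((5 : ℕ) : ZMod p) = 0 := by exact_mod_cast h
    rw [ZMod.natCast_eq_zero_iff] at h'
    exact h5 ((Nat.prime_dvd_prime_iff_eq hp.out (by norm_num)).mp h')
  -- Frobenius
  have hc5 : c ^ 5 = c := by
    ext a
    rw [MulChar.pow_apply_coe]
    have := hc4 (a : ZMod p) a.ne_zero
    linear_combination (c (a : ZMod p)) * this
  have hfrob : c 5 * gaussSum c ψ ^ 5 = gaussSum c ψ := by
    rw [gaussSum_frob 5, hc5, pow_mulShift]
    have := gaussSum_mulShift c ψ (Units.mk0 (5 : ZMod p) h50)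
    rw [Units.val_mk0] at this
    exact_mod_cast this
  have hcard : (Fintype.card (ZMod p) : E) = (p : E) := by rw [ZMod.card]
  have hp0 : (p : E) ≠ 0 := by
    intro h
    rw [CharP.cast_eq_zero_iff E 5] at h
    exact h5 ((Nat.prime_dvd_prime_iff_eq (by norm_num) hp.out).mp h).symm
  have hG0 : gaussSum c ψ ≠ 0 :=
    gaussSum_ne_zero_of_nontrivial (by rw [hcard]; exact hp0) hc1 hψ
  have hG4 : c 5 * gaussSum c ψ ^ 4 = 1 := by
    apply mul_right_cancel₀ hG0
    linear_combination hfrob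
  have hJ := jacobiSum_mul_nontrivial hc2 ψ
  have hsq := gaussSum_sq hc2 hcq hψ
  have hm1 : (c * c) (-1) = 1 := by
    rw [MulChar.mul_apply, ← map_mul]
    norm_num
  rw [hm1, one_mul, hcard] at hsq
  have hfin : c 5 * jacobiSum c c ^ 2 * (p : E) = 1 := by
    rw [← hsq, ← hG4]
    linear_combination (c 5 * (gaussSum (c * c) ψ * jacobiSum c c + gaussSum c ψ * gaussSum c ψ)) * hJ
  have hJc : jacobiSum c c = g (f (jacobiSum χ χ)) := jacobiSum_ringHomComp χ χ F
  apply hg
  rw [map_one, map_mul, map_mul, map_pow, map_natCast, ← hJc]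
  rw [hcapp] at hfin
  exact hfin

end Pool.Agent.H39
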