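import Pool.Agent.H39.Main100
import Pool.Agent.H39.QC1
import Pool.Agent.H39.QC2

set_option autoImplicit false

/-!
# The quartic character of five
-/

namespace Pool.Agent.H39

theorem quartic_unit {c : GaussianInt} (h : c ^ 4 = 1) : c = 1 ∨ c = -1 ∨ c = ⟨0, 1⟩ ∨ c = -⟨0, 1⟩ := by
  have hi : (⟨0, 1⟩ : GaussianInt) * ⟨0, 1⟩ = -1 := by decide
  have h1 : (c - 1) * ((c + 1) * ((c - ⟨0, 1⟩) * (c + ⟨0, 1⟩))) = 0 := by
    linear_combination h - (c ^ 2 - 1) * hi
  rcases mul_eq_zero.mp h1 with h2 | h2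
  · exact Or.inl (sub_eq_zero.mp h2)
  rcases mul_eq_zero.mp h2 with h2 | h2
  · exact Or.inr (Or.inl (eq_neg_of_add_eq_zero_left h2))
  rcases mul_eq_zero.mp h2 with h2 | h2
  · exact Or.inr (Or.inr (Or.inl (sub_eq_zero.mp h2)))
  · exact Or.inr (Or.inr (Or.inr (eq_neg_of_add_eq_zero_left h2)))

theorem five_one : ∀ c x : ZMod 5, c * (x + 2 * 0) ^ 2 * (x ^ 2 + 0 ^ 2) = 1 → c = 1 := by decide

theorem five_two : ∀ c y d : ZMod 5, (d = 1 ∨ d = -1) → c * (0 + 2 * (d * y)) ^ 2 * (0 ^ 2 + y ^ 2) = 1 → c = -1 := by decide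

theorem five_three : ∀ c y d : ZMod 5, (d = 1 ∨ d = -1) → c * (-y + 2 * (d * y)) ^ 2 * ((-y) ^ 2 + y ^ 2) = 1 → c = -(d * 2) := by decide

/-- **The quartic character of five.** -/
theorem q5_all {p D : ℕ} [hp : Fact p.Prime] (hD : p = 4 * D + 1) (h5 : p ≠ 5) : Q5 p D := by
  intro x y hxy hx I hI
  obtain ⟨χ, φ, hφ, h4, h2, hre, hnorm, hJ⟩ := qchar (p := p) hD
  set J := jacobiSum χ χ with hJdef
  have hp0 : 0 < p := hp.out.pos
  have hpz : (p : ZMod p) = 0 := CharP.cast_eq_zero _ _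
  -- `I` and `I0`
  set i : GaussianInt := ⟨0, 1⟩ with hi
  have hii : i * i = -1 := by rw [hi]; decide
  have hI0 : φ i * φ i = -1 := by rw [← map_mul, hii, map_neg, map_one]
  have hyz : (y : ZMod p) ≠ 0 := by
    intro h
    rw [ZMod.intCast_zmod_eq_zero_iff_dvd] at h
    obtain ⟨c, rfl⟩ := h
    have h1 : (p : ℤ) ∣ x ^ 2 := ⟨1 - p * c ^ 2, by linear_combination -hxy⟩
    obtain ⟨d, rfl⟩ := Int.Prime.dvd_pow' hp.out h1
    have hp0' : (p : ℤ) ≠ 0 := by exact_mod_cast hp0.ne'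
    have h2 : (p : ℤ) * (p * (d ^ 2 + c ^ 2)) = p * 1 := by linear_combination -hxy
    have h3 := mul_left_cancel₀ hp0' h2
    have h4 : (p : ℤ) ∣ 1 := ⟨_, h3.symm⟩
    have h6 := Int.le_of_dvd one_pos h4
    have h7 := hp.out.two_le
    omega
  have hII : I * I = -1 := by
    have h1 := congrArg (Int.cast : ℤ → ZMod p) hxy
    push_cast at h1
    rw [hpz] at h1
    have h3 : (I * I + 1) * ((y : ZMod p) * y) = 0 := by
      linear_combination ((x : ZMod p) + I * y - 2 * x) * hI - h1 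
    rcases mul_eq_zero.mp h3 with h | h
    · exact eq_neg_of_add_eq_zero_left h
    · exact absurd h (mul_ne_zero hyz hyz)
  obtain ⟨δ, hδ, hIδ⟩ : ∃ δ : ℤ, (δ = 1 ∨ δ = -1) ∧ I = δ * φ i := by
    have h1 : (I - φ i) * (I + φ i) = 0 := by linear_combination hII - hI0
    rcases mul_eq_zero.mp h1 with h | h
    · exact ⟨1, Or.inl rfl, by rw [Int.cast_one, one_mul]; exact sub_eq_zero.mp h⟩
    · exact ⟨-1, Or.inr rfl, by rw [Int.cast_neg, Int.cast_one]; rw [eq_neg_of_add_eq_zero_left h]; ring⟩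
  have hδ2 : δ * δ = 1 := by rcases hδ with rfl | rfl <;> norm_num
  -- `J = a + b i`
  have hJab : J = (J.re : GaussianInt) + (J.im : GaussianInt) * i := by
    rw [hi]
    ext <;> simp
  generalize hae : J.re = a at *
  generalize hbe : J.im = b at *
  have hφJ : (a : ZMod p) + b * φ i = 0 := by
    have := congrArg φ hJab
    rw [hJ, map_add, map_mul, map_intCast, map_intCast] at this
    exact this.symm
  -- comparison
  have hpodd : (p : ℤ) % 2 = 1 := by omega
  have hb : b % 2 = 0 := by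
    have h1 : (a ^ 2 + b ^ 2) % 2 = 1 := by rw [hnorm]; exact hpodd
    rcases Int.emod_two_eq_zero_or_one b with h | h
    · exact h
    · exfalso
      rw [pow_two, pow_two, Int.add_emod, Int.mul_emod, Int.mul_emod b b, hre, h] at h1; omega
  have hy : y % 2 = 0 := by
    have h1 : (x ^ 2 + y ^ 2) % 2 = 1 := by rw [← hxy]; exact hpodd
    rcases Int.emod_two_eq_zero_or_one y with h | h
    · exact h
    · exfalso
      rw [pow_two, pow_two, Int.add_emod, Int.mul_emod, Int.mul_emod y y, hx, h] at h1; omega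
  have hdv : (p : ℤ) ∣ a * (δ * y) - b * x := by
    rw [← ZMod.intCast_zmod_eq_zero_iff_dvd]
    push_cast
    rw [hIδ] at hI
    linear_combination ((δ : ZMod p) * y) * hφJ - (b : ZMod p) * hI
  have hsq : (a * (δ * y) - b * x) ^ 2 + (a * x + b * (δ * y)) ^ 2 = (p : ℤ) ^ 2 := by
    linear_combination (a ^ 2 + b ^ 2) * y ^ 2 * hδ2 + (x ^ 2 + y ^ 2) * hnorm - p * hxy
  have hzero : a * (δ * y) - b * x = 0 := by
    obtain ⟨c, hc⟩ := hdv
    have h1 : (a * (δ * y) - b * x) % 2 = 0 := by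
      obtain ⟨b', rfl⟩ : ∃ b', b = 2 * b' := ⟨b / 2, by omega⟩
      obtain ⟨y', rfl⟩ : ∃ y', y = 2 * y' := ⟨y / 2, by omega⟩
      have : a * (δ * (2 * y')) - 2 * b' * x = 2 * (a * (δ * y') - b' * x) := by ring
      omega
    rw [hc] at h1
    have h2 : c % 2 = 0 := by
      rcases Int.emod_two_eq_zero_or_one c with h | h
      · exact h
      · exfalso; rw [Int.mul_emod, hpodd, h] at h1; omega
    obtain ⟨c', rfl⟩ : ∃ c', c = 2 * c' := ⟨c / 2, by omega⟩
    rw [hc] at hsq ⊢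
    have hpp : (0 : ℤ) < p := by exact_mod_cast hp0
    by_cases hc0 : c' = 0
    · rw [hc0]; ring
    · exfalso
      have h3 : 1 ≤ c' ^ 2 := by
        have := sq_pos_of_ne_zero hc0
        omega
      nlinarith [sq_nonneg (a * x + b * (δ * y)), mul_pos hpp hpp]
  obtain ⟨η, hη, hax⟩ : ∃ η : ℤ, η * η = 1 ∧ a * x + b * (δ * y) = η * p := by
    rw [hzero] at hsq
    have h1 : (a * x + b * (δ * y)) ^ 2 = (p : ℤ) ^ 2 := by linear_combination hsq
    rcases sq_eq_sq_iff_eq_or_eq_neg.mp h1 with h | h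
    · exact ⟨1, by norm_num, by rw [h]; ring⟩
    · exact ⟨-1, by norm_num, by rw [h]; ring⟩
  have hpz' : (p : ℤ) ≠ 0 := by exact_mod_cast hp0.ne'
  have ha : a = η * x := by
    apply mul_right_cancel₀ hpz'
    linear_combination x * hax + (δ * y) * hzero + a * hxy - a * y ^ 2 * hδ2
  have hb' : b = η * (δ * y) := by
    apply mul_right_cancel₀ hpz'
    linear_combination (δ * y) * hax - x * hzero + b * hxy - b * y ^ 2 * hδ2
  -- the character
  let f : GaussianInt →+* ZMod 5 := Zsqrtd.lift ⟨2, by decide⟩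
  have hfi : f i = 2 := by
    rw [hi]
    simp [f, Zsqrtd.lift]
  have hrel := qchar5 hD h5 χ h4 h2 f
  rw [← hJdef, hJab, map_add, map_mul, map_intCast, map_intCast, hfi] at hrel
  have hp5 : (p : ZMod 5) = (x : ZMod 5) ^ 2 + (y : ZMod 5) ^ 2 := by
    have := congrArg (Int.cast : ℤ → ZMod 5) hxy
    push_cast at this; exact this
  have hη5 : (η : ZMod 5) * η = 1 := by
    have := congrArg (Int.cast : ℤ → ZMod 5) hη
    push_cast at this; exact this
  have hrel' : f (χ 5) * ((x : ZMod 5) + 2 * ((δ : ZMod 5) * y)) ^ 2 * ((x : ZMod 5) ^ 2 + (y : ZMod 5) ^ 2) = 1 := by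
    rw [hp5, ha, hb'] at hrel
    push_cast at hrel
    linear_combination hrel - (f (χ 5) * ((x : ZMod 5) + 2 * ((δ : ZMod 5) * y)) ^ 2 * ((x : ZMod 5) ^ 2 + (y : ZMod 5) ^ 2)) * hη5
  have h50 : (5 : ZMod p) ≠ 0 := by
    intro h
    have h' : ((5 : ℕ) : ZMod p) = 0 := by exact_mod_cast h
    rw [ZMod.natCast_eq_zero_iff] at h'
    exact h5 ((Nat.prime_dvd_prime_iff_eq hp.out (by norm_num)).mp h')
  have hχ := quartic_unit (h4 5 h50)
  have hδ5 : (δ : ZMod 5) = 1 ∨ (δ : ZMod 5) = -1 := by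
    rcases hδ with rfl | rfl
    · left; norm_num
    · right; norm_num
  rw [← hφ 5]
  refine ⟨fun hd => ?_, fun hd => ?_, fun hd => ?_⟩
  · have h0 : (y : ZMod 5) = 0 := (ZMod.intCast_zmod_eq_zero_iff_dvd y 5).mpr (by exact_mod_cast hd)
    rw [h0, mul_zero] at hrel'
    have h1 := five_one _ _ hrel'
    rcases hχ with h | h | h | h
    · rw [h, map_one]
    · rw [h, map_neg, map_one] at h1; exact absurd h1 (by decide)
    · rw [h, ← hi, hfi] at h1; exact absurd h1 (by decide)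
    · rw [h, map_neg, ← hi, hfi] at h1; exact absurd h1 (by decide)
  · have h0 : (x : ZMod 5) = 0 := (ZMod.intCast_zmod_eq_zero_iff_dvd x 5).mpr (by exact_mod_cast hd)
    rw [h0] at hrel'
    have h1 := five_two _ _ _ hδ5 hrel'
    rcases hχ with h | h | h | h
    · rw [h, map_one] at h1; exact absurd h1 (by decide)
    · rw [h, map_neg, map_one]
    · rw [h, ← hi, hfi] at h1; exact absurd h1 (by decide)
    · rw [h, map_neg, ← hi, hfi] at h1; exact absurd h1 (by decide)
  · have h0 : (x : ZMod 5) = -y := by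
      have : ((x + y : ℤ) : ZMod 5) = 0 := (ZMod.intCast_zmod_eq_zero_iff_dvd (x + y) 5).mpr (by exact_mod_cast hd)
      push_cast at this
      exact eq_neg_of_add_eq_zero_left this
    rw [h0] at hrel'
    have h1 := five_three _ _ _ hδ5 hrel'
    rw [hIδ]
    rcases hδ with rfl | rfl
    · rw [Int.cast_one, one_mul] at h1 ⊢
      rcases hχ with h | h | h | h
      · rw [h, map_one] at h1; exact absurd h1 (by decide)
      · rw [h, map_neg, map_one] at h1; exact absurd h1 (by decide)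
      · rw [h, ← hi, hfi] at h1; exact absurd h1 (by decide)
      · rw [h, map_neg]
    · have e1 : ((-1 : ℤ) : ZMod 5) = -1 := by norm_num
      have e2 : ((-1 : ℤ) : ZMod p) = -1 := by norm_num
      rw [e1] at h1
      rw [e2]
      rcases hχ with h | h | h | h
      · rw [h, map_one] at h1; exact absurd h1 (by decide)
      · rw [h, map_neg, map_one] at h1; exact absurd h1 (by decide)
      · rw [h, ← hi]; ring
      · rw [h, map_neg, ← hi, hfi] at h1; exact absurd h1 (by decide)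

end Pool.Agent.H39
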