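import Pool.Agent.H39.Main100
import Pool.Agent.H546.QLift

set_option autoImplicit false

/-!
# The sign: the isogeny of degree five to the curve with complex multiplication by `i`
-/

namespace Pool.Agent.H39

open Pool.Agent.H546

/-- the target curve -/
noncomputable def ta {R : Type*} [CommRing R] (a b : R) : Polynomial R :=
  1 + Polynomial.C a * Polynomial.X + Polynomial.C b * Polynomial.X ^ 2

section hasse

open PowerSeries

variable {k : Type*} [Field k] {p : ℕ} [hp : Fact p.Prime] [CharP k p]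

/-- **Isogenies and the Hasse coefficient**, target `U (1 + a U + b U²)`. -/
theorem hasse5 (hp2 : p ≠ 2) {z a b m : k} {N D : Polynomial k} (hN : N.coeff 0 = 0) (hN1 : N.coeff 1 ≠ 0)
    (hD : D.coeff 0 ≠ 0) (hm : m ≠ 0) (ode : Polynomial.X * gu z * wr N D ^ 2 = Polynomial.C m ^ 2 *
      (N * D * (D ^ 2 + Polynomial.C a * D * N + Polynomial.C b * N ^ 2))) :
    m * h4 p z = m ^ p * ((Polynomial.X * ta a b) ^ ((p - 1) / 2)).coeff (p - 1) := by
  obtain ⟨e, he⟩ := hp.out.odd_of_ne_two hp2
  have e1 : (p - 1) / 2 = e := by omega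
  set al : Polynomial k →+* k⟦X⟧ := Polynomial.coeToPowerSeries.ringHom with hal
  have alC : ∀ c : k, al (Polynomial.C c) = C c := fun c => by simp [hal]
  have alX : al Polynomial.X = X := by simp [hal]
  have alc : ∀ P : Polynomial k, constantCoeff (al P) = P.coeff 0 := fun P => by
    rw [← coeff_zero_eq_constantCoeff_apply]; simp [hal]
  have alD : ∀ P : Polynomial k, d⁄dX k (al P) = al (Polynomial.derivative P) := by
    intro P; simp [hal, derivative_coe]
  have hDu : IsUnit (al D) := by
    rw [PowerSeries.isUnit_iff_constantCoeff, alc]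
    exact isUnit_iff_ne_zero.mpr hD
  obtain ⟨iD, hiD⟩ := hDu.exists_left_inv
  set U := al N * iD with hU
  have hiD' : d⁄dX k iD = - iD ^ 2 * (al (Polynomial.derivative D)) := by
    have h := congrArg (d⁄dX k) hiD
    rw [Derivation.leibniz, derivative_one, smul_eq_mul, smul_eq_mul, alD] at h
    linear_combination iD * h - (d⁄dX k iD) * hiD
  have hdU : d⁄dX k U = al (wr N D) * iD ^ 2 := by
    rw [hU, Derivation.leibniz, smul_eq_mul, smul_eq_mul, alD, hiD', wr, map_sub, map_mul, map_mul]
    linear_combination (-(iD * al (Polynomial.derivative N))) * hiD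
  have hU0 : constantCoeff U = 0 := by rw [hU, map_mul, alc, hN, zero_mul]
  have hwU : Polynomial.aeval U (Polynomial.X * ta a b) = U * (1 + C a * U + C b * U ^ 2) := by
    simp only [ta, map_add, map_mul, map_pow, map_one, Polynomial.aeval_X, Polynomial.aeval_C]
    rfl
  have hode := congrArg al ode
  have hCm : C m * C m⁻¹ = (1 : k⟦X⟧) := by rw [← map_mul, mul_inv_cancel₀ hm, map_one]
  have key : Polynomial.aeval U (Polynomial.X * ta a b) = al (Polynomial.X * gu z) * (C m⁻¹ * d⁄dX k U) ^ 2 := by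
    rw [hwU, hdU]
    rw [map_mul, map_pow, map_mul al (Polynomial.C m ^ 2), map_pow, alC] at hode
    have hr : al (N * D * (D ^ 2 + Polynomial.C a * D * N + Polynomial.C b * N ^ 2)) =
        al N * al D * (al D ^ 2 + C a * al D * al N + C b * al N ^ 2) := by
      simp only [map_mul, map_add, map_pow, alC]
    rw [hr] at hode
    have e2 : U * (1 + C a * U + C b * U ^ 2) =
          iD ^ 4 * (al N * al D * (al D ^ 2 + C a * al D * al N + C b * al N ^ 2)) := by
      rw [hU]
      linear_combination (-(al N * iD * (1 + iD * al D + (iD * al D) ^ 2)) -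
        C a * al N ^ 2 * iD ^ 2 * (1 + iD * al D) - C b * al N ^ 3 * iD ^ 3) * hiD
    rw [e2]
    linear_combination (-(C m⁻¹ ^ 2 * iD ^ 4)) * hode
      + (-(C m * C m⁻¹ + 1) * (iD ^ 4 * (al N * al D * (al D ^ 2 + C a * al D * al N + C b * al N ^ 2)))) * hCm
  have hke : Polynomial.aeval U ((Polynomial.X * ta a b) ^ e) * d⁄dX k U =
      C (m⁻¹ ^ (2 * e)) * ((d⁄dX k U) ^ p * al ((Polynomial.X * gu z) ^ e)) := by
    rw [map_pow, key, he, map_pow, map_pow]
    ring
  have h1 := cart_poly (k := k) (p := p) U hU0 ((Polynomial.X * ta a b) ^ e)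
  have hc1 : constantCoeff (d⁄dX k U) = coeff 1 U := by
    rw [← coeff_zero_eq_constantCoeff_apply, coeff_derivative]; simp
  rw [hke, coeff_C_mul, pow_low _ _ hc1] at h1
  have hcoe : coeff (p - 1) (al ((Polynomial.X * gu z) ^ e)) = ((Polynomial.X * gu z) ^ e).coeff (p - 1) :=
    Polynomial.coeff_coe _ _
  rw [hcoe] at h1
  have hne : coeff 1 U ≠ 0 := by
    rw [← hc1, hdU, map_mul, map_pow, alc]
    refine mul_ne_zero ?_ (pow_ne_zero 2 ?_)
    · have : (wr N D).coeff 0 = N.coeff 1 * D.coeff 0 := by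
        rw [wr, Polynomial.coeff_sub, Polynomial.mul_coeff_zero, Polynomial.mul_coeff_zero, hN,
          Polynomial.coeff_derivative]
        simp
      rw [this]
      exact mul_ne_zero hN1 hD
    · intro h0
      have := congrArg constantCoeff hiD
      rw [map_mul, h0, zero_mul, map_one] at this
      exact zero_ne_one this
  unfold h4
  rw [e1]
  have h3 : m⁻¹ ^ (2 * e) * ((Polynomial.X * gu z) ^ e).coeff (p - 1) = ((Polynomial.X * ta a b) ^ e).coeff (p - 1) := by
    apply mul_right_cancel₀ (pow_ne_zero p hne)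
    rw [← h1]; ring
  rw [← h3, he]
  have hmm : m ^ (2 * e) * m⁻¹ ^ (2 * e) = 1 := by
    rw [← mul_pow, mul_inv_cancel₀ hm, one_pow]
  rw [pow_succ]
  linear_combination (-(m * ((Polynomial.X * gu z) ^ e).coeff (2 * e + 1 - 1))) * hmm

end hasse

section iso

open Polynomial

variable {k : Type*} [CommRing k]

noncomputable def iA (s : k) : k[X] := 900 + C (-2250 + 750 * s) * X + C (2125 - 950 * s) * X ^ 2
noncomputable def iB (s : k) : k[X] := 900 + C (-1650 + 750 * s) * X + C (1525 - 682 * s) * X ^ 2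
noncomputable def iW (s : k) : k[X] := iA s * iB s + 2 * X * (derivative (iB s) * iA s - iB s * derivative (iA s))

theorem iso_main {s : k} (hs : s ^ 2 = 5) : (180 - 720 * X + C (360 - 161 * s) * X ^ 2) * iW s ^ 2 =
    180 * iA s ^ 4 - 625 * C s * X ^ 2 * iB s ^ 4 := by
  have h := congrArg (C : k → k[X]) hs
  rw [map_pow, map_ofNat] at h
  have dA : derivative (iA s) = C (-2250 + 750 * s) + 2 * C (2125 - 950 * s) * X := by
    unfold iA
    have : (900 : k[X]) = C 900 := (map_ofNat C 900).symm
    rw [this]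
    simp only [derivative_add, derivative_C, derivative_C_mul, derivative_X, derivative_X_pow]
    have c2 : (C (2 : k) : k[X]) = 2 := map_ofNat C 2
    simp
    rw [c2]
    ring
  have dB : derivative (iB s) = C (-1650 + 750 * s) + 2 * C (1525 - 682 * s) * X := by
    unfold iB
    have : (900 : k[X]) = C 900 := (map_ofNat C 900).symm
    rw [this]
    simp only [derivative_add, derivative_C, derivative_C_mul, derivative_X, derivative_X_pow]
    have c2 : (C (2 : k) : k[X]) = 2 := map_ofNat C 2
    simp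
    rw [c2]
    ring
  unfold iW
  rw [dA, dB]
  unfold iA iB
  simp only [map_add, map_sub, map_mul, map_neg, map_ofNat]
  linear_combination ((355168800000000) * X ^ 3 + (-2281915800000000) * X ^ 4 + (6855637500000000) * X ^ 5 + (-12768030000000000) * X ^ 6 + (15485758875000000) * X ^ 7 + (-11553232500000000) * X ^ 8 + (4679624531250000) * X ^ 9 + (-756118828125000) * X ^ 10 + (803358000000000) * C s ^ 1 * X ^ 4 + (-4546787580000000) * C s ^ 1 * X ^ 5 + (11389179960000000) * C s ^ 1 * X ^ 6 + (-16518326085000000) * C s ^ 1 * X ^ 7 + (14107611600000000) * C s ^ 1 * X ^ 8 + (-6302026218750000) * C s ^ 1 * X ^ 9 + (1014438387500000) * C s ^ 1 * X ^ 10 + (598995000000000) * C s ^ 2 * X ^ 5 + (-2867021730000000) * C s ^ 2 * X ^ 6 + (5565546261000000) * C s ^ 2 * X ^ 7 + (-5686666825500000) * C s ^ 2 * X ^ 8 + (2828928873000000) * C s ^ 2 * X ^ 9 + (-453669980500000) * C s ^ 2 * X ^ 10 + (146812500000000) * C s ^ 3 * X ^ 6 + (-570412125000000) * C s ^ 3 * X ^ 7 + (754984926000000) * C s ^ 3 * X ^ 8 +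 (-423288551400000) * C s ^ 3 * X ^ 9 + (67629029600000) * C s ^ 3 * X ^ 10) * h

theorem iso_wr (s : k) : wr (X * iB s ^ 2) (iA s ^ 2) = iA s * iB s * iW s := by
  unfold wr iW
  rw [derivative_mul, derivative_X, derivative_sq, derivative_sq]
  simp only [map_ofNat]
  ring

end iso

section sgn

open Polynomial Finset

variable {k : Type*} [Field k] {p D : ℕ} [hp : Fact p.Prime] [CharP k p]

/-- the truncated sum in characteristic `p` -/
theorem Sp_one (hD : p = 4 * D + 1) {v : k} (hv : 2 * v = 1) {s : ℕ → k} (hs0 : s 0 = 1)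
    (hs : ∀ n, n + 1 < p → 8 * ((n : k) + 1) ^ 2 * s (n + 1) = (4 * (n : k) + 1) * (2 * (n : k) + 1) * s n) :
    Sp s p = Pn v D := by
  have hp2 := hp.out.two_le
  have hD0 : 0 < D := by
    rcases Nat.eq_zero_or_pos D with h | h
    · rw [h] at hD; exact absurd hp.out (by rw [hD]; norm_num)
    · exact h
  have hpk : (4 * (D : k) + 1) = 0 := by
    have := CharP.cast_eq_zero k p
    rw [hD] at this
    push_cast at this; exact this
  have hpX : (4 * (D : k[X]) + 1) = 0 := by
    have := congrArg (C : k → k[X]) hpk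
    simpa only [map_add, map_mul, map_ofNat, map_natCast, map_one, map_zero] using this
  have lA : LL (Pn v D) = 0 := by rw [LL_A hv D, hpX, zero_mul]
  obtain ⟨p1, hp1⟩ : ∃ p1, p = p1 + 1 := ⟨p - 1, by omega⟩
  have hsm : ∀ n, 2 * D < n → n < p → s n = 0 := by
    intro n hn
    induction n, hn using Nat.le_induction with
    | base =>
      intro h
      have h1 := hs (2 * D) (by omega)
      have e : (2 * ((2 * D : ℕ) : k) + 1) = 0 := by push_cast; linear_combination hpk
      rw [e, mul_zero, zero_mul] at h1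
      have h8 : (8 : k) * (((2 * D : ℕ) : k) + 1) ^ 2 ≠ 0 := by
        have h2 := small_ne (k := k) (p := p) (n := 2) (by norm_num) (by omega)
        have h3 := small_ne (k := k) (p := p) (n := 2 * D + 1) (by omega) (by omega)
        have h8 : (8 : k) = ((2 : ℕ) : k) ^ 3 := by norm_num
        rw [h8]
        refine mul_ne_zero (pow_ne_zero _ h2) (pow_ne_zero _ ?_)
        exact_mod_cast h3
      exact (mul_eq_zero.mp h1).resolve_left h8
    | succ n hn ih =>
      intro h
      have h1 := hs n h
      rw [ih (by omega), mul_zero] at h1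
      have h8 : (8 : k) * ((n : k) + 1) ^ 2 ≠ 0 := by
        have h2 := small_ne (k := k) (p := p) (n := 2) (by norm_num) (by omega)
        have h3 := small_ne (k := k) (p := p) (n := n + 1) (by omega) (by omega)
        have h8 : (8 : k) = ((2 : ℕ) : k) ^ 3 := by norm_num
        rw [h8]
        refine mul_ne_zero (pow_ne_zero _ h2) (pow_ne_zero _ ?_)
        exact_mod_cast h3
      exact (mul_eq_zero.mp h1).resolve_left h8
  have lS : LL (Sp s p) = 0 := by
    have h := LL_S hs p1 (by omega)
    have hSp : (∑ n ∈ range (p1 + 1), C (s n) * (1 - X ^ 2) ^ n : k[X]) = Sp s p := by rw [hp1]; rfl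
    rw [hSp, hsm p1 (by omega) (by omega)] at h
    rw [h]; simp
  have aD : (Pn v D).coeff 0 ≠ 0 := by
    rw [Pn_coeff_zero]
    unfold aa
    have h4 : v ≠ 0 := by rintro h0; rw [h0, mul_zero] at hv; exact zero_ne_one hv
    refine mul_ne_zero ?_ (pow_ne_zero _ (mul_ne_zero h4 h4))
    intro h0
    rw [CharP.cast_eq_zero_iff k p] at h0
    have h1 : D.centralBinom ∣ (2 * D).factorial := by
      refine ⟨D.factorial * D.factorial, ?_⟩
      have := Nat.choose_mul_factorial_mul_factorial (show D ≤ 2 * D by omega)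
      rw [show 2 * D - D = D by omega] at this
      rw [Nat.centralBinom, ← this]; ring
    have := (hp.out.dvd_factorial).mp (h0.trans h1)
    omega
  have dS := Sp_natDegree s p1
  rw [← hp1] at dS
  have h2 := ker_eq hD lA aD (Pn_natDegree _ _) lS (fun j hj => coeff_eq_zero_of_natDegree_lt (by omega))
    (fun j _ hj => coeff_eq_zero_of_natDegree_lt (by omega)) (fun j hj => Pn_coeff_odd _ _ _ hj)
  rw [Sp_coeff_odd _ _ p (by omega), zero_div, C_0, zero_mul, add_zero] at h2
  have one1 : (1 : k) ^ 2 = 1 := one_pow 2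
  have h3 := congrArg (fun P => P.eval 1) h2
  simp only [eval_mul, eval_C] at h3
  rw [hp1, Sp_eval_sq _ _ one1, Pn_eval_sq hv _ one1, hs0, mul_one, ← hp1] at h3
  rw [h2, ← h3, C_1, one_mul]

theorem lg_five (hD : p = 4 * D + 1) (h20 : 20 < p) {s z c : k} (hs : s ^ 2 = 5) (hz : 720 * z = 360 - 161 * s)
    (hc : 36 * c = -125 * s) : lg D z = ((2 * D).choose D : k) * c ^ D := by
  have hp2 : p ≠ 2 := by omega
  have nz : ∀ n : ℕ, (∃ a b c', n = 2 ^ a * 3 ^ b * 5 ^ c') → (n : k) ≠ 0 := by
    rintro n ⟨a, b, c', rfl⟩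
    have h2 := small_ne (k := k) (p := p) (n := 2) (by norm_num) (by omega)
    have h3 := small_ne (k := k) (p := p) (n := 3) (by norm_num) (by omega)
    have h5 := small_ne (k := k) (p := p) (n := 5) (by norm_num) (by omega)
    push_cast
    exact mul_ne_zero (mul_ne_zero (pow_ne_zero _ (by exact_mod_cast h2)) (pow_ne_zero _ (by exact_mod_cast h3)))
      (pow_ne_zero _ (by exact_mod_cast h5))
  have n900 : (900 : k) ≠ 0 := by exact_mod_cast nz 900 ⟨2, 2, 2, by norm_num⟩
  have n180 : (180 : k) ≠ 0 := by exact_mod_cast nz 180 ⟨2, 2, 1, by norm_num⟩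
  have hX : ∀ a b : k, C a = C b → a = b := fun a b h => C_injective h
  have hode : X * gu z * wr (X * iB s ^ 2) (iA s ^ 2) ^ 2 = C (1 : k) ^ 2 * ((X * iB s ^ 2) * iA s ^ 2 *
      ((iA s ^ 2) ^ 2 + C (0 : k) * iA s ^ 2 * (X * iB s ^ 2) + C c * (X * iB s ^ 2) ^ 2)) := by
    have h1 := iso_main hs
    have h180 : (180 : k[X]) ≠ 0 := by
      have : (180 : k[X]) = C 180 := (map_ofNat C 180).symm
      rw [this]; exact C_ne_zero.mpr n180
    apply mul_left_cancel₀ h180
    have hzc := congrArg (C : k → k[X]) hz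
    have hcc := congrArg (C : k → k[X]) hc
    simp only [map_mul, map_sub, map_neg, map_ofNat] at hzc hcc h1
    rw [iso_wr]
    unfold gu
    simp only [map_mul, map_ofNat, C_0, C_1]
    linear_combination (X * iA s ^ 2 * iB s ^ 2) * h1 + (X ^ 3 * (iA s * iB s * iW s) ^ 2) * hzc -
      (5 * (X * iB s ^ 2) * iA s ^ 2 * (X * iB s ^ 2) ^ 2) * hcc
  have cB : (iB s).coeff 0 = 900 := by
    unfold iB
    have : (900 : k[X]) = C 900 := (map_ofNat C 900).symm
    rw [this]; simp
  have cA : (iA s).coeff 0 = 900 := by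
    unfold iA
    have : (900 : k[X]) = C 900 := (map_ofNat C 900).symm
    rw [this]; simp
  have h := hasse5 (p := p) hp2 (z := z) (a := 0) (b := c) (m := 1) (N := X * iB s ^ 2) (D := iA s ^ 2)
    (by simp) (by
      rw [coeff_X_mul, pow_two, mul_coeff_zero, cB]; exact mul_ne_zero n900 n900)
    (by rw [pow_two, mul_coeff_zero, cA]; exact mul_ne_zero n900 n900) one_ne_zero hode
  rw [one_mul, one_pow, one_mul, h4_cs hp2, cs4_coeff1 z p (by omega), show p / 4 = D by omega,
    show (p - 1) / 2 = 2 * D by omega, show p - 1 = 4 * D by omega] at h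
  rw [h]
  -- the coefficient
  have e : (X * ta (0 : k) c) ^ (2 * D) = X ^ (2 * D) * expand k 2 ((C c * X + 1) ^ (2 * D)) := by
    unfold ta
    simp only [C_0, zero_mul, add_zero, map_pow, map_add, map_mul, expand_C, expand_X, map_one]
    rw [mul_pow]; ring
  rw [e, coeff_X_pow_mul', if_pos (by omega), show 4 * D - 2 * D = D * 2 by omega, coeff_expand_mul (by norm_num),
    add_pow, finsetSum_coeff]
  rw [Finset.sum_eq_single D]
  · rw [one_pow, mul_one, mul_pow, ← C_pow, mul_assoc, coeff_C_mul]
    have : (((2 * D).choose D : ℕ) : k[X]) = C (((2 * D).choose D : ℕ) : k) := by simp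
    rw [this, mul_comm (X ^ D), coeff_C_mul, coeff_X_pow, if_pos rfl]
    ring
  · intro b _ hb
    rw [one_pow, mul_one, mul_pow, ← C_pow, mul_assoc, coeff_C_mul]
    have : (((2 * D).choose b : ℕ) : k[X]) = C (((2 * D).choose b : ℕ) : k) := by simp
    rw [this, mul_comm (X ^ b), coeff_C_mul, coeff_X_pow, if_neg (fun h => hb h.symm)]
    ring
  · intro hD'
    exact absurd (Finset.mem_range.mpr (by omega)) hD'

end sgn

end Pool.Agent.H39
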