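import Pool.Agent.H39.TTDef

set_option autoImplicit false

namespace Pool.Agent.H39.TT

open Finset Nat

namespace TT2

theorem tau_zero {k i : ℕ} (h : k < i) : tau k i = 0 := by
  unfold tau
  refine Finset.sum_eq_zero fun j _ => ?_
  rw [Nat.choose_eq_zero_of_lt (show k - j < i by omega), zero_mul, mul_zero]

/-- the summand -/
def F (i k : ℕ) : ℚ := (k.centralBinom : ℚ) ^ 2 / 256 ^ k * (tau k i : ℚ)

theorem F_zero {k i : ℕ} (h : k < i) : F i k = 0 := by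
  rw [F, tau_zero h, Nat.cast_zero, mul_zero]

/-- the quadratic polynomial -/
def pp (i : ℚ) (k : ℚ) : ℚ := 8 * k ^ 2 - 2 * (6 * i + 7) * k + (6 * i + 5)

def G (i k : ℕ) : ℚ := -64 * ((i : ℚ) + 1) * k * pp i k / (4 * k - 2 * i - 3) * F (i + 1) k

theorem ratio1 (htau : ∀ k i : ℕ, i ≤ k → tau k i * ((2 * k - i)! * (2 * k)! * (k - i)!) =
    k.choose i * k ! * (4 * k - 2 * i)!) (i t : ℕ) :
    (tau (i + 1 + t) i : ℚ) * ((t : ℚ) + 1) ^ 2 =
      (tau (i + 1 + t) (i + 1) : ℚ) * (2 * ((i : ℚ) + 1) * (2 * i + 4 * t + 3)) := by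
  have h0 := htau (i + 1 + t) i (by omega)
  have h1 := htau (i + 1 + t) (i + 1) (by omega)
  rw [show 2 * (i + 1 + t) - i = (i + 1 + 2 * t) + 1 by omega, show i + 1 + t - i = t + 1 by omega,
    show 4 * (i + 1 + t) - 2 * i = (2 * i + 2 + 4 * t) + 1 + 1 by omega, Nat.factorial_succ,
    Nat.factorial_succ t, Nat.factorial_succ (2 * i + 2 + 4 * t + 1),
    Nat.factorial_succ (2 * i + 2 + 4 * t)] at h0
  rw [show 2 * (i + 1 + t) - (i + 1) = i + 1 + 2 * t by omega, show i + 1 + t - (i + 1) = t by omega,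
    show 4 * (i + 1 + t) - 2 * (i + 1) = 2 * i + 2 + 4 * t by omega] at h1
  have h2 := Nat.choose_succ_right_eq (i + 1 + t) i
  rw [show i + 1 + t - i = t + 1 by omega] at h2
  have h0' := congrArg (Nat.cast : ℕ → ℚ) h0
  have h1' := congrArg (Nat.cast : ℕ → ℚ) h1
  have h2' := congrArg (Nat.cast : ℕ → ℚ) h2
  push_cast at h0' h1' h2'
  have a1 : (((i + 1 + 2 * t)! : ℕ) : ℚ) ≠ 0 := Nat.cast_ne_zero.2 (Nat.factorial_ne_zero _)
  have a2 : (((2 * (i + 1 + t))! : ℕ) : ℚ) ≠ 0 := Nat.cast_ne_zero.2 (Nat.factorial_ne_zero _)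
  have a3 : ((t ! : ℕ) : ℚ) ≠ 0 := Nat.cast_ne_zero.2 (Nat.factorial_ne_zero _)
  have a4 : ((i : ℚ) + 2 * t + 2) ≠ 0 := by positivity
  generalize (tau (i + 1 + t) i : ℚ) = T0 at *
  generalize (tau (i + 1 + t) (i + 1) : ℚ) = T1 at *
  generalize (((i + 1 + 2 * t)! : ℕ) : ℚ) = A1 at *
  generalize (((2 * (i + 1 + t))! : ℕ) : ℚ) = A2 at *
  generalize ((t ! : ℕ) : ℚ) = A3 at *
  generalize (((i + 1 + t)! : ℕ) : ℚ) = B1 at *
  generalize (((2 * i + 2 + 4 * t)! : ℕ) : ℚ) = B2 at *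
  generalize (((i + 1 + t).choose i : ℕ) : ℚ) = C0 at *
  generalize (((i + 1 + t).choose (i + 1) : ℕ) : ℚ) = C1 at *
  apply mul_left_cancel₀ (mul_ne_zero (mul_ne_zero (mul_ne_zero a1 a2) a3) a4)
  linear_combination ((t : ℚ) + 1) * h0' + (2 * ((i : ℚ) + 2 * t + 2) * (2 * i + 4 * t + 3)) * B1 * B2 * (-h2') - (2 * ((i : ℚ) + 1) * (2 * i + 4 * t + 3)) * (i + 2 * t + 2) * h1'

theorem ratio2 (htau : ∀ k i : ℕ, i ≤ k → tau k i * ((2 * k - i)! * (2 * k)! * (k - i)!) =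
    k.choose i * k ! * (4 * k - 2 * i)!) (i t : ℕ) :
    (tau (i + t + 1) i : ℚ) * ((2 * ((i : ℚ) + t) + 1) * ((t : ℚ) + 1) ^ 2) =
      (tau (i + t) i : ℚ) * (2 * ((i : ℚ) + t + 1) * (2 * i + 4 * t + 3) * (2 * i + 4 * t + 1)) := by
  have h0 := htau (i + t) i (by omega)
  have h1 := htau (i + t + 1) i (by omega)
  rw [show 2 * (i + t) - i = i + 2 * t by omega, show i + t - i = t by omega,
    show 4 * (i + t) - 2 * i = 2 * i + 4 * t by omega] at h0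
  rw [show 2 * (i + t + 1) - i = i + 2 * t + 1 + 1 by omega, show i + t + 1 - i = t + 1 by omega,
    show 4 * (i + t + 1) - 2 * i = 2 * i + 4 * t + 1 + 1 + 1 + 1 by omega,
    show 2 * (i + t + 1) = 2 * (i + t) + 1 + 1 by ring, Nat.factorial_succ (i + 2 * t + 1),
    Nat.factorial_succ (i + 2 * t), Nat.factorial_succ t, Nat.factorial_succ (i + t),
    Nat.factorial_succ (2 * (i + t) + 1), Nat.factorial_succ (2 * (i + t)),
    Nat.factorial_succ (2 * i + 4 * t + 1 + 1 + 1), Nat.factorial_succ (2 * i + 4 * t + 1 + 1),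
    Nat.factorial_succ (2 * i + 4 * t + 1), Nat.factorial_succ (2 * i + 4 * t)] at h1
  have h2 := Nat.choose_mul_succ_eq (i + t) i
  rw [show i + t + 1 - i = t + 1 by omega] at h2
  have h0' := congrArg (Nat.cast : ℕ → ℚ) h0
  have h1' := congrArg (Nat.cast : ℕ → ℚ) h1
  have h2' := congrArg (Nat.cast : ℕ → ℚ) h2
  push_cast at h0' h1' h2'
  have a1 : (((i + 2 * t)! : ℕ) : ℚ) ≠ 0 := Nat.cast_ne_zero.2 (Nat.factorial_ne_zero _)
  have a2 : (((2 * (i + t))! : ℕ) : ℚ) ≠ 0 := Nat.cast_ne_zero.2 (Nat.factorial_ne_zero _)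
  have a3 : ((t ! : ℕ) : ℚ) ≠ 0 := Nat.cast_ne_zero.2 (Nat.factorial_ne_zero _)
  have a4 : ((i : ℚ) + 2 * t + 2) ≠ 0 := by positivity
  have a5 : ((i : ℚ) + 2 * t + 1) ≠ 0 := by positivity
  have a6 : ((i : ℚ) + t + 1) ≠ 0 := by positivity
  generalize (tau (i + t) i : ℚ) = T0 at *
  generalize (tau (i + t + 1) i : ℚ) = T1 at *
  generalize (((i + 2 * t)! : ℕ) : ℚ) = A1 at *
  generalize (((2 * (i + t))! : ℕ) : ℚ) = A2 at *
  generalize ((t ! : ℕ) : ℚ) = A3 at *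
  generalize (((i + t)! : ℕ) : ℚ) = B1 at *
  generalize (((2 * i + 4 * t)! : ℕ) : ℚ) = B2 at *
  generalize (((i + t).choose i : ℕ) : ℚ) = C0 at *
  generalize (((i + t + 1).choose i : ℕ) : ℚ) = C1 at *
  have h0'' : T0 * (A1 * A2 * A3) = C0 * B1 * B2 := by linear_combination h0'
  have h2'' : C0 * ((i : ℚ) + t + 1) = C1 * (t + 1) := by linear_combination h2'
  have h1'' : T1 * (A1 * A2 * A3) * (((i : ℚ) + 2 * t + 2) * (i + 2 * t + 1) * (2 * (i + t + 1)) *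
      (2 * (i + t) + 1) * (t + 1)) = C1 * B1 * B2 * ((i + t + 1) * (2 * (i + 2 * t + 2)) *
      (2 * i + 4 * t + 3) * (2 * (i + 2 * t + 1)) * (2 * i + 4 * t + 1)) := by
    linear_combination h1'
  apply mul_left_cancel₀ (mul_ne_zero (mul_ne_zero (mul_ne_zero (mul_ne_zero (mul_ne_zero a1 a2) a3) a4) a5) a6)
  linear_combination (1 / 2 * ((t : ℚ) + 1)) * h1'' - (2 * ((i : ℚ) + t + 1) ^ 2 *
    (i + 2 * t + 2) * (2 * i + 4 * t + 3) * (i + 2 * t + 1) * (2 * i + 4 * t + 1)) * h0'' -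
    (2 * (i + t + 1) * (i + 2 * t + 2) * (2 * i + 4 * t + 3) * (i + 2 * t + 1) *
      (2 * i + 4 * t + 1)) * B1 * B2 * h2''

theorem F_ratio1 (htau : ∀ k i : ℕ, i ≤ k → tau k i * ((2 * k - i)! * (2 * k)! * (k - i)!) =
    k.choose i * k ! * (4 * k - 2 * i)!) (i t : ℕ) :
    F i (i + 1 + t) * ((t : ℚ) + 1) ^ 2 =
      F (i + 1) (i + 1 + t) * (2 * ((i : ℚ) + 1) * (2 * i + 4 * t + 3)) := by
  unfold F
  linear_combination (((i + 1 + t).centralBinom : ℚ) ^ 2 / 256 ^ (i + 1 + t)) * ratio1 htau i t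

theorem F_ratio2 (htau : ∀ k i : ℕ, i ≤ k → tau k i * ((2 * k - i)! * (2 * k)! * (k - i)!) =
    k.choose i * k ! * (4 * k - 2 * i)!) (i t : ℕ) :
    F i (i + t + 1) * (32 * ((i : ℚ) + t + 1) * ((t : ℚ) + 1) ^ 2) =
      F i (i + t) * ((2 * ((i : ℚ) + t) + 1) * (2 * i + 4 * t + 3) * (2 * i + 4 * t + 1)) := by
  have h1 := ratio2 htau i t
  have h2 := Nat.succ_mul_centralBinom_succ (i + t)
  have h2' := congrArg (Nat.cast : ℕ → ℚ) h2
  push_cast at h2'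
  have a6 : ((i : ℚ) + t + 1) ≠ 0 := by positivity
  have a7 : (2 * ((i : ℚ) + t) + 1) ≠ 0 := by positivity
  unfold F
  rw [pow_succ 256 (i + t)]
  generalize (tau (i + t) i : ℚ) = T0 at *
  generalize (tau (i + t + 1) i : ℚ) = T1 at *
  generalize ((i + t).centralBinom : ℚ) = b0 at *
  generalize ((i + t + 1).centralBinom : ℚ) = b1 at *
  have hb : b1 = 2 * (2 * ((i : ℚ) + t) + 1) * b0 / (i + t + 1) := by
    rw [eq_div_iff a6]
    linear_combination h2'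
  have hT : T1 = T0 * (2 * ((i : ℚ) + t + 1) * (2 * i + 4 * t + 3) * (2 * i + 4 * t + 1)) /
      ((2 * ((i : ℚ) + t) + 1) * ((t : ℚ) + 1) ^ 2) := by
    rw [eq_div_iff (by positivity)]
    exact h1
  rw [hb, hT]
  have a8 : ((256 : ℚ) ^ (i + t)) ≠ 0 := by positivity
  have a9 : ((t : ℚ) + 1) ≠ 0 := by positivity
  field_simp
  ring

theorem F_diag (htau : ∀ k i : ℕ, i ≤ k → tau k i * ((2 * k - i)! * (2 * k)! * (k - i)!) =
    k.choose i * k ! * (4 * k - 2 * i)!) (i : ℕ) :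
    F (i + 1) (i + 1) * (64 * ((i : ℚ) + 1) ^ 2) = (2 * (i : ℚ) + 1) ^ 2 * F i i := by
  have hT : ∀ i, tau i i = 1 := by
    intro i
    unfold tau
    simp
  have h2' := congrArg (Nat.cast : ℕ → ℚ) (Nat.succ_mul_centralBinom_succ i)
  push_cast at h2'
  unfold F
  rw [hT, hT, pow_succ 256 i]
  generalize ((i).centralBinom : ℚ) = b0 at *
  generalize ((i + 1).centralBinom : ℚ) = b1 at *
  have a6 : ((i : ℚ) + 1) ≠ 0 := by positivity
  have hb : b1 = 2 * (2 * (i : ℚ) + 1) * b0 / (i + 1) := by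
    rw [eq_div_iff a6]
    linear_combination h2'
  rw [hb]
  have a8 : ((256 : ℚ) ^ i) ≠ 0 := by positivity
  field_simp
  ring

theorem step (htau : ∀ k i : ℕ, i ≤ k → tau k i * ((2 * k - i)! * (2 * k)! * (k - i)!) =
    k.choose i * k ! * (4 * k - 2 * i)!) (i k : ℕ) :
    (2 * (i : ℚ) + 1) ^ 3 * F i k - 8 * ((i : ℚ) + 1) * (28 * ((i : ℚ) + 1) ^ 2 + 1) * F (i + 1) k -
      512 * ((i : ℚ) + 1) * ((i : ℚ) + 2) * (2 * (i : ℚ) + 3) * F (i + 2) k =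
    G i (k + 1) - G i k := by
  rcases Nat.lt_or_ge k i with h | h
  · unfold G
    rw [F_zero h, F_zero (show k < i + 1 by omega), F_zero (show k < i + 2 by omega),
      F_zero (show k + 1 < i + 1 by omega)]
    ring
  · rcases Nat.eq_or_lt_of_le h with rfl | h
    · unfold G pp
      rw [F_zero (show i < i + 1 by omega), F_zero (show i < i + 2 by omega)]
      have h1 := F_diag htau i
      have h2 : (4 * ((i + 1 : ℕ) : ℚ) - 2 * i - 3) = 2 * i + 1 := by push_cast; ring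
      rw [h2]
      have a : (2 * (i : ℚ) + 1) ≠ 0 := by positivity
      push_cast
      field_simp
      linear_combination (-(2 * (i : ℚ) + 1) ^ 2) * h1
    · obtain ⟨t, rfl⟩ : ∃ t, k = i + 1 + t := ⟨k - (i + 1), by omega⟩
      have h1 := F_ratio1 htau i t
      have h3 := F_ratio2 htau (i + 1) t
      have a9 : ((t : ℚ) + 1) ≠ 0 := by positivity
      have e1 : F i (i + 1 + t) = F (i + 1) (i + 1 + t) * (2 * ((i : ℚ) + 1) * (2 * i + 4 * t + 3)) /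
          ((t : ℚ) + 1) ^ 2 := by
        rw [eq_div_iff (by positivity)]
        exact h1
      have e3 : F (i + 1) (i + 1 + t + 1) = F (i + 1) (i + 1 + t) *
          ((2 * ((i : ℚ) + 1 + t) + 1) * (2 * (i + 1) + 4 * t + 3) * (2 * (i + 1) + 4 * t + 1)) /
          (32 * ((i : ℚ) + 1 + t + 1) * ((t : ℚ) + 1) ^ 2) := by
        rw [eq_div_iff (by positivity)]
        push_cast at h3
        exact h3
      have e2 : F (i + 2) (i + 1 + t) = F (i + 1) (i + 1 + t) * (t : ℚ) ^ 2 /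
          (2 * ((i : ℚ) + 2) * (2 * i + 4 * t + 1)) := by
        rw [eq_div_iff (by positivity)]
        rcases t with _ | s
        · rw [F_zero (show i + 1 + 0 < i + 2 by omega)]
          norm_num
        · have h4 := F_ratio1 htau (i + 1) s
          rw [show i + 1 + 1 + s = i + 1 + (s + 1) by ring] at h4
          push_cast at h4 ⊢
          linear_combination -h4
      unfold G pp
      rw [e1, e2, e3]
      generalize F (i + 1) (i + 1 + t) = f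
      push_cast
      have b1 : (4 * ((i : ℚ) + 1 + t + 1) - 2 * i - 3) ≠ 0 := by
        have : (4 * ((i : ℚ) + 1 + t + 1) - 2 * i - 3) = 2 * i + 4 * t + 5 := by ring
        rw [this]
        positivity
      have b2 : (4 * ((i : ℚ) + 1 + t) - 2 * i - 3) ≠ 0 := by
        have : (4 * ((i : ℚ) + 1 + t) - 2 * i - 3) = 2 * i + 4 * t + 1 := by ring
        rw [this]
        positivity
      have b3 : ((i : ℚ) + 2) ≠ 0 := by positivity
      have b4 : (2 * (i : ℚ) + 4 * t + 1) ≠ 0 := by positivity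
      have b5 : ((i : ℚ) + 1 + t + 1) ≠ 0 := by positivity
      have c1 : (4 * ((i : ℚ) + 1 + t + 1) - 2 * i - 3) = 2 * i + 4 * t + 5 := by ring
      have c2 : (4 * ((i : ℚ) + 1 + t) - 2 * i - 3) = 2 * i + 4 * t + 1 := by ring
      rw [c1, c2]
      have b6 : (2 * (i : ℚ) + 4 * t + 5) ≠ 0 := by positivity
      field_simp
      ring

theorem NN_eq (n i : ℕ) : (NN n i : ℚ) = 256 ^ n * ∑ k ∈ range (n + 1), F i k := by
  unfold NN
  rw [Finset.mul_sum]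
  push_cast
  refine Finset.sum_congr rfl fun k hk => ?_
  rw [Finset.mem_range] at hk
  unfold F
  have : (256 : ℚ) ^ n = 256 ^ (n - k) * 256 ^ k := by
    rw [← pow_add]
    congr 1
    omega
  rw [this]
  have a8 : ((256 : ℚ) ^ k) ≠ 0 := by positivity
  field_simp

end TT2

open TT2 in
theorem NN_rec (htau : ∀ k i : ℕ, i ≤ k → tau k i * ((2 * k - i)! * (2 * k)! * (k - i)!) = k.choose i * k ! * (4 * k - 2 * i)!)
    (n i : ℕ) (hi : i < n) :
    256 * (4 * (n:ℤ) + 1 - 2 * i) * ((2 * (i:ℤ) + 1) ^ 3 * NN n i - 8 * ((i:ℤ) + 1) * (28 * ((i:ℤ) + 1) ^ 2 + 1) * NN n (i + 1) -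
      512 * ((i:ℤ) + 1) * ((i:ℤ) + 2) * (2 * (i:ℤ) + 3) * NN n (i + 2)) =
    -64 * ((i:ℤ) + 1) * ((n:ℤ) + 1) * (8 * ((n:ℤ) + 1) ^ 2 - 2 * (6 * (i:ℤ) + 7) * ((n:ℤ) + 1) + (6 * (i:ℤ) + 5)) *
      ((n + 1).centralBinom : ℤ) ^ 2 * (tau (n + 1) (i + 1) : ℤ) := by
  have h1 : ∑ k ∈ range (n + 1), ((2 * (i : ℚ) + 1) ^ 3 * F i k -
      8 * ((i : ℚ) + 1) * (28 * ((i : ℚ) + 1) ^ 2 + 1) * F (i + 1) k -
      512 * ((i : ℚ) + 1) * ((i : ℚ) + 2) * (2 * (i : ℚ) + 3) * F (i + 2) k) =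
      G i (n + 1) - G i 0 := by
    rw [Finset.sum_congr rfl fun k _ => step htau i k]
    exact Finset.sum_range_sub (G i) (n + 1)
  have hG0 : G i 0 = 0 := by
    unfold G
    norm_num
  rw [hG0, sub_zero, Finset.sum_sub_distrib, Finset.sum_sub_distrib, ← Finset.mul_sum,
    ← Finset.mul_sum, ← Finset.mul_sum] at h1
  have key : (256 * (4 * (n:ℚ) + 1 - 2 * i) * ((2 * (i:ℚ) + 1) ^ 3 * (NN n i : ℚ) -
      8 * ((i:ℚ) + 1) * (28 * ((i:ℚ) + 1) ^ 2 + 1) * (NN n (i + 1) : ℚ) -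
      512 * ((i:ℚ) + 1) * ((i:ℚ) + 2) * (2 * (i:ℚ) + 3) * (NN n (i + 2) : ℚ))) =
    -64 * ((i:ℚ) + 1) * ((n:ℚ) + 1) * (8 * ((n:ℚ) + 1) ^ 2 - 2 * (6 * (i:ℚ) + 7) * ((n:ℚ) + 1) +
      (6 * (i:ℚ) + 5)) * ((n + 1).centralBinom : ℚ) ^ 2 * (tau (n + 1) (i + 1) : ℚ) := by
    rw [NN_eq, NN_eq, NN_eq]
    have hne : (4 * (n : ℚ) + 1 - 2 * i) ≠ 0 := by
      have : (i : ℚ) + 1 ≤ n := by exact_mod_cast hi
      have h0 : (0 : ℚ) ≤ i := by positivity
      intro h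
      linarith
    have e : 256 * (4 * (n:ℚ) + 1 - 2 * i) * ((2 * (i:ℚ) + 1) ^ 3 * (256 ^ n * ∑ k ∈ range (n + 1), F i k) -
      8 * ((i:ℚ) + 1) * (28 * ((i:ℚ) + 1) ^ 2 + 1) * (256 ^ n * ∑ k ∈ range (n + 1), F (i + 1) k) -
      512 * ((i:ℚ) + 1) * ((i:ℚ) + 2) * (2 * (i:ℚ) + 3) * (256 ^ n * ∑ k ∈ range (n + 1), F (i + 2) k)) =
      256 ^ (n + 1) * (4 * (n:ℚ) + 1 - 2 * i) * G i (n + 1) := by
      rw [← h1]
      ring
    rw [e]
    unfold G pp F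
    have c : (4 * ((n + 1 : ℕ) : ℚ) - 2 * i - 3) = 4 * (n : ℚ) + 1 - 2 * i := by push_cast; ring
    rw [c]
    have a8 : ((256 : ℚ) ^ (n + 1)) ≠ 0 := by positivity
    push_cast
    field_simp
  exact_mod_cast key

end Pool.Agent.H39.TT
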