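import Pool.Agent.H39.TTDef

set_option autoImplicit false

/-! Three binomial identities for the kernel `KK` (helper981, for helper39). -/

namespace Pool.Agent.H39.TT

open Finset Nat

theorem TT3_BL (y i : ℕ) : ((i : ℚ) + 1) * (BL y i : ℚ) = ((y : ℚ) + 1) * (((2 * i + 2).choose (i + y + 2) : ℕ) : ℚ) := by
  have hP : (2 * i + 2).choose (i + y + 2) = (2 * i + 1).choose (i + y + 1) + (2 * i + 1).choose (i + y + 2) :=
    Nat.choose_succ_succ' (2 * i + 1) (i + y + 1)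
  rw [hP]
  unfold BL
  push_cast
  rcases Nat.lt_or_ge i y with h | h
  · rw [Nat.choose_eq_zero_of_lt (show 2 * i + 1 < i + y + 1 by omega),
      Nat.choose_eq_zero_of_lt (show 2 * i + 1 < i + y + 2 by omega)]
    simp
  · have h1 := Nat.choose_succ_right_eq (2 * i + 1) (i + y + 1)
    have e : 2 * i + 1 - (i + y + 1) = i - y := by omega
    rw [e] at h1
    have h2 : (((2 * i + 1).choose (i + y + 2) : ℕ) : ℚ) * ((i : ℚ) + y + 2)
        = (((2 * i + 1).choose (i + y + 1) : ℕ) : ℚ) * ((i : ℚ) - y) := by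
      have h3 : (((2 * i + 1).choose (i + y + 1 + 1) * (i + y + 1 + 1) : ℕ) : ℚ)
          = (((2 * i + 1).choose (i + y + 1) * (i - y) : ℕ) : ℚ) := by rw [h1]
      rw [Nat.cast_mul, Nat.cast_mul, Nat.cast_sub h] at h3
      push_cast at h3
      linarith
    linear_combination (-1 : ℚ) * h2

theorem TT3_BLq (y i : ℕ) : (BL y i : ℚ) = ((y : ℚ) + 1) / ((i : ℚ) + 1) * (((2 * i + 2).choose (i + y + 2) : ℕ) : ℚ) := by
  have h := TT3_BL y i
  have h0 : ((i : ℚ) + 1) ≠ 0 := by positivity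
  field_simp
  linarith

theorem TT3_ch (n k a b : ℕ) (hk : k = a) (hn : n = a + b) :
    ((n.choose k : ℕ) : ℚ) = ((a + b)! : ℚ) / ((a ! : ℚ) * (b ! : ℚ)) := by
  subst hk hn
  exact Nat.cast_add_choose ℚ

/-- the reduced identity -/
theorem TT3_core (y i : ℕ) :
    (2 * (y : ℚ) + 3) ^ 3 * (((2 * (i + 2)).choose (i + 2 + (y + 2)) : ℕ) : ℚ)
      + ((y : ℚ) + 1) * (20 * ((y : ℚ) + 1) ^ 2 + 3) * (((2 * (i + 2)).choose (i + 2 + (y + 1)) : ℕ) : ℚ)
      + (2 * (y : ℚ) + 1) ^ 3 * (((2 * (i + 2)).choose (i + 2 + y) : ℕ) : ℚ)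
    = (2 * (i : ℚ) + 5) ^ 3 * (BL y (i + 2) : ℚ)
      - ((i : ℚ) + 2) * (28 * ((i : ℚ) + 2) ^ 2 + 1) * (BL y (i + 1) : ℚ)
      - 8 * ((i : ℚ) + 1) * ((i : ℚ) + 2) * (2 * (i : ℚ) + 3) * (BL y i : ℚ) := by
  rw [TT3_BLq, TT3_BLq, TT3_BLq]
  rcases Nat.lt_or_ge i y with h | h
  · rcases Nat.lt_or_ge (i + 1) y with h' | h'
    · rcases Nat.lt_or_ge (i + 2) y with h'' | h''
      · rw [Nat.choose_eq_zero_of_lt (show 2 * (i + 2) < i + 2 + (y + 2) by omega),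
          Nat.choose_eq_zero_of_lt (show 2 * (i + 2) < i + 2 + (y + 1) by omega),
          Nat.choose_eq_zero_of_lt (show 2 * (i + 2) < i + 2 + y by omega),
          Nat.choose_eq_zero_of_lt (show 2 * (i + 2) + 2 < i + 2 + y + 2 by omega),
          Nat.choose_eq_zero_of_lt (show 2 * (i + 1) + 2 < i + 1 + y + 2 by omega),
          Nat.choose_eq_zero_of_lt (show 2 * i + 2 < i + y + 2 by omega)]
        simp
      · have : y = i + 2 := by omega
        subst this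
        rw [Nat.choose_eq_zero_of_lt (show 2 * (i + 2) < i + 2 + (i + 2 + 2) by omega),
          Nat.choose_eq_zero_of_lt (show 2 * (i + 2) < i + 2 + (i + 2 + 1) by omega),
          Nat.choose_eq_zero_of_lt (show 2 * (i + 1) + 2 < i + 1 + (i + 2) + 2 by omega),
          Nat.choose_eq_zero_of_lt (show 2 * i + 2 < i + (i + 2) + 2 by omega)]
        have e1 : (2 * (i + 2)).choose (i + 2 + (i + 2)) = 1 := by
          have : 2 * (i + 2) = i + 2 + (i + 2) := by ring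
          rw [this, Nat.choose_self]
        have e2 : (2 * (i + 2) + 2).choose (i + 2 + (i + 2) + 2) = 1 := by
          have : 2 * (i + 2) + 2 = i + 2 + (i + 2) + 2 := by ring
          rw [this, Nat.choose_self]
        rw [e1, e2]
        push_cast
        have h0 : ((i : ℚ) + 2 + 1) ≠ 0 := by positivity
        field_simp
        ring
    · have : y = i + 1 := by omega
      subst this
      rw [Nat.choose_eq_zero_of_lt (show 2 * (i + 2) < i + 2 + (i + 1 + 2) by omega),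
        Nat.choose_eq_zero_of_lt (show 2 * i + 2 < i + (i + 1) + 2 by omega)]
      have e1 : (2 * (i + 2)).choose (i + 2 + (i + 1 + 1)) = 1 := by
        have : 2 * (i + 2) = i + 2 + (i + 1 + 1) := by ring
        rw [this, Nat.choose_self]
      have e2 : (2 * (i + 1) + 2).choose (i + 1 + (i + 1) + 2) = 1 := by
        have : 2 * (i + 1) + 2 = i + 1 + (i + 1) + 2 := by ring
        rw [this, Nat.choose_self]
      have e3 : (2 * (i + 2)).choose (i + 2 + (i + 1)) = 2 * i + 4 := by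
        have : 2 * (i + 2) = (i + 2 + (i + 1)) + 1 := by ring
        rw [this, Nat.choose_succ_self_right]
        ring
      have e4 : (2 * (i + 2) + 2).choose (i + 2 + (i + 1) + 2) = 2 * i + 6 := by
        have : 2 * (i + 2) + 2 = (i + 2 + (i + 1) + 2) + 1 := by ring
        rw [this, Nat.choose_succ_self_right]
        ring
      rw [e1, e2, e3, e4]
      push_cast
      have h0 : ((i : ℚ) + 2 + 1) ≠ 0 := by positivity
      have h1 : ((i : ℚ) + 1 + 1) ≠ 0 := by positivity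
      field_simp
      ring
  · obtain ⟨m, rfl⟩ : ∃ m, i = y + m := ⟨i - y, by omega⟩
    rw [TT3_ch (2 * (y + m + 2)) (y + m + 2 + (y + 2)) (2 * y + m + 4) m (by ring) (by ring),
      TT3_ch (2 * (y + m + 2)) (y + m + 2 + (y + 1)) (2 * y + m + 3) (m + 1) (by ring) (by ring),
      TT3_ch (2 * (y + m + 2)) (y + m + 2 + y) (2 * y + m + 2) (m + 2) (by ring) (by ring),
      TT3_ch (2 * (y + m + 2) + 2) (y + m + 2 + y + 2) (2 * y + m + 4) (m + 2) (by ring) (by ring),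
      TT3_ch (2 * (y + m + 1) + 2) (y + m + 1 + y + 2) (2 * y + m + 3) (m + 1) (by ring) (by ring),
      TT3_ch (2 * (y + m) + 2) (y + m + y + 2) (2 * y + m + 2) m (by ring) (by ring)]
    have f1 : ((2 * y + m + 4)! : ℚ) = (2 * y + m + 4) * ((2 * y + m + 3) * ((2 * y + m + 2)! : ℚ)) := by
      rw [Nat.factorial_succ (2 * y + m + 3), Nat.factorial_succ (2 * y + m + 2)]; push_cast; ring
    have f2 : ((2 * y + m + 3)! : ℚ) = (2 * y + m + 3) * ((2 * y + m + 2)! : ℚ) := by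
      rw [Nat.factorial_succ (2 * y + m + 2)]; push_cast; ring
    have f3 : ((m + 2)! : ℚ) = (m + 2) * ((m + 1) * (m ! : ℚ)) := by
      rw [Nat.factorial_succ (m + 1), Nat.factorial_succ m]; push_cast; ring
    have f4 : ((m + 1)! : ℚ) = (m + 1) * (m ! : ℚ) := by
      rw [Nat.factorial_succ m]; push_cast; ring
    have g0 : 2 * y + m + 2 + m = 2 * y + 2 * m + 2 := by ring
    have g1 : ((2 * y + m + 4 + m)! : ℚ) = (2 * y + 2 * m + 4) * ((2 * y + 2 * m + 3) * ((2 * y + 2 * m + 2)! : ℚ)) := by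
      have : 2 * y + m + 4 + m = 2 * y + 2 * m + 2 + 1 + 1 := by ring
      rw [this, Nat.factorial_succ, Nat.factorial_succ]; push_cast; ring
    have g2 : ((2 * y + m + 3 + (m + 1))! : ℚ) = (2 * y + 2 * m + 4) * ((2 * y + 2 * m + 3) * ((2 * y + 2 * m + 2)! : ℚ)) := by
      have : 2 * y + m + 3 + (m + 1) = 2 * y + 2 * m + 2 + 1 + 1 := by ring
      rw [this, Nat.factorial_succ, Nat.factorial_succ]; push_cast; ring
    have g3 : ((2 * y + m + 2 + (m + 2))! : ℚ) = (2 * y + 2 * m + 4) * ((2 * y + 2 * m + 3) * ((2 * y + 2 * m + 2)! : ℚ)) := by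
      have : 2 * y + m + 2 + (m + 2) = 2 * y + 2 * m + 2 + 1 + 1 := by ring
      rw [this, Nat.factorial_succ, Nat.factorial_succ]; push_cast; ring
    have g4 : ((2 * y + m + 4 + (m + 2))! : ℚ) = (2 * y + 2 * m + 6) * ((2 * y + 2 * m + 5) *
        ((2 * y + 2 * m + 4) * ((2 * y + 2 * m + 3) * ((2 * y + 2 * m + 2)! : ℚ)))) := by
      have : 2 * y + m + 4 + (m + 2) = 2 * y + 2 * m + 2 + 1 + 1 + 1 + 1 := by ring
      rw [this, Nat.factorial_succ, Nat.factorial_succ, Nat.factorial_succ, Nat.factorial_succ]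
      push_cast; ring
    have g5 : ((2 * y + m + 2 + m)! : ℚ) = ((2 * y + 2 * m + 2)! : ℚ) := by rw [g0]
    rw [g1, g2, g3, g4, g5, f1, f2, f3, f4]
    have p1 : ((2 * y + m + 2)! : ℚ) ≠ 0 := by positivity
    have p2 : (m ! : ℚ) ≠ 0 := by positivity
    generalize ((2 * y + 2 * m + 2)! : ℚ) = N
    generalize ((2 * y + m + 2)! : ℚ) = P at p1 ⊢
    generalize (m ! : ℚ) = Q at p2 ⊢
    push_cast
    have q1 : (2 * (y : ℚ) + m + 4) ≠ 0 := by positivity
    have q2 : (2 * (y : ℚ) + m + 3) ≠ 0 := by positivity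
    have q3 : ((m : ℚ) + 2) ≠ 0 := by positivity
    have q4 : ((m : ℚ) + 1) ≠ 0 := by positivity
    have q5 : ((y : ℚ) + m + 2 + 1) ≠ 0 := by positivity
    have q6 : ((y : ℚ) + m + 1 + 1) ≠ 0 := by positivity
    have q7 : ((y : ℚ) + m + 1) ≠ 0 := by positivity
    field_simp
    ring

theorem KK_id (y i : ℕ) : (2 * (y:ℤ) + 3) ^ 3 * KK (y + 2) (i + 2) + 8 * ((y:ℤ) + 1) * (20 * ((y:ℤ) + 1) ^ 2 + 3) * KK (y + 1) (i + 2) +
    64 * (2 * (y:ℤ) + 1) ^ 3 * KK y (i + 2) = (2 * (i:ℤ) + 5) ^ 3 * lam y (i + 2) -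
    8 * ((i:ℤ) + 2) * (28 * ((i:ℤ) + 2) ^ 2 + 1) * lam y (i + 1) - 512 * ((i:ℤ) + 1) * ((i:ℤ) + 2) * (2 * (i:ℤ) + 3) * lam y i := by
  have h := TT3_core y i
  have hz : (2 * (y : ℤ) + 3) ^ 3 * (((2 * (i + 2)).choose (i + 2 + (y + 2)) : ℕ) : ℤ)
      + ((y : ℤ) + 1) * (20 * ((y : ℤ) + 1) ^ 2 + 3) * (((2 * (i + 2)).choose (i + 2 + (y + 1)) : ℕ) : ℤ)
      + (2 * (y : ℤ) + 1) ^ 3 * (((2 * (i + 2)).choose (i + 2 + y) : ℕ) : ℤ)
    = (2 * (i : ℤ) + 5) ^ 3 * (BL y (i + 2))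
      - ((i : ℤ) + 2) * (28 * ((i : ℤ) + 2) ^ 2 + 1) * (BL y (i + 1))
      - 8 * ((i : ℤ) + 1) * ((i : ℤ) + 2) * (2 * (i : ℤ) + 3) * (BL y i) := by
    exact_mod_cast h
  unfold KK lam
  have e1 : (8 : ℤ) ^ (i + 2 + (y + 2)) = 4096 * 8 ^ (i + y) := by ring
  have e2 : (8 : ℤ) ^ (i + 2 + (y + 1)) = 512 * 8 ^ (i + y) := by ring
  have e3 : (8 : ℤ) ^ (i + 2 + y) = 64 * 8 ^ (i + y) := by ring
  have e4 : (8 : ℤ) ^ (i + 1 + y) = 8 * 8 ^ (i + y) := by ring
  rw [e1, e2, e3, e4]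
  linear_combination (4096 * 8 ^ (i + y)) * hz

theorem KK_id1 (y : ℕ) : (2 * (y:ℤ) + 3) ^ 3 * KK (y + 2) 1 + 8 * ((y:ℤ) + 1) * (20 * ((y:ℤ) + 1) ^ 2 + 3) * KK (y + 1) 1 +
    64 * (2 * (y:ℤ) + 1) ^ 3 * KK y 1 = 27 * lam y 1 - 232 * lam y 0 := by
  match y with
  | 0 => simp [KK, lam, BL, Nat.choose]
  | 1 => simp [KK, lam, BL, Nat.choose]
  | (n + 2) =>
    unfold KK lam BL
    rw [Nat.choose_eq_zero_of_lt (show 2 * 1 < 1 + (n + 2 + 2) by omega),
      Nat.choose_eq_zero_of_lt (show 2 * 1 < 1 + (n + 2 + 1) by omega),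
      Nat.choose_eq_zero_of_lt (show 2 * 1 < 1 + (n + 2) by omega),
      Nat.choose_eq_zero_of_lt (show 2 * 1 + 1 < 1 + (n + 2) + 1 by omega),
      Nat.choose_eq_zero_of_lt (show 2 * 1 + 1 < 1 + (n + 2) + 2 by omega),
      Nat.choose_eq_zero_of_lt (show 2 * 0 + 1 < 0 + (n + 2) + 1 by omega),
      Nat.choose_eq_zero_of_lt (show 2 * 0 + 1 < 0 + (n + 2) + 2 by omega)]
    simp

theorem KK_id0 (y : ℕ) : (2 * (y:ℤ) + 3) ^ 3 * KK (y + 2) 0 + 8 * ((y:ℤ) + 1) * (20 * ((y:ℤ) + 1) ^ 2 + 3) * KK (y + 1) 0 +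
    64 * (2 * (y:ℤ) + 1) ^ 3 * KK y 0 = lam y 0 := by
  match y with
  | 0 => simp [KK, lam, BL, Nat.choose]
  | (n + 1) =>
    unfold KK lam BL
    rw [Nat.choose_eq_zero_of_lt (show 2 * 0 < 0 + (n + 1 + 2) by omega),
      Nat.choose_eq_zero_of_lt (show 2 * 0 < 0 + (n + 1 + 1) by omega),
      Nat.choose_eq_zero_of_lt (show 2 * 0 < 0 + (n + 1) by omega),
      Nat.choose_eq_zero_of_lt (show 2 * 0 + 1 < 0 + (n + 1) + 1 by omega),
      Nat.choose_eq_zero_of_lt (show 2 * 0 + 1 < 0 + (n + 1) + 2 by omega)]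
    simp

end Pool.Agent.H39.TT
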