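import Pool.Agent.H39.TTDef

/-!
# Summation by parts with the recurrence of `a` (task TT4 of helper39, by helper23)
-/

set_option autoImplicit false

namespace Pool.Agent.H39.TT

open Finset Nat

theorem c_rec (hK : ∀ y i : ℕ, (2 * (y:ℤ) + 3) ^ 3 * KK (y + 2) (i + 2) + 8 * ((y:ℤ) + 1) * (20 * ((y:ℤ) + 1) ^ 2 + 3) * KK (y + 1) (i + 2) + 64 * (2 * (y:ℤ) + 1) ^ 3 * KK y (i + 2) = (2 * (i:ℤ) + 5) ^ 3 * lam y (i + 2) - 8 * ((i:ℤ) + 2) * (28 * ((i:ℤ) + 2) ^ 2 + 1) * lam y (i + 1) - 512 * ((i:ℤ) + 1) * ((i:ℤ) + 2) * (2 * (i:ℤ) + 3) * lam y i)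
    (hK1 : ∀ y : ℕ, (2 * (y:ℤ) + 3) ^ 3 * KK (y + 2) 1 + 8 * ((y:ℤ) + 1) * (20 * ((y:ℤ) + 1) ^ 2 + 3) * KK (y + 1) 1 + 64 * (2 * (y:ℤ) + 1) ^ 3 * KK y 1 = 27 * lam y 1 - 232 * lam y 0)
    (hK0 : ∀ y : ℕ, (2 * (y:ℤ) + 3) ^ 3 * KK (y + 2) 0 + 8 * ((y:ℤ) + 1) * (20 * ((y:ℤ) + 1) ^ 2 + 3) * KK (y + 1) 0 + 64 * (2 * (y:ℤ) + 1) ^ 3 * KK y 0 = lam y 0)
    {A : Type*} [CommRing A] {a : ℕ → A} {n : ℕ} (h0 : ∀ i, n < i → a i = 0)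
    (hr : ∀ i : ℕ, (2 * (i:A) + 1) ^ 3 * a i = 8 * ((i:A) + 1) * (28 * ((i:A) + 1) ^ 2 + 1) * a (i + 1) +
      512 * ((i:A) + 1) * ((i:A) + 2) * (2 * (i:A) + 3) * a (i + 2)) (y : ℕ) :
    (2 * (y:A) + 3) ^ 3 * (∑ i ∈ range (n + 1), a i * ((KK (y + 2) i : ℤ) : A)) +
    8 * ((y:A) + 1) * (20 * ((y:A) + 1) ^ 2 + 3) * (∑ i ∈ range (n + 1), a i * ((KK (y + 1) i : ℤ) : A)) +
    64 * (2 * (y:A) + 1) ^ 3 * (∑ i ∈ range (n + 1), a i * ((KK y i : ℤ) : A)) = 0 := by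
  obtain ⟨K, hKd⟩ : ∃ K : ℕ → A, K = fun i => (2 * (y:A) + 3) ^ 3 * ((KK (y + 2) i : ℤ) : A) +
      8 * ((y:A) + 1) * (20 * ((y:A) + 1) ^ 2 + 3) * ((KK (y + 1) i : ℤ) : A) +
      64 * (2 * (y:A) + 1) ^ 3 * ((KK y i : ℤ) : A) := ⟨_, rfl⟩
  have hKz : ∀ i, K i = (((2 * (y:ℤ) + 3) ^ 3 * KK (y + 2) i +
      8 * ((y:ℤ) + 1) * (20 * ((y:ℤ) + 1) ^ 2 + 3) * KK (y + 1) i +
      64 * (2 * (y:ℤ) + 1) ^ 3 * KK y i : ℤ) : A) := by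
    intro i
    rw [hKd]
    push_cast
    ring
  have e0 : K 0 = ((lam y 0 : ℤ) : A) := by
    rw [hKz, hK0]
  have e1 : K 1 = 27 * ((lam y 1 : ℤ) : A) - 232 * ((lam y 0 : ℤ) : A) := by
    rw [hKz, hK1]
    push_cast
    ring
  have e2 : ∀ i : ℕ, K (i + 2) = (2 * (i:A) + 5) ^ 3 * ((lam y (i + 2) : ℤ) : A) -
      8 * ((i:A) + 2) * (28 * ((i:A) + 2) ^ 2 + 1) * ((lam y (i + 1) : ℤ) : A) -
      512 * ((i:A) + 1) * ((i:A) + 2) * (2 * (i:A) + 3) * ((lam y i : ℤ) : A) := by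
    intro i
    rw [hKz, hK]
    push_cast
    ring
  have key : ∀ N : ℕ, ∑ i ∈ range (N + 2), a i * K i =
      ((lam y N : ℤ) : A) * ((2 * (N:A) + 1) ^ 3 * a N -
        8 * ((N:A) + 1) * (28 * ((N:A) + 1) ^ 2 + 1) * a (N + 1)) +
      ((lam y (N + 1) : ℤ) : A) * ((2 * (N:A) + 3) ^ 3 * a (N + 1)) := by
    intro N
    induction N with
    | zero =>
      rw [sum_range_succ, sum_range_succ, sum_range_zero, e0, zero_add, e1]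
      push_cast
      ring
    | succ N ih =>
      rw [sum_range_succ, ih, e2]
      have h := hr N
      push_cast
      linear_combination ((lam y N : ℤ) : A) * h
  have hz : ∑ i ∈ range (n + 1), a i * K i = 0 := by
    have h1 := key (n + 1)
    rw [h0 (n + 1) (by omega), h0 (n + 1 + 1) (by omega)] at h1
    rw [show n + 1 + 2 = n + 1 + 1 + 1 by ring, sum_range_succ, sum_range_succ,
      h0 (n + 1 + 1) (by omega), h0 (n + 1) (by omega)] at h1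
    linear_combination h1
  rw [← hz, mul_sum, mul_sum, mul_sum, ← sum_add_distrib, ← sum_add_distrib]
  refine sum_congr rfl fun i _ => ?_
  rw [hKd]
  ring

end Pool.Agent.H39.TT
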