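import Mathlib
import Pool.Agent.H39.TTDef
import Pool.Graph.R_pool_sql_team_seeded_620a6dc7.helper484_domb_.Morley

set_option autoImplicit false

/-!
# TT5: Morley's congruence modulo `p^2` (squared form)
-/

namespace Pool.Agent.H39.TT

open Finset Nat

theorem morley2 {p n : ℕ} [hp : Fact p.Prime] (hn : p = 2 * n + 1) (h3 : 3 < p) :
    (p:ℤ) ^ 2 ∣ (n.centralBinom : ℤ) ^ 2 - 256 ^ n := by
  have h1 := (Pool.Agent.Helper484_Domb.harm_main hp.out h3 hn ((4 : ZMod (p ^ 3)) ^ n - 1)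
    (by ring)).2.1
  have h2 : (n.centralBinom : ZMod (p ^ 3)) ^ 2 = 256 ^ n := by
    have h4 : ((-1 : ZMod (p ^ 3)) ^ n) ^ 2 = 1 := by
      rw [← pow_mul, mul_comm n 2, pow_mul]
      norm_num
    have h5 : (1 + ((4 : ZMod (p ^ 3)) ^ n - 1)) = 4 ^ n := by ring
    rw [h1, h5, mul_pow, h4, one_mul, ← pow_mul, ← pow_mul, mul_comm n (2 * 2), pow_mul]
    norm_num
  have h6 : ((p ^ 3 : ℕ) : ℤ) ∣ (n.centralBinom : ℤ) ^ 2 - 256 ^ n := by
    rw [← ZMod.intCast_zmod_eq_zero_iff_dvd]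
    push_cast
    rw [h2, sub_self]
  refine Dvd.dvd.trans ?_ h6
  push_cast
  exact pow_dvd_pow (p : ℤ) (by norm_num)

end Pool.Agent.H39.TT
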