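import Mathlib
import Pool.Agent.H547.ZD
import Pool.Agent.H39.TTDef

set_option autoImplicit false

namespace Pool.Agent.H39.TT

open Finset Nat

namespace TT6

theorem alt0 (m : ℕ) :
    ∑ k ∈ range (m + 2), (-1 : ℤ) ^ k * ((m + 1).choose k : ℤ) * ((m + k).choose k : ℤ) = 0 := by
  have h0 : (fwdDiff (1 : ℕ))^[m + 1] (fun x ↦ (x.choose m : ℤ) : ℕ → ℤ) m = 0 := by
    rw [Function.iterate_succ_apply']
    have h1 := fwdDiff_iter_choose 0 m
    rw [add_zero] at h1
    rw [h1]
    simp [fwdDiff]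
  rw [fwdDiff_iter_eq_sum_shift] at h0
  have h2 : ∑ k ∈ range (m + 2), (-1 : ℤ) ^ k * ((m + 1).choose k : ℤ) * ((m + k).choose k : ℤ) =
      (-1) ^ (m + 1) * ∑ k ∈ range (m + 1 + 1), ((-1 : ℤ) ^ (m + 1 - k) * ((m + 1).choose k : ℤ)) •
        ((m + k • 1).choose m : ℤ) := by
    rw [Finset.mul_sum]
    apply Finset.sum_congr rfl
    intro k hk
    rw [Finset.mem_range] at hk
    have e1 : (-1 : ℤ) ^ (m + 1) * (-1) ^ (m + 1 - k) = (-1) ^ k := by
      rw [← pow_add]
      have : m + 1 + (m + 1 - k) = k + 2 * (m + 1 - k) := by omega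
      rw [this, pow_add, pow_mul]
      simp
    have e2 : (m + k • 1).choose m = (m + k).choose k := by
      rw [smul_eq_mul, mul_one, Nat.choose_symm_add]
    rw [e2, smul_eq_mul, ← e1]
    ring
  rw [h2, h0, mul_zero]

theorem stepZ (m k : ℕ) : ((m : ℤ) + 1) * (((m + 1).choose k : ℤ) * ((m + 1 + k).choose k : ℤ) -
    (m.choose k : ℤ) * ((m + k).choose k : ℤ)) =
    2 * k * (((m + 1).choose k : ℤ) * ((m + k).choose k : ℤ)) := by
  rcases le_or_gt k (m + 1) with hk | hk
  · have h1 : (m.choose k : ℤ) * (m + 1) = ((m + 1).choose k : ℤ) * (m + 1 - k) := by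
      have := congrArg (Nat.cast : ℕ → ℤ) (Nat.choose_mul_succ_eq m k)
      push_cast [Nat.cast_sub hk] at this
      exact this
    have h2 : ((m + k).choose k : ℤ) * (m + k + 1) = ((m + 1 + k).choose k : ℤ) * (m + 1) := by
      have h3 := Nat.choose_mul_succ_eq (m + k) k
      have e : m + k + 1 - k = m + 1 := by omega
      have e2 : m + k + 1 = m + 1 + k := by omega
      rw [e, e2] at h3
      have := congrArg (Nat.cast : ℕ → ℤ) h3
      push_cast at this
      linear_combination this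
    linear_combination (-((m + k).choose k : ℤ)) * h1 - ((m + 1).choose k : ℤ) * h2
  · rw [Nat.choose_eq_zero_of_lt hk, Nat.choose_eq_zero_of_lt (by omega : m < k)]
    simp

section ring

variable {R : Type*} [CommRing R]

/-- the sum `∑ (-1)^k C(m,k) C(m+k,k) / k` -/
def ff (u : ℕ → R) (m : ℕ) : R :=
  ∑ k ∈ range m, (-1) ^ (k + 1) * (m.choose (k + 1) : R) * ((m + (k + 1)).choose (k + 1) : R) *
    u (k + 1)

theorem ff_step (u : ℕ → R) (n m : ℕ) (hu : ∀ k, 1 ≤ k → k ≤ n → (k : R) * u k = 1)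
    (hm : m + 1 ≤ n) : ff u (m + 1) = ff u m - 2 * u (m + 1) := by
  have h1 : ff u m = ∑ k ∈ range (m + 1), (-1) ^ (k + 1) * (m.choose (k + 1) : R) *
      ((m + (k + 1)).choose (k + 1) : R) * u (k + 1) := by
    rw [Finset.sum_range_succ, Nat.choose_succ_self]
    simp [ff]
  have hum := hu (m + 1) (by omega) hm
  have h2 : ff u (m + 1) - ff u m = 2 * u (m + 1) *
      ∑ k ∈ range (m + 1), (-1) ^ (k + 1) * ((m + 1).choose (k + 1) : R) *
        ((m + (k + 1)).choose (k + 1) : R) := by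
    rw [h1]
    unfold ff
    rw [← Finset.sum_sub_distrib, Finset.mul_sum]
    apply Finset.sum_congr rfl
    intro k hk
    rw [Finset.mem_range] at hk
    have huk := hu (k + 1) (by omega) (by omega)
    have hz := congrArg (Int.cast : ℤ → R) (stepZ m (k + 1))
    push_cast at hz huk hum
    have h3 : ((m + 1).choose (k + 1) : R) * ((m + 1 + (k + 1)).choose (k + 1) : R) -
        (m.choose (k + 1) : R) * ((m + (k + 1)).choose (k + 1) : R) =
        u (m + 1) * (2 * (k + 1) * (((m + 1).choose (k + 1) : R) *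
          ((m + (k + 1)).choose (k + 1) : R))) := by
      linear_combination u (m + 1) * hz - (((m + 1).choose (k + 1) : R) *
        ((m + 1 + (k + 1)).choose (k + 1) : R) -
        (m.choose (k + 1) : R) * ((m + (k + 1)).choose (k + 1) : R)) * hum
    linear_combination (-1) ^ (k + 1) * u (k + 1) * h3 + (-1) ^ (k + 1) * u (m + 1) * 2 *
      (((m + 1).choose (k + 1) : R) * ((m + (k + 1)).choose (k + 1) : R)) * huk
  have h4 : ∑ k ∈ range (m + 1), (-1) ^ (k + 1) * ((m + 1).choose (k + 1) : R) *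
        ((m + (k + 1)).choose (k + 1) : R) = -1 := by
    have h5 := congrArg (Int.cast : ℤ → R) (alt0 m)
    rw [Finset.sum_range_succ'] at h5
    push_cast at h5
    simp only [Nat.choose_zero_right, Nat.cast_one, mul_one] at h5
    linear_combination h5
  rw [h4] at h2
  linear_combination h2

theorem sq_eq (p : ℕ) (u : ℕ → R) (n : ℕ) (hn : n < p) (hP : (p : R) ^ 2 = 0)
    (hu : ∀ k, 1 ≤ k → k ≤ n → (k : R) * u k = 1) :
    ∀ m, m ≤ n → ((p - 1).choose m : R) ^ 2 = 1 + p * ff u m := by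
  intro m
  induction m with
  | zero =>
    intro _
    simp [ff]
  | succ m ih =>
    intro hm
    have h1 := ih (by omega)
    have h2 := ff_step u n m hu hm
    have hum := hu (m + 1) (by omega) hm
    have h3 := congrArg (Nat.cast : ℕ → R) (Nat.choose_succ_right_eq (p - 1) m)
    have e : ((p - 1 - m : ℕ) : R) = p - (m + 1) := by
      rw [Nat.sub_sub, Nat.cast_sub (by omega)]
      push_cast
      ring
    push_cast at h3 hum
    rw [e] at h3
    -- square
    have h4 : ((p - 1).choose (m + 1) : R) ^ 2 * ((m : R) + 1) ^ 2 =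
        (1 + p * ff u m) * (p - (m + 1)) ^ 2 := by
      rw [← h1]
      linear_combination (((p - 1).choose (m + 1) : R) * ((m : R) + 1) +
        ((p - 1).choose m : R) * (p - (m + 1))) * h3
    have h5 : ((p - 1).choose (m + 1) : R) ^ 2 * (((m : R) + 1) * u (m + 1)) ^ 2 =
        (1 + p * ff u m) * (p * u (m + 1) - ((m : R) + 1) * u (m + 1)) ^ 2 := by
      linear_combination u (m + 1) ^ 2 * h4
    rw [hum] at h5
    rw [h2]
    linear_combination h5 + ((1 + p * ff u m) * u (m + 1) ^ 2 - 2 * ff u m * u (m + 1)) * hP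

end ring

section ring2

variable {R : Type*} [CommRing R]

theorem cbA (n : ℕ) (P : R) (hPn : P = 2 * n + 1) (hP : P ^ 2 = 0) (u : ℕ → R)
    (hu : ∀ k, 1 ≤ k → k ≤ n → (k : R) * u k = 1) :
    ∀ k, k ≤ n → P * (k.centralBinom : R) = P * ((n.choose k : R) * (-4) ^ k) := by
  intro k
  induction k with
  | zero =>
    intro _
    simp
  | succ k ih =>
    intro hk
    have h1 := ih (by omega)
    have huk := hu (k + 1) (by omega) hk
    have h2 := congrArg (Nat.cast : ℕ → R) (Nat.succ_mul_centralBinom_succ k)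
    have h3 := congrArg (Nat.cast : ℕ → R) (Nat.choose_succ_right_eq n k)
    rw [Nat.cast_mul, Nat.cast_mul _ (n - k), Nat.cast_sub (by omega : k ≤ n)] at h3
    push_cast at h2 h3 huk
    have h4 : P * ((k + 1).centralBinom : R) * (k + 1) =
        P * ((n.choose (k + 1) : R) * (-4) ^ (k + 1)) * (k + 1) := by
      have h5 : P * ((n.choose (k + 1) : R) * (-4) ^ (k + 1)) * (k + 1) =
          P * (n.choose k : R) * (n - k) * (-4) ^ (k + 1) := by
        linear_combination P * (-4) ^ (k + 1) * h3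
      rw [h5]
      have h6 : (-4 : R) * (n - k) = 2 * (2 * k + 1) - 2 * P := by
        rw [hPn]; ring
      have h7 : P * (n.choose k : R) * (n - k) * (-4) ^ (k + 1) =
          P * (n.choose k : R) * (-4) ^ k * (2 * (2 * k + 1) - 2 * P) := by
        rw [← h6]; ring
      rw [h7]
      linear_combination P * h2 + 2 * (2 * k + 1) * h1 +
        2 * (n.choose k : R) * (-4) ^ k * hP
    linear_combination u (k + 1) * h4 - (P * ((k + 1).centralBinom : R) -
      P * ((n.choose (k + 1) : R) * (-4) ^ (k + 1))) * huk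

theorem cbB (n : ℕ) (P : R) (hPn : P = 2 * n + 1) (hP : P ^ 2 = 0) (u : ℕ → R)
    (hu : ∀ k, 1 ≤ k → k ≤ n → (k : R) * u k = 1) :
    ∀ k, k ≤ n → P * (k.centralBinom : R) = P * (((n + k).choose k : R) * 4 ^ k) := by
  intro k
  induction k with
  | zero =>
    intro _
    simp
  | succ k ih =>
    intro hk
    have h1 := ih (by omega)
    have huk := hu (k + 1) (by omega) hk
    have h2 := congrArg (Nat.cast : ℕ → R) (Nat.succ_mul_centralBinom_succ k)
    have h3 := congrArg (Nat.cast : ℕ → R) (Nat.add_one_mul_choose_eq (n + k) k)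
    push_cast at h2 h3 huk
    rw [← add_assoc n k 1]
    have h4 : P * ((k + 1).centralBinom : R) * (k + 1) =
        P * (((n + k + 1).choose (k + 1) : R) * 4 ^ (k + 1)) * (k + 1) := by
      have h6 : (4 : R) * (n + k + 1) = 2 * (2 * k + 1) + 2 * P := by
        rw [hPn]; ring
      have h7 : P * (((n + k + 1).choose (k + 1) : R) * 4 ^ (k + 1)) * (k + 1) =
          P * ((n + k).choose k : R) * 4 ^ k * (2 * (2 * k + 1) + 2 * P) := by
        rw [← h6]
        linear_combination -P * 4 ^ (k + 1) * h3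
      rw [h7]
      linear_combination P * h2 + 2 * (2 * k + 1) * h1 -
        2 * ((n + k).choose k : R) * 4 ^ k * hP
    linear_combination u (k + 1) * h4 - (P * ((k + 1).centralBinom : R) -
      P * (((n + k + 1).choose (k + 1) : R) * 4 ^ (k + 1))) * huk

theorem Pprod (P : R) (hP : P ^ 2 = 0) (s : Finset ℕ) (a : ℕ → R) :
    P * ∏ i ∈ s, (P + a i) = P * ∏ i ∈ s, a i := by
  induction s using Finset.induction_on with
  | empty => simp
  | insert i s hi ih =>
    rw [prod_insert hi, prod_insert hi]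
    linear_combination (P + a i) * ih + (∏ i ∈ s, a i) * hP

theorem desc_eq (n k : ℕ) (P : R) (hPn : P = 2 * n + 1) (hP : P ^ 2 = 0) (hk : k + 1 ≤ n) :
    ((2 * n + (k + 1)).descFactorial (3 * (k + 1)) : R) =
      P * (k.factorial : R) * ((2 * (k + 1)).factorial : R) := by
  rw [Nat.descFactorial_eq_prod_range, Nat.cast_prod,
    show 3 * (k + 1) = k + (1 + 2 * (k + 1)) by ring, prod_range_add, prod_range_add]
  have h1 : ∏ i ∈ range k, ((2 * n + (k + 1) - i : ℕ) : R) =
      ∏ i ∈ range k, (P + ((k - i : ℕ) : R)) := by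
    apply Finset.prod_congr rfl
    intro i hi
    rw [Finset.mem_range] at hi
    have : 2 * n + (k + 1) - i = 2 * n + 1 + (k - i) := by omega
    rw [this, hPn]
    push_cast
    ring
  have h2 : ∏ i ∈ range 1, ((2 * n + (k + 1) - (k + i) : ℕ) : R) = P := by
    rw [Finset.prod_range_one]
    have : 2 * n + (k + 1) - (k + 0) = 2 * n + 1 := by omega
    rw [this, hPn]
    push_cast
    ring
  have h3 : ∏ i ∈ range (2 * (k + 1)), ((2 * n + (k + 1) - (k + (1 + i)) : ℕ) : R) =
      ∏ i ∈ range (2 * (k + 1)), (P + (-1) * ((i : R) + 1)) := by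
    apply Finset.prod_congr rfl
    intro i hi
    rw [Finset.mem_range] at hi
    have : 2 * n + (k + 1) - (k + (1 + i)) = 2 * n - i := by omega
    rw [this, hPn, Nat.cast_sub (by omega)]
    push_cast
    ring
  rw [h1, h2, h3]
  have h4 := Pprod P hP (range k) (fun i => ((k - i : ℕ) : R))
  have h5 := Pprod P hP (range (2 * (k + 1))) (fun i => (-1) * ((i : R) + 1))
  have h6 : ∏ i ∈ range k, ((k - i : ℕ) : R) = (k.factorial : R) := by
    rw [← Nat.descFactorial_self, Nat.descFactorial_eq_prod_range, Nat.cast_prod]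
  have h7 : ∏ i ∈ range (2 * (k + 1)), ((-1) * ((i : R) + 1)) = ((2 * (k + 1)).factorial : R) := by
    rw [Finset.prod_mul_distrib, Finset.prod_const, Finset.card_range, pow_mul,
      ← Finset.prod_range_add_one_eq_factorial, Nat.cast_prod]
    simp
  rw [h6] at h4
  rw [h7] at h5
  linear_combination (∏ i ∈ range k, (P + ((k - i : ℕ) : R))) * h5 +
    ((2 * (k + 1)).factorial : R) * h4

theorem fac_unit (n : ℕ) (u : ℕ → R) (hu : ∀ k, 1 ≤ k → k ≤ n → (k : R) * u k = 1) :
    ∀ k, k ≤ n → ∃ v : R, (k.factorial : R) * v = 1 := by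
  intro k
  induction k with
  | zero =>
    intro _
    exact ⟨1, by simp⟩
  | succ k ih =>
    intro hk
    obtain ⟨v, hv⟩ := ih (by omega)
    refine ⟨v * u (k + 1), ?_⟩
    have huk := hu (k + 1) (by omega) hk
    rw [Nat.factorial_succ]
    rw [Nat.cast_mul]
    linear_combination ((k + 1 : ℕ) : R) * u (k + 1) * hv + huk

theorem term_eq (n k : ℕ) (P : R) (hPn : P = 2 * n + 1) (hP : P ^ 2 = 0) (u : ℕ → R)
    (hu : ∀ k, 1 ≤ k → k ≤ n → (k : R) * u k = 1) (hk : k + 1 ≤ n) :
    ((Pool.Agent.H547.ak (k + 1) : ℕ) : R) * ((2 * n + (k + 1)).choose (3 * (k + 1)) : R) =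
      u (k + 1) * (P * ((k + 1).centralBinom : R) ^ 2) := by
  obtain ⟨v, hv⟩ := fac_unit n u hu (k + 1) hk
  have huk := hu (k + 1) (by omega) hk
  have h1 : Pool.Agent.H547.ak (k + 1) * (2 * n + (k + 1)).choose (3 * (k + 1)) *
      (k + 1).factorial ^ 3 =
      (k + 1).centralBinom * (2 * n + (k + 1)).descFactorial (3 * (k + 1)) := by
    rw [Nat.descFactorial_eq_factorial_mul_choose, ← Pool.Agent.H547.u_fact]
    unfold Pool.Agent.H547.ak
    ring
  have h2 := congrArg (Nat.cast : ℕ → R) h1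
  rw [Nat.cast_mul, Nat.cast_mul (Pool.Agent.H547.ak (k + 1)), Nat.cast_mul (k + 1).centralBinom,
    desc_eq n k P hPn hP hk, Nat.cast_pow] at h2
  have h3 : ((2 * (k + 1)).factorial : R) = ((k + 1).centralBinom : R) *
      ((k + 1).factorial : R) ^ 2 := by
    have h4 := Nat.choose_mul_factorial_mul_factorial (show k + 1 ≤ 2 * (k + 1) by omega)
    rw [show 2 * (k + 1) - (k + 1) = k + 1 by omega, ← Nat.centralBinom_eq_two_mul_choose] at h4
    rw [← h4]
    push_cast
    ring
  have h5 : ((k + 1).factorial : R) = ((k + 1 : ℕ) : R) * (k.factorial : R) := by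
    rw [Nat.factorial_succ, Nat.cast_mul]
  rw [h3] at h2
  set t := ((Pool.Agent.H547.ak (k + 1) : ℕ) : R) * ((2 * n + (k + 1)).choose (3 * (k + 1)) : R)
    with ht
  set w := ((k + 1).factorial : R) with hw
  set K := ((k + 1 : ℕ) : R) with hK
  set B := ((k + 1).centralBinom : R) with hB
  -- K t w^3 = P B^2 w^3
  have h6 : K * t * w ^ 3 = P * B ^ 2 * w ^ 3 := by
    linear_combination K * h2 - B * P * B * w ^ 2 * h5
  have h7 : K * t = P * B ^ 2 := by
    have hv3 : w ^ 3 * v ^ 3 = 1 := by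
      rw [← mul_pow, hv, one_pow]
    linear_combination v ^ 3 * h6 - (K * t - P * B ^ 2) * hv3
  linear_combination u (k + 1) * h7 - t * huk

end ring2

end TT6

theorem gz_top {p n : ℕ} [hp : Fact p.Prime] (hn : p = 2 * n + 1) (h3 : 3 < p) :
    (p:ℤ) ^ 2 ∣ Pool.Agent.H547.gz (2 * n) - 16 ^ n * (n.centralBinom : ℤ) ^ 2 := by
  have hpp : p.Prime := hp.out
  have hcast : ((p ^ 2 : ℕ) : ℤ) = (p : ℤ) ^ 2 := by push_cast; ring
  rw [← hcast, ← ZMod.intCast_zmod_eq_zero_iff_dvd]
  set P : ZMod (p ^ 2) := (p : ZMod (p ^ 2)) with hPdef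
  have hP : P ^ 2 = 0 := by
    have : ((p ^ 2 : ℕ) : ZMod (p ^ 2)) = 0 := ZMod.natCast_self _
    rw [Nat.cast_pow] at this
    exact this
  have hPn : P = 2 * n + 1 := by
    rw [hPdef]
    have := congrArg (Nat.cast : ℕ → ZMod (p ^ 2)) hn
    push_cast at this
    exact this
  let u : ℕ → ZMod (p ^ 2) := fun k => (k : ZMod (p ^ 2))⁻¹
  have hu : ∀ k, 1 ≤ k → k ≤ n → (k : ZMod (p ^ 2)) * u k = 1 := by
    intro k hk1 hk2
    apply ZMod.coe_mul_inv_eq_one
    apply Nat.Coprime.pow_right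
    rw [Nat.coprime_comm, Nat.Prime.coprime_iff_not_dvd hpp]
    intro hd
    have := Nat.le_of_dvd (by omega) hd
    omega
  have hsq := TT6.sq_eq p u n (by omega) hP hu n le_rfl
  have hgz : Pool.Agent.H547.gz (2 * n) = ∑ k ∈ range (n + 1),
      (Pool.Agent.H547.ak k : ℤ) * ((2 * n + k).choose (3 * k) : ℤ) * 16 ^ (n - k) := by
    rw [Pool.Agent.H547.gz_a, Pool.Agent.H547.sum_ext'' _ (n + 1) (2 * n + 1) (by omega)]
    · apply Finset.sum_congr rfl
      intro k hk
      rw [Finset.mem_range] at hk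
      rw [if_pos (by omega), show 2 * n - 2 * k = 2 * (n - k) by omega, pow_mul]
      norm_num
    · intro k hk _
      rw [if_neg (by omega)]
  have hcb : (p - 1).choose n = n.centralBinom := by
    rw [Nat.centralBinom_eq_two_mul_choose, hn]
    rfl
  rw [hcb] at hsq
  rw [hgz, Finset.sum_range_succ']
  push_cast
  rw [hsq]
  have hterm : ∀ k ∈ range n, ((Pool.Agent.H547.ak (k + 1) : ℕ) : ZMod (p ^ 2)) *
      ((2 * n + (k + 1)).choose (3 * (k + 1)) : ZMod (p ^ 2)) * 16 ^ (n - (k + 1)) =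
      16 ^ n * P * ((-1) ^ (k + 1) * (n.choose (k + 1) : ZMod (p ^ 2)) *
        ((n + (k + 1)).choose (k + 1) : ZMod (p ^ 2)) * u (k + 1)) := by
    intro k hk
    rw [Finset.mem_range] at hk
    rw [TT6.term_eq n k P hPn hP u hu (by omega)]
    have hA := TT6.cbA n P hPn hP u hu (k + 1) (by omega)
    have hB := TT6.cbB n P hPn hP u hu (k + 1) (by omega)
    have h16 : (16 : ZMod (p ^ 2)) ^ n = (-1) ^ (k + 1) * ((-4) ^ (k + 1) * 4 ^ (k + 1)) *
        16 ^ (n - (k + 1)) := by
      rw [← mul_pow, ← mul_pow]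
      norm_num
      rw [← pow_add]
      congr 1
      omega
    have h1 : P * ((k + 1).centralBinom : ZMod (p ^ 2)) ^ 2 =
        P * ((n.choose (k + 1) : ZMod (p ^ 2)) * (-4) ^ (k + 1)) *
          (((n + (k + 1)).choose (k + 1) : ZMod (p ^ 2)) * 4 ^ (k + 1)) := by
      linear_combination ((k + 1).centralBinom : ZMod (p ^ 2)) * hA +
        ((n.choose (k + 1) : ZMod (p ^ 2)) * (-4) ^ (k + 1)) * hB
    rw [h1, h16]
    have hsgn : (-1 : ZMod (p ^ 2)) ^ (k + 1) * (-1) ^ (k + 1) = 1 := by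
      rw [← mul_pow]; norm_num
    linear_combination (-(P * (n.choose (k + 1) : ZMod (p ^ 2)) *
      ((n + (k + 1)).choose (k + 1) : ZMod (p ^ 2)) * u (k + 1) * (-4) ^ (k + 1) * 4 ^ (k + 1) *
      16 ^ (n - (k + 1)))) * hsgn
  rw [Finset.sum_congr rfl hterm, ← Finset.mul_sum]
  have hff : ∑ k ∈ range n, (-1) ^ (k + 1) * (n.choose (k + 1) : ZMod (p ^ 2)) *
      ((n + (k + 1)).choose (k + 1) : ZMod (p ^ 2)) * u (k + 1) = TT6.ff u n := rfl
  rw [hff]
  have h0 : Pool.Agent.H547.ak 0 = 1 := by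
    simp [Pool.Agent.H547.ak]
  rw [h0]
  simp
  ring

end Pool.Agent.H39.TT
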