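import Pool.Agent.H547.ZJ
import Pool.Agent.H39.TTDef

set_option autoImplicit false
set_option linter.unusedSectionVars false

/-!
# The large coefficients of the two families
-/

namespace Pool.Agent.H39.TT

open Finset Polynomial Pool.Agent.H547

section hi

variable {R : Type*} [CommRing R] {p : ℕ} [hp : Fact p.Prime]

theorem h64 {h : R} (hh : 2 * h = 1) : (64 : R) * h ^ 6 = 1 := by
  linear_combination (32 * h ^ 5 + 16 * h ^ 4 + 8 * h ^ 3 + 4 * h ^ 2 + 2 * h + 1) * hh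

theorem wa (hp2 : (p : R) ^ 2 = 0) (hp3 : 3 < p) {h f : R} (hh : 2 * h = 1) (hf : h ^ (p - 1) = 1 + p * f) :
    W (h ^ 6) (2 * p - 1) (BA p) = C (h ^ 4) * (BB p + 12 * C (p * f) * PB (p / 3 + 1) (p - 1)) := by
  have ho := odd_p (p := p) hp3
  have := W_B (p := p) hp2 hf (c := 4) (c' := 16) (v := h ^ 4) (a := 4) 16 (by norm_num)
    (by push_cast; linear_combination h ^ 4 * (2 * h + 1) * hh)
    (by linear_combination (8 * h ^ 3 + 4 * h ^ 2 + 2 * h + 1) * hh) rfl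
    (W_PA hh (K := (p + 1) / 2) fun k hk => by omega) (W_PA hh (K := p / 3 + 1) fun k hk => k13 hp3 hk)
    (PA_deg fun k hk => k13 hp3 hk)
    (pP (SbKp hp2 hp3) (PB_ps fun k hk => by omega) (PB_ps fun k hk => by have := k13 hp3 hk; omega))
  rw [Nat.cast_ofNat] at this
  exact this

theorem wb (hp2 : (p : R) ^ 2 = 0) (hp3 : 3 < p) {h f : R} (hh : 2 * h = 1) (hf : h ^ (p - 1) = 1 + p * f) :
    W (h ^ 6) (2 * p - 1) (BB p) = C (h ^ 2) * (BA p + 12 * C (p * f) * PA (p / 3 + 1) (p - 1)) := by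
  have ho := odd_p (p := p) hp3
  have := W_B (p := p) hp2 hf (c := 16) (c' := 4) (v := h ^ 2) (a := 2) 4 (by norm_num)
    (by push_cast; linear_combination h ^ 2 * (8 * h ^ 3 + 4 * h ^ 2 + 2 * h + 1) * hh)
    (by linear_combination (2 * h + 1) * hh) rfl
    (W_PB hh (K := (p + 1) / 2) fun k hk => by omega) (W_PB hh (K := p / 3 + 1) fun k hk => k13 hp3 hk)
    (PB_deg fun k hk => k13 hp3 hk)
    (pP (SaKp hp2 hp3) (PA_ps fun k hk => by omega) (PA_ps fun k hk => by have := k13 hp3 hk; omega))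
  rw [Nat.cast_ofNat] at this
  exact this

theorem A_lo (hp2 : (p : R) ^ 2 = 0) (hp3 : 3 < p) {j : ℕ} (hj : j < p) : (BA p : R[X]).coeff j = (gz j : R) := by
  have c1 := PowerSeries.X_pow_dvd_iff.mp (BA_low (R := R) hp2 hp3).1 j hj
  rw [map_sub, Polynomial.coeff_coe, Gs, PowerSeries.coeff_mk] at c1
  linear_combination c1

theorem B_lo (hp2 : (p : R) ^ 2 = 0) (hp3 : 3 < p) {j : ℕ} (hj : j < p) : (BB p : R[X]).coeff j = (gz j : R) := by
  have c1 := PowerSeries.X_pow_dvd_iff.mp (BB_low (R := R) hp2 hp3).1 j hj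
  rw [map_sub, Polynomial.coeff_coe, Gs, PowerSeries.coeff_mk] at c1
  linear_combination c1

theorem A_lo1 (hp2 : (p : R) ^ 2 = 0) (hp3 : 3 < p) {j : ℕ} (hj : j < p) :
    (p : R) * (PA (p / 3 + 1) (p - 1) : R[X]).coeff j = p * (gz j : R) := by
  have c1 := PowerSeries.X_pow_dvd_iff.mp (BA_low (R := R) hp2 hp3).2 j hj
  rw [map_sub, Polynomial.coeff_coe, Polynomial.coeff_C_mul, PowerSeries.coeff_C_mul, Gs, PowerSeries.coeff_mk] at c1
  linear_combination c1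

theorem B_lo1 (hp2 : (p : R) ^ 2 = 0) (hp3 : 3 < p) {j : ℕ} (hj : j < p) :
    (p : R) * (PB (p / 3 + 1) (p - 1) : R[X]).coeff j = p * (gz j : R) := by
  have c1 := PowerSeries.X_pow_dvd_iff.mp (BB_low (R := R) hp2 hp3).2 j hj
  rw [map_sub, Polynomial.coeff_coe, Polynomial.coeff_C_mul, PowerSeries.coeff_C_mul, Gs, PowerSeries.coeff_mk] at c1
  linear_combination c1

theorem A_hi (hp2 : (p : R) ^ 2 = 0) (hp3 : 3 < p) {h f : R} (hh : 2 * h = 1) (hf : h ^ (p - 1) = 1 + p * f)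
    {j : ℕ} (hj : j < p) : (BA p : R[X]).coeff (p + j) * (h ^ 6) ^ (p + j) =
      h ^ 4 * ((1 + 12 * (p * f)) * (gz (p - 1 - j) : R)) := by
  have h1 := W_coeff (h ^ 6) (N := 2 * p - 1) (j := p + j) (by omega) (BA p : R[X])
  rw [wa hp2 hp3 hh hf, show 2 * p - 1 - (p + j) = p - 1 - j by omega, coeff_C_mul, coeff_add,
    B_lo hp2 hp3 (by omega)] at h1
  have e : (12 * C ((p : R) * f) * PB (p / 3 + 1) (p - 1) : R[X]).coeff (p - 1 - j) =
      12 * f * (p * (PB (p / 3 + 1) (p - 1) : R[X]).coeff (p - 1 - j)) := by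
    rw [← map_ofNat C 12, ← C_mul, coeff_C_mul]; ring
  rw [e, B_lo1 hp2 hp3 (by omega)] at h1
  rw [← h1]; ring

theorem B_hi (hp2 : (p : R) ^ 2 = 0) (hp3 : 3 < p) {h f : R} (hh : 2 * h = 1) (hf : h ^ (p - 1) = 1 + p * f)
    {j : ℕ} (hj : j < p) : (BB p : R[X]).coeff (p + j) * (h ^ 6) ^ (p + j) =
      h ^ 2 * ((1 + 12 * (p * f)) * (gz (p - 1 - j) : R)) := by
  have h1 := W_coeff (h ^ 6) (N := 2 * p - 1) (j := p + j) (by omega) (BB p : R[X])
  rw [wb hp2 hp3 hh hf, show 2 * p - 1 - (p + j) = p - 1 - j by omega, coeff_C_mul, coeff_add,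
    A_lo hp2 hp3 (by omega)] at h1
  have e : (12 * C ((p : R) * f) * PA (p / 3 + 1) (p - 1) : R[X]).coeff (p - 1 - j) =
      12 * f * (p * (PA (p / 3 + 1) (p - 1) : R[X]).coeff (p - 1 - j)) := by
    rw [← map_ofNat C 12, ← C_mul, coeff_C_mul]; ring
  rw [e, A_lo1 hp2 hp3 (by omega)] at h1
  rw [← h1]; ring

/-- the reflection of the coefficients modulo `p` -/
theorem pg_refl (hp2 : (p : R) ^ 2 = 0) (hp3 : 3 < p) {h f : R} (hh : 2 * h = 1) (hf : h ^ (p - 1) = 1 + p * f)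
    {j : ℕ} (hj : j < p) : (p : R) * (gz j : R) * (h ^ 6) ^ j = p * (gz (p - 1 - j) : R) := by
  have hw := W_PA hh (K := p / 3 + 1) (m := p - 1) fun k hk => k13 hp3 hk
  have h1 := W_coeff (h ^ 6) (N := p - 1) (j := j) (by omega) (PA (p / 3 + 1) (p - 1) : R[X])
  rw [hw, coeff_C_mul] at h1
  have e1 := A_lo1 (R := R) hp2 hp3 hj
  have e2 := B_lo1 (R := R) (j := p - 1 - j) hp2 hp3 (by omega)
  have e3 : (h ^ 4) ^ (p - 1) = 1 + 4 * (p * f) := by
    rw [← pow_mul, mul_comm 4, pow_mul, hf]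
    have : ((p : R) * f) ^ 2 = 0 := by rw [mul_pow, hp2, zero_mul]
    rw [one_add_pow' this]; norm_num
  rw [e3] at h1
  linear_combination (-((h ^ 6) ^ j)) * e1 + (1 + 4 * (p * f)) * e2 - (p : R) * h1 +
    (4 * f * ((gz (p - 1 - j) : ℤ) : R)) * hp2

end hi

end Pool.Agent.H39.TT
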