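import Pool.Agent.H39.TTA

set_option autoImplicit false
set_option linter.unusedSectionVars false

/-!
# The middle coefficients
-/

namespace Pool.Agent.H39.TT

open Finset Polynomial Pool.Agent.H547

theorem gz_rec (j : ℕ) : (2 * (j : ℤ) + 4) ^ 3 * gz (j + 2) + 4 * (2 * (j : ℤ) + 3) * (5 * (2 * (j : ℤ) + 3) ^ 2 + 3) * gz (j + 1) +
    64 * (2 * (j : ℤ) + 2) ^ 3 * gz j = 0 := by
  have h := gc_rec j
  rw [← gz_c, ← gz_c, ← gz_c] at h
  unfold P0 P1 P2 at h
  have h2 : (((2 * (j : ℤ) + 4) ^ 3 * gz (j + 2) + 4 * (2 * (j : ℤ) + 3) * (5 * (2 * (j : ℤ) + 3) ^ 2 + 3) * gz (j + 1) +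
    64 * (2 * (j : ℤ) + 2) ^ 3 * gz j : ℤ) : ℚ) = ((0 : ℤ) : ℚ) := by
    push_cast
    linear_combination 8 * h
  exact_mod_cast h2

theorem gz_zero : gz 0 = 1 := by decide
theorem gz_one : gz 1 = -4 := by decide

section mid

variable {R : Type*} [CommRing R] {p n : ℕ} [hp : Fact p.Prime]

theorem nat_unit (hp2 : (p : R) ^ 2 = 0) {m : ℕ} (h0 : 0 < m) (hm : m < p) : IsUnit (m : R) := by
  have hc : IsCoprime (m : ℤ) (p : ℤ) := by
    rw [Nat.isCoprime_iff_coprime]
    exact (Nat.coprime_of_lt_prime (by omega) hm hp.out).symm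
  obtain ⟨a, b, hab⟩ := hc
  have h1 := congrArg (Int.cast : ℤ → R) hab
  push_cast at h1
  refine IsUnit.of_mul_eq_one ((a : R) * (1 + b * p)) ?_
  linear_combination (1 + (b : R) * p) * h1 - (b : R) ^ 2 * hp2

theorem gzR (j : ℕ) : (2 * (j : R) + 4) ^ 3 * (gz (j + 2) : R) + 4 * (2 * (j : R) + 3) * (5 * (2 * (j : R) + 3) ^ 2 + 3) * (gz (j + 1) : R) +
    64 * (2 * (j : R) + 2) ^ 3 * (gz j : R) = 0 := by
  have h := congrArg (Int.cast : ℤ → R) (gz_rec j)
  push_cast at h
  exact h

/-- **the upper half of the middle coefficients** -/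
theorem upper (hn : p = 2 * n + 1) (hp2 : (p : R) ^ 2 = 0) (hp3 : 3 < p) {h f : R} (hh : 2 * h = 1)
    (hf : h ^ (p - 1) = 1 + p * f) {c : ℕ → R}
    (hc : ∀ y : ℕ, (2 * (y : R) + 3) ^ 3 * c (y + 2) + 8 * ((y : R) + 1) * (20 * ((y : R) + 1) ^ 2 + 3) * c (y + 1) +
      64 * (2 * (y : R) + 1) ^ 3 * c y = 0)
    (htop : 2 * c n = (gz (2 * n) : R) + 64 ^ n * h ^ (6 * n)) :
    ∀ d y : ℕ, y + d = n → 2 * c y = (gz (n + y) : R) + 64 ^ y * h ^ (6 * n) * (gz (n - y) : R) := by
  have hpR : (p : R) = 2 * n + 1 := by rw [hn]; push_cast; ring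
  have h6n : (p : R) * h ^ (6 * n) = p := by
    have e : h ^ (6 * n) = (h ^ (p - 1)) ^ 3 := by rw [← pow_mul]; congr 1; omega
    rw [e, hf]
    linear_combination (3 * f + 3 * (p : R) * f ^ 2 + (p : R) ^ 2 * f ^ 3) * hp2
  have h64n : (p : R) * 64 ^ n = p := by
    have e : (64 : R) ^ n * h ^ (6 * n) = 1 := by rw [pow_mul, ← mul_pow, h64 hh, one_pow]
    linear_combination (p : R) * e - (64 : R) ^ n * h6n
  -- reflection modulo p
  have hr : ∀ y : ℕ, y ≤ n → (p : R) * (gz (n + y) : R) = p * (64 ^ y * h ^ (6 * n) * (gz (n - y) : R)) := by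
    intro y hy
    have h1 := pg_refl (R := R) hp2 hp3 hh hf (j := n + y) (by omega)
    rw [show p - 1 - (n + y) = n - y by omega] at h1
    have e : (64 : R) ^ (n + y) * (h ^ 6) ^ (n + y) = 1 := by rw [← mul_pow, h64 hh, one_pow]
    have e2 : (64 : R) ^ (n + y) = 64 ^ n * 64 ^ y := pow_add _ _ _
    rw [e2] at e
    linear_combination (64 ^ n * 64 ^ y) * h1 - (p : R) * (gz (n + y) : R) * e +
      (64 ^ y * (gz (n - y) : R)) * h64n - (64 ^ y * (gz (n - y) : R)) * h6n
  intro d
  induction d using Nat.strong_induction_on with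
  | _ d ih =>
    intro y hy
    rcases d with _ | _ | d
    · have : y = n := by omega
      subst this
      rw [htop, Nat.sub_self, gz_zero, two_mul]; push_cast; ring
    · -- y + 1 = n
      have hyn : n = y + 1 := by omega
      have ih0 := ih 0 (by omega) (y + 1) (by omega)
      have hcy := hc y
      have hG := gzR (R := R) (n + y)
      have hr0 := hr y (by omega)
      have hr1 := hr (y + 1) (by omega)
      rw [show n - (y + 1) = 0 by omega, gz_zero] at ih0 hr1
      rw [show n - y = 1 by omega, gz_one] at hr0 ⊢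
      have hu : IsUnit (64 * (2 * (y : R) + 1) ^ 3) := by
        have h1 : IsUnit ((2 * y + 1 : ℕ) : R) := nat_unit hp2 (by omega) (by omega)
        push_cast at h1
        exact (IsUnit.of_mul_eq_one _ (h64 hh)).mul (h1.pow 3)
      apply hu.mul_left_cancel
      have hp' : (p : R) = 2 * y + 3 := by rw [hpR, hyn]; push_cast; ring
      have hnR : (n : R) = y + 1 := by rw [hyn]; push_cast; ring
      rw [show n + y + 1 = n + (y + 1) by ring, show n + y + 2 = n + (y + 2) by ring] at hG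
      push_cast at hG ih0 hr0 hr1 ⊢
      rw [hnR] at hG
      have e64 : (64 : R) ^ (y + 1) = 64 * 64 ^ y := by rw [pow_succ]; ring
      rw [e64] at ih0 hr1
      rw [hp'] at hr0 hr1 hp2
      set H := h ^ (6 * n)
      set s := (64 : R) ^ y
      set t := (y : R)
      set G0 := (gz (n + y) : R)
      set G1 := (gz (n + (y + 1)) : R)
      set G2 := (gz (n + (y + 2)) : R)
      linear_combination 2 * hcy - (4 * (2 * t + 2) * (5 * (2 * t + 2) ^ 2 + 3)) * ih0 - hG +
        (8 * (2 * t + 3) * G2 - 2 * (2 * t + 3) * c (y + 2)) * hp2 +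
        (60 * (2 * t + 2) ^ 2 + 20 * (2 * t + 3) ^ 2 + 12) * hr1 + (60 * (2 * t + 2) * (G1 + 64 * s * H)) * hp2 +
        (64 * (3 * (2 * t + 1) ^ 2 + (2 * t + 3) ^ 2)) * hr0 + (192 * (2 * t + 1) * (G0 + s * H * (-4))) * hp2
    · -- the general step
      have ih2 := ih d (by omega) (y + 2) (by omega)
      have ih1 := ih (d + 1) (by omega) (y + 1) (by omega)
      have hcy := hc y
      have hG := gzR (R := R) (n + y)
      have hS := gzR (R := R) (n - (y + 2))
      have hr0 := hr y (by omega)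
      have hr1 := hr (y + 1) (by omega)
      have hr2 := hr (y + 2) (by omega)
      rw [show n - (y + 2) + 2 = n - y by omega, show n - (y + 2) + 1 = n - (y + 1) by omega] at hS
      have hu : IsUnit (64 * (2 * (y : R) + 1) ^ 3) := by
        have h1 : IsUnit ((2 * y + 1 : ℕ) : R) := nat_unit hp2 (by omega) (by omega)
        push_cast at h1
        exact (IsUnit.of_mul_eq_one _ (h64 hh)).mul (h1.pow 3)
      apply hu.mul_left_cancel
      have e0 : ((n - (y + 2) : ℕ) : R) = (n : R) - y - 2 := by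
        rw [Nat.cast_sub (by omega)]; push_cast; ring
      rw [e0] at hS
      rw [show n + y + 1 = n + (y + 1) by ring, show n + y + 2 = n + (y + 2) by ring] at hG
      push_cast at hG ⊢
      have e64 : (64 : R) ^ (y + 1) = 64 * 64 ^ y := by rw [pow_succ]; ring
      have e642 : (64 : R) ^ (y + 2) = 64 * 64 * 64 ^ y := by rw [pow_add]; ring
      rw [e64] at ih1 hr1
      rw [e642] at ih2 hr2
      have hn2 : 2 * (n : R) = p - 1 := by rw [hpR]; ring
      have f4 : 2 * ((n : R) + y) + 4 = p + (2 * y + 3) := by linear_combination hn2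
      have f3 : 2 * ((n : R) + y) + 3 = p + (2 * y + 2) := by linear_combination hn2
      have f2 : 2 * ((n : R) + y) + 2 = p + (2 * y + 1) := by linear_combination hn2
      have g4 : 2 * ((n : R) - y - 2) + 4 = p - (2 * y + 1) := by linear_combination hn2
      have g3 : 2 * ((n : R) - y - 2) + 3 = p - (2 * y + 2) := by linear_combination hn2
      have g2 : 2 * ((n : R) - y - 2) + 2 = p - (2 * y + 3) := by linear_combination hn2
      rw [f4, f3, f2] at hG
      rw [g4, g3, g2] at hS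
      set H := h ^ (6 * n)
      set s := (64 : R) ^ y
      set t := (y : R)
      set P := (p : R)
      set G0 := (gz (n + y) : R)
      set G1 := (gz (n + (y + 1)) : R)
      set G2 := (gz (n + (y + 2)) : R)
      set S0 := (gz (n - y) : R)
      set S1 := (gz (n - (y + 1)) : R)
      set S2 := (gz (n - (y + 2)) : R)
      linear_combination 2 * hcy - ((2 * t + 3) ^ 3) * ih2 - (4 * (2 * t + 2) * (5 * (2 * t + 2) ^ 2 + 3)) * ih1 - hG +
        (64 * s * H) * hS +
        (3 * (2 * t + 3) ^ 2 + P ^ 2) * hr2 + (3 * (2 * t + 3) * (G2 + 64 * 64 * s * H * S2)) * hp2 +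
        (60 * (2 * t + 2) ^ 2 + 20 * P ^ 2 + 12) * hr1 + (60 * (2 * t + 2) * (G1 + 64 * s * H * S1)) * hp2 +
        (64 * (3 * (2 * t + 1) ^ 2 + P ^ 2)) * hr0 + (192 * (2 * t + 1) * (G0 + s * H * S0)) * hp2

end mid

end Pool.Agent.H39.TT
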