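import Pool.Agent.H39.TTB

set_option autoImplicit false
set_option linter.unusedSectionVars false

/-!
# The polynomial relation
-/

namespace Pool.Agent.H39.TT

open Finset Polynomial Pool.Agent.H547

section poly

variable {R : Type*} [CommRing R]

/-- the polynomial of the sum -/
noncomputable def Cp (a : ℕ → R) (n : ℕ) : R[X] := ∑ i ∈ range (n + 1), C (a i) * (X ^ (n - i) * (1 + C 8 * X) ^ (2 * i))

theorem lin_coeff (c : R) (m j : ℕ) : ((1 + C c * X : R[X]) ^ m).coeff j = (m.choose j : R) * c ^ j := by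
  have e : (1 + C c * X : R[X]) ^ m = ((1 + X) ^ m : R[X]).comp (C c * X) := by simp
  rw [e, comp_C_mul_X_coeff, coeff_one_add_X_pow]

theorem Cp_hi (a : ℕ → R) {n y : ℕ} : (Cp a n).coeff (n + y) = ∑ i ∈ range (n + 1), a i * ((KK y i : ℤ) : R) := by
  unfold Cp KK
  rw [finsetSum_coeff]
  refine sum_congr rfl fun i hi => ?_
  have hi' := mem_range.mp hi
  rw [coeff_C_mul, coeff_X_pow_mul', if_pos (by omega), lin_coeff, show n + y - (n - i) = i + y by omega]
  push_cast
  ring

theorem Cp_lo (a : ℕ → R) {n y : ℕ} (hy : y ≤ n) : (Cp a n).coeff (n - y) * 64 ^ y =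
    ∑ i ∈ range (n + 1), a i * ((KK y i : ℤ) : R) := by
  unfold Cp KK
  rw [finsetSum_coeff, sum_mul]
  refine sum_congr rfl fun i hi => ?_
  have hi' := mem_range.mp hi
  rw [coeff_C_mul, coeff_X_pow_mul']
  split_ifs with h
  · rw [lin_coeff, show n - y - (n - i) = i - y by omega]
    have e1 : (2 * i).choose (i - y) = (2 * i).choose (i + y) := by
      rw [← Nat.choose_symm (show i + y ≤ 2 * i by omega)]
      congr 1; omega
    have e2 : (8 : R) ^ (i - y) * 64 ^ y = 8 ^ (i + y) := by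
      rw [show (64 : R) = 8 ^ 2 by norm_num, ← pow_mul, ← pow_add]
      congr 1; omega
    rw [e1]
    push_cast
    rw [← e2]
    ring
  · rw [Nat.choose_eq_zero_of_lt (show 2 * i < i + y by omega)]
    simp

theorem Cp_deg (a : ℕ → R) (n : ℕ) : (Cp a n).natDegree ≤ 2 * n := by
  unfold Cp
  refine natDegree_sum_le_of_forall_le _ _ fun i hi => ?_
  have hi' := mem_range.mp hi
  refine (natDegree_C_mul_le _ _).trans ?_
  refine natDegree_mul_le.trans ?_
  have h1 := natDegree_X_pow_le (R := R) (n - i)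
  have h2 := lin_pow_deg (8 : R) (2 * i)
  omega

variable {p n : ℕ} [hp : Fact p.Prime]

/-- **the coefficients** -/
theorem Cp_coeff (hn : p = 2 * n + 1) (hp2 : (p : R) ^ 2 = 0) (hp3 : 3 < p) {h f : R} (hh : 2 * h = 1)
    (hf : h ^ (p - 1) = 1 + p * f) {a : ℕ → R}
    (hc : ∀ y : ℕ, (2 * (y : R) + 3) ^ 3 * (∑ i ∈ range (n + 1), a i * ((KK (y + 2) i : ℤ) : R)) +
      8 * ((y : R) + 1) * (20 * ((y : R) + 1) ^ 2 + 3) * (∑ i ∈ range (n + 1), a i * ((KK (y + 1) i : ℤ) : R)) +
      64 * (2 * (y : R) + 1) ^ 3 * (∑ i ∈ range (n + 1), a i * ((KK y i : ℤ) : R)) = 0)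
    (ha : a n = 1) (htop : (gz (2 * n) : R) = 64 ^ (2 * n)) {j : ℕ} (hj : j ≤ 2 * n) :
    2 * (Cp a n).coeff j = (gz j : R) + 64 ^ j * h ^ (12 * n) * (gz (2 * n - j) : R) := by
  have e64 : (64 : R) ^ n * h ^ (6 * n) = 1 := by rw [pow_mul, ← mul_pow, h64 hh, one_pow]
  have e3 : h ^ (6 * n) = 1 + p * (3 * f) := by
    have e : h ^ (6 * n) = (h ^ (p - 1)) ^ 3 := by rw [← pow_mul]; congr 1; omega
    rw [e, hf]
    linear_combination (3 * f ^ 2 + (p : R) * f ^ 3) * hp2
  have e12 : h ^ (12 * n) = h ^ (6 * n) * h ^ (6 * n) := by rw [← pow_add]; congr 1; omega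
  have hcn : (∑ i ∈ range (n + 1), a i * ((KK n i : ℤ) : R)) = 64 ^ n := by
    rw [sum_eq_single n]
    · unfold KK
      rw [ha, ← two_mul, Nat.choose_self, pow_mul]; push_cast; norm_num
    · intro b hb hbn
      have hb' := mem_range.mp hb
      unfold KK
      rw [Nat.choose_eq_zero_of_lt (show 2 * b < b + n by omega)]; simp
    · intro h0; exact absurd (mem_range.mpr (by omega)) h0
  have hU := upper (R := R) hn hp2 hp3 hh hf (c := fun y => ∑ i ∈ range (n + 1), a i * ((KK y i : ℤ) : R)) hc (by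
    show 2 * (∑ i ∈ range (n + 1), a i * ((KK n i : ℤ) : R)) = _
    rw [hcn, htop]
    have e2 : (64 : R) ^ (2 * n) = 64 ^ n * 64 ^ n := by rw [two_mul, pow_add]
    rw [e2, e64]
    -- (64^n)^2 - 2*64^n + 1 = 0
    have e5 : (64 : R) ^ n * (1 + p * (3 * f)) = 1 := by rw [← e3]; exact e64
    have e6 : (64 : R) ^ n = 1 - p * (3 * f) := by
      linear_combination (1 - p * (3 * f)) * e5 + (9 * f ^ 2 * 64 ^ n) * hp2
    rw [e6]
    linear_combination (-9 * f ^ 2) * hp2)
  rcases Nat.lt_or_ge j n with h1 | h1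
  · obtain ⟨y, hy⟩ : ∃ y, j = n - y ∧ y ≤ n := ⟨n - j, by omega, by omega⟩
    obtain ⟨rfl, hyn⟩ := hy
    have h2 := hU (n - y) y (by omega)
    have h3 := Cp_lo a hyn
    have hr1 := pg_refl (R := R) hp2 hp3 hh hf (j := n + y) (by omega)
    rw [show p - 1 - (n + y) = n - y by omega] at hr1
    have e8 : (64 : R) ^ (n + y) * (h ^ 6) ^ (n + y) = 1 := by rw [← mul_pow, h64 hh, one_pow]
    have e9 : (64 : R) ^ (n + y) = 64 ^ n * 64 ^ y := pow_add _ _ _
    have e7 : (64 : R) ^ (n - y) * 64 ^ y = 64 ^ n := by rw [← pow_add]; congr 1; omega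
    rw [show 2 * n - (n - y) = n + y by omega]
    have hu : IsUnit ((64 : R) ^ y) := (IsUnit.of_mul_eq_one _ (h64 hh)).pow y
    apply hu.mul_left_cancel
    rw [← h3] at h2
    rw [e9] at e8
    rw [e12]
    have p64 : (p : R) * 64 ^ n = p := by
      linear_combination (p : R) * e64 - (p : R) * (64 : R) ^ n * e3 - (3 * f * 64 ^ n) * hp2
    set G1 := (gz (n + y) : R)
    set G0 := (gz (n - y) : R)
    set H := h ^ (6 * n)
    set s := (64 : R) ^ y
    set c := (Cp a n).coeff (n - y)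
    -- p G1 = p s G0
    have hr : (p : R) * G1 = p * (s * G0) := by
      linear_combination (64 ^ n * s) * hr1 - (p : R) * G1 * e8 + (s * G0) * p64
    linear_combination h2 - (H * H * G1) * e7 - (H * G1) * e64 + (s * G0 - G1) * e3 - (3 * f) * hr
  · obtain ⟨y, rfl⟩ : ∃ y, j = n + y := ⟨j - n, by omega⟩
    have h2 := hU (n - y) y (by omega)
    rw [Cp_hi, h2, show 2 * n - (n + y) = n - y by omega, e12, pow_add]
    linear_combination (-(64 ^ y * h ^ (6 * n) * (gz (n - y) : R))) * e64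

/-- **the relation between the polynomials** -/
theorem rel (hn : p = 2 * n + 1) (hp2 : (p : R) ^ 2 = 0) (hp3 : 3 < p) {h f : R} (hh : 2 * h = 1)
    (hf : h ^ (p - 1) = 1 + p * f) {a : ℕ → R}
    (hc : ∀ y : ℕ, (2 * (y : R) + 3) ^ 3 * (∑ i ∈ range (n + 1), a i * ((KK (y + 2) i : ℤ) : R)) +
      8 * ((y : R) + 1) * (20 * ((y : R) + 1) ^ 2 + 3) * (∑ i ∈ range (n + 1), a i * ((KK (y + 1) i : ℤ) : R)) +
      64 * (2 * (y : R) + 1) ^ 3 * (∑ i ∈ range (n + 1), a i * ((KK y i : ℤ) : R)) = 0)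
    (ha : a n = 1) (htop : (gz (2 * n) : R) = 64 ^ (2 * n)) :
    C 16 * (X ^ p * BA p) - BA p + (BB p - C 4 * (X ^ p * BB p)) = C 24 * (X ^ p * Cp a n) := by
  have u6 : IsUnit (h ^ 6) := IsUnit.of_mul_eq_one 64 (by linear_combination h64 hh)
  ext m
  simp only [coeff_add, coeff_sub, coeff_C_mul, coeff_X_pow_mul']
  rcases Nat.lt_or_ge m p with h1 | h1
  · rw [if_neg (by omega), if_neg (by omega), if_neg (by omega), A_lo hp2 hp3 h1, B_lo hp2 hp3 h1]; ring
  · rw [if_pos h1, if_pos h1, if_pos h1]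
    obtain ⟨j, rfl⟩ : ∃ j, m = p + j := ⟨m - p, by omega⟩
    rw [Nat.add_sub_cancel_left]
    rcases Nat.lt_or_ge j p with h2 | h2
    · have hA := A_hi (R := R) hp2 hp3 hh hf h2
      have hB := B_hi (R := R) hp2 hp3 hh hf h2
      have hC := Cp_coeff (R := R) (j := j) hn hp2 hp3 hh hf hc ha htop (by omega)
      rw [A_lo hp2 hp3 h2, B_lo hp2 hp3 h2]
      rw [show p - 1 - j = 2 * n - j by omega] at hA hB
      have hu := u6.pow (p + j)
      apply hu.mul_left_cancel
      have e1 : (64 : R) ^ j * (h ^ 6) ^ j = 1 := by rw [← mul_pow, h64 hh, one_pow]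
      have e2 : (h ^ 6) ^ (p + j) = h ^ 6 * h ^ (12 * n) * (h ^ 6) ^ j := by
        rw [pow_add, ← pow_mul h 6 p, hn, show 6 * (2 * n + 1) = 6 + 12 * n by ring, pow_add]
      have e3 : h ^ (12 * n) = 1 + 6 * (p * f) := by
        have e : h ^ (12 * n) = (h ^ (p - 1)) ^ 6 := by rw [← pow_mul]; congr 1; omega
        have : ((p : R) * f) ^ 2 = 0 := by rw [mul_pow, hp2, zero_mul]
        rw [e, hf, one_add_pow' this]; norm_num
      have e16 : (16 : R) * h ^ 4 = 1 := by linear_combination (8 * h ^ 3 + 4 * h ^ 2 + 2 * h + 1) * hh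
      have e4 : (4 : R) * h ^ 2 = 1 := by linear_combination (2 * h + 1) * hh
      set BAj := (BA p : R[X]).coeff (p + j)
      set BBj := (BB p : R[X]).coeff (p + j)
      set g1 := (gz (2 * n - j) : R)
      set g0 := (gz j : R)
      set c := (Cp a n).coeff j
      set t := (h ^ 6) ^ j
      set K := h ^ (12 * n)
      have e5 : h ^ 2 - h ^ 4 = 12 * h ^ 6 := by
        linear_combination (-(6 * h ^ 5 + 3 * h ^ 4 + 2 * h ^ 3 + h ^ 2)) * hh
      rw [e2] at hA hB ⊢
      have e6 : K * K = 1 + 12 * (p * f) := by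
        rw [e3]; linear_combination (36 * f ^ 2) * hp2
      linear_combination hB - hA + (1 + 12 * (p * f)) * g1 * e5 - (12 * h ^ 6 * g1) * e6 -
        (12 * h ^ 6 * K * t) * hC - (12 * h ^ 6 * K * K * g1) * e1
    · obtain ⟨i, rfl⟩ : ∃ i, j = p + i := ⟨j - p, by omega⟩
      have z1 : (BA p : R[X]).coeff (p + (p + i)) = 0 := coeff_eq_zero_of_natDegree_lt (by
        have := BA_deg (R := R) (p := p) hp3; omega)
      have z2 : (BB p : R[X]).coeff (p + (p + i)) = 0 := coeff_eq_zero_of_natDegree_lt (by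
        have := BB_deg (R := R) (p := p) hp3; omega)
      have z3 : (Cp a n).coeff (p + i) = 0 := coeff_eq_zero_of_natDegree_lt (by
        have := Cp_deg a n; omega)
      rw [z1, z2, z3]
      rcases Nat.lt_or_ge i p with h3 | h3
      · have hA := A_hi (R := R) hp2 hp3 hh hf h3
        have hB := B_hi (R := R) hp2 hp3 hh hf h3
        have hu := u6.pow (p + i)
        apply hu.mul_left_cancel
        have e16 : (16 : R) * h ^ 4 = 1 := by linear_combination (8 * h ^ 3 + 4 * h ^ 2 + 2 * h + 1) * hh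
        have e4 : (4 : R) * h ^ 2 = 1 := by linear_combination (2 * h + 1) * hh
        linear_combination 16 * hA - 4 * hB + ((1 + 12 * (p * f)) * (gz (p - 1 - i) : R)) * e16 -
          ((1 + 12 * (p * f)) * (gz (p - 1 - i) : R)) * e4
      · rw [coeff_eq_zero_of_natDegree_lt (p := (BA p : R[X])) (by
          have := BA_deg (R := R) (p := p) hp3; omega), coeff_eq_zero_of_natDegree_lt (p := (BB p : R[X])) (by
          have := BB_deg (R := R) (p := p) hp3; omega)]
        ring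

end poly

end Pool.Agent.H39.TT
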