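import Pool.Agent.H39.TTC
import Pool.Agent.H39.TT1
import Pool.Agent.H39.TT2
import Pool.Agent.H39.TT3
import Pool.Agent.H39.TT4
import Pool.Agent.H39.TT5

set_option autoImplicit false
set_option linter.unusedSectionVars false

/-!
# The coefficients `a_i` and the relation at a point
-/

namespace Pool.Agent.H39.TT

open Finset Polynomial Pool.Agent.H547

section coef

variable {R : Type*} [CommRing R] {p n : ℕ} [hp : Fact p.Prime]

theorem int_dvd_zero (hp2 : (p : R) ^ 2 = 0) {z : ℤ} (h : (p : ℤ) ^ 2 ∣ z) : (z : R) = 0 := by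
  obtain ⟨c, rfl⟩ := h
  push_cast
  rw [hp2, zero_mul]

theorem int_unit (hp2 : (p : R) ^ 2 = 0) {z : ℤ} (hc : IsCoprime z (p : ℤ)) : IsUnit (z : R) := by
  obtain ⟨a, b, hab⟩ := hc
  have h1 := congrArg (Int.cast : ℤ → R) hab
  push_cast at h1
  refine IsUnit.of_mul_eq_one ((a : R) * (1 + b * p)) ?_
  linear_combination (1 + (b : R) * p) * h1 - (b : R) ^ 2 * hp2

/-- the coefficients -/
def aT (h : R) (n i : ℕ) : R := h ^ (8 * n) * ((NN n i : ℤ) : R)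

theorem tau_out {k i : ℕ} (h : k < i) : tau k i = 0 := TT2.tau_zero h

theorem NN_out {n i : ℕ} (h : n < i) : NN n i = 0 := by
  unfold NN
  refine sum_eq_zero fun k hk => ?_
  have := mem_range.mp hk
  rw [tau_out (by omega)]
  simp

theorem tau_diag (n : ℕ) : tau n n = 1 := by
  unfold tau
  simp

theorem NN_top (n : ℕ) : NN n n = (n.centralBinom : ℤ) ^ 2 := by
  unfold NN
  rw [sum_range_succ, sum_eq_zero, tau_diag]
  · simp
  · intro k hk
    rw [tau_out (mem_range.mp hk)]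
    simp

theorem aT_out (h : R) {n i : ℕ} (hi : n < i) : aT h n i = 0 := by
  unfold aT; rw [NN_out hi]; simp

theorem aT_top (hn : p = 2 * n + 1) (hp2 : (p : R) ^ 2 = 0) (hp3 : 3 < p) {h : R} (hh : 2 * h = 1) : aT h n n = 1 := by
  unfold aT
  rw [NN_top]
  have h1 := int_dvd_zero (R := R) hp2 (morley2 hn hp3)
  push_cast at h1 ⊢
  have e : h ^ (8 * n) * 256 ^ n = 1 := by
    rw [pow_mul, ← mul_pow, show h ^ 8 * 256 = 1 by linear_combination (1 + 2 * h + 4 * h ^ 2 + 8 * h ^ 3 + 16 * h ^ 4 + 32 * h ^ 5 + 64 * h ^ 6 + 128 * h ^ 7) * hh, one_pow]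
  linear_combination h ^ (8 * n) * h1 + e

theorem aT_rec (hn : p = 2 * n + 1) (hp2 : (p : R) ^ 2 = 0) (hp3 : 3 < p) {h : R} (hh : 2 * h = 1) (i : ℕ) :
    (2 * (i : R) + 1) ^ 3 * aT h n i = 8 * ((i : R) + 1) * (28 * ((i : R) + 1) ^ 2 + 1) * aT h n (i + 1) +
      512 * ((i : R) + 1) * ((i : R) + 2) * (2 * (i : R) + 3) * aT h n (i + 2) := by
  rcases lt_trichotomy i n with hi | hi | hi
  · have hN := NN_rec (fun k i h => tau_closed h) n i hi
    have hd : (p : ℤ) ∣ ((n + 1).centralBinom : ℤ) := by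
      have : p ∣ (n + 1).centralBinom := by
        rw [Nat.centralBinom_eq_two_mul_choose]
        refine hp.out.dvd_choose ?_ ?_ ?_ <;> omega
      exact_mod_cast this
    have hd2 : (p : ℤ) ^ 2 ∣ ((n + 1).centralBinom : ℤ) ^ 2 := pow_dvd_pow_of_dvd hd 2
    have hz : (256 * (4 * (n:ℤ) + 1 - 2 * i)) * ((2 * (i:ℤ) + 1) ^ 3 * NN n i - 8 * ((i:ℤ) + 1) * (28 * ((i:ℤ) + 1) ^ 2 + 1) * NN n (i + 1) -
      512 * ((i:ℤ) + 1) * ((i:ℤ) + 2) * (2 * (i:ℤ) + 3) * NN n (i + 2)) =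
      ((n + 1).centralBinom : ℤ) ^ 2 * (-64 * ((i:ℤ) + 1) * ((n:ℤ) + 1) * (8 * ((n:ℤ) + 1) ^ 2 - 2 * (6 * (i:ℤ) + 7) * ((n:ℤ) + 1) + (6 * (i:ℤ) + 5)) *
        (tau (n + 1) (i + 1) : ℤ)) := by rw [hN]; ring
    have hd3 : (p : ℤ) ^ 2 ∣ (256 * (4 * (n:ℤ) + 1 - 2 * i)) * ((2 * (i:ℤ) + 1) ^ 3 * NN n i - 8 * ((i:ℤ) + 1) * (28 * ((i:ℤ) + 1) ^ 2 + 1) * NN n (i + 1) -
      512 * ((i:ℤ) + 1) * ((i:ℤ) + 2) * (2 * (i:ℤ) + 3) * NN n (i + 2)) := by
      rw [hz]; exact Dvd.dvd.mul_right hd2 _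
    have h0 := int_dvd_zero (R := R) hp2 hd3
    rw [Int.cast_mul] at h0
    have hu : IsUnit (((256 * (4 * (n:ℤ) + 1 - 2 * i) : ℤ)) : R) := by
      refine int_unit (p := p) hp2 ?_
      have c1 : IsCoprime (2 : ℤ) (p : ℤ) := ⟨-n, 1, by rw [hn]; push_cast; ring⟩
      have c2 : IsCoprime (256 : ℤ) (p : ℤ) := by
        have := c1.pow_left (m := 8); norm_num at this; exact this
      refine IsCoprime.mul_left c2 ?_
      have c3 : IsCoprime ((2 * i + 1 : ℕ) : ℤ) (p : ℤ) := by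
        rw [Nat.isCoprime_iff_coprime]
        exact (Nat.coprime_of_lt_prime (by omega) (by omega) hp.out).symm
      obtain ⟨u, v, huv⟩ := c3
      refine ⟨-u, v + 2 * u, ?_⟩
      have : (p : ℤ) = 2 * n + 1 := by rw [hn]; push_cast; ring
      push_cast at huv
      linear_combination huv + 2 * u * this
    have h1 := (hu.mul_right_eq_zero).mp h0
    push_cast at h1
    unfold aT
    push_cast
    linear_combination h ^ (8 * n) * h1
  · subst hi
    rw [aT_out h (show i < i + 1 by omega), aT_out h (show i < i + 2 by omega)]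
    have hpR : (p : R) = 2 * i + 1 := by rw [hn]; push_cast; ring
    rw [← hpR]
    linear_combination ((p : R) * aT h i i) * hp2
  · rw [aT_out h hi, aT_out h (show n < i + 1 by omega), aT_out h (show n < i + 2 by omega)]
    ring

theorem aT_c (hn : p = 2 * n + 1) (hp2 : (p : R) ^ 2 = 0) (hp3 : 3 < p) {h : R} (hh : 2 * h = 1) (y : ℕ) :
    (2 * (y : R) + 3) ^ 3 * (∑ i ∈ range (n + 1), aT h n i * ((KK (y + 2) i : ℤ) : R)) +
      8 * ((y : R) + 1) * (20 * ((y : R) + 1) ^ 2 + 3) * (∑ i ∈ range (n + 1), aT h n i * ((KK (y + 1) i : ℤ) : R)) +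
      64 * (2 * (y : R) + 1) ^ 3 * (∑ i ∈ range (n + 1), aT h n i * ((KK y i : ℤ) : R)) = 0 :=
  c_rec KK_id KK_id1 KK_id0 (fun _ hi => aT_out h hi) (aT_rec hn hp2 hp3 hh) y

/-- **The relation at a point.** -/
theorem clubT (hn : p = 2 * n + 1) (hp2 : (p : R) ^ 2 = 0) (hp3 : 3 < p) {h f : R} (hh : 2 * h = 1)
    (hf : h ^ (p - 1) = 1 + p * f) (htop : (gz (2 * n) : R) = 64 ^ (2 * n)) {s i4 i16 : R} (h4 : (1 + 4 * s) * i4 = 1)
    (h16 : (1 + 16 * s) * i16 = 1) :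
    (16 * s ^ p - 1) * (i4 * (1 + 4 * s ^ p) ^ 2 * SS p (s ^ 2 * i4 ^ 3)) +
      (1 - 4 * s ^ p) * (i16 * (1 + 16 * s ^ p) ^ 2 * SS p (s * i16 ^ 3)) = 24 * (s ^ p * (Cp (aT h n) n).eval s) := by
  have ht := rel (R := R) hn hp2 hp3 hh hf (aT_c hn hp2 hp3 hh) (aT_top hn hp2 hp3 hh) htop
  have ht2 := congrArg (Polynomial.eval s) ht
  unfold BA BB at ht2
  have hpp := hp.out.pos
  have m1 : ∀ u i : R, u * i = 1 → u ^ (2 * p - 1) = u ^ p * u ^ p * i := by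
    intro u i hu
    rw [pow_inv_mul hu (a := 1) (by omega), two_mul, pow_add, pow_one]
  have m2 : ∀ u i : R, u * i = 1 → u ^ (p - 1) = u ^ p * i := by
    intro u i hu
    rw [pow_inv_mul hu (a := 1) (by omega), pow_one]
  have a1 := evA h4 (K := (p + 1) / 2) (m := 2 * p - 1) fun k hk => by omega
  have a2 := evA h4 (K := p / 3 + 1) (m := p - 1) fun k hk => k13 hp3 hk
  have b1 := evB h16 (K := (p + 1) / 2) (m := 2 * p - 1) fun k hk => by omega
  have b2 := evB h16 (K := p / 3 + 1) (m := p - 1) fun k hk => k13 hp3 hk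
  rw [SS_K hp2, m1 _ _ h4] at a1
  rw [m2 _ _ h4] at a2
  rw [SS_K hp2, m1 _ _ h16] at b1
  rw [m2 _ _ h16] at b2
  simp only [eval_add, eval_mul, eval_sub, eval_pow, eval_one, eval_C, eval_X, eval_ofNat] at ht2
  rw [a1, a2, b1, b2] at ht2
  obtain ⟨r4, hr4⟩ := ML_dvd (p := p) 4 s
  obtain ⟨r16, hr16⟩ := ML_dvd (p := p) 16 s
  rw [Nat.cast_ofNat] at hr4 hr16
  have e4 := absE (i := i4) hp2 hr4 (SS_1 hp2 (s ^ 2 * i4 ^ 3))
  have e16 := absE (i := i16) hp2 hr16 (SS_1 hp2 (s * i16 ^ 3))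
  linear_combination ht2 - (16 * s ^ p - 1) * e4 - (1 - 4 * s ^ p) * e16

end coef

end Pool.Agent.H39.TT
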