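import Pool.Agent.H39.TTD
import Pool.Agent.H39.TT6
import Pool.Agent.H547.ZJ

set_option autoImplicit false
set_option linter.unusedSectionVars false

/-!
# The values of the sum: the Frobenius fixing, moving `s`, and the supersingular case
-/

namespace Pool.Agent.H39.TT

open Finset Polynomial Pool.Agent.H547

section vals

variable {A : Type*} [CommRing A] {p n : ℕ} [hp : Fact p.Prime]

/-- the truncated sum, `h = 1/2`, as a function of `M = b² - 4` -/
def TS (p : ℕ) (h M : A) : A := ∑ k ∈ range p, ((k.centralBinom : ℕ) : A) ^ 2 * h ^ (8 * k) *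
  ∑ i ∈ range (k + 1), ((tau k i : ℕ) : A) * M ^ i

theorem TS_map {B : Type*} [CommRing B] (f : A →+* B) (h M : A) : f (TS p h M) = TS p (f h) (f M) := by
  simp [TS]

theorem TS_eq (hn : p = 2 * n + 1) (hp2 : (p : A) ^ 2 = 0) {h : A} (hh : 2 * h = 1) (M : A) :
    TS p h M = ∑ i ∈ range (n + 1), aT h n i * M ^ i := by
  have e1 : TS p h M = ∑ k ∈ range (n + 1), ((k.centralBinom : ℕ) : A) ^ 2 * h ^ (8 * k) *
      ∑ i ∈ range (n + 1), ((tau k i : ℕ) : A) * M ^ i := by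
    unfold TS
    rw [sum_ext'' _ (n + 1) p (by have := hp.out.two_le; omega)]
    · refine sum_congr rfl fun k hk => ?_
      have hk' := mem_range.mp hk
      congr 1
      symm
      refine sum_ext'' _ (k + 1) (n + 1) (by omega) fun i hi _ => ?_
      rw [tau_out (by omega)]; simp
    · intro k hk hk'
      have hd : p ∣ k.centralBinom := by
        rw [Nat.centralBinom_eq_two_mul_choose]
        have hpk : p ≤ 2 * k := by omega
        have := (Nat.Prime.dvd_choose hp.out (show k < p from hk') (show 2 * k - k < p by omega) hpk)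
        exact this
      have h0 : ((k.centralBinom : ℕ) : A) ^ 2 = 0 := by
        rw [← Nat.cast_pow]
        exact cast_dvd_zero hp2 (pow_dvd_pow_of_dvd hd 2)
      rw [h0]; ring
  rw [e1]
  unfold aT NN
  simp only [mul_sum, sum_mul, Int.cast_sum]
  rw [sum_comm]
  refine sum_congr rfl fun i _ => sum_congr rfl fun k hk => ?_
  have hk' := mem_range.mp hk
  have e : h ^ (8 * n) * 256 ^ (n - k) = h ^ (8 * k) := by
    have e0 : h ^ (8 * n) = h ^ (8 * k) * h ^ (8 * (n - k)) := by rw [← pow_add]; congr 1; omega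
    rw [e0, pow_mul h 8 (n - k), mul_assoc, ← mul_pow, show h ^ 8 * 256 = 1 by linear_combination (1 + 2 * h + 4 * h ^ 2 + 8 * h ^ 3 + 16 * h ^ 4 + 32 * h ^ 5 + 64 * h ^ 6 + 128 * h ^ 7) * hh, one_pow, mul_one]
  push_cast
  rw [← e]
  ring

theorem Cp_eval {s M : A} (hM : M * s = (1 + 8 * s) ^ 2) (a : ℕ → A) :
    (Cp a n).eval s = s ^ n * ∑ i ∈ range (n + 1), a i * M ^ i := by
  unfold Cp
  rw [eval_finsetSum, mul_sum]
  refine sum_congr rfl fun i hi => ?_
  have hi' := mem_range.mp hi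
  simp only [eval_mul, eval_pow, eval_add, eval_one, eval_C, eval_X]
  have e : s ^ n = s ^ (n - i) * s ^ i := by rw [← pow_add]; congr 1; omega
  rw [pow_mul, ← hM, mul_pow, e]
  ring

theorem exists_f (hn : p = 2 * n + 1) {h : A} (hh : 2 * h = 1) : ∃ f : A, h ^ (p - 1) = 1 + p * f := by
  have h1 : ∃ q : ℤ, (2 : ℤ) ^ (p - 1) - 1 = p * q := by
    have hc : IsCoprime (2 : ℤ) (p : ℤ) := ⟨-n, 1, by rw [hn]; push_cast; ring⟩
    have := Int.ModEq.pow_card_sub_one_eq_one hp.out hc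
    obtain ⟨q, hq⟩ := this.symm.dvd
    exact ⟨q, hq⟩
  obtain ⟨q, hq⟩ := h1
  have h2 := congrArg (Int.cast : ℤ → A) hq
  push_cast at h2
  have e : (2 : A) ^ (p - 1) * h ^ (p - 1) = 1 := by rw [← mul_pow, hh, one_pow]
  exact ⟨-q * h ^ (p - 1), by linear_combination e - h ^ (p - 1) * h2⟩

theorem gz_top' (hn : p = 2 * n + 1) (hp2 : (p : A) ^ 2 = 0) (hp3 : 3 < p) : (gz (2 * n) : A) = 64 ^ (2 * n) := by
  have h1 := int_dvd_zero (R := A) hp2 (gz_top hn hp3)
  have h2 := int_dvd_zero (R := A) hp2 (morley2 hn hp3)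
  push_cast at h1 h2
  have e : (64 : A) ^ (2 * n) = 16 ^ n * 256 ^ n := by rw [pow_mul, ← mul_pow]; norm_num
  rw [e]
  linear_combination h1 + 16 ^ n * h2

/-- the relation in terms of the sum -/
theorem relT (hn : p = 2 * n + 1) (hp2 : (p : A) ^ 2 = 0) (hp3 : 3 < p) {h M : A} (hh : 2 * h = 1) {s i4 i16 : A}
    (hM : M * s = (1 + 8 * s) ^ 2) (h4 : (1 + 4 * s) * i4 = 1) (h16 : (1 + 16 * s) * i16 = 1) :
    (16 * s ^ p - 1) * (i4 * (1 + 4 * s ^ p) ^ 2 * SS p (s ^ 2 * i4 ^ 3)) +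
      (1 - 4 * s ^ p) * (i16 * (1 + 16 * s ^ p) ^ 2 * SS p (s * i16 ^ 3)) = 24 * (s ^ p * (s ^ n * TS p h M)) := by
  obtain ⟨f, hf⟩ := exists_f (A := A) hn hh
  rw [clubT hn hp2 hp3 hh hf (gz_top' hn hp2 hp3) h4 h16, Cp_eval hM, TS_eq hn hp2 hh]

/-- the power of `M` -/
theorem M_pow (hn : p = 2 * n + 1) {m χ : ℤ} (hχ : legendreSym p m = χ) : ∃ κ : A, (m : A) ^ n = χ + p * κ := by
  have h1 : ((m ^ n - χ : ℤ) : ZMod p) = 0 := by
    have := legendreSym.eq_pow p m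
    rw [hχ, show p / 2 = n by omega] at this
    push_cast
    rw [this, sub_self]
  obtain ⟨q, hq⟩ := (ZMod.intCast_zmod_eq_zero_iff_dvd _ p).mp h1
  have h2 := congrArg (Int.cast : ℤ → A) hq
  push_cast at h2
  exact ⟨q, by linear_combination h2⟩

theorem pow_sq (hn : p = 2 * n + 1) (s : A) : s * (s ^ n) ^ 2 = s ^ p := by
  rw [← pow_mul, ← pow_succ', hn]; congr 1; ring

theorem pow_M (hn : p = 2 * n + 1) {s M : A} (hM : M * s = (1 + 8 * s) ^ 2) :
    (1 + 8 * s) * (M ^ n * s ^ n) = (1 + 8 * s) ^ p := by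
  rw [← mul_pow, hM, ← pow_mul, ← pow_succ', hn]

/-- **`s` fixed by the Frobenius** -/
theorem T_same (hn : p = 2 * n + 1) (hp2 : (p : A) ^ 2 = 0) (hp3 : 3 < p) {h : A} (hh : 2 * h = 1) {m χ : ℤ}
    (hχ : legendreSym p m = χ) (hχ1 : χ ^ 2 = 1) {s δ i4 i8 i16 E : A} (hM : (m : A) * s = (1 + 8 * s) ^ 2)
    (hu : IsUnit s) (h4 : (1 + 4 * s) * i4 = 1) (h8 : (1 + 8 * s) * i8 = 1) (h16 : (1 + 16 * s) * i16 = 1)
    (hs : s ^ p = s + p * δ) (u3 : IsUnit (3 : A))
    (v1 : SS p (s ^ 2 * i4 ^ 3) = E) (v2 : SS p (s * i16 ^ 3) = E) : TS p h (m : A) = χ * E := by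
  have hr := relT hn hp2 hp3 hh hM h4 h16
  rw [v1, v2, hs] at hr
  obtain ⟨κ, hκ⟩ := M_pow (A := A) hn hχ
  obtain ⟨r, hr8⟩ := ML_dvd (p := p) 8 s
  rw [Nat.cast_ofNat] at hr8
  have hq := pow_sq hn s
  have hm := pow_M hn hM
  rw [hs] at hq hr8
  rw [hκ] at hm
  have hχ2 : (χ : A) ^ 2 = 1 := by exact_mod_cast congrArg (Int.cast : ℤ → A) hχ1
  set t := s ^ n
  set T := TS p h (m : A)
  set P : A := (p : A)
  set c : A := (χ : A)
  -- t = c + P r2
  obtain ⟨r2, hr2⟩ : ∃ r2 : A, t = c + P * r2 := by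
    refine ⟨c * (i8 * (8 * δ - r) - κ * t), ?_⟩
    have h1 : (c + P * κ) * t = 1 + P * (i8 * (8 * δ - r)) := by
      linear_combination i8 * hm - i8 * hr8 - ((c + P * κ) * t - 1) * h8
    linear_combination c * h1 - t * hχ2
  have h3 : 2 * c * s * (P * r2) = P * δ := by
    rw [hr2] at hq
    linear_combination hq - s * hχ2 - s * r2 ^ 2 * hp2
  have hu2 : IsUnit (2 : A) := IsUnit.of_mul_eq_one _ hh
  have h12 : IsUnit (12 : A) := by
    have : (12 : A) = 2 * 2 * 3 := by norm_num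
    rw [this]; exact (hu2.mul hu2).mul u3
  have h4' : c * (2 * s + 3 * P * δ) * T = (2 * s + 3 * P * δ) * E := by
    apply h12.mul_left_cancel
    rw [hr2] at hr
    have ea : i4 * (1 + 4 * (s + P * δ)) ^ 2 = (1 + 4 * s) + 8 * P * δ := by
      linear_combination ((1 + 4 * s) + 8 * P * δ) * h4 + (16 * i4 * δ ^ 2) * hp2
    have eb : i16 * (1 + 16 * (s + P * δ)) ^ 2 = (1 + 16 * s) + 32 * P * δ := by
      linear_combination ((1 + 16 * s) + 32 * P * δ) * h16 + (256 * i16 * δ ^ 2) * hp2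
    rw [ea, eb] at hr
    linear_combination (-1 : A) * hr - (12 * c * T) * h3 + (24 * s * P * r2 * T) * hχ2 - (24 * δ * r2 * T) * hp2
  have hun : IsUnit (2 * s + 3 * P * δ) := by
    have := unit_add_p (p := p) (u := 2 * s) (d := 3 * δ) hp2 (hu2.mul hu)
    have e : 2 * s + 3 * P * δ = 2 * s + P * (3 * δ) := by ring
    rw [e]; exact this
  have h5 : c * T = E := by
    apply hun.mul_left_cancel
    linear_combination h4'
  linear_combination c * h5 - T * hχ2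

/-- **`s` moved by the Frobenius** -/
theorem T_conj (hn : p = 2 * n + 1) (hp2 : (p : A) ^ 2 = 0) (hp3 : 3 < p) {h : A} (hh : 2 * h = 1) {m χ : ℤ}
    (hχ : legendreSym p m = χ) (hχ1 : χ ^ 2 = 1) {s s' δ i4 i8 i16 E : A} (hM : (m : A) * s = (1 + 8 * s) ^ 2)
    (hss : 64 * (s * s') = 1) (h4 : (1 + 4 * s) * i4 = 1) (h8 : (1 + 8 * s) * i8 = 1) (h16 : (1 + 16 * s) * i16 = 1)
    (hs : s ^ p = s' + p * δ) (u3 : IsUnit (3 : A))
    (v1 : i4 * (1 + 4 * s') * SS p (s ^ 2 * i4 ^ 3) = 8 * s' * E)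
    (v2 : i16 * (1 + 16 * s') * SS p (s * i16 ^ 3) = 8 * s' * E) : TS p h (m : A) = χ * E := by
  have hr := relT hn hp2 hp3 hh hM h4 h16
  rw [hs] at hr
  obtain ⟨κ, hκ⟩ := M_pow (A := A) hn hχ
  obtain ⟨r, hr8⟩ := ML_dvd (p := p) 8 s
  rw [Nat.cast_ofNat] at hr8
  have hq := pow_sq hn s
  have hm := pow_M hn hM
  rw [hs] at hq hr8
  rw [hκ] at hm
  have hχ2 : (χ : A) ^ 2 = 1 := by exact_mod_cast congrArg (Int.cast : ℤ → A) hχ1
  set t := s ^ n
  set T := TS p h (m : A)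
  set P : A := (p : A)
  set c : A := (χ : A)
  set S1 := SS p (s ^ 2 * i4 ^ 3)
  set S2 := SS p (s * i16 ^ 3)
  -- t = 8 c s' + P r2
  obtain ⟨r2, hr2⟩ : ∃ r2 : A, t = 8 * c * s' + P * r2 := by
    refine ⟨c * (i8 * (8 * δ - r) - κ * t), ?_⟩
    have h1 : (c + P * κ) * t = 8 * s' + P * (i8 * (8 * δ - r)) := by
      linear_combination i8 * hm - i8 * hr8 - ((c + P * κ) * t - 8 * s') * h8 - i8 * hss
    linear_combination c * h1 - t * hχ2
  have h3 : c * (P * r2) = 4 * P * δ := by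
    rw [hr2] at hq
    linear_combination 4 * hq - (4 * s' + 4 * (c ^ 2 - 1) * s' + c * P * r2) * hss - 4 * s' * hχ2 - 4 * s * r2 ^ 2 * hp2
  have hu2 : IsUnit (2 : A) := IsUnit.of_mul_eq_one _ hh
  have h12 : IsUnit (12 : A) := by
    have : (12 : A) = 2 * 2 * 3 := by norm_num
    rw [this]; exact (hu2.mul hu2).mul u3
  have us' : IsUnit s' := IsUnit.of_mul_eq_one (64 * s) (by linear_combination hss)
  have h4' : c * (8 * s') * (2 * s' + 3 * P * δ) * T = (2 * s' + 3 * P * δ) * (8 * s' * E) := by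
    apply h12.mul_left_cancel
    rw [hr2] at hr
    have ea : i4 * (1 + 4 * (s' + P * δ)) ^ 2 * S1 = ((1 + 4 * s') + 8 * P * δ) * (8 * s' * E) := by
      linear_combination ((1 + 4 * s') + 8 * P * δ) * v1 + (16 * i4 * δ ^ 2 * S1) * hp2
    have eb : i16 * (1 + 16 * (s' + P * δ)) ^ 2 * S2 = ((1 + 16 * s') + 32 * P * δ) * (8 * s' * E) := by
      linear_combination ((1 + 16 * s') + 32 * P * δ) * v2 + (256 * i16 * δ ^ 2 * S2) * hp2
    rw [ea, eb] at hr
    linear_combination (-1 : A) * hr - (24 * s' * T * c) * h3 + (24 * s' * T * (P * r2)) * hχ2 - (24 * δ * T * r2) * hp2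
  have hun : IsUnit (8 * s' * (2 * s' + 3 * P * δ)) := by
    have := unit_add_p (p := p) (u := 2 * s') (d := 3 * δ) hp2 (hu2.mul us')
    have e : 2 * s' + 3 * P * δ = 2 * s' + P * (3 * δ) := by ring
    rw [e]
    have e8 : (8 : A) = 2 * (2 * 2) := by norm_num
    rw [e8]
    exact (((hu2.mul (hu2.mul hu2)).mul us')).mul this
  have h5 : c * T = E := by
    apply hun.mul_left_cancel
    linear_combination h4'
  linear_combination c * h5 - T * hχ2

/-- **the supersingular case** -/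
theorem T_zero (hn : p = 2 * n + 1) (hp2 : (p : A) ^ 2 = 0) (hp3 : 3 < p) {h : A} (hh : 2 * h = 1) {m : A}
    {s i4 i16 : A} (hM : m * s = (1 + 8 * s) ^ 2) (hu : IsUnit s) (u3 : IsUnit (3 : A))
    (h4 : (1 + 4 * s) * i4 = 1) (h16 : (1 + 16 * s) * i16 = 1)
    (v1 : SS p (s ^ 2 * i4 ^ 3) = 0) (v2 : SS p (s * i16 ^ 3) = 0) : TS p h m = 0 := by
  have hr := relT hn hp2 hp3 hh hM h4 h16
  rw [v1, v2] at hr
  have hu2 : IsUnit (2 : A) := IsUnit.of_mul_eq_one _ hh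
  have h24 : IsUnit (24 * (s ^ p * s ^ n)) := by
    have : (24 : A) = 2 * (2 * 2) * 3 := by norm_num
    rw [this]; exact ((hu2.mul (hu2.mul hu2)).mul u3).mul ((hu.pow p).mul (hu.pow n))
  apply h24.mul_left_cancel
  linear_combination (-1 : A) * hr

end vals

end Pool.Agent.H39.TT
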