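import Pool.Agent.H39.TTE
import Pool.Agent.H578.CM.Q4n

set_option autoImplicit false
set_option linter.unusedSectionVars false
set_option maxHeartbeats 4000000

/-!
# The values of the sum in the diagonal case
-/

namespace Pool.Agent.H39.TT

open Finset Pool.Agent.H546 Pool.Agent.H547 Pool.Agent.H578.CM
open Pool.Agent.Q267.CDE (R)

section fin

variable {p : ℕ} [hp : Fact p.Prime] {m : ℤ} {w w2 w3 w6 μ ρ : WO p} {b : ℕ}

/-- from the Witt vectors to the integers modulo `p²` -/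
theorem ts_transfer {h : R p} (hh : 2 * h = 1) {E : ℤ}
    (H : ∀ h' : QO (WO p) p, 2 * h' = 1 → TS p h' ((m : ℤ) : QO (WO p) p) = ((E : ℤ) : QO (WO p) p)) :
    TS p h (m : R p) = ((E : ℤ) : R p) := by
  have := charQ (SW p) (p := p) (SW_q p)
  set th : R p →+* QO (WO p) p := ZMod.castHom (dvd_refl _) (QO (WO p) p) with hth
  have thinj : Function.Injective th := ZMod.castHom_injective _
  apply thinj
  rw [TS_map, map_intCast, map_intCast]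
  refine H _ ?_
  have := congrArg th hh
  rw [map_mul, map_one, map_ofNat] at this
  exact this

theorem odd_n (h3 : 3 < p) : ∃ n, p = 2 * n + 1 := by
  have := odd_p (p := p) h3
  exact ⟨p / 2, by omega⟩

theorem mk_M (q : Q4 m w w2 w3 w6) : ((m : ℤ) : QO (WO p) p) * mk2 (WO p) p (-(w * w3)) =
    (1 + 8 * mk2 (WO p) p (-(w * w3))) ^ 2 := by
  have h := congrArg (mk2 (WO p) p) q.em
  rw [map_pow, map_sub, map_one, map_mul, map_ofNat, map_mul (mk2 (WO p) p) (-(m : WO p)), map_neg, map_intCast] at h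
  rw [map_neg]
  linear_combination -h

theorem mk_64 (q : Q4 m w w2 w3 w6) : 64 * (mk2 (WO p) p (-(w * w3)) * mk2 (WO p) p (-(w2 * w6))) = 1 := by
  have h := congrArg (mk2 (WO p) p) (w_64 q)
  rw [map_mul, map_mul (mk2 (WO p) p) 64, map_ofNat, map_one] at h
  rw [map_neg, map_neg]
  linear_combination h

/-- the Frobenius fixing `s` -/
theorem fin_same_T (h3 : 3 < p) (q : Q4 m w w2 w3 w6) (u : U4 w w2 w3 w6) (hμ : (m : WO p) * μ = 1)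
    {h : R p} (hh : 2 * h = 1) {χ : ℤ} (hχ : legendreSym p m = χ) (hχ1 : χ ^ 2 = 1)
    (hs : (SW p).red (w * w3) ^ p = (SW p).red (w * w3)) {E : ℤ}
    (v1 : SS p (mk2 (WO p) p (-(w * w3)) ^ 2 * mk2 (WO p) p (I4w w) ^ 3) = ((E : ℤ) : QO (WO p) p))
    (v2 : SS p (mk2 (WO p) p (-(w * w3)) * mk2 (WO p) p (-4 * (w2 * w6) * I4w w2) ^ 3) =
      ((E : ℤ) : QO (WO p) p)) : TS p h (m : R p) = ((χ * E : ℤ) : R p) := by
  have hpp := mk2_p (O := WO p) (p := p)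
  obtain ⟨δ, hδ⟩ := red_lift (p := p) (x := -(w * w3)) (y := -(w * w3)) (by
    rw [map_neg, red_frob_eq, map_neg, ← red_frob_eq, hs])
  have hδ' := congrArg (mk2 (WO p) p) hδ
  rw [map_pow, map_add, map_mul, map_natCast] at hδ'
  obtain ⟨n, hn⟩ := odd_n h3
  refine ts_transfer hh fun h' hh' => ?_
  have key := T_same (p := p) hn hpp h3 hh' hχ hχ1 (mk_M q) (IsUnit.of_mul_eq_one (64 * mk2 (WO p) p (-(w2 * w6)))
    (by linear_combination mk_64 q)) (mk_I4 q u) (mk_I8 q hμ) (mk_I16 q u) hδ' (u3k h3) v1 v2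
  rw [key]; push_cast; ring

/-- the supersingular case -/
theorem fin_zero_T (h3 : 3 < p) (q : Q4 m w w2 w3 w6) (u : U4 w w2 w3 w6)
    {h : R p} (hh : 2 * h = 1)
    (v1 : SS p (mk2 (WO p) p (-(w * w3)) ^ 2 * mk2 (WO p) p (I4w w) ^ 3) = 0)
    (v2 : SS p (mk2 (WO p) p (-(w * w3)) * mk2 (WO p) p (-4 * (w2 * w6) * I4w w2) ^ 3) = 0) :
    TS p h (m : R p) = ((0 : ℤ) : R p) := by
  have hpp := mk2_p (O := WO p) (p := p)
  obtain ⟨n, hn⟩ := odd_n h3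
  refine ts_transfer hh fun h' hh' => ?_
  have key := T_zero (p := p) hn hpp h3 hh' (mk_M q) (IsUnit.of_mul_eq_one (64 * mk2 (WO p) p (-(w2 * w6)))
    (by linear_combination mk_64 q)) (u3k h3) (mk_I4 q u) (mk_I16 q u) v1 v2
  rw [key, Int.cast_zero]

/-- the Frobenius moving `s` -/
theorem fin_conj_T (h3 : 3 < p) (q : Q4 m w w2 w3 w6) (u : U4 w w2 w3 w6) (hμ : (m : WO p) * μ = 1)
    {h : R p} (hh : 2 * h = 1) {χ : ℤ} (hχ : legendreSym p m = χ) (hχ1 : χ ^ 2 = 1)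
    (hs : (SW p).red (w * w3) ^ p = (SW p).red (w2 * w6)) {E : ℤ}
    (v1 : mk2 (WO p) p (MUw w) ^ 2 * SS p (mk2 (WO p) p (-(w * w3)) ^ 2 * mk2 (WO p) p (I4w w) ^ 3) =
      ((2 * E : ℤ) : QO (WO p) p))
    (v2 : mk2 (WO p) p (MUw w2) ^ 2 *
      SS p (mk2 (WO p) p (-(w * w3)) * mk2 (WO p) p (-4 * (w2 * w6) * I4w w2) ^ 3) =
      ((2 * E : ℤ) : QO (WO p) p)) : TS p h (m : R p) = ((χ * E : ℤ) : R p) := by
  have hpp := mk2_p (O := WO p) (p := p)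
  obtain ⟨δ, hδ⟩ := red_lift (p := p) (x := -(w * w3)) (y := -(w2 * w6)) (by
    rw [map_neg, red_frob_eq, map_neg, ← red_frob_eq, hs, map_neg])
  have hδ' := congrArg (mk2 (WO p) p) hδ
  rw [map_pow, map_add, map_mul, map_natCast] at hδ'
  have r1 := congrArg (mk2 (WO p) p) (w_r1 q hμ)
  have r2 := congrArg (mk2 (WO p) p) (w_r2 q hμ)
  have e8 : ∀ x : WO p, mk2 (WO p) p (1 - 8 * x) = 1 + 8 * mk2 (WO p) p (-x) := by
    intro x; rw [map_sub, map_one, map_mul, map_ofNat, map_neg]; ring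
  have e4 : ∀ x : WO p, mk2 (WO p) p (1 - 4 * x) = 1 + 4 * mk2 (WO p) p (-x) := by
    intro x; rw [map_sub, map_one, map_mul, map_ofNat, map_neg]; ring
  have e16 : ∀ x : WO p, mk2 (WO p) p (1 - 16 * x) = 1 + 16 * mk2 (WO p) p (-x) := by
    intro x; rw [map_sub, map_one, map_mul, map_ofNat, map_neg]; ring
  rw [map_mul, map_mul (mk2 (WO p) p) (I4w w), e4, map_mul (mk2 (WO p) p) (I8w μ w w2 w3 w6 * _), map_mul _ _ (1 - 8 * _), e8,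
    map_pow, map_ofNat] at r1
  rw [map_mul, map_mul (mk2 (WO p) p) (-4 * (w2 * w6) * I4w w2), e16, map_mul (mk2 (WO p) p) (I8w μ w w2 w3 w6 * _), map_mul _ _ (1 - 8 * _), e8,
    map_pow, map_ofNat] at r2
  have hM := mk_M (p := p) q
  have h64 := mk_64 (p := p) q
  have h4 := mk_I4 (p := p) q u
  have h16 := mk_I16 (p := p) q u
  have h8 : (1 + 8 * mk2 (WO p) p (-(w * w3))) * mk2 (WO p) p (I8w μ w w2 w3 w6) = 1 := mk_I8 q hμ
  set s' := mk2 (WO p) p (-(w2 * w6))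
  set s := mk2 (WO p) p (-(w * w3))
  set i8 := mk2 (WO p) p (I8w μ w w2 w3 w6)
  set i4 := mk2 (WO p) p (I4w w)
  set i16 := mk2 (WO p) p (-4 * (w2 * w6) * I4w w2)
  set μ1 := mk2 (WO p) p (MUw w)
  set μ2 := mk2 (WO p) p (MUw w2)
  have e8' : i8 * (1 + 8 * s') = 8 * s' := by
    linear_combination 8 * s' * h8 - i8 * h64
  push_cast at v1 v2
  obtain ⟨n, hn⟩ := odd_n h3
  refine ts_transfer hh fun h' hh' => ?_
  have key := T_conj (p := p) hn hpp h3 hh' hχ hχ1 hM h64 h4 h8 h16 hδ' (u3k h3) (E := (E : QO (WO p) p)) (by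
      apply (u2k (p := p) h3).mul_left_cancel
      linear_combination (SS p (s ^ 2 * i4 ^ 3)) * r1 + (i8 * (1 + 8 * s')) * v1 + 2 * (E : QO (WO p) p) * e8') (by
      apply (u2k (p := p) h3).mul_left_cancel
      linear_combination (SS p (s * i16 ^ 3)) * r2 + (i8 * (1 + 8 * s')) * v2 + 2 * (E : QO (WO p) p) * e8')
  rw [key]; push_cast; ring

theorem t67_1 (h3 : 3 < p) (q : Q4 m w w2 w3 w6) (u : U4 w w2 w3 w6) (B : BW b w w6) (B2 : BW b w2 w3)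
    (hρ : ρ ^ 2 = -3) (hμ : (m : WO p) * μ = 1)
    {h : R p} (hh : 2 * h = 1) {χ : ℤ} (hχ : legendreSym p m = χ) (hχ1 : χ ^ 2 = 1)
    (hF : (SW p).red w ^ p = (SW p).red w)
    (hb : ¬ (p : ℤ) ∣ (6 * b)) (hbig : 16 * (6 * b) < p ^ 2) {x y : ℤ} (hxy : (p : ℤ) = x ^ 2 + 6 * b * y ^ 2) :
    TS p h (m : R p) = ((χ * (4 * x ^ 2 - 2 * p) : ℤ) : R p) := by
  have v1 := ev1 h3 q u B hρ hF (mk_Y q u) hb hbig hxy
  have v2 := ev1 h3 q.t2 u.t2 B2 hρ (frob_2 hF q q) (mk_Y2 q u) hb hbig hxy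
  rw [cast_4] at v1 v2
  refine fin_same_T h3 q u hμ hh hχ hχ1 ?_ v1 v2
  rw [map_mul, mul_pow, hF, frob_3 (u3_of h3) hF q q]

theorem t67_3 (h3 : 3 < p) (q : Q4 m w w2 w3 w6) (u : U4 w w2 w3 w6) (B : BW b w w6) (B2 : BW b w2 w3)
    (hρ : ρ ^ 2 = -3) (hμ : (m : WO p) * μ = 1)
    {h : R p} (hh : 2 * h = 1) {χ : ℤ} (hχ : legendreSym p m = χ) (hχ1 : χ ^ 2 = 1)
    (hF : (SW p).red w ^ p = (SW p).red w3)
    (hb : ¬ (p : ℤ) ∣ (6 * b)) (hbig : 16 * (6 * b) < p ^ 2) {x y : ℤ}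
    (hxy : (p : ℤ) = 3 * x ^ 2 + 2 * b * y ^ 2) :
    TS p h (m : R p) = ((χ * (2 * p - 12 * x ^ 2) : ℤ) : R p) := by
  have v1 := ev3 h3 q u B hρ hF (mk_Y q u) hb hbig hxy
  have v2 := ev3 h3 q.t2 u.t2 B2 hρ (frob_2 hF q q.t3) (mk_Y2 q u) hb hbig hxy
  rw [cast_12] at v1 v2
  refine fin_same_T h3 q u hμ hh hχ hχ1 ?_ v1 v2
  rw [map_mul, mul_pow, hF, frob_3 (u3_of h3) hF q q.t3, mul_comm]

theorem t67_2 (h3 : 3 < p) (q : Q4 m w w2 w3 w6) (u : U4 w w2 w3 w6) (B : BW b w w6) (B2 : BW b w2 w3)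
    (hρ : ρ ^ 2 = -3) (hμ : (m : WO p) * μ = 1)
    {h : R p} (hh : 2 * h = 1) {χ : ℤ} (hχ : legendreSym p m = χ) (hχ1 : χ ^ 2 = 1)
    (hF : (SW p).red w ^ p = (SW p).red w2)
    (hb : ¬ (p : ℤ) ∣ (6 * b)) (hbig : 16 * (6 * b) < p ^ 2) {x y : ℤ}
    (hxy : (p : ℤ) = 2 * x ^ 2 + 3 * b * y ^ 2) :
    TS p h (m : R p) = ((χ * (8 * x ^ 2 - 2 * p) : ℤ) : R p) := by
  have v1 := ev2 h3 q u B hρ hF (mk_Y q u) hb hbig hxy
  have v2 := ev2 h3 q.t2 u.t2 B2 hρ (frob_2 hF q q.t2) (mk_Y2 q u) hb hbig hxy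
  rw [cast_8] at v1 v2
  refine fin_conj_T h3 q u hμ hh hχ hχ1 ?_ v1 v2
  rw [map_mul, mul_pow, hF, frob_3 (u3_of h3) hF q q.t2, ← map_mul]

theorem t67_6 (h3 : 3 < p) (q : Q4 m w w2 w3 w6) (u : U4 w w2 w3 w6) (B : BW b w w6) (B2 : BW b w2 w3)
    (hρ : ρ ^ 2 = -3) (hμ : (m : WO p) * μ = 1)
    {h : R p} (hh : 2 * h = 1) {χ : ℤ} (hχ : legendreSym p m = χ) (hχ1 : χ ^ 2 = 1)
    (hF : (SW p).red w ^ p = (SW p).red w6)
    (hb : ¬ (p : ℤ) ∣ (6 * b)) (hbig : 16 * (6 * b) < p ^ 2) {x y : ℤ}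
    (hxy : (p : ℤ) = 6 * x ^ 2 + b * y ^ 2) :
    TS p h (m : R p) = ((χ * (2 * p - 24 * x ^ 2) : ℤ) : R p) := by
  have v1 := ev6 h3 q u B hρ hF (mk_Y q u) hb hbig hxy
  have v2 := ev6 h3 q.t2 u.t2 B2 hρ (frob_2 hF q q.t6) (mk_Y2 q u) hb hbig hxy
  rw [cast_24] at v1 v2
  refine fin_conj_T h3 q u hμ hh hχ hχ1 ?_ v1 v2
  rw [map_mul, mul_pow, hF, frob_3 (u3_of h3) hF q q.t6, ← map_mul, mul_comm]

/-- vanishing, the diagonal case -/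
theorem t67_0 (h3 : 3 < p) (q : Q4 m w w2 w3 w6) (u : U4 w w2 w3 w6)
    (B : ∃ M : WO p, 2 * M ^ 2 = b * MUw w ^ 2 ∧ DW (SW p) w w6 M b)
    (B2 : ∃ M : WO p, 2 * M ^ 2 = b * MUw w2 ^ 2 ∧ DW (SW p) w2 w3 M b)
    (hρ : ρ ^ 2 = -3) {h : R p} (hh : 2 * h = 1)
    (hl : legendreSym p (-(6 * b)) = -1) : TS p h (m : R p) = ((0 : ℤ) : R p) := by
  have key : ∀ {w w2 w3 w6 : WO p} (_ : Q4 m w w2 w3 w6) (_ : U4 w w2 w3 w6)
      (_ : ∃ M : WO p, 2 * M ^ 2 = b * MUw w ^ 2 ∧ DW (SW p) w w6 M b) {Y : QO (WO p) p}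
      (_ : mk2 (WO p) p (Zw w * (1 - Zw w)) = 27 * Y), SS p Y = 0 := by
    intro w w2 w3 w6 q u B Y hY
    obtain ⟨M, hM, d⟩ := B
    have d2 := ((d.two (SW p) q.t6 ⟨u.u6, u.u3, u.u2, u.u⟩ (k2_of h3) (k3_of h3)).three (SW p) q.t3 u.t3
      (k2_of h3) (k3_of h3) hρ)
    have hmm := mm_eq h3 q u hM
    refine zero_w h3 q u d2 (d := -(6 * b)) ?_ hl hY
    push_cast
    linear_combination ρ ^ 2 * hmm + 2 * b * hρ
  exact fin_zero_T h3 q u hh (key q u B (mk_Y q u)) (key q.t2 u.t2 B2 (mk_Y2 q u))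

end fin

end Pool.Agent.H39.TT
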