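import Pool.Agent.H39.TTF

set_option autoImplicit false
set_option linter.unusedSectionVars false
set_option maxHeartbeats 4000000

/-!
# From the sum over `M = b² - 4` to the sum of the coefficients
-/

namespace Pool.Agent.H39.TT

open Finset Pool.Agent.H546 Pool.Agent.H547 Pool.Agent.H578.CM
open Pool.Agent.Q267.CDE (R)

/-- `T_{2k}(b,1)` -/
def T2 (b : ℤ) (k : ℕ) : ℤ := ∑ j ∈ range (k + 1), ((2 * k).choose (2 * j) : ℤ) * ((2 * j).choose j : ℤ) * b ^ (2 * k - 2 * j)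

/-- `256^(p-1)` times the sum -/
def NS (b : ℤ) (p : ℕ) : ℤ := ∑ k ∈ range p, ((2 * k).choose k : ℤ) ^ 2 * T2 b k * 256 ^ (p - 1 - k)

theorem T2_tau (b : ℤ) (k : ℕ) : T2 b k = ∑ i ∈ range (k + 1), (tau k i : ℤ) * (b ^ 2 - 4) ^ i := by
  have e1 : ∀ i ∈ range (k + 1), (tau k i : ℤ) * (b ^ 2 - 4) ^ i = ∑ j ∈ range (k + 1),
      ((2 * k).choose (2 * j) : ℤ) * ((2 * j).choose j : ℤ) * ((k - j).choose i * (b ^ 2 - 4) ^ i * 4 ^ (k - j - i)) := by
    intro i hi
    have hi' := mem_range.mp hi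
    unfold tau
    push_cast
    rw [sum_mul]
    rw [sum_ext'' (fun j => ((2 * k).choose (2 * j) : ℤ) * ((2 * j).choose j : ℤ) *
      ((k - j).choose i * (b ^ 2 - 4) ^ i * 4 ^ (k - j - i))) (k - i + 1) (k + 1) (by omega)]
    · refine sum_congr rfl fun j _ => ?_
      rw [Nat.centralBinom_eq_two_mul_choose]
      ring
    · intro j hj _
      rw [Nat.choose_eq_zero_of_lt (show k - j < i by omega)]
      push_cast; ring
  rw [sum_congr rfl e1, sum_comm]
  unfold T2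
  refine sum_congr rfl fun j hj => ?_
  have hj' := mem_range.mp hj
  rw [← mul_sum]
  congr 1
  have e2 : b ^ (2 * k - 2 * j) = ((b ^ 2 - 4) + 4) ^ (k - j) := by
    rw [sub_add_cancel, ← pow_mul]; congr 1; omega
  rw [e2, add_pow]
  rw [sum_ext'' (fun i => ((k - j).choose i : ℤ) * (b ^ 2 - 4) ^ i * 4 ^ (k - j - i)) (k - j + 1) (k + 1) (by omega)]
  · refine sum_congr rfl fun i _ => ?_
    ring
  · intro i hi _
    rw [Nat.choose_eq_zero_of_lt (show k - j < i by omega)]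
    push_cast; ring

section tr

variable {p : ℕ} [hp : Fact p.Prime]

theorem TS_NS {h : R p} (hh : 2 * h = 1) (b : ℤ) : (256 : R p) ^ (p - 1) * TS p h ((b ^ 2 - 4 : ℤ) : R p) = ((NS b p : ℤ) : R p) := by
  unfold TS NS
  rw [mul_sum, Int.cast_sum]
  refine sum_congr rfl fun k hk => ?_
  have hk' := mem_range.mp hk
  rw [T2_tau]
  have e : (256 : R p) ^ (p - 1) * h ^ (8 * k) = 256 ^ (p - 1 - k) := by
    have e0 : (256 : R p) ^ (p - 1) = 256 ^ (p - 1 - k) * 256 ^ k := by rw [← pow_add]; congr 1; omega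
    rw [e0, pow_mul h 8 k, mul_assoc, ← mul_pow, show (256 : R p) * h ^ 8 = 1 by linear_combination (1 + 2 * h + 4 * h ^ 2 + 8 * h ^ 3 + 16 * h ^ 4 + 32 * h ^ 5 + 64 * h ^ 6 + 128 * h ^ 7) * hh, one_pow, mul_one]
  rw [Nat.centralBinom_eq_two_mul_choose]
  push_cast
  rw [← e]
  ring

/-- the divisibility in the integers -/
theorem dvd_of_TS (h3 : 3 < p) {b E : ℤ}
    (H : ∀ h : R p, 2 * h = 1 → TS p h ((b ^ 2 - 4 : ℤ) : R p) = ((E : ℤ) : R p)) :
    (p : ℤ) ^ 2 ∣ NS b p - 256 ^ (p - 1) * E := by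
  obtain ⟨n, hn⟩ := odd_n h3
  have hp2 : ((p : ℕ) : R p) ^ 2 = 0 := by
    have := ZMod.natCast_self (p ^ 2)
    push_cast at this
    exact this
  have hh : 2 * (-(2 * (n : R p) ^ 2 + 2 * n)) = 1 := by
    have : ((p : ℕ) : R p) = 2 * n + 1 := by
      have := congrArg (Nat.cast : ℕ → R p) hn
      push_cast at this; exact this
    rw [this] at hp2
    linear_combination -hp2
  have h1 := TS_NS hh b
  rw [H _ hh] at h1
  have h2 : ((NS b p - 256 ^ (p - 1) * E : ℤ) : R p) = 0 := by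
    push_cast
    linear_combination -h1
  have := (ZMod.intCast_zmod_eq_zero_iff_dvd _ (p ^ 2)).mp h2
  exact_mod_cast this

end tr

end Pool.Agent.H39.TT
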