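import Pool.Agent.H39.TTG
import Pool.Agent.H578.CM.D.E7f

set_option autoImplicit false
set_option linter.unusedSectionVars false
set_option linter.unusedVariables false
set_option linter.unusedTactic false
set_option linter.unreachableTactic false
set_option maxHeartbeats 4000000
set_option maxRecDepth 100000

/-!
# The sum for `b = 30`
-/

namespace Pool.Agent.H39.TT.F7

open Finset Pool.Agent.H546 Pool.Agent.H547 Pool.Agent.H578.CM Pool.Agent.H578.CM.E7
open Pool.Agent.Q267.CDE (R)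

section fin

variable {p : ℕ} [hp : Fact p.Prime]

theorem leg896 (h3 : 3 < p) : legendreSym p ((30 : ℤ) ^ 2 - 4) = legendreSym p 14 := by
  have e : ((30 : ℤ) ^ 2 - 4) = 8 ^ 2 * 14 := by norm_num
  rw [e, leg_mul]
  have h8 : legendreSym p (8 ^ 2) = 1 := by
    refine legendreSym.sq_one' p ?_
    intro h0
    have h1 : ((8 : ℤ) : ZMod p) = 0 := by exact_mod_cast h0
    have h2 := (ZMod.intCast_zmod_eq_zero_iff_dvd _ p).mp h1
    have h4 : (p : ℤ) ∣ ((2 : ℕ) : ℤ) ^ 3 := by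
      have e8 : (((2 : ℕ) : ℤ) ^ 3) = 8 := by norm_num
      rw [e8]; exact h2
    exact nep 2 (by norm_num) (by omega) ((Nat.prime_iff_prime_int.mp hp.out).dvd_of_dvd_pow h4)
  rw [h8, one_mul]

theorem hpm (h3 : 3 < p) (hpb : p ≠ 7) : ¬ (p : ℤ) ∣ 896 := by
  intro h
  have e : (896 : ℤ) = ((2 : ℕ) : ℤ) ^ 7 * ((7 : ℕ) : ℤ) := by norm_num
  rw [e] at h
  have hpp := Nat.prime_iff_prime_int.mp hp.out
  rcases hpp.dvd_or_dvd h with h1 | h1
  · exact nep 2 (by norm_num) (by omega) (hpp.dvd_of_dvd_pow h1)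
  · exact nep 7 (by norm_num) hpb h1

theorem big1 (h3 : 3 < p) (hpb : p ≠ 7) (hP : 26 ≤ p) {x y : ℤ} (h : (p : ℤ) = x ^ 2 + 6 * 7 * y ^ 2) :
    (p : ℤ) ^ 2 ∣ NS 30 p - 256 ^ (p - 1) * (4 * x ^ 2 - 2 * p) := by
  refine dvd_of_TS h3 fun t ht => ?_
  have hne := hneOf h3 hpb (hpm h3 hpb) (by omega)
  have hl : legendreSym p (-(6 * 7)) = 1 := by
    have := leg_disc' (p := p) (n := 1) (l1 := 1) (l2 := 42) (x := x) (y := y) (by rw [h]; ring)
      (fun hd => n6b h3 hpb (hd.trans (by norm_num))) (fun hd => n6b h3 hpb (hd.trans (by norm_num))) nd_one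
    norm_num at this ⊢
    exact this
  have hno := ord hl
  obtain ⟨v, g, k, ρ, μ, hv, hg, hk, hρ, hμ⟩ := data h3 hne
  have F : (SW p).red (W v g k) ^ p = (SW p).red (W v g k) :=
    frob_Wq (n := 1500) (by push_cast; exact hv)
      (frob_p (p := p) (by omega) (g := g) (d := 6) (by push_cast; exact hg) (c1_A h3 hpb h))
      (frob_p (p := p) (by omega) (g := k) (d := 14) (by push_cast; exact hk) (c1_B h3 hpb h)) _ _ _ _
  have key := t67_1 h3 (q4 hv hg hk) (u4 h3 hne hv hg hk) (bw h3 hne hno hv hg hk) (bw2 h3 hne hno hv hg hk) hρ hμ ht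
    (χ := 1) (by have := leg896 (p := p) h3; norm_num at this ⊢; rw [this]; exact c1_B h3 hpb h) (by norm_num)
    F (by push_cast; exact n6b h3 hpb) (by nlinarith) (x := x) (y := y) (by push_cast; exact h)
  have e : ((30 : ℤ) ^ 2 - 4) = 896 := by norm_num
  rw [e, key]
  congr 1; ring

theorem big2 (h3 : 3 < p) (hpb : p ≠ 7) (hP : 26 ≤ p) {x y : ℤ} (h : (p : ℤ) = 2 * x ^ 2 + 3 * 7 * y ^ 2) :
    (p : ℤ) ^ 2 ∣ NS 30 p - 256 ^ (p - 1) * (2 * p - 8 * x ^ 2) := by
  refine dvd_of_TS h3 fun t ht => ?_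
  have hne := hneOf h3 hpb (hpm h3 hpb) (by omega)
  have hl : legendreSym p (-(6 * 7)) = 1 := by
    have := leg_disc' (p := p) (n := 1) (l1 := 2) (l2 := 21) (x := x) (y := y) (by rw [h]; ring)
      (fun hd => n6b h3 hpb (hd.trans (by norm_num))) (fun hd => n6b h3 hpb (hd.trans (by norm_num))) nd_one
    norm_num at this ⊢
    exact this
  have hno := ord hl
  obtain ⟨v, g, k, ρ, μ, hv, hg, hk, hρ, hμ⟩ := data h3 hne
  have F : (SW p).red (W v g k) ^ p = (SW p).red (W v g (-k)) :=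
    frob_Wq (n := 1500) (by push_cast; exact hv)
      (frob_p (p := p) (by omega) (g := g) (d := 6) (by push_cast; exact hg) (c2_A h3 hpb h))
      (frob_m (p := p) (by omega) (g := k) (d := 14) (by push_cast; exact hk) (c2_B h3 hpb h)) _ _ _ _
  have key := t67_2 h3 (q4 hv hg hk) (u4 h3 hne hv hg hk) (bw h3 hne hno hv hg hk) (bw2 h3 hne hno hv hg hk) hρ hμ ht
    (χ := -1) (by have := leg896 (p := p) h3; norm_num at this ⊢; rw [this]; exact c2_B h3 hpb h) (by norm_num)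
    F (by push_cast; exact n6b h3 hpb) (by nlinarith) (x := x) (y := y) (by push_cast; exact h)
  have e : ((30 : ℤ) ^ 2 - 4) = 896 := by norm_num
  rw [e, key]
  congr 1; ring

theorem big3 (h3 : 3 < p) (hpb : p ≠ 7) (hP : 26 ≤ p) {x y : ℤ} (h : (p : ℤ) = 3 * x ^ 2 + 2 * 7 * y ^ 2) :
    (p : ℤ) ^ 2 ∣ NS 30 p - 256 ^ (p - 1) * (12 * x ^ 2 - 2 * p) := by
  refine dvd_of_TS h3 fun t ht => ?_
  have hne := hneOf h3 hpb (hpm h3 hpb) (by omega)
  have hl : legendreSym p (-(6 * 7)) = 1 := by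
    have := leg_disc' (p := p) (n := 1) (l1 := 3) (l2 := 14) (x := x) (y := y) (by rw [h]; ring)
      (fun hd => n6b h3 hpb (hd.trans (by norm_num))) (fun hd => n6b h3 hpb (hd.trans (by norm_num))) nd_one
    norm_num at this ⊢
    exact this
  have hno := ord hl
  obtain ⟨v, g, k, ρ, μ, hv, hg, hk, hρ, hμ⟩ := data h3 hne
  have F : (SW p).red (W v g k) ^ p = (SW p).red (W v (-g) (-k)) :=
    frob_Wq (n := 1500) (by push_cast; exact hv)
      (frob_m (p := p) (by omega) (g := g) (d := 6) (by push_cast; exact hg) (c3_A h3 hpb h))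
      (frob_m (p := p) (by omega) (g := k) (d := 14) (by push_cast; exact hk) (c3_B h3 hpb h)) _ _ _ _
  have key := t67_3 h3 (q4 hv hg hk) (u4 h3 hne hv hg hk) (bw h3 hne hno hv hg hk) (bw2 h3 hne hno hv hg hk) hρ hμ ht
    (χ := -1) (by have := leg896 (p := p) h3; norm_num at this ⊢; rw [this]; exact c3_B h3 hpb h) (by norm_num)
    F (by push_cast; exact n6b h3 hpb) (by nlinarith) (x := x) (y := y) (by push_cast; exact h)
  have e : ((30 : ℤ) ^ 2 - 4) = 896 := by norm_num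
  rw [e, key]
  congr 1; ring

theorem big6 (h3 : 3 < p) (hpb : p ≠ 7) (hP : 26 ≤ p) {x y : ℤ} (h : (p : ℤ) = 6 * x ^ 2 + 7 * y ^ 2) :
    (p : ℤ) ^ 2 ∣ NS 30 p - 256 ^ (p - 1) * (2 * p - 24 * x ^ 2) := by
  refine dvd_of_TS h3 fun t ht => ?_
  have hne := hneOf h3 hpb (hpm h3 hpb) (by omega)
  have hl : legendreSym p (-(6 * 7)) = 1 := by
    have := leg_disc' (p := p) (n := 1) (l1 := 6) (l2 := 7) (x := x) (y := y) (by rw [h]; ring)
      (fun hd => n6b h3 hpb (hd.trans (by norm_num))) (fun hd => n6b h3 hpb (hd.trans (by norm_num))) nd_one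
    norm_num at this ⊢
    exact this
  have hno := ord hl
  obtain ⟨v, g, k, ρ, μ, hv, hg, hk, hρ, hμ⟩ := data h3 hne
  have F : (SW p).red (W v g k) ^ p = (SW p).red (W v (-g) k) :=
    frob_Wq (n := 1500) (by push_cast; exact hv)
      (frob_m (p := p) (by omega) (g := g) (d := 6) (by push_cast; exact hg) (c6_A h3 hpb h))
      (frob_p (p := p) (by omega) (g := k) (d := 14) (by push_cast; exact hk) (c6_B h3 hpb h)) _ _ _ _
  have key := t67_6 h3 (q4 hv hg hk) (u4 h3 hne hv hg hk) (bw h3 hne hno hv hg hk) (bw2 h3 hne hno hv hg hk) hρ hμ ht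
    (χ := 1) (by have := leg896 (p := p) h3; norm_num at this ⊢; rw [this]; exact c6_B h3 hpb h) (by norm_num)
    F (by push_cast; exact n6b h3 hpb) (by nlinarith) (x := x) (y := y) (by push_cast; exact h)
  have e : ((30 : ℤ) ^ 2 - 4) = 896 := by norm_num
  rw [e, key]
  congr 1; ring

theorem bigz (h3 : 3 < p) (hpb : p ≠ 7) (hs5 : p ≠ 5) (hl : legendreSym p (-(6 * 7)) = -1) :
    (p : ℤ) ^ 2 ∣ NS 30 p - 256 ^ (p - 1) * 0 := by
  refine dvd_of_TS h3 fun t ht => ?_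
  have hne := hneOf h3 hpb (hpm h3 hpb) hs5
  obtain ⟨v, g, k, ρ, μ, hv, hg, hk, hρ, hμ⟩ := data h3 hne
  have key := t67_0 (b := 7) h3 (q4 hv hg hk) (u4 h3 hne hv hg hk) (iso h3 hne hv hg hk) (iso2 h3 hne hv hg hk) hρ ht
    (by push_cast; exact hl)
  have e : ((30 : ℤ) ^ 2 - 4) = 896 := by norm_num
  rw [e]
  exact key

end fin

end Pool.Agent.H39.TT.F7
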