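import Pool.Agent.H39.TTH5
import Pool.Agent.H39.TTH7
import Pool.Agent.H39.Fin9

set_option autoImplicit false
set_option linter.unusedSectionVars false
set_option maxHeartbeats 4000000
set_option maxRecDepth 100000

/-!
# Small primes and the rational sums
-/

namespace Pool.Agent.H39.TT

open Finset Pool.Agent.H546 Pool.Agent.H547 Pool.Agent.H578.CM
open Pool.Agent.Q267.CDE (R)

def T2q (b : ℤ) (k : ℕ) : ℤ := sZ (fun j => Int.mul (Int.ofNat (Nat.mul (chq (Nat.mul 2 k) (Nat.mul 2 j)) (chq (Nat.mul 2 j) j)))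
  (b ^ (Nat.sub (Nat.mul 2 k) (Nat.mul 2 j)))) (Nat.succ k)

def NSq (b : ℤ) (p : ℕ) : ℤ := sZ (fun k => Int.mul (Int.mul (Int.ofNat (Nat.pow (chq (Nat.mul 2 k) k) 2)) (T2q b k)) (256 ^ (p - 1 - k))) p

theorem T2q_eq (b : ℤ) (k : ℕ) : T2q b k = T2 b k := by
  unfold T2q T2
  rw [sZ_eq]
  refine sum_congr rfl fun j hj => ?_
  have hj' := mem_range.mp hj
  rw [chq_eq (show Nat.mul 2 j ≤ Nat.mul 2 k by show 2 * j ≤ 2 * k; omega), chq_eq (show j ≤ Nat.mul 2 j by show j ≤ 2 * j; omega)]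
  show ((((2 * k).choose (2 * j) * (2 * j).choose j : ℕ) : ℤ)) * b ^ (2 * k - 2 * j) = _
  push_cast
  ring

theorem NSq_eq (b : ℤ) (p : ℕ) : NSq b p = NS b p := by
  unfold NSq NS
  rw [sZ_eq]
  refine sum_congr rfl fun k _ => ?_
  rw [chq_eq (show k ≤ Nat.mul 2 k by show k ≤ 2 * k; omega), T2q_eq]
  show ((((2 * k).choose k ^ 2 : ℕ) : ℤ)) * T2 b k * 256 ^ (p - 1 - k) = _
  push_cast
  ring

def chkN (b : ℤ) (p : ℕ) (E : ℤ) : Bool := T8.iz ((NSq b p - 256 ^ (p - 1) * E) % ((p : ℤ) ^ 2))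

theorem N_direct {b : ℤ} {p : ℕ} (E : ℤ) (h : chkN b p E = true) : (p : ℤ) ^ 2 ∣ NS b p - 256 ^ (p - 1) * E := by
  have h1 := T8.iz_eq h
  rw [NSq_eq] at h1
  exact Int.dvd_of_emod_eq_zero h1

theorem s18_11 : ((11 : ℕ) : ℤ) ^ 2 ∣ NS 18 11 - 256 ^ (11 - 1) * (-2) := N_direct _ (by decide +kernel)
theorem s18_13 : ((13 : ℕ) : ℤ) ^ 2 ∣ NS 18 13 - 256 ^ (13 - 1) * (-14) := N_direct _ (by decide +kernel)
theorem s18_17 : ((17 : ℕ) : ℤ) ^ 2 ∣ NS 18 17 - 256 ^ (17 - 1) * 26 := N_direct _ (by decide +kernel)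
theorem s30_13 : ((13 : ℕ) : ℤ) ^ 2 ∣ NS 30 13 - 256 ^ (13 - 1) * 2 := N_direct _ (by decide +kernel)
theorem s30_17 : ((17 : ℕ) : ℤ) ^ 2 ∣ NS 30 17 - 256 ^ (17 - 1) * (-22) := N_direct _ (by decide +kernel)
theorem s30_23 : ((23 : ℕ) : ℤ) ^ 2 ∣ NS 30 23 - 256 ^ (23 - 1) * 38 := N_direct _ (by decide +kernel)
theorem s30_5 : ((5 : ℕ) : ℤ) ^ 2 ∣ NS 30 5 - 256 ^ (5 - 1) * 0 := N_direct _ (by decide +kernel)

end Pool.Agent.H39.TT
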