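import Pool.Agent.H39.CoreV

set_option autoImplicit false

/-!
# The second sum at the CM point of discriminant `-100`
-/

namespace Pool.Agent.H39

open Polynomial Finset
open Pool.Agent.H546

variable {O K k : Type*} [CommRing O] [IsDomain O] [Field K] [Algebra O K] [Field k]
  {S : DV O K k} {p D : ℕ} [hp : Fact p.Prime] [CharP k p]

/-- the congruence of the coefficients of the second sum -/
def H1 (S : DV O K k) (D : ℕ) (w : ℕ → O) : Prop :=
  ∀ n, n < 2 * D → ∃ e, 8 * ((n : O) + 1) ^ 2 * w (n + 1) - (4 * (n : O) + 1) * (2 * (n : O) + 1) * w n -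
      S.q * (8 * ((n : O) + 1) * w (n + 1) - (8 * (n : O) + 3) * w n) = S.q ^ 2 * e

/-- the value of the second sum at zero -/
def H2 (S : DV O K k) (D : ℕ) (v : O) (w : ℕ → O) (κ : O) : Prop :=
  ∃ e, ∑ n ∈ range (2 * D + 1), w n - κ * aa v D = S.q ^ 2 * e

namespace Pt100

variable (P : Pt100 S p D)

/-- the value of the second sum at the point -/
def VC : Prop := ∀ (w : ℕ → O) (κ : O), H1 S D w → H2 S D P.v w κ →
  S.q ^ 2 ∣ 2 * (1 - P.r ^ 2) * (Sp w (2 * D + 1)).eval P.r -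
    κ * (Sp P.s p).eval P.r * ((1 - P.r ^ 2) + (1 - P.r ^ 2) ^ p)

include P

theorem idr {w : ℕ → O} {κ : O} (h1 : H1 S D w) (h2 : H2 S D P.v w κ) : ∃ lr Qr : O,
    S.q * lr = (1 - P.r ^ 2) ^ p - 1 + P.r ^ (2 * p) ∧
    2 * (1 - P.r ^ (2 * p)) * (Sp w (2 * D + 1)).eval P.r - κ * (2 * (1 + 3 * P.r ^ (2 * p)) * (Sp P.s p).eval P.r -
      6 * P.r ^ (2 * p) * (Pn P.v D).eval P.r - 2 * P.r ^ p * (P.r ^ (2 * D + 1) * (Pn P.v (3 * D)).eval P.r) +
      S.q * lr * (Pn P.v D).eval P.r) = S.q ^ 2 * Qr := by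
  have ex : ∃ l : O[X], C S.q * l = (1 - X ^ 2) ^ p - 1 + X ^ (2 * p) := by
    obtain ⟨L, hL⟩ := S.dvd_of_map (P := (1 - X ^ 2) ^ p - 1 + X ^ (2 * p)) (by
      simp only [Polynomial.map_add, Polynomial.map_sub, Polynomial.map_pow, Polynomial.map_one, Polynomial.map_X]
      rw [sub_pow_char, one_pow]; ring)
    exact ⟨L, hL.symm⟩
  obtain ⟨l, hl⟩ := ex
  obtain ⟨Q, hQ⟩ := idV S P.hD P.hq P.hv P.hs0 P.hs h1 h2 hl
  refine ⟨l.eval P.r, Q.eval P.r, ?_, ?_⟩
  · have := congrArg (fun F => F.eval P.r) hl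
    simpa only [eval_add, eval_sub, eval_mul, eval_pow, eval_X, eval_C, eval_one] using this
  · have := congrArg (fun F => F.eval P.r) hQ
    simpa only [eval_add, eval_sub, eval_mul, eval_pow, eval_X, eval_C, eval_one, eval_ofNat] using this

/-- first class -/
theorem vcA [IsAlgClosed k] {j : O} (hj : j ^ 2 = -1) (hσp : S.red P.σ ^ p = S.red P.σ) {x y : ℤ}
    (hxy : (p : ℤ) = x ^ 2 + 25 * y ^ 2) (hred : S.red ((x : O) + y * (5 * j)) = 0) :
    P.VC := by
  have hb := P.hbig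
  have hchO := P.chO
  obtain ⟨hz, hz1⟩ := P.units
  have hp2 : p ≠ 2 := by omega
  have h20 : (20 : k) ≠ 0 := by
    have := small_ne (k := k) (p := p) (n := 20) (by norm_num) (by omega)
    exact_mod_cast this
  have f20 : (20 : k) ^ p = 20 := by
    have h := frobenius_def (R := k) p 20
    rw [← h, map_ofNat]
  have f9 : (9 : k) ^ p = 9 := by
    have h := frobenius_def (R := k) p 9
    rw [← h, map_ofNat]
  have hr' : S.red P.r = S.red P.r ^ p := by
    have h1 := congrArg S.red P.hr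
    rw [map_mul, map_mul, map_ofNat, map_ofNat] at h1
    have h2 := congrArg (fun x => x ^ p) h1
    simp only [mul_pow] at h2
    rw [f20, f9, hσp] at h2
    apply mul_left_cancel₀ h20
    rw [h1, h2]
  have hz' : S.red P.u = S.red P.u ^ p := by
    have h720 : S.red 720 ≠ 0 := by
      refine S.ne_mul (p := p) (y := 1) (n := 720) (by push_cast; ring)
        (P.ndvd [(2, 4), (3, 2), (5, 1)] (by simp; norm_num) (by norm_num))
    rw [map_ofNat] at h720
    have h1 := congrArg S.red P.hu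
    rw [map_mul, map_sub, map_mul, map_ofNat, map_ofNat, map_ofNat] at h1
    have h2 := congrArg (fun x => x ^ p) h1
    have fr : ∀ n : ℕ, (n : k) ^ p = n := fun n => by
      have h := frobenius_def (R := k) p n
      rw [← h, map_natCast]
    have f720 : (720 : k) ^ p = 720 := by exact_mod_cast fr 720
    have f360 : (360 : k) ^ p = 360 := by exact_mod_cast fr 360
    have f161 : (161 : k) ^ p = 161 := by exact_mod_cast fr 161

    rw [mul_pow, sub_pow_char, mul_pow, f720, f360, f161, hσp] at h2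
    apply mul_left_cancel₀ h720
    rw [h1, h2]
  have hO : (p : O) = (x : O) ^ 2 + 25 * (y : O) ^ 2 := by
    have := congrArg (Int.cast : ℤ → O) hxy
    push_cast at this; exact this
  have dd := Dat.mu S (z := 1 - P.u) (P.psi hj) P.two P.three hz1 P.hρ
  have hμρ : -((1 + 5 * j) * P.ρ * P.v) * P.ρ = 1 + 5 * j := by
    linear_combination (-(1 + 5 * j) * P.v) * P.hρ + (1 + 5 * j) * P.hv
  rw [hμρ, sub_sub_cancel] at dd
  obtain ⟨w, hw⟩ := (S.red_iff _).mp hred
  rw [P.hq] at hw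
  have hp0 : (p : O) ≠ 0 := by rw [← P.hq]; exact S.q_ne
  have hw1 : w * ((x : O) - y * (5 * j)) = 1 := by
    apply mul_left_cancel₀ hp0
    linear_combination (-((x : O) - y * (5 * j))) * hw - hO - 25 * (y : O) ^ 2 * hj
  have hwr : S.red w ≠ 0 := by
    intro h0
    have := congrArg S.red hw1
    rw [map_mul, h0, zero_mul, map_one] at this
    exact zero_ne_one this
  have h1τ0 : (1 + 5 * j : O) ≠ 0 := fun h0 => P.h26 hj (by rw [h0, map_zero])
  have hform : (p : ℤ) = (x - y) ^ 2 * ((1 : ℕ) : ℤ) + (x - y) * y * 2 + y ^ 2 * ((2 * 13 : ℕ) : ℤ) := by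
    rw [hxy]; push_cast; ring
  have hl2 : ¬ (p : ℤ) ∣ ((2 * 13 : ℕ) : ℤ) := P.ndvd [(2, 1), (13, 1)] (by simp; norm_num) (by norm_num)
  have hl1 : ¬ (p : ℤ) ∣ ((1 : ℕ) : ℤ) := P.ndvd [] (by simp) (by norm_num)
  obtain ⟨N, D', M, g1, g2, g3, g4, g5, g6⟩ := lift4_data S (p := p) (by omega) P.hq hz hz1 hz'
    (qa_ne S P.hM (P.ndvd [(2, 10), (3, 8), (11, 1), (59, 1), (71, 1)] (by simp; norm_num) (by norm_num)))
    (qb_ne S P.hM (P.ndvd [(2, 14), (3, 10), (7, 2), (11, 1), (19, 1)] (by simp; norm_num) (by norm_num)))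
    (m1 := 1) (m2 := 1 + 5 * j) (l1 := 1) (l2 := 2 * 13) one_ne_zero h1τ0 (Dat.id S _ _) dd (x - y) y 2
    hform (form_ndvd hform hl2) (form_ndvd (r := y) (s := x - y) (t0 := 2) (l1 := ((2 * 13 : ℕ) : ℤ)) (l2 := ((1 : ℕ) : ℤ))
      (by rw [hform]; ring) hl1) (by norm_num) (by nlinarith) (w := w) (by rw [← hw]; push_cast; ring) hwr
  intro W κ h1 h2
  obtain ⟨lr, Qr, e1, e2⟩ := P.idr h1 h2
  exact core_v S P.hD P.hq P.hv P.hs0 P.hs P.r_u P.r_u hr' P.r0 P.r1 P.r2 hwr g1 g2 g3 g4 g5 g6 rfl e2 e1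

/-- second class -/
theorem vcB [IsAlgClosed k] {j : O} (hj : j ^ 2 = -1) (hσp : S.red P.σ ^ p = -S.red P.σ) {x y : ℤ}
    (hxy : (2 * p : ℤ) = x ^ 2 + 25 * y ^ 2) (hred : S.red ((x : O) - y * (5 * j)) = 0) :
    P.VC := by
  have hb := P.hbig
  have hchO := P.chO
  obtain ⟨hz, hz1⟩ := P.units
  have hp2 : p ≠ 2 := by omega
  have h2O : (2 : O) ≠ 0 := by norm_num
  have h20 : (20 : k) ≠ 0 := by
    have := small_ne (k := k) (p := p) (n := 20) (by norm_num) (by omega)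
    exact_mod_cast this
  have fr : ∀ n : ℕ, (n : k) ^ p = n := fun n => by
    have h := frobenius_def (R := k) p n
    rw [← h, map_natCast]
  have f20 : (20 : k) ^ p = 20 := by exact_mod_cast fr 20
  have f9 : (9 : k) ^ p = 9 := by exact_mod_cast fr 9
  have hr' : S.red (-P.r) = S.red P.r ^ p := by
    have h1 := congrArg S.red P.hr
    rw [map_mul, map_mul, map_ofNat, map_ofNat] at h1
    have h2 := congrArg (fun x => x ^ p) h1
    simp only [mul_pow] at h2
    rw [f20, f9, hσp] at h2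
    apply mul_left_cancel₀ h20
    rw [h2, map_neg]
    linear_combination -h1
  have hz' : S.red (1 - P.u) = S.red P.u ^ p := by
    have h720 : S.red 720 ≠ 0 := by
      refine S.ne_mul (p := p) (y := 1) (n := 720) (by push_cast; ring)
        (P.ndvd [(2, 4), (3, 2), (5, 1)] (by simp; norm_num) (by norm_num))
    rw [map_ofNat] at h720
    have h1 := congrArg S.red P.hu
    rw [map_mul, map_sub, map_mul, map_ofNat, map_ofNat, map_ofNat] at h1
    have h2 := congrArg (fun x => x ^ p) h1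
    have f720 : (720 : k) ^ p = 720 := by exact_mod_cast fr 720
    have f360 : (360 : k) ^ p = 360 := by exact_mod_cast fr 360
    have f161 : (161 : k) ^ p = 161 := by exact_mod_cast fr 161

    rw [mul_pow, sub_pow_char, mul_pow, f720, f360, f161, hσp] at h2
    apply mul_left_cancel₀ h720
    rw [h2, map_sub, map_one]
    linear_combination -h1
  have hO : 2 * (p : O) = (x : O) ^ 2 + 25 * (y : O) ^ 2 := by
    have := congrArg (Int.cast : ℤ → O) hxy
    push_cast at this; exact this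
  have hpar : (x + y) % 2 = 0 := by
    have h1 : (x ^ 2 + 25 * y ^ 2) % 2 = 0 := by omega
    have hx : x % 2 = 0 ∨ x % 2 = 1 := by omega
    have hy : y % 2 = 0 ∨ y % 2 = 1 := by omega
    rcases hx with hx | hx <;> rcases hy with hy | hy
    · omega
    · exfalso; rw [pow_two, pow_two, Int.add_emod, Int.mul_emod, Int.mul_emod 25, Int.mul_emod y y, hx, hy] at h1; omega
    · exfalso; rw [pow_two, pow_two, Int.add_emod, Int.mul_emod, Int.mul_emod 25, Int.mul_emod y y, hx, hy] at h1; omega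
    · omega
  obtain ⟨a, ha⟩ : ∃ a, 2 * a = x + y := ⟨(x + y) / 2, by omega⟩
  have haO : 2 * (a : O) = x + y := by
    have := congrArg (Int.cast : ℤ → O) ha
    push_cast at this; exact this
  have dν := Dat.mu S (z := P.u) (m := 1) (r := P.ρ) (l := 1) (Dat.id S (qa P.u) (qb P.u)) P.two P.three hz P.hρ
  have hal : 2 * ((a : O) * (1 * P.ρ) + (y : O) * (-((1 + 5 * j) * P.ρ * P.v))) = P.ρ * ((x : O) - y * (5 * j)) := by
    linear_combination P.ρ * haO - (y : O) * (1 + 5 * j) * P.ρ * P.hv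
  have hred' : S.red ((a : O) * (1 * P.ρ) + (y : O) * (-((1 + 5 * j) * P.ρ * P.v))) = 0 := by
    have h1 := congrArg S.red hal
    rw [map_mul, map_mul S.red P.ρ, hred, mul_zero, map_ofNat] at h1
    exact (mul_eq_zero.mp h1).resolve_left P.two
  obtain ⟨w, hw⟩ := (S.red_iff _).mp hred'
  rw [P.hq] at hw
  have hp0 : (p : O) ≠ 0 := by rw [← P.hq]; exact S.q_ne
  have hw1 : w * ((x : O) + y * (5 * j)) = P.ρ := by
    apply mul_left_cancel₀ (mul_ne_zero h2O hp0)
    linear_combination (-2 * ((x : O) + y * (5 * j))) * hw + ((x : O) + y * (5 * j)) * hal - P.ρ * hO - 25 * P.ρ * (y : O) ^ 2 * hj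
  have hρr : S.red P.ρ ≠ 0 := by
    refine S.ne_mul (p := p) (y := P.ρ) (n := -2) (by push_cast; linear_combination P.hρ) ?_
    exact P.ndvd [(2, 1)] (by simp; norm_num) (by norm_num)
  have hwr : S.red w ≠ 0 := by
    intro h0
    have := congrArg S.red hw1
    rw [map_mul, h0, zero_mul] at this
    exact hρr this.symm
  have h1τ0 : (1 + 5 * j : O) ≠ 0 := fun h0 => P.h26 hj (by rw [h0, map_zero])
  have hv0 : P.v ≠ 0 := by
    intro h0
    have := P.hv
    rw [h0, mul_zero] at this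
    exact zero_ne_one this
  have hμ0 : -((1 + 5 * j) * P.ρ * P.v) ≠ 0 := neg_ne_zero.mpr (mul_ne_zero (mul_ne_zero h1τ0 P.rho_ne) hv0)
  have hform : (p : ℤ) = a ^ 2 * ((2 * 1 : ℕ) : ℤ) + a * y * (-2) + y ^ 2 * ((13 : ℕ) : ℤ) := by
    have h2 : x = 2 * a - y := by omega
    have h3 : 2 * (p : ℤ) = 2 * (a ^ 2 * ((2 * 1 : ℕ) : ℤ) + a * y * (-2) + y ^ 2 * ((13 : ℕ) : ℤ)) := by
      rw [hxy, h2]; push_cast; ring
    omega
  have hl2 : ¬ (p : ℤ) ∣ ((13 : ℕ) : ℤ) := P.ndvd [(13, 1)] (by simp; norm_num) (by norm_num)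
  have hl1 : ¬ (p : ℤ) ∣ ((2 * 1 : ℕ) : ℤ) := P.ndvd [(2, 1)] (by simp; norm_num) (by norm_num)
  obtain ⟨N, D', M, g1, g2, g3, g4, g5, g6⟩ := lift4_data S (p := p) (by omega) P.hq hz hz1 hz'
    (qa_ne S P.hM (P.ndvd [(2, 10), (3, 8), (11, 1), (59, 1), (71, 1)] (by simp; norm_num) (by norm_num)))
    (qb_ne S P.hM (P.ndvd [(2, 14), (3, 10), (7, 2), (11, 1), (19, 1)] (by simp; norm_num) (by norm_num)))
    (m1 := 1 * P.ρ) (m2 := -((1 + 5 * j) * P.ρ * P.v)) (l1 := 2 * 1) (l2 := 13)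
    (mul_ne_zero one_ne_zero P.rho_ne) hμ0 dν (P.psi hj) a y (-2)
    hform (form_ndvd hform hl2) (form_ndvd (r := y) (s := a) (t0 := -2) (l1 := ((13 : ℕ) : ℤ)) (l2 := ((2 * 1 : ℕ) : ℤ))
      (by rw [hform]; ring) hl1) (by norm_num) (by nlinarith) (w := w) hw hwr
  intro W κ h1 h2
  obtain ⟨lr, Qr, e1, e2⟩ := P.idr h1 h2
  exact core_v S P.hD P.hq P.hv P.hs0 P.hs P.r_u P.r_u' hr' P.r0 P.r1 P.r2 hwr g1 g2 g3 g4 g5 g6 (by ring) e2 e1

end Pt100

end Pool.Agent.H39
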