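import Pool.Agent.H39.Xid
import Pool.Agent.H39.FFDef

set_option autoImplicit false

/-!
# A second identity modulo `p²`
-/

namespace Pool.Agent.H39

open Polynomial Finset
open Pool.Agent.H546 Pool.Agent.Q267.MW

section ker

variable {k : Type*} [Field k] {p D : ℕ} [hp : Fact p.Prime] [CharP k p]

/-- an even solution with vanishing coefficients at `0` and `2p` vanishes -/
theorem ker_even (hD : p = 4 * D + 1) {g : k[X]} (hg : LL g = 0) (h0 : g.coeff 0 = 0) (hpz : g.coeff (2 * p) = 0)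
    (htop : ∀ j, 4 * p ≤ j → g.coeff j = 0) (hodd : ∀ j, j % 2 = 1 → g.coeff j = 0) : g = 0 := by
  have hp2 := hp.out.two_le
  have nz : ∀ m : ℕ, ¬ p ∣ m → (m : k) ≠ 0 := fun m h h0 => h ((CharP.cast_eq_zero_iff k p m).mp h0)
  have hrec : ∀ j : ℕ, ((j : k) + 2) * (2 * (j : k) + 3) * g.coeff (j + 2) = ((j : k) + 1) * (2 * (j : k) + 1) * g.coeff j := by
    intro j
    have := LL_coeff g j
    rw [hg, coeff_zero] at this
    linear_combination -this
  have up : ∀ j, ¬ p ∣ j + 2 → ¬ p ∣ 2 * j + 3 → g.coeff j = 0 → g.coeff (j + 2) = 0 := by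
    intro j h1 h2 h3
    have h := hrec j
    rw [h3, mul_zero] at h
    have n1 := nz _ h1
    have n2 := nz _ h2
    push_cast at n1 n2
    exact (mul_eq_zero.mp h).resolve_left (mul_ne_zero n1 n2)
  have dn : ∀ j, ¬ p ∣ j + 1 → ¬ p ∣ 2 * j + 1 → g.coeff (j + 2) = 0 → g.coeff j = 0 := by
    intro j h1 h2 h3
    have h := hrec j
    rw [h3, mul_zero] at h
    have n1 := nz _ h1
    have n2 := nz _ h2
    push_cast at n1 n2
    exact (mul_eq_zero.mp h.symm).resolve_left (mul_ne_zero n1 n2)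
  have nd : ∀ a m : ℕ, a * p < m → m < (a + 1) * p → ¬ p ∣ m := by
    intro a m h1 h2 h3
    obtain ⟨c, rfl⟩ := h3
    have h4 : a < c := by
      by_contra h; push Not at h
      have : p * c ≤ p * a := Nat.mul_le_mul_left p h
      have : p * a = a * p := mul_comm _ _
      omega
    have h5 : c < a + 1 := by
      by_contra h; push Not at h
      have : p * (a + 1) ≤ p * c := Nat.mul_le_mul_left p h
      have : p * (a + 1) = (a + 1) * p := mul_comm _ _
      omega
    omega
  -- divisibility of even numbers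
  have nde : ∀ m : ℕ, m % 2 = 0 → ((0 < m ∧ m < 2 * p) ∨ (2 * p < m ∧ m < 4 * p)) → ¬ p ∣ m := by
    rintro m hev hm ⟨c, rfl⟩
    have hc : c % 2 = 0 := by
      by_contra hc
      have h1 : c % 2 = 1 := by omega
      rw [Nat.mul_mod, h1] at hev
      omega
    have : c = 0 ∨ c = 2 ∨ 4 ≤ c := by omega
    rcases this with rfl | rfl | h
    · omega
    · omega
    · have : p * 4 ≤ p * c := Nat.mul_le_mul_left p h
      omega
  have p4 : p % 4 = 1 := by omega
  have nd3 : ∀ m : ℕ, m % 4 = 3 → (m < 3 * p ∨ (3 * p < m ∧ m < 7 * p)) → ¬ p ∣ m := by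
    rintro m h3 hm ⟨c, rfl⟩
    have hc : c % 4 = 3 := by
      rw [Nat.mul_mod, p4, one_mul, Nat.mod_mod] at h3
      exact h3
    have : c = 3 ∨ 7 ≤ c := by omega
    rcases this with rfl | h
    · omega
    · have : p * 7 ≤ p * c := Nat.mul_le_mul_left p h
      omega
  have nd1 : ∀ m : ℕ, m % 4 = 1 → ((p < m ∧ m < 5 * p) ∨ (5 * p < m ∧ m < 9 * p)) → ¬ p ∣ m := by
    rintro m h3 hm ⟨c, rfl⟩
    have hc : c % 4 = 1 := by
      rw [Nat.mul_mod, p4, one_mul, Nat.mod_mod] at h3
      exact h3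
    have : c = 1 ∨ c = 5 ∨ 9 ≤ c := by omega
    rcases this with rfl | rfl | h
    · omega
    · omega
    · have : p * 9 ≤ p * c := Nat.mul_le_mul_left p h
      omega
  have e1 : ∀ i, 2 * i ≤ 6 * D → g.coeff (2 * i) = 0 := by
    intro i
    induction i with
    | zero => intro _; exact h0
    | succ i ih =>
      intro h
      rw [show 2 * (i + 1) = 2 * i + 2 by ring]
      exact up _ (nde _ (by omega) (by omega)) (nd3 _ (by omega) (by omega)) (ih (by omega))
  have e2 : ∀ i, i ≤ D → g.coeff (8 * D + 2 - 2 * i) = 0 := by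
    intro i
    induction i with
    | zero => intro _; rw [show 8 * D + 2 - 2 * 0 = 2 * p by omega]; exact hpz
    | succ i ih =>
      intro h
      refine dn _ (nd 1 _ (by omega) (by omega)) (nd1 _ (by omega) (by omega)) ?_
      rw [show 8 * D + 2 - 2 * (i + 1) + 2 = 8 * D + 2 - 2 * i by omega]
      exact ih (by omega)
  have e3 : ∀ i, i ≤ 3 * D → g.coeff (8 * D + 2 + 2 * i) = 0 := by
    intro i
    induction i with
    | zero => intro _; rw [show 8 * D + 2 + 2 * 0 = 2 * p by omega]; exact hpz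
    | succ i ih =>
      intro h
      rw [show 8 * D + 2 + 2 * (i + 1) = (8 * D + 2 + 2 * i) + 2 by ring]
      exact up _ (nde _ (by omega) (by omega)) (nd3 _ (by omega) (by omega)) (ih (by omega))
  have e4 : ∀ i, i ≤ D → g.coeff (16 * D + 4 - 2 * i) = 0 := by
    intro i
    induction i with
    | zero => intro _; exact htop _ (by omega)
    | succ i ih =>
      intro h
      refine dn _ (nd 3 _ (by omega) (by omega)) (nd1 _ (by omega) (by omega)) ?_
      rw [show 16 * D + 4 - 2 * (i + 1) + 2 = 16 * D + 4 - 2 * i by omega]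
      exact ih (by omega)
  ext j
  rw [coeff_zero]
  rcases Nat.even_or_odd' j with ⟨i, rfl | rfl⟩
  · by_cases h1 : 2 * i ≤ 6 * D
    · exact e1 i h1
    · by_cases h2 : 2 * i ≤ 8 * D + 2
      · have := e2 (4 * D + 1 - i) (by omega)
        rwa [show 8 * D + 2 - 2 * (4 * D + 1 - i) = 2 * i by omega] at this
      · by_cases h3 : 2 * i ≤ 14 * D + 2
        · have := e3 (i - (4 * D + 1)) (by omega)
          rwa [show 8 * D + 2 + 2 * (i - (4 * D + 1)) = 2 * i by omega] at this
        · by_cases h4 : 2 * i ≤ 16 * D + 4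
          · have := e4 (8 * D + 2 - i) (by omega)
            rwa [show 16 * D + 4 - 2 * (8 * D + 2 - i) = 2 * i by omega] at this
          · exact htop _ (by omega)
  · exact hodd _ (by omega)

theorem LL_X2p (f : k[X]) : LL (X ^ (2 * p) * f) = X ^ (2 * p) * LL f := by
  have e : ∀ g : k[X], X ^ (2 * p) * g = X ^ p * (X ^ p * g) := fun g => by ring
  rw [e, e, LL_Xp, LL_Xp]

/-- the even part of the kernel of the operator -/
theorem ker_even_eq (hD : p = 4 * D + 1) {A f : k[X]} (hA : LL A = 0) (hA0 : A.coeff 0 ≠ 0) (hAd : A.natDegree ≤ 2 * D)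
    (hf : LL f = 0) (htop : ∀ j, 4 * p ≤ j → f.coeff j = 0) (hodd : ∀ j, j % 2 = 1 → f.coeff j = 0)
    (hAo : ∀ j, j % 2 = 1 → A.coeff j = 0) :
    f = C (f.coeff 0 / A.coeff 0) * A + C (f.coeff (2 * p) / A.coeff 0) * (X ^ (2 * p) * A) := by
  have hp0 := hp.out.pos
  rw [← sub_eq_zero]
  set g := f - (C (f.coeff 0 / A.coeff 0) * A + C (f.coeff (2 * p) / A.coeff 0) * (X ^ (2 * p) * A)) with hgd
  have hAz : ∀ j, 2 * D < j → A.coeff j = 0 := fun j hj => coeff_eq_zero_of_natDegree_lt (by omega)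
  have co : ∀ j, g.coeff j = f.coeff j - (f.coeff 0 / A.coeff 0 * A.coeff j +
      f.coeff (2 * p) / A.coeff 0 * (if 2 * p ≤ j then A.coeff (j - 2 * p) else 0)) := by
    intro j
    rw [hgd]
    simp only [coeff_sub, coeff_add, coeff_C_mul, coeff_X_pow_mul']
  refine ker_even hD ?_ ?_ ?_ ?_ ?_
  · rw [hgd, LL_sub, LL_add, LL_C_mul, LL_C_mul, LL_X2p, hA, hf]; ring
  · rw [co, if_neg (by omega)]; field_simp; ring
  · rw [co, if_pos le_rfl, hAz (2 * p) (by omega), Nat.sub_self]; field_simp; ring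
  · intro j hj
    rw [co, htop j hj, hAz j (by omega), if_pos (by omega), hAz (j - 2 * p) (by omega)]; ring
  · intro j hj
    rw [co, hodd j hj, hAo j hj]
    split_ifs with h
    · rw [hAo (j - 2 * p) (by omega)]; ring
    · ring

end ker

section basic

variable {R : Type*} [CommRing R]

theorem th_y (m : ℕ) : th ((1 - X ^ 2) ^ (m + 1) : R[X]) = -2 * ((m : R[X]) + 1) * X ^ 2 * (1 - X ^ 2) ^ m := by
  simp only [th, derivative_pow, derivative_sub, derivative_one, derivative_X, Nat.add_sub_cancel, map_natCast]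
  push_cast
  ring

/-- the equation of the second sum -/
theorem LL_V {w : ℕ → R} {q : R} {M : ℕ}
    (hw : ∀ n, n < M → ∃ e, 8 * ((n : R) + 1) ^ 2 * w (n + 1) - (4 * (n : R) + 1) * (2 * (n : R) + 1) * w n -
      q * (8 * ((n : R) + 1) * w (n + 1) - (8 * (n : R) + 3) * w n) = q ^ 2 * e) :
    ∀ N, N ≤ M → ∃ E : R[X], LL (∑ n ∈ range (N + 1), C (w n) * (1 - X ^ 2) ^ n : R[X]) =
      -(C q * X ^ 2 * (4 * th (∑ n ∈ range (N + 1), C (w n) * (1 - X ^ 2) ^ n : R[X]) +
        3 * (∑ n ∈ range (N + 1), C (w n) * (1 - X ^ 2) ^ n : R[X]))) +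
      X ^ 2 * ((C q * (8 * (N : R[X]) + 3) - (4 * (N : R[X]) + 1) * (2 * (N : R[X]) + 1)) * C (w N) * (1 - X ^ 2) ^ N) +
      C q ^ 2 * E := by
  intro N
  induction N with
  | zero =>
    intro _
    have h1 : LL (1 : R[X]) = -X ^ 2 := by simp [LL, th]
    refine ⟨0, ?_⟩
    simp only [zero_add, sum_range_one, pow_zero, LL_C_mul, h1, th_C_mul, th_one]
    push_cast; ring
  | succ N ih =>
    intro hN
    obtain ⟨E, hE⟩ := ih (by omega)
    obtain ⟨e, he⟩ := hw N (by omega)
    have h := congrArg (C : R → R[X]) he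
    simp only [map_mul, map_add, map_sub, map_one, map_ofNat, map_natCast, map_pow] at h
    refine ⟨E + X ^ 2 * (1 - X ^ 2) ^ N * C e, ?_⟩
    rw [sum_range_succ, LL_add, hE, LL_C_mul, LL_y, th_add, th_C_mul, th_y]
    push_cast
    linear_combination (X ^ 2 * (1 - X ^ 2) ^ N) * h

theorem Gp_eval_zero (v : R) (D : ℕ) : (Gp v D).eval 0 = aa v D := by
  unfold Gp
  rw [eval_finsetSum, sum_range_succ, sum_eq_zero]
  · simp only [gc, aa, eval_mul, eval_C, eval_pow, eval_X, eval_add, eval_one]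
    simp
  · intro m hm
    rw [mem_range] at hm
    simp only [eval_mul, eval_C, eval_pow, eval_X, eval_add, eval_one]
    rw [zero_pow (by omega)]; ring

theorem Sp_eval_zero (s : ℕ → R) (N : ℕ) : (Sp s N).eval 0 = ∑ n ∈ range N, s n := by
  unfold Sp
  rw [eval_finsetSum]
  refine sum_congr rfl fun n _ => ?_
  simp

theorem Pn_expand (v : R) (n : ℕ) : Pn v n = expand R 2 (∑ j ∈ range (n + 1), C (aa v (n - j) * aa v j) * X ^ j) := by
  unfold Pn
  rw [map_sum]
  refine sum_congr rfl fun j _ => ?_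
  simp only [map_mul, expand_C, map_pow, expand_X]
  ring

end basic

variable {O K k : Type*} [CommRing O] [IsDomain O] [Field K] [Algebra O K] [Field k]
  (S : DV O K k) {p D : ℕ} [hp : Fact p.Prime] [CharP k p]

set_option maxHeartbeats 1000000 in
/-- **The second identity modulo `p²`.** -/
theorem idV (hD : p = 4 * D + 1) (hq : S.q = (p : O)) {v : O} (hv : 2 * v = 1) {s : ℕ → O} (hs0 : s 0 = 1)
    (hs : ∀ n, n + 1 < p → 8 * ((n : O) + 1) ^ 2 * s (n + 1) = (4 * (n : O) + 1) * (2 * (n : O) + 1) * s n)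
    {w : ℕ → O} {κ : O}
    (hw : ∀ n, n < 2 * D → ∃ e, 8 * ((n : O) + 1) ^ 2 * w (n + 1) - (4 * (n : O) + 1) * (2 * (n : O) + 1) * w n -
      S.q * (8 * ((n : O) + 1) * w (n + 1) - (8 * (n : O) + 3) * w n) = S.q ^ 2 * e)
    (hw0 : ∃ e, ∑ n ∈ range (2 * D + 1), w n - κ * aa v D = S.q ^ 2 * e)
    {l : O[X]} (hl : C S.q * l = (1 - X ^ 2) ^ p - 1 + X ^ (2 * p)) :
    ∃ Q : O[X], 2 * (1 - X ^ (2 * p)) * Sp w (2 * D + 1) - C κ * (2 * (1 + 3 * X ^ (2 * p)) * Sp s p -
      6 * X ^ (2 * p) * Pn v D - 2 * X ^ p * (X ^ (2 * D + 1) * Pn v (3 * D)) + C S.q * l * Pn v D) = C S.q ^ 2 * Q := by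
  classical
  have hp2 := hp.out.two_le
  have hD0 : 0 < D := by
    rcases Nat.eq_zero_or_pos D with h | h
    · rw [h] at hD; exact absurd hp.out (by rw [hD]; norm_num)
    · exact h
  set q := S.q with hqd
  have hq0 : q ≠ 0 := S.q_ne
  have hCq : (C q : O[X]) ≠ 0 := C_ne_zero.mpr hq0
  have hrq : S.red q = 0 := S.red_q
  have h2k : (2 : k) ≠ 0 := by
    have := small_ne (k := k) (p := p) (n := 2) (by norm_num) (by omega)
    exact_mod_cast this
  have hqO : q = 4 * (D : O) + 1 := by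
    rw [hq]
    have := congrArg (Nat.cast : ℕ → O) hD
    push_cast at this
    exact this
  have hqX : (C q : O[X]) = 4 * (D : O[X]) + 1 := by
    rw [hqO]; simp [map_ofNat]
  have hpX : ((p : ℕ) : O[X]) = C q := by rw [hq]; simp
  -- the value at zero of the first sum
  have exL : ∃ L : O[X], C S.q * L = (1 - X) ^ p - 1 + X ^ p := by
    obtain ⟨L, hL⟩ := S.dvd_of_map (P := (1 - X) ^ p - 1 + X ^ p) (by
      simp only [Polynomial.map_add, Polynomial.map_sub, Polynomial.map_pow, Polynomial.map_one, Polynomial.map_X]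
      rw [sub_pow_char, one_pow]; ring)
    exact ⟨L, hL.symm⟩
  obtain ⟨L, hL⟩ := exL
  obtain ⟨Q0, hQ0⟩ := idX S hD hq hv hs0 hs hL
  have S0v : (Sp s p).eval 0 = aa v D - q ^ 2 * (v * Q0.eval 0) := by
    have h := congrArg (fun P => P.eval 0) hQ0
    have hl' := congrArg (fun P => P.eval 0) hL
    simp only [eval_add, eval_sub, eval_mul, eval_pow, eval_X, eval_C, eval_one, eval_ofNat, Gp_eval_zero] at h hl'
    rw [zero_pow (by omega : p ≠ 0)] at h hl'
    rw [zero_pow (by omega : 2 * D + 1 ≠ 0)] at h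
    rw [sub_zero, one_pow] at hl'
    linear_combination (-v) * h - v * ((Pn v D).eval 0) * hl' + (aa v D - (Sp s p).eval 0) * hv
  set A := Pn v D with hA
  set Bf := X ^ (2 * D + 1) * Pn v (3 * D) with hBf
  set V := Sp w (2 * D + 1) with hV
  -- equations
  have eA := LL_A hv D
  rw [← hqX, ← hA] at eA
  have eB := LL_B hv D
  rw [← hqX, ← hBf] at eB
  obtain ⟨p1, hp1⟩ : ∃ p1, p = p1 + 1 := ⟨p - 1, by omega⟩
  have eS := LL_S hs p1 (by omega)
  have hSp : (∑ n ∈ range (p1 + 1), C (s n) * (1 - X ^ 2) ^ n : O[X]) = Sp s p := by rw [hp1]; rfl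
  rw [hSp] at eS
  obtain ⟨s2, hs2⟩ := s_div S hD hq hs
  rw [show p - 1 = p1 by omega] at hs2
  rw [hs2, map_mul, map_pow] at eS
  set Es : O[X] := -X ^ 2 * ((4 * (p1 : O[X]) + 1) * (2 * (p1 : O[X]) + 1) * C s2 * (1 - X ^ 2) ^ p1) with hEs
  have eS' : LL (Sp s p) = C q ^ 2 * Es := by rw [eS, hEs]; ring
  obtain ⟨E0, hE0⟩ := LL_V hw (2 * D) le_rfl
  have hVp : (∑ n ∈ range (2 * D + 1), C (w n) * (1 - X ^ 2) ^ n : O[X]) = V := rfl
  rw [hVp] at hE0
  obtain ⟨Ev, eV⟩ : ∃ Ev : O[X], LL V = -(C q * X ^ 2 * (4 * th V + 3 * V)) + C q ^ 2 * Ev := by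
    refine ⟨E0 + 2 * X ^ 2 * C (w (2 * D)) * (1 - X ^ 2) ^ (2 * D), ?_⟩
    rw [hE0, hqX]
    push_cast
    ring
  -- reductions
  set vk := S.red v with hvk
  have hvk2 : 2 * vk = 1 := by rw [hvk, ← map_ofNat S.red 2, ← map_mul, hv, map_one]
  set Ak := Pn vk D with hAk
  have rA : A.map S.red = Ak := Pn_map _ _ _
  have mC : (C q : O[X]).map S.red = 0 := by rw [Polynomial.map_C, hrq, C_0]
  have lA : LL Ak = 0 := by
    rw [← rA, ← LL_map, eA, Polynomial.map_mul, mC, zero_mul]
  have aD : Ak.coeff 0 ≠ 0 := by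
    rw [hAk, Pn_coeff_zero]
    unfold aa
    have h4 : vk ≠ 0 := by rintro h0; rw [h0, mul_zero] at hvk2; exact zero_ne_one hvk2
    refine mul_ne_zero ?_ (pow_ne_zero _ (mul_ne_zero h4 h4))
    intro h0
    rw [CharP.cast_eq_zero_iff k p] at h0
    have h1 : D.centralBinom ∣ (2 * D).factorial := by
      refine ⟨D.factorial * D.factorial, ?_⟩
      have := Nat.choose_mul_factorial_mul_factorial (show D ≤ 2 * D by omega)
      rw [show 2 * D - D = D by omega] at this
      rw [Nat.centralBinom, ← this]; ring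
    have := (hp.out.dvd_factorial).mp (h0.trans h1)
    omega
  have dA : Ak.natDegree ≤ 2 * D := Pn_natDegree _ _
  have oA : ∀ j, j % 2 = 1 → Ak.coeff j = 0 := fun j hj => Pn_coeff_odd _ _ _ hj
  have one1 : (1 : k) ^ 2 = 1 := one_pow 2
  have podd : Odd p := ⟨2 * D, by omega⟩
  -- S mod p
  have rS : (Sp s p).map S.red = Ak := by
    have h1 : LL ((Sp s p).map S.red) = 0 := by
      rw [← LL_map, eS', Polynomial.map_mul, Polynomial.map_pow, mC]; ring
    have h2 := ker_eq hD lA aD dA h1 ?_ ?_ oA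
    · rw [Sp_map] at h2 ⊢
      rw [Sp_coeff_odd _ _ p (by omega), zero_div, C_0, zero_mul, add_zero] at h2
      have h3 := congrArg (fun P => P.eval 1) h2
      simp only [eval_mul, eval_C] at h3
      rw [hp1, Sp_eval_sq _ _ one1, hAk, Pn_eval_sq hvk2 _ one1, hs0, map_one, mul_one, ← hp1, ← hAk] at h3
      rw [h2, ← h3, C_1, one_mul]
    · intro j hj
      rw [Sp_map]
      apply coeff_eq_zero_of_natDegree_lt
      have := Sp_natDegree (fun n => S.red (s n)) p1
      rw [← hp1] at this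
      omega
    · intro j _ hj
      rw [Sp_map]
      apply coeff_eq_zero_of_natDegree_lt
      have := Sp_natDegree (fun n => S.red (s n)) p1
      rw [← hp1] at this
      omega
  have rB : Bf.map S.red = X ^ p * Ak := by
    have h1 : LL (Bf.map S.red) = 0 := by
      rw [← LL_map, eB, Polynomial.map_mul, mC]; ring
    have hm : Bf.map S.red = X ^ (2 * D + 1) * Pn vk (3 * D) := by
      rw [hBf, Polynomial.map_mul, Polynomial.map_pow, map_X, Pn_map]
    rw [hm] at h1 ⊢
    have hz : ∀ j, 8 * D + 1 < j → (X ^ (2 * D + 1) * Pn vk (3 * D)).coeff j = 0 := by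
      intro j hj
      rw [coeff_X_pow_mul', if_pos (by omega), Pn_coeff_high _ _ _ (by omega)]
    have h2 := ker_eq hD lA aD dA h1 (fun j hj => hz j (by omega)) (fun j _ hj => hz j (by omega)) oA
    have hc0 : (X ^ (2 * D + 1) * Pn vk (3 * D)).coeff 0 = 0 := by
      rw [coeff_X_pow_mul', if_neg (by omega)]
    rw [hc0, zero_div, C_0, zero_mul, zero_add] at h2
    have h3 := congrArg (fun P => P.eval 1) h2
    simp only [eval_mul, eval_C, eval_pow, eval_X, one_pow, one_mul] at h3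
    rw [hAk, Pn_eval_sq hvk2 _ one1, Pn_eval_sq hvk2 _ one1, mul_one, ← hAk] at h3
    rw [h2, ← h3, C_1, one_mul]
  obtain ⟨e0, he0⟩ := hw0
  set κk := S.red κ with hκk
  have rV : V.map S.red = C κk * Ak := by
    have h1 : LL (V.map S.red) = 0 := by
      rw [← LL_map, eV]
      simp only [Polynomial.map_add, Polynomial.map_neg, Polynomial.map_mul, Polynomial.map_pow, mC]
      ring
    have hz : ∀ j, 4 * D < j → (V.map S.red).coeff j = 0 := by
      intro j hj
      rw [hV, Sp_map]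
      apply coeff_eq_zero_of_natDegree_lt
      have := Sp_natDegree (fun n => S.red (w n)) (2 * D)
      omega
    have h2 := ker_eq hD lA aD dA h1 (fun j hj => hz j (by omega)) (fun j _ hj => hz j (by omega)) oA
    rw [hz p (by omega), zero_div, C_0, zero_mul, add_zero] at h2
    have h3 : (V.map S.red).coeff 0 = κk * Ak.coeff 0 := by
      rw [coeff_map, coeff_zero_eq_eval_zero, hV, Sp_eval_zero]
      have h4 : ∑ n ∈ range (2 * D + 1), w n = κ * aa v D + q ^ 2 * e0 := by linear_combination he0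
      rw [h4, map_add, map_mul, map_mul, map_pow, hrq, hAk, Pn_coeff_zero]
      have h5 : S.red (aa v D) = aa vk D := by simp [aa, hvk]
      rw [h5]; ring
    rw [h3, mul_div_cancel_right₀ _ aD] at h2
    exact h2
  -- lifts
  obtain ⟨S1, hS1⟩ := S.dvd_of_map (P := Sp s p - A) (by rw [Polynomial.map_sub, rS, rA, sub_self])
  obtain ⟨V1, hV1⟩ := S.dvd_of_map (P := V - C κ * A) (by
    rw [Polynomial.map_sub, rV, Polynomial.map_mul, Polynomial.map_C, rA, sub_self])
  obtain ⟨B1, hB1⟩ := S.dvd_of_map (P := Bf - X ^ p * A) (by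
    rw [Polynomial.map_sub, rB, Polynomial.map_mul, Polynomial.map_pow, map_X, rA, sub_self])
  rw [← hqd] at hS1 hV1 hB1
  have hSe : Sp s p = A + C q * S1 := by linear_combination hS1
  have hVe : V = C κ * A + C q * V1 := by linear_combination hV1
  have hBe : Bf = X ^ p * A + C q * B1 := by linear_combination hB1
  set W1 := 2 * (1 - X ^ (2 * p)) * V1 - C κ * (2 * (1 + 3 * X ^ (2 * p)) * S1 - 2 * X ^ p * B1 + l * A) with hW1
  have hW : 2 * (1 - X ^ (2 * p)) * V - C κ * (2 * (1 + 3 * X ^ (2 * p)) * Sp s p - 6 * X ^ (2 * p) * A -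
      2 * X ^ p * Bf + C q * l * A) = C q * W1 := by
    rw [hSe, hVe, hBe, hW1]; ring
  -- the equations of the quotients
  have q1 : LL S1 = C q * Es - (th A - X ^ 2 * (th A + A)) := by
    apply mul_left_cancel₀ hCq
    rw [← LL_C_mul, ← hS1, LL_sub, eS', eA]; ring
  have q2 : LL V1 = -(X ^ 2 * (4 * th V + 3 * V)) + C q * Ev - C κ * (th A - X ^ 2 * (th A + A)) := by
    apply mul_left_cancel₀ hCq
    rw [← LL_C_mul, ← hV1, LL_sub, LL_C_mul, eV, eA]; ring
  have thXp : th (X ^ p : O[X]) = C q * X ^ p := by rw [th_pow, hpX]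
  have q3 : LL B1 = ((5 * th Bf - (2 + 2 * C q) * Bf) - X ^ 2 * (5 * th Bf + (3 - 2 * C q) * Bf)) -
      X ^ p * (th A - X ^ 2 * (th A + A)) - 2 * (1 - X ^ 2) * (2 * X ^ p * th A + C q * X ^ p * A) +
      (1 + 3 * X ^ 2) * X ^ p * A := by
    apply mul_left_cancel₀ hCq
    rw [← LL_C_mul, ← hB1, LL_sub, eB, LL_mul, thXp, th_C_mul, thXp, eA]; ring
  have thX2p : th (X ^ (2 * p) : O[X]) = 2 * C q * X ^ (2 * p) := by
    rw [th_pow, ← hpX]; push_cast; ring
  have q4 : th l = 2 * X ^ (2 * p) - 2 * X ^ 2 * (1 - X ^ 2) ^ (p - 1) := by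
    apply mul_left_cancel₀ hCq
    rw [← th_C_mul, hl, th_add, thX2p, th_sub, th_one]
    have : th ((1 - X ^ 2) ^ p : O[X]) = -2 * C q * X ^ 2 * (1 - X ^ 2) ^ (p - 1) := by
      have h := th_y (R := O) (p - 1)
      rw [show p - 1 + 1 = p by omega] at h
      rw [h, ← hpX]
      have : ((p - 1 : ℕ) : O[X]) + 1 = (p : O[X]) := by
        have : p - 1 + 1 = p := by omega
        exact_mod_cast congrArg (Nat.cast : ℕ → O[X]) this
      rw [this]
    rw [this]; ring
  -- in characteristic p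
  set lk := l.map S.red with hlk
  have thX2k : th (X ^ (2 * p) : k[X]) = 0 := th_Xp (2 * p) (by push_cast; rw [CharP.cast_eq_zero k p]; ring)
  have l1 : (1 - X ^ 2) * th lk = 2 * X ^ (2 * p) - 2 * X ^ 2 := by
    rw [hlk, ← th_map, q4]
    simp only [Polynomial.map_sub, Polynomial.map_pow, map_X, Polynomial.map_mul, Polynomial.map_one, Polynomial.map_ofNat]
    have : (1 - X ^ 2) * (2 * X ^ (2 * p) - 2 * X ^ 2 * (1 - X ^ 2) ^ (p - 1)) =
        (1 - X ^ 2) * (2 * X ^ (2 * p)) - 2 * X ^ 2 * (1 - X ^ 2 : k[X]) ^ p := by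
      rw [hp1, Nat.add_sub_cancel, pow_succ (1 - X ^ 2 : k[X])]; ring
    rw [this, sub_pow_char, one_pow]; ring
  have l2 : (1 - X ^ 2) * th (th lk) - 2 * X ^ 2 * th lk = -4 * X ^ 2 := by
    have h := congrArg th l1
    have e2 : th (2 * X ^ 2 : k[X]) = 4 * X ^ 2 := by
      rw [th_mul, th_pow]
      have : th (2 : k[X]) = 0 := by exact_mod_cast th_nat (R := k) 2
      rw [this]; push_cast; ring
    have e3 : th (2 * X ^ (2 * p) : k[X]) = 0 := by
      rw [th_mul, thX2k]
      have : th (2 : k[X]) = 0 := by exact_mod_cast th_nat (R := k) 2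
      rw [this]; ring
    have e4 : th (X ^ 2 : k[X]) = 2 * X ^ 2 := by rw [th_pow]; push_cast; ring
    rw [th_mul, th_sub, th_sub, th_one, e2, e3, e4] at h
    linear_combination h
  have k1 : LL (S1.map S.red) = -(th Ak - X ^ 2 * (th Ak + Ak)) := by
    rw [← LL_map, q1]
    simp only [Polynomial.map_sub, Polynomial.map_mul, Polynomial.map_add, Polynomial.map_pow, map_X, mC, th_map, rA]
    ring
  have k2 : LL (V1.map S.red) = -(C κk * ((1 + 3 * X ^ 2) * th Ak + 2 * X ^ 2 * Ak)) := by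
    rw [← LL_map, q2]
    simp only [Polynomial.map_sub, Polynomial.map_mul, Polynomial.map_add, Polynomial.map_neg, Polynomial.map_pow, map_X, th_map, rA, rV,
      Polynomial.map_ofNat, mC, Polynomial.map_C, th_C_mul]
    rw [← hκk]
    ring
  have k3 : LL (B1.map S.red) = X ^ p * (X ^ 2 - 1) * Ak := by
    rw [← LL_map, q3]
    have thXk : th (X ^ p : k[X]) = 0 := th_Xp p (CharP.cast_eq_zero k p)
    simp only [Polynomial.map_sub, Polynomial.map_mul, Polynomial.map_add, Polynomial.map_pow, map_X, th_map, rA, rB,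
      Polynomial.map_ofNat, Polynomial.map_one, mC, th_mul, thXk]
    ring
  have hW1k : W1.map S.red = 2 * (1 - X ^ (2 * p)) * V1.map S.red - C κk * (2 * (1 + 3 * X ^ (2 * p)) * S1.map S.red -
      2 * X ^ p * B1.map S.red + lk * Ak) := by
    rw [hW1]
    simp only [Polynomial.map_sub, Polynomial.map_mul, Polynomial.map_add, Polynomial.map_pow, map_X, rA,
      Polynomial.map_ofNat, Polynomial.map_one, hlk, Polynomial.map_C]
    rw [← hκk]
  have c2 : (2 : k[X]) = C 2 := (map_ofNat C 2).symm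
  have c3 : (3 : k[X]) = C 3 := (map_ofNat C 3).symm
  have lW : LL (W1.map S.red) = 0 := by
    have e0 : W1.map S.red = C 2 * (V1.map S.red - X ^ (2 * p) * V1.map S.red) - C κk * (C 2 * (S1.map S.red +
        C 3 * (X ^ (2 * p) * S1.map S.red)) - C 2 * (X ^ p * B1.map S.red) + lk * Ak) := by
      rw [hW1k, ← c2, ← c3]; ring
    rw [e0, LL_sub, LL_C_mul, LL_sub, LL_X2p, LL_C_mul, LL_add, LL_sub, LL_C_mul, LL_add, LL_C_mul, LL_X2p, LL_C_mul, LL_Xp,
      LL_mul, lA, k1, k2, k3, ← c2, ← c3]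
    linear_combination (-C κk * (4 * th Ak - Ak)) * l1 + (-C κk * (2 * Ak)) * l2
  -- degrees
  have cA : ∀ j, 2 * D < j → A.coeff j = 0 := fun j hj => Pn_coeff_high _ _ _ hj
  have cB : ∀ j, 8 * D + 1 < j → Bf.coeff j = 0 := by
    intro j hj
    rw [hBf, coeff_X_pow_mul', if_pos (by omega), Pn_coeff_high _ _ _ (by omega)]
  have cS : ∀ j, 8 * D < j → (Sp s p).coeff j = 0 := by
    intro j hj
    apply coeff_eq_zero_of_natDegree_lt
    have := Sp_natDegree s p1
    rw [← hp1] at this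
    omega
  have cV : ∀ j, 4 * D < j → V.coeff j = 0 := by
    intro j hj
    apply coeff_eq_zero_of_natDegree_lt
    have : V.natDegree ≤ 2 * (2 * D) := Sp_natDegree w (2 * D)
    omega
  have cLA : ∀ j, 10 * D + 2 < j → (C q * l * A).coeff j = 0 := by
    intro j hj
    apply coeff_eq_zero_of_natDegree_lt
    refine lt_of_le_of_lt natDegree_mul_le ?_
    have h1 : (C q * l).natDegree ≤ 2 * p := by
      rw [hl]
      have e1 : ((1 - X ^ 2) ^ p : O[X]).natDegree ≤ 2 * p := by
        refine natDegree_pow_le.trans ?_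
        have : (1 - X ^ 2 : O[X]).natDegree ≤ 2 := (natDegree_sub_le _ _).trans (max_le (by simp) (natDegree_X_pow_le _))
        nlinarith
      refine (natDegree_add_le _ _).trans (max_le ((natDegree_sub_le _ _).trans (max_le e1 (by simp))) (natDegree_X_pow_le _))
    have h2 : A.natDegree ≤ 2 * D := Pn_natDegree _ _
    omega
  have oLA : ∀ j, j % 2 = 1 → (C q * l * A).coeff j = 0 := by
    intro j hj
    have e1 : C q * l * A = expand O 2 (((1 - X) ^ p - 1 + X ^ p) * ∑ j ∈ range (D + 1), C (aa v (D - j) * aa v j) * X ^ j) := by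
      rw [hl, hA, Pn_expand, map_mul]
      congr 1
      simp only [map_add, map_sub, map_pow, map_one, expand_X]
      ring
    rw [e1, coeff_expand (by norm_num), if_neg (by omega)]
  have hcW : ∀ j, q * W1.coeff j = 2 * (V.coeff j - (if 2 * p ≤ j then V.coeff (j - 2 * p) else 0)) -
      κ * (2 * ((Sp s p).coeff j + 3 * (if 2 * p ≤ j then (Sp s p).coeff (j - 2 * p) else 0)) -
        6 * (if 2 * p ≤ j then A.coeff (j - 2 * p) else 0) - 2 * (if p ≤ j then Bf.coeff (j - p) else 0) +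
        (C q * l * A).coeff j) := by
    intro j
    rw [← coeff_C_mul, ← hW]
    have : 2 * (1 - X ^ (2 * p)) * V - C κ * (2 * (1 + 3 * X ^ (2 * p)) * Sp s p - 6 * X ^ (2 * p) * A -
      2 * X ^ p * Bf + C q * l * A) = C 2 * (V - X ^ (2 * p) * V) - C κ * (C 2 * (Sp s p + C 3 * (X ^ (2 * p) * Sp s p)) -
      C 6 * (X ^ (2 * p) * A) - C 2 * (X ^ p * Bf) + C q * l * A) := by
      simp only [map_ofNat]; ring
    rw [this]
    simp only [coeff_add, coeff_sub, coeff_C_mul (a := (2 : O)), coeff_C_mul (a := (3 : O)), coeff_C_mul (a := (6 : O)),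
      coeff_C_mul (a := κ), coeff_X_pow_mul']
  have wz : ∀ j, q * W1.coeff j = 0 → (W1.map S.red).coeff j = 0 := by
    intro j hj
    rw [coeff_map, (mul_eq_zero.mp hj).resolve_left hq0, map_zero]
  have htop : ∀ j, 4 * p ≤ j → (W1.map S.red).coeff j = 0 := by
    intro j hj
    apply wz
    rw [hcW, if_pos (by omega), if_pos (by omega), if_pos (by omega), if_pos (by omega), cA _ (by omega), cB _ (by omega),
      cLA _ (by omega), cS _ (by omega), cS _ (by omega), cV _ (by omega), cV _ (by omega)]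
    ring
  have hoddc : ∀ j, j % 2 = 1 → (W1.map S.red).coeff j = 0 := by
    intro j hj
    apply wz
    have a1 : V.coeff j = 0 := Sp_coeff_odd _ _ _ hj
    have a2 : (Sp s p).coeff j = 0 := Sp_coeff_odd _ _ _ hj
    have a3 : (if 2 * p ≤ j then V.coeff (j - 2 * p) else 0) = 0 := by
      split_ifs with h
      · exact Sp_coeff_odd _ _ _ (by omega)
      · rfl
    have a4 : (if 2 * p ≤ j then (Sp s p).coeff (j - 2 * p) else 0) = 0 := by
      split_ifs with h
      · exact Sp_coeff_odd _ _ _ (by omega)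
      · rfl
    have a5 : (if 2 * p ≤ j then A.coeff (j - 2 * p) else 0) = 0 := by
      split_ifs with h
      · exact Pn_coeff_odd _ _ _ (by omega)
      · rfl
    have a6 : (if p ≤ j then Bf.coeff (j - p) else 0) = 0 := by
      split_ifs with h
      · rw [hBf, coeff_X_pow_mul']
        split_ifs with h'
        · exact Pn_coeff_odd _ _ _ (by omega)
        · rfl
      · rfl
    rw [hcW, a1, a2, a3, a4, a5, a6, oLA j hj]
    ring
  have hfin := ker_even_eq hD lA aD dA lW htop hoddc oA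
  -- the values at `1` and `0`
  have v1 : W1.eval 1 = 0 := by
    have h := congrArg (fun P => P.eval 1) hW
    have hl' := congrArg (fun P => P.eval 1) hl
    simp only [eval_add, eval_sub, eval_mul, eval_pow, eval_X, eval_C, eval_one, eval_ofNat, one_pow] at h hl'
    rw [sub_self, zero_pow (by omega)] at hl'
    have eB1 : Bf.eval 1 = 1 := by
      rw [hBf, eval_mul, eval_pow, eval_X, one_pow, one_mul, Pn_eval_sq hv _ (one_pow 2)]
    have eS1 : (Sp s p).eval 1 = 1 := by
      rw [hp1, Sp_eval_sq _ _ (one_pow 2), hs0]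
    have eA1 : A.eval 1 = 1 := Pn_eval_sq hv _ (one_pow 2)
    rw [eB1, eS1, eA1] at h
    have : q * W1.eval 1 = 0 := by linear_combination -h - κ * hl'
    exact (mul_eq_zero.mp this).resolve_left hq0
  have v0 : ∃ c, W1.eval 0 = q * c := by
    have h := congrArg (fun P => P.eval 0) hW
    have hl' := congrArg (fun P => P.eval 0) hl
    simp only [eval_add, eval_sub, eval_mul, eval_pow, eval_X, eval_C, eval_one, eval_ofNat] at h hl'
    rw [zero_pow (by omega : 2 * p ≠ 0)] at h hl'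
    rw [zero_pow (by omega : p ≠ 0)] at h
    rw [zero_pow (by omega : (2 : ℕ) ≠ 0), sub_zero, one_pow] at hl'
    rw [S0v] at h
    have hV0 : V.eval 0 = κ * aa v D + q ^ 2 * e0 := by
      rw [hV, Sp_eval_zero]; linear_combination he0
    rw [hV0] at h
    refine ⟨2 * e0 + 2 * κ * (v * Q0.eval 0), ?_⟩
    apply mul_left_cancel₀ hq0
    linear_combination -h - κ * (A.eval 0) * hl'
  have ev : ∀ x : O, (W1.map S.red).eval (S.red x) = S.red (W1.eval x) := fun x => by
    rw [eval_map, eval₂_at_apply]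
  have ev1 := ev 1
  have ev0 := ev 0
  rw [map_one, v1, map_zero] at ev1
  obtain ⟨c, hc⟩ := v0
  rw [map_zero, hc, map_mul, hrq, zero_mul] at ev0
  have hc0 : (W1.map S.red).coeff 0 = 0 := by rw [coeff_zero_eq_eval_zero, ev0]
  rw [hc0, zero_div, C_0, zero_mul, zero_add] at hfin
  have t1 := congrArg (fun P => P.eval 1) hfin
  simp only [eval_mul, eval_C, eval_pow, eval_X, one_pow, one_mul] at t1
  rw [ev1, hAk, Pn_eval_sq hvk2 _ one1, mul_one] at t1
  have hz : W1.map S.red = 0 := by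
    rw [hfin, hAk, ← t1, C_0, zero_mul]
  obtain ⟨Q, hQ⟩ := S.dvd_of_map hz
  refine ⟨Q, ?_⟩
  rw [hW, hQ]
  ring

end Pool.Agent.H39
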