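import Pool.Agent.H39.Ode

set_option autoImplicit false

/-!
# The identity modulo `p²`
-/

namespace Pool.Agent.H39

open Polynomial Finset
open Pool.Agent.H546 Pool.Agent.Q267.MW

theorem cb_conv (n : ℕ) : ∑ j ∈ range (n + 1), ((n - j).centralBinom : ℚ) * (j.centralBinom : ℚ) = 4 ^ n := by
  have two : ∀ n : ℕ, 2 * ∑ j ∈ range (n + 1), (j : ℚ) * (((n - j).centralBinom : ℚ) * (j.centralBinom : ℚ)) =
      n * ∑ j ∈ range (n + 1), ((n - j).centralBinom : ℚ) * (j.centralBinom : ℚ) := by
    intro n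
    have h := sum_flip (n := n) (fun j => (j : ℚ) * (((n - j).centralBinom : ℚ) * (j.centralBinom : ℚ)))
    rw [two_mul]
    nth_rewrite 1 [← h]
    rw [← sum_add_distrib, mul_sum]
    refine sum_congr rfl fun j hj => ?_
    rw [mem_range] at hj
    rw [show n - (n - j) = j by omega, Nat.cast_sub (by omega)]
    ring
  induction n with
  | zero => simp
  | succ n ih =>
    have h1 := two (n + 1)
    have h2 := two n
    rw [sum_range_succ' _ (n + 1)] at h1
    have e : ∑ j ∈ range (n + 1), ((j + 1 : ℕ) : ℚ) * (((n + 1 - (j + 1)).centralBinom : ℚ) * ((j + 1).centralBinom : ℚ)) =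
        2 * (2 * ∑ j ∈ range (n + 1), (j : ℚ) * (((n - j).centralBinom : ℚ) * (j.centralBinom : ℚ)) +
          ∑ j ∈ range (n + 1), ((n - j).centralBinom : ℚ) * (j.centralBinom : ℚ)) := by
      rw [mul_sum, ← sum_add_distrib, mul_sum]
      refine sum_congr rfl fun j _ => ?_
      have h := congrArg (Nat.cast : ℕ → ℚ) (Nat.succ_mul_centralBinom_succ j)
      push_cast at h
      rw [show n + 1 - (j + 1) = n - j by omega]
      push_cast
      linear_combination ((n - j).centralBinom : ℚ) * h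
    rw [e, h2, ih] at h1
    have hn : ((n : ℚ) + 1) ≠ 0 := by positivity
    apply mul_left_cancel₀ hn
    push_cast at h1
    rw [pow_succ]
    linear_combination -h1

theorem aa_conv {R : Type*} [CommRing R] {v : R} (hv : 2 * v = 1) (n : ℕ) :
    ∑ j ∈ range (n + 1), aa v (n - j) * aa v j = 1 := by
  have h := cb_conv n
  have h' : ∑ j ∈ range (n + 1), (n - j).centralBinom * j.centralBinom = 4 ^ n := by exact_mod_cast h
  have e : ∑ j ∈ range (n + 1), aa v (n - j) * aa v j =
      (v * v) ^ n * ((∑ j ∈ range (n + 1), (n - j).centralBinom * j.centralBinom : ℕ) : R) := by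
    rw [Nat.cast_sum, mul_sum]
    refine sum_congr rfl fun j hj => ?_
    rw [mem_range] at hj
    unfold aa
    have : (v * v) ^ n = (v * v) ^ (n - j) * (v * v) ^ j := by rw [← pow_add]; congr 1; omega
    rw [this]; push_cast; ring
  rw [e, h']
  push_cast
  rw [← mul_pow]
  have : v * v * 4 = 1 := by linear_combination (2 * v + 1) * hv
  rw [this, one_pow]

section basic

variable {R : Type*} [CommRing R]

theorem Pn_map {T : Type*} [CommRing T] (g : R →+* T) (v : R) (n : ℕ) : (Pn v n).map g = Pn (g v) n := by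
  unfold Pn aa
  rw [Polynomial.map_sum]
  refine sum_congr rfl fun j _ => ?_
  simp

theorem Pn_coeff_odd (v : R) (n j : ℕ) (h : j % 2 = 1) : (Pn v n).coeff j = 0 := by
  unfold Pn
  rw [finsetSum_coeff]
  refine sum_eq_zero fun i _ => ?_
  rw [coeff_C_mul, coeff_X_pow, if_neg (by omega), mul_zero]

theorem Pn_coeff_high (v : R) (n j : ℕ) (h : 2 * n < j) : (Pn v n).coeff j = 0 := by
  unfold Pn
  rw [finsetSum_coeff]
  refine sum_eq_zero fun i hi => ?_
  rw [mem_range] at hi
  rw [coeff_C_mul, coeff_X_pow, if_neg (by omega), mul_zero]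

theorem Pn_natDegree (v : R) (n : ℕ) : (Pn v n).natDegree ≤ 2 * n := by
  rw [natDegree_le_iff_coeff_eq_zero]
  intro j hj
  exact Pn_coeff_high v n j hj

theorem Pn_coeff_zero (v : R) (n : ℕ) : (Pn v n).coeff 0 = aa v n := by
  unfold Pn
  rw [finsetSum_coeff, sum_range_succ']
  rw [sum_eq_zero]
  · simp [aa_zero]
  · intro i _
    rw [coeff_C_mul, coeff_X_pow, if_neg (by omega), mul_zero]

theorem Pn_eval_sq {v : R} (hv : 2 * v = 1) (n : ℕ) {x : R} (hx : x ^ 2 = 1) : (Pn v n).eval x = 1 := by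
  unfold Pn
  rw [eval_finsetSum, ← aa_conv hv n]
  refine sum_congr rfl fun j _ => ?_
  rw [eval_mul, eval_C, eval_pow, eval_X, pow_mul, hx, one_pow, mul_one]

theorem Gp_map {T : Type*} [CommRing T] (g : R →+* T) (v : R) (D : ℕ) : (Gp v D).map g = Gp (g v) D := by
  unfold Gp gc
  rw [Polynomial.map_sum]
  refine sum_congr rfl fun j _ => ?_
  simp [map_ofNat]

theorem Gp_natDegree (v : R) (D : ℕ) : (Gp v D).natDegree ≤ 2 * D := by
  unfold Gp
  refine natDegree_sum_le_of_forall_le _ _ fun m hm => ?_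
  rw [mem_range] at hm
  refine (natDegree_C_mul_le _ _).trans ?_
  refine natDegree_mul_le.trans ?_
  have h1 : (X ^ (D - m) : R[X]).natDegree ≤ D - m := natDegree_X_pow_le _
  have h2 : ((1 + X) ^ (2 * m) : R[X]).natDegree ≤ 2 * m := by
    refine natDegree_pow_le.trans ?_
    have : (1 + X : R[X]).natDegree ≤ 1 := by
      refine (natDegree_add_le _ _).trans (max_le (by simp) natDegree_X_le)
    nlinarith
  omega

theorem Gp_eval (v : R) (D : ℕ) : (Gp v D).eval (-1) = (-4) ^ D := by
  unfold Gp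
  rw [eval_finsetSum, sum_range_succ', sum_eq_zero]
  · simp only [gc, eval_mul, eval_C, eval_pow, eval_X, eval_add, eval_one]
    simp
    rw [pow_mul, ← mul_pow]
    norm_num
  · intro m _
    simp only [eval_mul, eval_C, eval_pow, eval_X, eval_add, eval_one]
    have : (1 + -1 : R) = 0 := by ring
    rw [this, zero_pow (by omega)]; ring

/-- the truncated sum as a polynomial -/
noncomputable def Sp (s : ℕ → R) (N : ℕ) : R[X] := ∑ n ∈ range N, C (s n) * (1 - X ^ 2) ^ n

theorem Sp_map {T : Type*} [CommRing T] (g : R →+* T) (s : ℕ → R) (N : ℕ) : (Sp s N).map g = Sp (fun n => g (s n)) N := by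
  unfold Sp
  rw [Polynomial.map_sum]
  refine sum_congr rfl fun j _ => ?_
  simp

theorem Sp_expand (s : ℕ → R) (N : ℕ) : Sp s N = expand R 2 (∑ n ∈ range N, C (s n) * (1 - X) ^ n) := by
  unfold Sp
  rw [map_sum]
  refine sum_congr rfl fun j _ => ?_
  simp

theorem Sp_coeff_odd (s : ℕ → R) (N j : ℕ) (h : j % 2 = 1) : (Sp s N).coeff j = 0 := by
  rw [Sp_expand, coeff_expand (by norm_num), if_neg (by omega)]

theorem Sp_natDegree (s : ℕ → R) (N : ℕ) : (Sp s (N + 1)).natDegree ≤ 2 * N := by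
  unfold Sp
  refine natDegree_sum_le_of_forall_le _ _ fun m hm => ?_
  rw [mem_range] at hm
  refine (natDegree_C_mul_le _ _).trans ?_
  refine natDegree_pow_le.trans ?_
  have : (1 - X ^ 2 : R[X]).natDegree ≤ 2 := by
    refine (natDegree_sub_le _ _).trans (max_le (by simp) (natDegree_X_pow_le _))
  nlinarith

theorem Sp_eval_sq (s : ℕ → R) (N : ℕ) {x : R} (hx : x ^ 2 = 1) : (Sp s (N + 1)).eval x = s 0 := by
  unfold Sp
  rw [eval_finsetSum, sum_range_succ', sum_eq_zero]
  · simp
  · intro m _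
    simp [hx]

end basic

variable {O K k : Type*} [CommRing O] [IsDomain O] [Field K] [Algebra O K] [Field k]
  (S : DV O K k) {p D : ℕ} [hp : Fact p.Prime] [CharP k p]

/-- the Legendre symbol of two -/
theorem four_pow (hD : p = 4 * D + 1) : ∃ x : ℤ, (-4 : ℤ) ^ D = 1 + p * x := by
  have h2 : p ≠ 2 := by omega
  have h := legendreSym.eq_pow p 2
  rw [legendreSym.at_two h2, ZMod.χ₈_nat_eq_if_mod_eight, if_neg (by omega), show p / 2 = 2 * D by omega] at h
  have key : (((-4 : ℤ) ^ D - 1 : ℤ) : ZMod p) = 0 := by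
    have e : ((-4 : ZMod p)) ^ D = (-1) ^ D * ((2 : ℤ) : ZMod p) ^ (2 * D) := by
      rw [pow_mul, ← mul_pow]; norm_num
    push_cast
    rw [e, ← h]
    rcases Nat.even_or_odd D with hd | hd
    · rw [if_pos, hd.neg_one_pow]
      · push_cast; ring
      · obtain ⟨c, hc⟩ := hd; omega
    · rw [if_neg, hd.neg_one_pow]
      · push_cast; ring
      · obtain ⟨c, hc⟩ := hd; omega
  obtain ⟨x, hx⟩ := (ZMod.intCast_zmod_eq_zero_iff_dvd _ p).mp key
  exact ⟨x, by linear_combination hx⟩

include S in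
theorem s_div (hD : p = 4 * D + 1) (hq : S.q = (p : O)) {s : ℕ → O}
    (hs : ∀ n, n + 1 < p → 8 * ((n : O) + 1) ^ 2 * s (n + 1) = (4 * (n : O) + 1) * (2 * (n : O) + 1) * s n) :
    S.q ^ 2 ∣ s (p - 1) := by
  have hp2 := hp.out.two_le
  have hD0 : 0 < D := by
    rcases Nat.eq_zero_or_pos D with h | h
    · rw [h] at hD; exact absurd hp.out (by rw [hD]; norm_num)
    · exact h
  have un : ∀ n, n + 1 < p → IsUnit (8 * ((n : O) + 1) ^ 2) := by
    intro n hn
    apply S.unit_of_red
    have h2 : (2 : k) ≠ 0 := by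
      have := small_ne (k := k) (p := p) (n := 2) (by norm_num) (by omega)
      exact_mod_cast this
    have h1 := small_ne (k := k) (p := p) (n := n + 1) (by omega) hn
    rw [map_mul, map_pow, map_add, map_one, map_natCast, map_ofNat, show (8 : k) = 2 ^ 3 by norm_num]
    refine mul_ne_zero (pow_ne_zero _ h2) (pow_ne_zero _ ?_)
    exact_mod_cast h1
  have st : ∀ (j n : ℕ), n + 1 < p → S.q ^ j ∣ s n → S.q ^ j ∣ s (n + 1) := by
    intro j n hn h
    have h1 : S.q ^ j ∣ 8 * ((n : O) + 1) ^ 2 * s (n + 1) := by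
      rw [hs n hn]; exact Dvd.dvd.mul_left h _
    exact ((un n hn).dvd_mul_left).mp h1
  have hpO : S.q = 4 * (D : O) + 1 := by
    rw [hq]
    have := congrArg (Nat.cast : ℕ → O) hD
    push_cast at this
    exact this
  have c1 : ∀ i, D + 1 + i < p → S.q ^ 1 ∣ s (D + 1 + i) := by
    intro i
    induction i with
    | zero =>
      intro h
      have h1 : S.q ^ 1 ∣ 8 * ((D : O) + 1) ^ 2 * s (D + 1) := by
        rw [hs D (by omega), ← hpO, pow_one, mul_assoc]; exact Dvd.intro _ rfl
      exact ((un D (by omega)).dvd_mul_left).mp h1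
    | succ i ih =>
      intro h
      exact st 1 _ (by omega) (ih (by omega))
  have c2 : ∀ i, 2 * D + 1 + i < p → S.q ^ 2 ∣ s (2 * D + 1 + i) := by
    intro i
    induction i with
    | zero =>
      intro h
      have h0 := c1 (D - 1) (by omega)
      rw [show D + 1 + (D - 1) = 2 * D by omega, pow_one] at h0
      have h1 : S.q ^ 2 ∣ 8 * (((2 * D : ℕ) : O) + 1) ^ 2 * s (2 * D + 1) := by
        rw [hs (2 * D) (by omega)]
        have e : 2 * (((2 * D : ℕ) : O)) + 1 = S.q := by rw [hpO]; push_cast; ring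
        rw [e, pow_two, mul_assoc]
        exact Dvd.dvd.mul_left (mul_dvd_mul_left _ h0) _
      exact ((un (2 * D) (by omega)).dvd_mul_left).mp h1
    | succ i ih =>
      intro h
      exact st 2 _ (by omega) (ih (by omega))
  have := c2 (2 * D - 1) (by omega)
  rwa [show 2 * D + 1 + (2 * D - 1) = p - 1 by omega] at this

set_option maxHeartbeats 1000000 in
/-- **The identity modulo `p²`.** -/
theorem idX (hD : p = 4 * D + 1) (hq : S.q = (p : O)) {v : O} (hv : 2 * v = 1) {s : ℕ → O} (hs0 : s 0 = 1)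
    (hs : ∀ n, n + 1 < p → 8 * ((n : O) + 1) ^ 2 * s (n + 1) = (4 * (n : O) + 1) * (2 * (n : O) + 1) * s n)
    {L : O[X]} (hL : C S.q * L = (1 - X) ^ p - 1 + X ^ p) :
    ∃ Q : O[X], 3 * X ^ p * Pn v D + X ^ (2 * D + 1) * Pn v (3 * D) + 2 * (1 - X ^ p) * Gp v D -
      C S.q * L * Pn v D - 2 * (1 + X ^ p) * Sp s p = C S.q ^ 2 * Q := by
  classical
  have hp2 := hp.out.two_le
  have hD0 : 0 < D := by
    rcases Nat.eq_zero_or_pos D with h | h
    · rw [h] at hD; exact absurd hp.out (by rw [hD]; norm_num)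
    · exact h
  set q := S.q with hqd
  have hq0 : q ≠ 0 := S.q_ne
  have hCq : (C q : O[X]) ≠ 0 := C_ne_zero.mpr hq0
  have hrq : S.red q = 0 := S.red_q
  have h2k : (2 : k) ≠ 0 := by
    have := small_ne (k := k) (p := p) (n := 2) (by norm_num) (by omega)
    exact_mod_cast this
  set A := Pn v D with hA
  set Bf := X ^ (2 * D + 1) * Pn v (3 * D) with hBf
  set G := Gp v D with hG
  have hqO : q = 4 * (D : O) + 1 := by
    rw [hq]
    have := congrArg (Nat.cast : ℕ → O) hD
    push_cast at this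
    exact this
  have hqX : (C q : O[X]) = 4 * (D : O[X]) + 1 := by
    rw [hqO]; simp [map_ofNat]
  have hpX : ((p : ℕ) : O[X]) = C q := by rw [hq]; simp
  -- equations
  have eA := LL_A hv D
  rw [← hqX, ← hA] at eA
  have eB := LL_B hv D
  rw [← hqX, ← hBf] at eB
  have eG := LL_G hv D
  rw [← hqX, ← hG] at eG
  obtain ⟨p1, hp1⟩ : ∃ p1, p = p1 + 1 := ⟨p - 1, by omega⟩
  have eS := LL_S hs p1 (by omega)
  have hSp : (∑ n ∈ range (p1 + 1), C (s n) * (1 - X ^ 2) ^ n : O[X]) = Sp s p := by rw [hp1]; rfl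
  rw [hSp] at eS
  obtain ⟨s2, hs2⟩ := s_div S hD hq hs
  rw [show p - 1 = p1 by omega] at hs2
  rw [hs2, map_mul, map_pow] at eS
  set Es : O[X] := -X ^ 2 * ((4 * (p1 : O[X]) + 1) * (2 * (p1 : O[X]) + 1) * C s2 * (1 - X ^ 2) ^ p1) with hEs
  have eS' : LL (Sp s p) = C q ^ 2 * Es := by rw [eS, hEs]; ring
  -- reductions
  set vk := S.red v with hvk
  have hvk2 : 2 * vk = 1 := by rw [hvk, ← map_ofNat S.red 2, ← map_mul, hv, map_one]
  set Ak := Pn vk D with hAk
  have rA : A.map S.red = Ak := Pn_map _ _ _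
  have mC : (C q : O[X]).map S.red = 0 := by rw [Polynomial.map_C, hrq, C_0]
  have lA : LL Ak = 0 := by
    rw [← rA, ← LL_map, eA, Polynomial.map_mul, mC, zero_mul]
  have aD : Ak.coeff 0 ≠ 0 := by
    rw [hAk, Pn_coeff_zero]
    unfold aa
    have h4 : vk ≠ 0 := by rintro h0; rw [h0, mul_zero] at hvk2; exact zero_ne_one hvk2
    refine mul_ne_zero ?_ (pow_ne_zero _ (mul_ne_zero h4 h4))
    intro h0
    rw [CharP.cast_eq_zero_iff k p] at h0
    have h1 : D.centralBinom ∣ (2 * D).factorial := by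
      refine ⟨D.factorial * D.factorial, ?_⟩
      have := Nat.choose_mul_factorial_mul_factorial (show D ≤ 2 * D by omega)
      rw [show 2 * D - D = D by omega] at this
      rw [Nat.centralBinom, ← this]; ring
    have := (hp.out.dvd_factorial).mp (h0.trans h1)
    omega
  have dA : Ak.natDegree ≤ 2 * D := Pn_natDegree _ _
  have oA : ∀ j, j % 2 = 1 → Ak.coeff j = 0 := fun j hj => Pn_coeff_odd _ _ _ hj
  have one1 : (1 : k) ^ 2 = 1 := one_pow 2
  have mone : (-1 : k) ^ 2 = 1 := by norm_num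
  have mone' : (-1 : O) ^ 2 = 1 := by norm_num
  have podd : Odd p := ⟨2 * D, by omega⟩
  -- S mod p
  have rS : (Sp s p).map S.red = Ak := by
    have h1 : LL ((Sp s p).map S.red) = 0 := by
      rw [← LL_map, eS', Polynomial.map_mul, Polynomial.map_pow, mC]; ring
    have h2 := ker_eq hD lA aD dA h1 ?_ ?_ oA
    · rw [Sp_map] at h2 ⊢
      rw [Sp_coeff_odd _ _ p (by omega), zero_div, C_0, zero_mul, add_zero] at h2
      have h3 := congrArg (fun P => P.eval 1) h2
      simp only [eval_mul, eval_C] at h3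
      rw [hp1, Sp_eval_sq _ _ one1, hAk, Pn_eval_sq hvk2 _ one1, hs0, map_one, mul_one, ← hp1, ← hAk] at h3
      rw [h2, ← h3, C_1, one_mul]
    · intro j hj
      rw [Sp_map]
      apply coeff_eq_zero_of_natDegree_lt
      have := Sp_natDegree (fun n => S.red (s n)) p1
      rw [← hp1] at this
      omega
    · intro j _ hj
      rw [Sp_map]
      apply coeff_eq_zero_of_natDegree_lt
      have := Sp_natDegree (fun n => S.red (s n)) p1
      rw [← hp1] at this
      omega
  -- the value of G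
  obtain ⟨x4, hx4⟩ := four_pow hD
  have h4k : (-4 : k) ^ D = 1 := by
    have := congrArg (Int.cast : ℤ → k) hx4
    push_cast at this
    rw [this, CharP.cast_eq_zero k p]; ring
  have rG : G.map S.red = Ak := by
    have h1 : LL (G.map S.red) = 0 := by
      rw [← LL_map, eG, Polynomial.map_mul, Polynomial.map_neg, mC]; ring
    have hd := Gp_natDegree vk D
    rw [hG, Gp_map] at h1 ⊢
    rw [← hvk] at h1 ⊢
    have hz : ∀ j, 2 * D < j → (Gp vk D).coeff j = 0 := fun j hj => coeff_eq_zero_of_natDegree_lt (by omega)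
    have h2 := ker_eq hD lA aD dA h1 (fun j hj => hz j (by omega)) (fun j _ hj => hz j (by omega)) oA
    rw [hz p (by omega), zero_div, C_0, zero_mul, add_zero] at h2
    have h3 := congrArg (fun P => P.eval (-1)) h2
    simp only [eval_mul, eval_C] at h3
    rw [Gp_eval, hAk, Pn_eval_sq hvk2 _ mone, h4k, mul_one, ← hAk] at h3
    rw [h2, ← h3, C_1, one_mul]
  have rB : Bf.map S.red = X ^ p * Ak := by
    have h1 : LL (Bf.map S.red) = 0 := by
      rw [← LL_map, eB, Polynomial.map_mul, mC]; ring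
    have hm : Bf.map S.red = X ^ (2 * D + 1) * Pn vk (3 * D) := by
      rw [hBf, Polynomial.map_mul, Polynomial.map_pow, map_X, Pn_map]
    rw [hm] at h1 ⊢
    have hz : ∀ j, 8 * D + 1 < j → (X ^ (2 * D + 1) * Pn vk (3 * D)).coeff j = 0 := by
      intro j hj
      rw [coeff_X_pow_mul', if_pos (by omega), Pn_coeff_high _ _ _ (by omega)]
    have h2 := ker_eq hD lA aD dA h1 (fun j hj => hz j (by omega)) (fun j _ hj => hz j (by omega)) oA
    have hc0 : (X ^ (2 * D + 1) * Pn vk (3 * D)).coeff 0 = 0 := by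
      rw [coeff_X_pow_mul', if_neg (by omega)]
    rw [hc0, zero_div, C_0, zero_mul, zero_add] at h2
    have h3 := congrArg (fun P => P.eval 1) h2
    simp only [eval_mul, eval_C, eval_pow, eval_X, one_pow, one_mul] at h3
    rw [hAk, Pn_eval_sq hvk2 _ one1, Pn_eval_sq hvk2 _ one1, mul_one, ← hAk] at h3
    rw [h2, ← h3, C_1, one_mul]
  -- lifts
  obtain ⟨S1, hS1⟩ := S.dvd_of_map (P := Sp s p - A) (by rw [Polynomial.map_sub, rS, rA, sub_self])
  obtain ⟨G1, hG1⟩ := S.dvd_of_map (P := G - A) (by rw [Polynomial.map_sub, rG, rA, sub_self])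
  obtain ⟨B1, hB1⟩ := S.dvd_of_map (P := Bf - X ^ p * A) (by
    rw [Polynomial.map_sub, rB, Polynomial.map_mul, Polynomial.map_pow, map_X, rA, sub_self])
  rw [← hqd] at hS1 hG1 hB1
  have hSe : Sp s p = A + C q * S1 := by linear_combination hS1
  have hGe : G = A + C q * G1 := by linear_combination hG1
  have hBe : Bf = X ^ p * A + C q * B1 := by linear_combination hB1
  set W1 := B1 + 2 * (1 - X ^ p) * G1 - L * A - 2 * (1 + X ^ p) * S1 with hW1
  have hW : 3 * X ^ p * A + Bf + 2 * (1 - X ^ p) * G - C q * L * A - 2 * (1 + X ^ p) * Sp s p = C q * W1 := by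
    rw [hSe, hGe, hBe, hW1]; ring
  -- the equations of the quotients
  have q1 : LL S1 = C q * Es - (th A - X ^ 2 * (th A + A)) := by
    apply mul_left_cancel₀ hCq
    rw [← LL_C_mul, ← hS1, LL_sub, eS', eA]; ring
  have q2 : LL G1 = -(X ^ 2 * G + 2 * (X ^ 2 + X) * (th G - (D : O[X]) * G)) - (th A - X ^ 2 * (th A + A)) := by
    apply mul_left_cancel₀ hCq
    rw [← LL_C_mul, ← hG1, LL_sub, eG, eA]; ring
  have thXp : th (X ^ p : O[X]) = C q * X ^ p := by rw [th_pow, hpX]
  have q3 : LL B1 = ((5 * th Bf - (2 + 2 * C q) * Bf) - X ^ 2 * (5 * th Bf + (3 - 2 * C q) * Bf)) -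
      X ^ p * (th A - X ^ 2 * (th A + A)) - 2 * (1 - X ^ 2) * (2 * X ^ p * th A + C q * X ^ p * A) +
      (1 + 3 * X ^ 2) * X ^ p * A := by
    apply mul_left_cancel₀ hCq
    rw [← LL_C_mul, ← hB1, LL_sub, eB, LL_mul, thXp, th_C_mul, thXp, eA]; ring
  have q4 : th L = X ^ p - X * (1 - X) ^ (p - 1) := by
    apply mul_left_cancel₀ hCq
    rw [← th_C_mul, hL, th_add, thXp, th_sub, th_one]
    have : th ((1 - X) ^ p : O[X]) = - C q * (X * (1 - X) ^ (p - 1)) := by
      simp only [th, derivative_pow, derivative_sub, derivative_one, derivative_X, map_natCast, hpX]; ring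
    rw [this]; ring
  -- in characteristic p
  set Lk := L.map S.red with hLk
  have l1 : (X - 1) * th Lk = X - X ^ p := by
    rw [hLk, ← th_map, q4]
    simp only [Polynomial.map_sub, Polynomial.map_pow, map_X, Polynomial.map_mul, Polynomial.map_one]
    have : (X - 1) * (X ^ p - X * (1 - X) ^ (p - 1)) = (X - 1) * X ^ p + X * (1 - X : k[X]) ^ p := by
      rw [hp1, Nat.add_sub_cancel, pow_succ (1 - X : k[X])]; ring
    rw [this, sub_pow_char, one_pow]; ring
  have thXk : th (X ^ p : k[X]) = 0 := th_Xp p (CharP.cast_eq_zero k p)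
  have l2 : (X - 1) * th (th Lk) = X - X * th Lk := by
    have h := congrArg th l1
    rw [th_mul, th_sub, th_sub, thXk, th_X, th_one] at h
    linear_combination h
  have k1 : LL (S1.map S.red) = -(th Ak - X ^ 2 * (th Ak + Ak)) := by
    rw [← LL_map, q1]
    simp only [Polynomial.map_sub, Polynomial.map_mul, Polynomial.map_add, Polynomial.map_pow, map_X, mC, th_map, rA]
    ring
  have k2 : LL (G1.map S.red) = -(X ^ 2 * Ak + 2 * (X ^ 2 + X) * (th Ak - (D : k[X]) * Ak)) - (th Ak - X ^ 2 * (th Ak + Ak)) := by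
    rw [← LL_map, q2]
    simp only [Polynomial.map_sub, Polynomial.map_mul, Polynomial.map_add, Polynomial.map_neg, Polynomial.map_pow, map_X, th_map, rA, rG,
      Polynomial.map_natCast, Polynomial.map_ofNat]
  have k3 : LL (B1.map S.red) = X ^ p * (X ^ 2 - 1) * Ak := by
    rw [← LL_map, q3]
    simp only [Polynomial.map_sub, Polynomial.map_mul, Polynomial.map_add, Polynomial.map_pow, map_X, th_map, rA, rB,
      Polynomial.map_ofNat, Polynomial.map_one, mC, th_mul, thXk]
    ring
  have hW1k : W1.map S.red = B1.map S.red + 2 * (1 - X ^ p) * G1.map S.red - Lk * Ak - 2 * (1 + X ^ p) * S1.map S.red := by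
    rw [hW1]
    simp only [Polynomial.map_sub, Polynomial.map_mul, Polynomial.map_add, Polynomial.map_pow, map_X, rA,
      Polynomial.map_ofNat, Polynomial.map_one, hLk]
  have hD4 : 4 * (D : k[X]) + 1 = 0 := by
    have h := congrArg (Nat.cast : ℕ → k[X]) hD
    push_cast at h
    rw [← h]
    have : ((p : ℕ) : k[X]) = C ((p : ℕ) : k) := by simp
    rw [this, CharP.cast_eq_zero k p, C_0]
  have c2 : (2 : k[X]) = C 2 := (map_ofNat C 2).symm
  have lW : LL (W1.map S.red) = 0 := by
    have e1 : LL (2 * (1 - X ^ p) * G1.map S.red) = 2 * (1 - X ^ p) * LL (G1.map S.red) := by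
      have : 2 * (1 - X ^ p) * G1.map S.red = C 2 * (G1.map S.red - X ^ p * G1.map S.red) := by rw [← c2]; ring
      rw [this, LL_C_mul, LL_sub, LL_Xp, ← c2]; ring
    have e2 : LL (2 * (1 + X ^ p) * S1.map S.red) = 2 * (1 + X ^ p) * LL (S1.map S.red) := by
      have : 2 * (1 + X ^ p) * S1.map S.red = C 2 * (S1.map S.red + X ^ p * S1.map S.red) := by rw [← c2]; ring
      rw [this, LL_C_mul, LL_add, LL_Xp, ← c2]; ring
    rw [hW1k, LL_sub, LL_sub, LL_add, e1, e2, k1, k2, k3, LL_mul, lA]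
    linear_combination (4 * (X + 1) * th Ak + (X - 1) * Ak) * l1 + (2 * (X + 1) * Ak) * l2 +
      ((1 - X ^ p) * (X ^ 2 + X) * Ak) * hD4
  -- degrees
  have cA : ∀ j, 2 * D < j → A.coeff j = 0 := fun j hj => Pn_coeff_high _ _ _ hj
  have cG : ∀ j, 2 * D < j → G.coeff j = 0 := fun j hj => coeff_eq_zero_of_natDegree_lt (by
    have := Gp_natDegree v D
    rw [← hG] at this
    omega)
  have cB : ∀ j, 8 * D + 1 < j → Bf.coeff j = 0 := by
    intro j hj
    rw [hBf, coeff_X_pow_mul', if_pos (by omega), Pn_coeff_high _ _ _ (by omega)]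
  have cS : ∀ j, 8 * D < j → (Sp s p).coeff j = 0 := by
    intro j hj
    apply coeff_eq_zero_of_natDegree_lt
    have := Sp_natDegree s p1
    rw [← hp1] at this
    omega
  have cLA : ∀ j, 6 * D + 1 < j → (C q * L * A).coeff j = 0 := by
    intro j hj
    apply coeff_eq_zero_of_natDegree_lt
    refine lt_of_le_of_lt natDegree_mul_le ?_
    have h1 : (C q * L).natDegree ≤ p := by
      rw [hL]
      have e1 : ((1 - X) ^ p : O[X]).natDegree ≤ p := by
        refine natDegree_pow_le.trans ?_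
        have : (1 - X : O[X]).natDegree ≤ 1 := (natDegree_sub_le _ _).trans (max_le (by simp) natDegree_X_le)
        nlinarith
      refine (natDegree_add_le _ _).trans (max_le ((natDegree_sub_le _ _).trans (max_le e1 (by simp))) (natDegree_X_pow_le _))
    have h2 : A.natDegree ≤ 2 * D := Pn_natDegree _ _
    omega
  have hcW : ∀ j, q * W1.coeff j = 3 * (if p ≤ j then A.coeff (j - p) else 0) + Bf.coeff j +
      2 * (G.coeff j - (if p ≤ j then G.coeff (j - p) else 0)) - (C q * L * A).coeff j -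
      2 * ((Sp s p).coeff j + (if p ≤ j then (Sp s p).coeff (j - p) else 0)) := by
    intro j
    rw [← coeff_C_mul, ← hW]
    have : 3 * X ^ p * A + Bf + 2 * (1 - X ^ p) * G - C q * L * A - 2 * (1 + X ^ p) * Sp s p =
      C 3 * (X ^ p * A) + Bf + C 2 * (G - X ^ p * G) - C q * L * A - C 2 * (Sp s p + X ^ p * Sp s p) := by
      simp only [map_ofNat]; ring
    rw [this]
    simp only [coeff_add, coeff_sub, coeff_C_mul, coeff_X_pow_mul']
  have wz : ∀ j, q * W1.coeff j = 0 → (W1.map S.red).coeff j = 0 := by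
    intro j hj
    rw [coeff_map, (mul_eq_zero.mp hj).resolve_left hq0, map_zero]
  have htop : ∀ j, 3 * p - 1 ≤ j → (W1.map S.red).coeff j = 0 := by
    intro j hj
    apply wz
    rw [hcW, if_pos (by omega), if_pos (by omega), if_pos (by omega), cA _ (by omega), cB _ (by omega), cG _ (by omega),
      cG _ (by omega), cLA _ (by omega), cS _ (by omega), cS _ (by omega)]
    ring
  have hev : ∀ j, j % 2 = 0 → 2 * p ≤ j → (W1.map S.red).coeff j = 0 := by
    intro j hj hj2
    apply wz
    rw [hcW, if_pos (by omega), if_pos (by omega), if_pos (by omega), cA _ (by omega), cB _ (by omega), cG _ (by omega),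
      cG _ (by omega), cLA _ (by omega), cS _ (by omega), Sp_coeff_odd _ _ _ (by omega)]
    ring
  have hfin := ker_eq hD lA aD dA lW htop hev oA
  -- the values at `1` and `-1`
  have v1 : W1.eval 1 = 0 := by
    have h := congrArg (fun P => P.eval 1) hW
    have hl := congrArg (fun P => P.eval 1) hL
    simp only [eval_add, eval_sub, eval_mul, eval_pow, eval_X, eval_C, eval_one, eval_ofNat, one_pow] at h hl
    rw [sub_self, zero_pow (by omega)] at hl
    have eB1 : Bf.eval 1 = 1 := by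
      rw [hBf, eval_mul, eval_pow, eval_X, one_pow, one_mul, Pn_eval_sq hv _ (one_pow 2)]
    have eS1 : (Sp s p).eval 1 = 1 := by
      rw [hp1, Sp_eval_sq _ _ (one_pow 2), hs0]
    have eA1 : A.eval 1 = 1 := Pn_eval_sq hv _ (one_pow 2)
    rw [eB1, eS1, eA1] at h
    have : q * W1.eval 1 = 0 := by linear_combination -h - hl
    exact (mul_eq_zero.mp this).resolve_left hq0
  have v2 : ∃ c, W1.eval (-1) = q * c := by
    have h := congrArg (fun P => P.eval (-1)) hW
    have hl := congrArg (fun P => P.eval (-1)) hL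
    simp only [eval_add, eval_sub, eval_mul, eval_pow, eval_X, eval_C, eval_one, eval_ofNat] at h hl
    rw [podd.neg_one_pow] at h hl
    have eB1 : Bf.eval (-1) = -1 := by
      rw [hBf, eval_mul, eval_pow, eval_X, Pn_eval_sq hv _ mone', Odd.neg_one_pow ⟨D, rfl⟩]; ring
    have eS1 : (Sp s p).eval (-1) = 1 := by
      rw [hp1, Sp_eval_sq _ _ mone', hs0]
    have eA1 : A.eval (-1) = 1 := Pn_eval_sq hv _ mone'
    have eG1 : G.eval (-1) = 1 + q * (x4 : O) := by
      rw [hG, Gp_eval, hq]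
      exact_mod_cast congrArg (Int.cast : ℤ → O) hx4
    have e2p : (1 - -1 : O) ^ p = 2 * (1 + q * (x4 : O)) ^ 2 := by
      rw [← eG1, hG, Gp_eval, hD]
      have : (1 - -1 : O) = 2 := by norm_num
      rw [this, pow_succ, pow_mul, ← pow_mul (-4 : O), mul_comm D 2, pow_mul (-4 : O)]
      norm_num
      ring
    rw [eB1, eS1, eA1, eG1] at h
    rw [e2p] at hl
    refine ⟨-2 * (x4 : O) ^ 2, ?_⟩
    apply mul_left_cancel₀ hq0
    linear_combination -h - hl
  have t1 := congrArg (fun P => P.eval 1) hfin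
  have t2 := congrArg (fun P => P.eval (-1)) hfin
  have ev : ∀ x : O, (W1.map S.red).eval (S.red x) = S.red (W1.eval x) := fun x => by
    rw [eval_map, eval₂_at_apply]
  have ev1 := ev 1
  have ev2 := ev (-1)
  rw [map_one, v1, map_zero] at ev1
  obtain ⟨c, hc⟩ := v2
  rw [map_neg, map_one, hc, map_mul, hrq, zero_mul] at ev2
  simp only [eval_add, eval_mul, eval_C, eval_pow, eval_X, one_pow] at t1 t2
  rw [ev1, hAk, Pn_eval_sq hvk2 _ one1] at t1
  rw [ev2, hAk, Pn_eval_sq hvk2 _ mone, podd.neg_one_pow] at t2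
  set c0 := (W1.map S.red).coeff 0 / (Pn vk D).coeff 0
  set c1 := (W1.map S.red).coeff p / (Pn vk D).coeff 0
  have z0 : c0 = 0 := by
    have : 2 * c0 = 0 := by linear_combination -t1 - t2
    exact (mul_eq_zero.mp this).resolve_left h2k
  have z1 : c1 = 0 := by
    have : 2 * c1 = 0 := by linear_combination -t1 + t2
    exact (mul_eq_zero.mp this).resolve_left h2k
  have hz : W1.map S.red = 0 := by
    rw [hfin]
    show C c0 * Ak + C c1 * (X ^ p * Ak) = 0
    rw [z0, z1, C_0]; ring
  obtain ⟨Q, hQ⟩ := S.dvd_of_map hz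
  refine ⟨Q, ?_⟩
  rw [hW, hQ]
  ring

end Pool.Agent.H39
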